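import Pool.Agent.MP_9207e0_ag.cc.Spec

/-! PROJECT CCC, row CNT: the embeddings above a place are counted by the order of the zero. -/

noncomputable section

namespace Pool.Agent.MP_9207e0_ag.CC

open scoped Classical
open IsDedekindDomain IsDedekindDomain.HeightOneSpectrum IsLocalRing

namespace Cnt

theorem nu_comap {F L : Type} [Field F] [Field L] (W : ValuationSubring L) (f : F →+* L) (x : F) :
    (W.comap f).valuation x < 1 ↔ W.valuation (f x) < 1 := by
  rw [← ValuationSubring.mem_nonunits_iff, ← ValuationSubring.mem_nonunits_iff,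
    ValuationSubring.mem_nonunits_iff_or, ValuationSubring.mem_nonunits_iff_or,
    ValuationSubring.mem_comap, map_inv₀, map_eq_zero]

theorem val_one {B L : Type} [CommRing B] [Field L] (W : ValuationSubring L) (g : B →+* L)
    (hg : ∀ b, g b ∈ W) {p : Ideal B} (hp : p.IsMaximal) (h : ∀ b ∈ p, W.valuation (g b) < 1)
    {s : B} (hs : s ∉ p) : W.valuation (g s) = 1 := by
  obtain ⟨y, z, hz, e⟩ := hp.exists_inv hs
  refine le_antisymm ((W.valuation_le_one_iff _).2 (hg s)) (not_lt.1 fun h1 => ?_)
  have h2 : W.valuation (g (y * s)) < 1 := by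
    rw [map_mul, map_mul]
    exact mul_lt_one_of_nonneg_of_lt_one_right ((W.valuation_le_one_iff _).2 (hg y)) zero_le h1
  have := W.valuation.map_add_lt h2 (h z hz)
  rw [← map_add, e, map_one, map_one] at this
  exact lt_irrefl _ this

theorem span_lt {B L : Type} [CommRing B] [Field L] (W : ValuationSubring L) (g : B →+* L)
    (hg : ∀ b, g b ∈ W) {c : B} (h : W.valuation (g c) < 1) :
    ∀ b ∈ Ideal.span {c}, W.valuation (g b) < 1 := by
  intro b hb
  obtain ⟨y, rfl⟩ := Ideal.mem_span_singleton'.1 hb
  rw [map_mul, map_mul]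
  exact mul_lt_one_of_nonneg_of_lt_one_right ((W.valuation_le_one_iff _).2 (hg y)) zero_le h

section Ded

variable {B F : Type} [CommRing B] [IsDedekindDomain B] [Field F] [Algebra B F] [IsFractionRing B F]

theorem eq_atPrime (p : HeightOneSpectrum B) (V : ValuationSubring F)
    (hV : ∀ b, algebraMap B F b ∈ V) (h : ∀ b ∈ p.asIdeal, V.valuation (algebraMap B F b) < 1) :
    valuationSubringAtPrime F p = V := by
  refine ValuationSubring.eq_of_le_of_ne_top _ ?_ ?_
  · rintro x ⟨a, s, hs, rfl⟩
    have h1 := val_one V (algebraMap B F) hV p.isMaximal h (s := s) hs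
    have h2 : (algebraMap B F s)⁻¹ ∈ V := by
      rw [← V.valuation_le_one_iff, map_inv₀, h1, inv_one]
    exact V.mul_mem _ _ (hV a) h2
  · rintro rfl
    obtain ⟨b, hb, h0⟩ := Submodule.exists_mem_ne_zero_of_ne_bot p.ne_bot
    have := (ValuationSubring.mem_nonunits_iff_or _).1
      ((ValuationSubring.mem_nonunits_iff _).2 (h b hb))
    exact this.elim (fun e => h0 ((map_eq_zero_iff _ (IsFractionRing.injective B F)).1 e))
      fun e => e (ValuationSubring.mem_top _)

theorem max_atPrime (p : HeightOneSpectrum B) {b : B} (hb : p.asIdeal = Ideal.span {b}) :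
    maximalIdeal (valuationSubringAtPrime F p) = Ideal.span {algebraMap B _ b} := by
  rw [← IsLocalization.AtPrime.map_eq_maximalIdeal p.asIdeal (valuationSubringAtPrime F p), hb,
    Ideal.map_span, Set.image_singleton]

theorem ord_atPrime (p : HeightOneSpectrum B) {b u : B} (hb : p.asIdeal = Ideal.span {b})
    (hu : u ∉ p.asIdeal) (e : ℕ) :
    zeroOrd (valuationSubringAtPrime F p) (algebraMap B F (b ^ e * u)) = e := by
  have hm : algebraMap B F (b ^ e * u) ∈ valuationSubringAtPrime F p :=
    (algebraMap B (valuationSubringAtPrime F p) (b ^ e * u)).2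
  have h1 : (⟨_, hm⟩ : valuationSubringAtPrime F p) =
      algebraMap B (valuationSubringAtPrime F p) (b ^ e * u) := rfl
  have h2 : IsUnit (algebraMap B (valuationSubringAtPrime F p) u) :=
    IsLocalization.map_units _ (⟨u, hu⟩ : p.asIdeal.primeCompl)
  have h0 : algebraMap B (valuationSubringAtPrime F p) b ≠ 0 := fun h => by
    have h3 : algebraMap B F b = 0 := congrArg Subtype.val h
    rw [map_eq_zero_iff _ (IsFractionRing.injective B F)] at h3
    exact p.ne_bot (by rw [hb, h3, Ideal.span_singleton_zero])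
  have h3 : Ring.ord _ (algebraMap B (valuationSubringAtPrime F p) b) = 1 := by
    rw [Ring.ord, ← max_atPrime p hb, Module.length_eq_one_iff, isSimpleModule_iff_isCoatom]
    exact Ideal.isMaximal_def.1 inferInstance
  rw [zeroOrd, dif_pos hm, h1, map_mul, map_pow, Ring.ord_mul_of_isUnit_right h2,
    Ring.ord_pow (mem_nonZeroDivisors_of_ne_zero h0), h3]
  simp

end Ded

theorem inertia {K A B : Type} [Field K] [IsAlgClosed K] [CommRing A] [IsLocalRing A] [CommRing B]
    [Algebra A B] [Algebra.IsIntegral A B] (j : K →+* A)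
    (hj : ∀ a, ∃ c, a - j c ∈ maximalIdeal A) (q : Ideal B) [q.IsMaximal]
    [q.LiesOver (maximalIdeal A)] : q.inertiaDeg A = 1 := by
  rw [Ideal.inertiaDeg_eq_of_isMaximal (maximalIdeal A) q]
  let : Field (A ⧸ maximalIdeal A) := Ideal.Quotient.field _
  have hb : Function.Bijective ((Ideal.Quotient.mk (maximalIdeal A)).comp j) := by
    refine ⟨RingHom.injective _, fun x => ?_⟩
    obtain ⟨a, rfl⟩ := Ideal.Quotient.mk_surjective x
    obtain ⟨c, hc⟩ := hj a
    exact ⟨c, (Ideal.Quotient.eq.2 hc).symm⟩
  have : IsAlgClosed (A ⧸ maximalIdeal A) :=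
    IsAlgClosed.of_ringEquiv K _ (RingEquiv.ofBijective _ hb)
  exact Algebra.finrank_eq_one_iff_bijective_algebraMap.2
    IsAlgClosed.algebraMap_bijective_of_isIntegral

theorem core {K A E B F L : Type} [Field K] [IsAlgClosed K] [CommRing A] [IsDedekindDomain A]
    [IsLocalRing A] [CharZero A] [Field E] [Algebra A E] [IsFractionRing A E] [Field F]
    [Algebra E F] [Algebra A F] [IsScalarTower A E F] [FiniteDimensional E F] [CommRing B]
    [IsDomain B] [Algebra A B] [Algebra B F] [IsScalarTower A B F] [IsIntegralClosure B A F]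
    [Field L] [IsAlgClosed L] [Algebra E L] (j : K →+* A)
    (hj : ∀ a, ∃ c, a - j c ∈ maximalIdeal A) {π : A} (h0 : π ≠ 0)
    (hπ : maximalIdeal A = Ideal.span {π}) (W : ValuationSubring L)
    (hW : ∀ a : A, algebraMap E L (algebraMap A E a) ∈ W)
    (hπW : W.valuation (algebraMap E L (algebraMap A E π)) < 1) (V : ValuationSubring F)
    (hV : ∀ a : A, algebraMap A F a ∈ V) (hπV : V.valuation (algebraMap A F π) < 1) :
    {f : F →ₐ[E] L | W.comap (f : F →+* L) = V}.ncard = zeroOrd V (algebraMap A F π) := by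
  have : CharZero E := IsFractionRing.charZero_of_isFractionRing A
  have : IsDedekindDomain B := IsIntegralClosure.isDedekindDomain A E F B
  have : Module.Finite A B := IsIntegralClosure.finite A E F B
  have : IsFractionRing B F := IsIntegralClosure.isFractionRing_of_finite_extension A E F B
  have inj : Function.Injective (algebraMap A F) := by
    rw [IsScalarTower.algebraMap_eq A E F]
    exact (algebraMap E F).injective.comp (IsFractionRing.injective A E)
  have : FaithfulSMul A B := (faithfulSMul_iff_algebraMap_injective A B).2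
    (Function.Injective.of_comp (f := algebraMap B F) (by
      rw [← RingHom.coe_comp, ← IsScalarTower.algebraMap_eq]; exact inj))
  have hl : ∀ q : Ideal B, q.IsMaximal → q.LiesOver (maximalIdeal A) := fun q hq =>
    ⟨(eq_maximalIdeal (Ideal.isMaximal_comap_of_isIntegral_of_isMaximal q)).symm⟩
  have : IsPrincipalIdealRing B := IsPrincipalIdealRing.of_finite_maximals
    ((IsDedekindDomain.primesOver_finite (maximalIdeal A) B).subset fun q hq => ⟨hq.isPrime, hl q hq⟩)
  have sub : ∀ U : ValuationSubring F, (∀ a : A, algebraMap A F a ∈ U) →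
      ∀ b : B, algebraMap B F b ∈ U := fun U hU b => by
    let : Algebra A U := ((algebraMap A F).codRestrict U.toSubring hU).toAlgebra
    have : IsScalarTower A U F := IsScalarTower.of_algebraMap_eq fun _ => rfl
    have h1 : IsIntegral A (algebraMap B F b) := IsIntegralClosure.isIntegral_iff.2 ⟨b, rfl⟩
    obtain ⟨y, hy⟩ := IsIntegrallyClosed.isIntegral_iff.1 (h1.tower_top (A := U))
    exact hy ▸ y.2
  have hπB : algebraMap B F (algebraMap A B π) = algebraMap A F π :=
    (IsScalarTower.algebraMap_apply A B F π).symm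
  have h0B : algebraMap A B π ≠ 0 :=
    (map_ne_zero_iff _ (FaithfulSMul.algebraMap_injective A B)).2 h0
  let g : B →+* V := (algebraMap B F).codRestrict V.toSubring (sub V hV)
  have hg : ∀ b, b ∈ (maximalIdeal V).comap g ↔ V.valuation (algebraMap B F b) < 1 := fun b =>
    V.valuation_lt_one_iff (g b)
  let p : HeightOneSpectrum B := ⟨(maximalIdeal V).comap g, inferInstance, fun h => h0B (by
    rw [← Ideal.mem_bot, ← h, hg, hπB]; exact hπV)⟩
  have hpV : valuationSubringAtPrime F p = V := eq_atPrime p V (sub V hV) fun b hb => (hg b).1 hb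
  obtain ⟨b, hb⟩ : ∃ b, p.asIdeal = Ideal.span {b} :=
    ⟨_, (Ideal.span_singleton_generator p.asIdeal).symm⟩
  have hbu : ¬IsUnit b := fun h => p.isMaximal.ne_top (by rw [hb, Ideal.span_singleton_eq_top.2 h])
  obtain ⟨e, u, hu, he⟩ := WfDvdMonoid.max_power_factor' h0B hbu
  rw [← Ideal.mem_span_singleton, ← hb] at hu
  have hz : zeroOrd V (algebraMap A F π) = e := by
    rw [← hπB, he, ← hpV]; exact ord_atPrime p hb hu e
  have := p.isMaximal
  have := hl _ this
  have hN := Ideal.relNorm_eq_pow_of_isMaximal p.asIdeal (maximalIdeal A)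
  rw [inertia j hj, pow_one, hb, Ideal.relNorm_singleton, hπ,
    Ideal.span_singleton_eq_span_singleton] at hN
  obtain ⟨c, hc⟩ := hN
  set w := W.valuation (algebraMap E L (algebraMap A E π)) with hw
  have hc1 : W.valuation (algebraMap E L (algebraMap A E c)) = 1 :=
    val_one W ((algebraMap E L).comp (algebraMap A E)) hW (maximalIdeal.isMaximal A)
      (hπ ▸ span_lt W _ hW hπW) fun h => h c.isUnit
  have hN : ∏ f : F →ₐ[E] L, W.valuation (f (algebraMap B F b)) = w := by
    rw [← map_prod, ← Algebra.norm_eq_prod_embeddings, ← Algebra.algebraMap_intNorm (A := A), hw,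
      ← hc, map_mul, map_mul, map_mul, hc1, mul_one]
  have hf : ∀ f : F →ₐ[E] L, W.valuation (f (algebraMap B F b)) ^ e =
      if W.comap (f : F →+* L) = V then w else 1 := fun f => by
    have h1 : ∀ a : A, f (algebraMap A F a) = algebraMap E L (algebraMap A E a) := fun a => by
      rw [IsScalarTower.algebraMap_apply A E F, f.commutes]
    have h2 := sub (W.comap (f : F →+* L)) fun a => (h1 a ▸ hW a : f (algebraMap A F a) ∈ W)
    split_ifs with h
    · have h3 : W.valuation (f (algebraMap B F u)) = 1 :=
        val_one W ((f : F →+* L).comp (algebraMap B F)) h2 p.isMaximal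
          (fun y hy => (nu_comap W (f : F →+* L) _).1 (h ▸ (hg y).1 hy)) hu
      rw [hw, ← h1, ← hπB, he, map_mul, map_mul, map_mul, h3, mul_one, map_pow, map_pow, map_pow]
    · have h3 : ¬W.valuation (f (algebraMap B F b)) < 1 := fun h4 => h (by
        rw [← hpV]
        exact (eq_atPrime p _ h2 (hb ▸ span_lt _ _ h2 ((nu_comap W (f : F →+* L) _).2 h4))).symm)
      rw [← (le_antisymm (not_lt.1 h3) ((W.valuation_le_one_iff _).2 (h2 b))), one_pow]
  have hw0 : 0 < w := by
    rw [hw, zero_lt_iff, ne_eq, map_eq_zero, map_eq_zero,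
      map_eq_zero_iff _ (IsFractionRing.injective A E)]
    exact h0
  rw [hz, ← (pow_right_strictAnti₀ hw0 hπW).injective.eq_iff, Set.ncard_eq_toFinset_card',
    Set.toFinset_ofPred, ← Finset.prod_const, Finset.prod_filter, ← Finset.prod_congr rfl
    fun f _ => hf f, Finset.prod_pow, hN]

section Rat

variable {K F L : Type} [Field K] [Field F] [Field L] [Algebra K F] [Algebra K L]

/-- The embedding of the rational function field that sends `X` to `y`. -/
def emb (y : F) (hy : Transcendental K y) : RatFunc K →ₐ[K] F :=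
  (IntermediateField.adjoin K {y}).val.comp (RatFunc.algEquivOfTranscendental y hy : _ →ₐ[K] _)

theorem emb_X (y : F) (hy : Transcendental K y) : emb y hy RatFunc.X = y :=
  RatFunc.algEquivOfTranscendental_X y hy

theorem emb_fin (y : F) (hy : Transcendental K y)
    [FiniteDimensional (IntermediateField.adjoin K {y}) F] : (emb y hy).toRingHom.Finite := by
  let := (emb y hy).toRingHom.toAlgebra
  exact Module.Finite.of_equiv_equiv (RatFunc.algEquivOfTranscendental y hy).symm.toRingEquiv
    (RingEquiv.refl F) (RingHom.ext fun x =>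
      congrArg Subtype.val ((RatFunc.algEquivOfTranscendental y hy).apply_symm_apply x))

theorem emb_fin' (hF : IsCurveFieldOver K F) (y : F) (hy : Transcendental K y) :
    (emb y hy).toRingHom.Finite := by
  obtain ⟨u, hu, hf⟩ := hF
  have : FiniteDimensional (IntermediateField.adjoin K {y}) F := by
    let := (emb u hu).toRingHom.toAlgebra
    have : IsScalarTower K (RatFunc K) F :=
      IsScalarTower.of_algebraMap_eq fun c => ((emb u hu).commutes c).symm
    have : FunctionField K F := emb_fin u hu
    exact FunctionField.finiteDimensional_of_adjoin_transcendental hy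
  exact emb_fin y hy

theorem comap_eq (f : RatFunc K →ₐ[K] F) (V : ValuationSubring F)
    (hV : ∀ c, algebraMap K F c ∈ V) (hX : V.valuation (f RatFunc.X) < 1) :
    valuationSubringAtPrime (RatFunc K) (Polynomial.idealX K) = V.comap (f : RatFunc K →+* F) := by
  have h1 : ∀ p : Polynomial K, algebraMap _ (RatFunc K) p ∈ V.comap (f : RatFunc K →+* F) := by
    intro p
    induction p using Polynomial.induction_on' with
    | add p q hp hq => rw [map_add]; exact add_mem hp hq
    | monomial n c =>
      rw [← Polynomial.C_mul_X_pow_eq_monomial, map_mul, map_pow, RatFunc.algebraMap_X]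
      exact mul_mem (show f (algebraMap K _ c) ∈ V from f.commutes c ▸ hV c)
        (pow_mem (show RatFunc.X ∈ V.comap (f : RatFunc K →+* F) from
          (V.valuation_le_one_iff _).1 hX.le) n)
  exact eq_atPrime _ _ h1 (span_lt _ _ h1 ((nu_comap V (f : RatFunc K →+* F) _).2 hX))

variable [Algebra (RatFunc K) F] [IsScalarTower K (RatFunc K) F] [Algebra (RatFunc K) L]
  [IsScalarTower K (RatFunc K) L]

theorem exists_lift (f : F →ₐ[K] L)
    (h : f (algebraMap (RatFunc K) F RatFunc.X) = algebraMap (RatFunc K) L RatFunc.X) :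
    ∃ g : F →ₐ[RatFunc K] L, g.restrictScalars K = f := by
  have h1 : (f : F →+* L).comp (algebraMap (RatFunc K) F) = algebraMap (RatFunc K) L := by
    refine IsLocalization.ringHom_ext (nonZeroDivisors (Polynomial K))
      (Polynomial.ringHom_ext (fun c => ?_) h)
    exact (congrArg f (IsScalarTower.algebraMap_apply K (RatFunc K) F c).symm).trans
      ((f.commutes c).trans (IsScalarTower.algebraMap_apply K (RatFunc K) L c))
  exact ⟨⟨f, RingHom.congr_fun h1⟩, rfl⟩

theorem mid [IsAlgClosed K] [CharZero K] [IsAlgClosed L] [FiniteDimensional (RatFunc K) F]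
    (P : Plc L K) (hP : P.Over K) (ht : P.V.valuation (algebraMap (RatFunc K) L RatFunc.X) < 1)
    (V : ValuationSubring F) (hV : ∀ c, algebraMap K F c ∈ V)
    (hh : V.valuation (algebraMap (RatFunc K) F RatFunc.X) < 1) :
    {f : F →ₐ[RatFunc K] L | P.V.comap (f : F →+* L) = V}.ncard =
      zeroOrd V (algebraMap (RatFunc K) F RatFunc.X) := by
  let A := valuationSubringAtPrime (RatFunc K) (Polynomial.idealX K)
  have h1 := comap_eq (IsScalarTower.toAlgHom K (RatFunc K) L) P.V (fun c => (hP c).1) ht
  have h2 := comap_eq (IsScalarTower.toAlgHom K (RatFunc K) F) V hV hh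
  have hW : ∀ a : A, algebraMap (RatFunc K) L a ∈ P.V := fun a => (h1.le a.2 :)
  let j : K →+* A := (algebraMap (Polynomial K) A).comp Polynomial.C
  have hj : ∀ c, algebraMap (RatFunc K) L (j c) = algebraMap K L c := fun c =>
    (IsScalarTower.algebraMap_apply K (RatFunc K) L c).symm
  refine core (A := A) (E := RatFunc K) (B := integralClosure A F) j (fun a => ?_)
    (π := algebraMap (Polynomial K) A Polynomial.X)
    (fun h => RatFunc.X_ne_zero (congrArg Subtype.val h)) (max_atPrime _ rfl) P.V hW ht V
    (fun a => (h2.le a.2 :)) hh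
  refine ⟨P.fn (algebraMap (RatFunc K) L a), ?_⟩
  rw [ValuationSubring.valuation_lt_one_iff]
  have h3 : P.V.valuation (algebraMap (RatFunc K) L
      (a - j (P.fn (algebraMap (RatFunc K) L a)) : A)) < 1 := by
    rw [← P.fn_eq_zero (hW _), AddSubgroupClass.coe_sub, map_sub, hj, P.fn_sub (hW a) (hP _).1,
      (hP _).2, Algebra.algebraMap_self_apply, sub_self]
  have h4 := (nu_comap P.V (IsScalarTower.toAlgHom K (RatFunc K) L : RatFunc K →+* L) _).2 h3
  rwa [← h1] at h4

end Rat

end Cnt

open Cnt in
theorem cntS : CntStmt := by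
  intro K F L _ _ _ _ _ _ _ _ h t P hF hh ht hP htV ht0
  let := (emb h hh).toRingHom.toAlgebra
  let := (emb t ht).toRingHom.toAlgebra
  have : IsScalarTower K (RatFunc K) F :=
    IsScalarTower.of_algebraMap_eq fun c => ((emb h hh).commutes c).symm
  have : IsScalarTower K (RatFunc K) L :=
    IsScalarTower.of_algebraMap_eq fun c => ((emb t ht).commutes c).symm
  have : FiniteDimensional (RatFunc K) F := emb_fin' hF h hh
  have eh : algebraMap (RatFunc K) F RatFunc.X = h := emb_X h hh
  have et : algebraMap (RatFunc K) L RatFunc.X = t := emb_X t ht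
  have hv := (P.fn_eq_zero htV).1 ht0
  have h0 : h ≠ 0 := fun e => hh (e ▸ isAlgebraic_zero)
  have key : ∀ Q : (F →+* L) → Prop, {f : F →ₐ[K] L | f h = t ∧ Q f} =
      AlgHom.restrictScalars K '' {f : F →ₐ[RatFunc K] L | Q f} := fun Q => by
    ext f
    constructor
    · rintro ⟨h1, h2⟩
      obtain ⟨g, rfl⟩ := exists_lift f (by rw [eh, et, h1])
      exact ⟨g, h2, rfl⟩
    · rintro ⟨g, hg, rfl⟩
      exact ⟨by rw [← eh, ← et]; exact g.commutes _, hg⟩
  have hlt : ∀ f : F →ₐ[K] L, f h = t → (P.V.comap (f : F →+* L)).valuation h < 1 :=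
    fun f hf => (nu_comap P.V (f : F →+* L) h).2 (hf.symm ▸ hv : P.V.valuation (f h) < 1)
  refine ⟨?_, fun f hf => ⟨fun e => ?_, fun c => ?_⟩, fun V hV => ?_⟩
  · have h1 := key fun _ => True
    simp only [and_true] at h1
    rw [h1]
    exact (Set.toFinite _).image _
  · exact ((ValuationSubring.mem_nonunits_iff_or _).1
      ((ValuationSubring.mem_nonunits_iff _).2 (hlt f hf))).elim h0
        fun e' => e' (e ▸ ValuationSubring.mem_top _)
  · exact (f.commutes c ▸ (hP c).1 : f (algebraMap K F c) ∈ P.V)
  · by_cases hl : V.valuation h < 1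
    · rw [key fun f => P.V.comap f = V,
        Set.ncard_image_of_injective _ (AlgHom.restrictScalars_injective K), ← eh]
      exact mid P hP (et ▸ hv) V hV.2 (eh ▸ hl)
    · have h1 : {f : F →ₐ[K] L | f h = t ∧ P.V.comap (f : F →+* L) = V} = ∅ :=
        Set.eq_empty_of_forall_notMem fun f hf => hl (hf.2 ▸ hlt f hf.1)
      rw [h1, Set.ncard_empty, zeroOrd]
      split_ifs with hm
      · rw [Ring.ord_of_isUnit ((V.valuation_eq_one_iff ⟨h, hm⟩).2
          (le_antisymm ((V.valuation_le_one_iff h).2 hm) (not_lt.1 hl)))]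
        rfl
      · rfl

end Pool.Agent.MP_9207e0_ag.CC
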