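import Pool.Agent.MP_9207e0_ag.cc.Spec

/-! PROJECT CCC: the Chow form determines the cycle and commutes with reduction. -/

noncomputable section

namespace Pool.Agent.MP_9207e0_ag.CC

open MvPolynomial
open scoped Classical

section Aux

variable {K L σ : Type} [Field K] [Field L] [Fintype σ]

theorem chu_eval_lin (v z : σ → K) : eval z (lin v) = ∑ j, v j * z j := by
  simp [lin]

theorem chu_lin_ne {v : σ → K} (h : v ≠ 0) : lin v ≠ 0 := by
  obtain ⟨a, ha⟩ := Function.ne_iff.1 h
  intro h0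
  have := chu_eval_lin v (Pi.single a 1)
  rw [h0, map_zero, Finset.sum_eq_single a (fun b _ hb => by simp [hb]) (by simp)] at this
  exact ha (by simpa using this.symm)

theorem chu_lin_homog (v : σ → K) : (lin v).IsHomogeneous 1 :=
  IsHomogeneous.sum _ _ _ fun j _ => (isHomogeneous_X K j).C_mul _

theorem chu_lin_prime {v : σ → K} (h : v ≠ 0) : Prime (lin v) := by
  refine Irreducible.prime (irreducible_of_totalDegree_eq_one
    ((chu_lin_homog v).totalDegree (chu_lin_ne h)) fun r hr => ?_)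
  refine IsUnit.mk0 r fun h0 => chu_lin_ne h ?_
  ext d
  obtain ⟨c, hc⟩ := hr d
  rw [hc, h0, zero_mul, coeff_zero]

theorem chu_lin_smul (c : K) (v : σ → K) : lin (c • v) = C c * lin v := by
  simp [lin, Finset.mul_sum, mul_assoc]

theorem chu_eq_of_dvd {x y : PP σ K} (h : lin x.rep ∣ lin y.rep) : x = y := by
  obtain ⟨a, ha⟩ := Function.ne_iff.1 x.rep_nonzero
  have ha : x.rep a ≠ 0 := ha
  have key : ∀ b, y.rep b * x.rep a = y.rep a * x.rep b := by
    intro b
    obtain ⟨g, hg⟩ := h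
    have h1 : ∀ w : σ → K, eval (Pi.single b (x.rep a) - Pi.single a (x.rep b) : σ → K) (lin w) =
        w b * x.rep a - w a * x.rep b := by
      intro w
      rw [chu_eval_lin]
      simp [mul_sub, Finset.sum_sub_distrib, Pi.single_apply]
    have h2 := h1 y.rep
    rw [hg, map_mul, h1, mul_comm (x.rep b), sub_self, zero_mul] at h2
    exact sub_eq_zero.1 h2.symm
  have hy : y.rep a ≠ 0 := fun h0 => y.rep_nonzero (funext fun b => by
    have := key b
    rw [h0, zero_mul] at this
    exact (mul_eq_zero.1 this).resolve_right ha)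
  refine pp_ext ha hy fun b => ?_
  rw [div_eq_div_iff ha hy, key b, mul_comm]

theorem chu_chow_cons (x : PP σ K) (A : Multiset (PP σ K)) :
    chow (x ::ₘ A) = lin x.rep * chow A := by
  rw [chow, Multiset.map_cons, Multiset.prod_cons, chow]

theorem chu_chow_zero : chow (0 : Multiset (PP σ K)) = 1 := by
  rw [chow, Multiset.map_zero, Multiset.prod_zero]

theorem chu_chow_ne (A : Multiset (PP σ K)) : chow A ≠ 0 := by
  induction A using Multiset.induction_on with
  | empty => rw [chu_chow_zero]; exact one_ne_zero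
  | cons x A ih => rw [chu_chow_cons]; exact mul_ne_zero (chu_lin_ne x.rep_nonzero) ih

theorem chu_not_dvd (x : PP σ K) {c : K} (hc : c ≠ 0) : ¬ lin x.rep ∣ C c := fun h =>
  (chu_lin_prime x.rep_nonzero).not_isUnit
    (isUnit_of_dvd_unit h ((IsUnit.mk0 c hc).map (C : K →+* MvPolynomial σ K)))

theorem chu_lift (P : Plc K L) (A : Multiset (PP σ K)) :
    ∃ (c₁ : K) (G : MvPolynomial σ P.V) (c₂ : L), c₂ ≠ 0 ∧
      chow A = C c₁ * map P.V.subtype G ∧ map P.φ G = C c₂ * chow (A.map P.red) := by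
  induction A using Multiset.induction_on with
  | empty =>
    exact ⟨1, 1, 1, one_ne_zero, by simp [chu_chow_zero], by simp [chu_chow_zero]⟩
  | cons x A ih =>
    obtain ⟨c₁, G, c₂, h2, e1, e2⟩ := ih
    obtain ⟨v, h0, h1, hv, rfl, e⟩ := P.exists_prim x
    obtain ⟨a, ha⟩ := Projectivization.exists_smul_eq_mk_rep K v h0
    obtain ⟨a', ha'⟩ := Projectivization.exists_smul_eq_mk_rep L _ h1
    have l1 : map P.V.subtype (∑ j, C (⟨v j, hv j⟩ : P.V) * X j) = lin v := by
      simp [lin]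
    have l2 : map P.φ (∑ j, C (⟨v j, hv j⟩ : P.V) * X j) = lin fun b => P.fn (v b) := by
      simp [lin, P.fn_mem (hv _)]
    refine ⟨a * c₁, (∑ j, C (⟨v j, hv j⟩ : P.V) * X j) * G, (a' : L)⁻¹ * c₂,
      mul_ne_zero (inv_ne_zero a'.ne_zero) h2, ?_, ?_⟩
    · rw [chu_chow_cons, ← ha, Units.smul_def, chu_lin_smul, e1, map_mul (map P.V.subtype), l1,
        C_mul]
      ring
    · rw [Multiset.map_cons, chu_chow_cons, e, ← ha', Units.smul_def, chu_lin_smul,
        map_mul (map P.φ), l2, e2, C_mul]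
      have h3 : (C (a' : L)⁻¹ : MvPolynomial σ L) * C (a' : L) = 1 := by
        rw [← C_mul, inv_mul_cancel₀ a'.ne_zero, C_1]
      linear_combination (-(C c₂ * lin (fun b => P.fn (v b)) * chow (A.map P.red))) * h3

end Aux

theorem chuS : ChuStmt := by
  intro K σ _ _ A
  induction A using Multiset.induction_on with
  | empty =>
    intro B c c' hc h
    by_contra hB
    obtain ⟨y, hy⟩ := Multiset.exists_mem_of_ne_zero (Ne.symm hB)
    obtain ⟨B', rfl⟩ := Multiset.exists_cons_of_mem hy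
    rw [chu_chow_zero, mul_one, chu_chow_cons] at h
    exact chu_not_dvd y hc ⟨C c' * chow B', by rw [h]; ring⟩
  | cons x A ih =>
    intro B c c' hc h
    have hp := chu_lin_prime x.rep_nonzero
    have hc' : c' ≠ 0 := by
      rintro rfl
      rw [C_0, zero_mul] at h
      exact mul_ne_zero (C_ne_zero.2 hc) (chu_chow_ne _) h
    have h1 : lin x.rep ∣ C c' * chow B := ⟨C c * chow A, by rw [← h, chu_chow_cons]; ring⟩
    have h2 : lin x.rep ∣ chow B := (hp.dvd_or_dvd h1).resolve_left (chu_not_dvd x hc')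
    obtain ⟨f, hf, h3⟩ := hp.exists_mem_multiset_dvd h2
    obtain ⟨y, hy, rfl⟩ := Multiset.mem_map.1 hf
    obtain rfl := chu_eq_of_dvd h3
    obtain ⟨B', rfl⟩ := Multiset.exists_cons_of_mem hy
    rw [chu_chow_cons, chu_chow_cons, mul_left_comm, mul_left_comm (C c')] at h
    rw [ih B' c c' hc (mul_left_cancel₀ hp.ne_zero h)]

theorem transferS : TransferStmt := by
  intro K L σ _ _ _ P A c F hR hF
  obtain ⟨c₁, G, c₂, h2, e1, e2⟩ := chu_lift P A
  have hco : ∀ d, coeff d (C c * chow A) = c * c₁ * (coeff d G : P.V) := by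
    intro d
    rw [e1, ← mul_assoc, ← C_mul, coeff_C_mul, coeff_map]
    rfl
  have hG : map P.φ G ≠ 0 := by
    rw [e2]
    exact mul_ne_zero (C_ne_zero.2 h2) (chu_chow_ne _)
  obtain ⟨d₀, hd₀⟩ := ne_zero_iff.1 hG
  rw [coeff_map, ← P.fn_coe] at hd₀
  have he : c * c₁ ∈ P.V := by
    have h3 := P.div_mem (hR d₀).1 hd₀
    rwa [hco, mul_div_cancel_right₀ _ (P.ne_zero_of_ne hd₀)] at h3
  have hFe : F = C (P.fn (c * c₁) * c₂) * chow (A.map P.red) := by
    rw [C_mul, mul_assoc, ← e2]
    ext d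
    rw [← (hR d).2, hco, P.fn_mul he (coeff d G).2, coeff_C_mul, coeff_map, P.fn_coe]
  refine ⟨_, fun h0 => hF ?_, hFe⟩
  rw [hFe, h0, C_0, zero_mul]

end Pool.Agent.MP_9207e0_ag.CC
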