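import Pool.Agent.MP_9207e0_ag.cc.Spec

/-! PROJECT CCC: centres of places, and divisors of functions as differences of fibres. -/

noncomputable section

namespace Pool.Agent.MP_9207e0_ag.CC

open MvPolynomial
open scoped Classical IntermediateField

namespace Div

variable {K F L σ : Type} [Field K] [Field F] [Field L] [Algebra K F] [Algebra K L]

theorem mem_of_isIntegral {A : Type} [CommRing A] [Algebra A F] (O : ValuationSubring F)
    (hA : ∀ a : A, algebraMap A F a ∈ O) {x : F} (hx : IsIntegral A x) : x ∈ O := by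
  obtain ⟨p, hp, hpx⟩ := hx
  let φ : A →+* O := (algebraMap A F).codRestrict O.toSubring hA
  have : IsIntegral O x := ⟨p.map φ, hp.map _, by rw [Polynomial.eval₂_map]; exact hpx⟩
  obtain ⟨y, rfl⟩ := IsIntegrallyClosed.algebraMap_eq_of_integral this
  exact y.2

open scoped IntermediateField.algebraAdjoinAdjoin in
theorem trdeg_one (hF : IsCurveFieldOver K F) : Algebra.trdeg K F = 1 := by
  obtain ⟨t, ht, hfin⟩ := hF
  have h1 := trdeg_add_eq K (Algebra.adjoin K {t}) (A := K⟮t⟯)
  rw [trdeg_eq_zero (R := Algebra.adjoin K {t}), add_zero,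
    ← (Polynomial.algEquivOfTranscendental K t ht).trdeg_eq] at h1
  have h2 := trdeg_add_eq K K⟮t⟯ (A := F)
  rw [trdeg_eq_zero (R := K⟮t⟯), add_zero, ← h1] at h2
  rw [← h2]
  simp

theorem val_le {W : ValuationSubring F} (hW : IsPlaceOver K W) (c : K) :
    W.valuation (algebraMap K F c) ≤ 1 := (W.valuation_le_one_iff _).2 (hW.2 c)

theorem val_eq {W : ValuationSubring F} (hW : IsPlaceOver K W) {c : K} (hc : c ≠ 0) :
    W.valuation (algebraMap K F c) = 1 := by
  refine le_antisymm (val_le hW c) ?_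
  have h := val_le hW c⁻¹
  have h0 : W.valuation (algebraMap K F c) ≠ 0 := by simpa using hc
  rwa [map_inv₀, map_inv₀, inv_le_one₀ (zero_lt_iff.2 h0)] at h

theorem exists_res [IsAlgClosed K] (hF : IsCurveFieldOver K F) {W : ValuationSubring F}
    (hW : IsPlaceOver K W) {g : F} (hg : g ∈ W) :
    ∃ c : K, W.valuation (g - algebraMap K F c) < 1 := by
  by_contra hc
  have hg1 := (W.valuation_le_one_iff g).2 hg
  have h1 : ∀ c : K, W.valuation (g - algebraMap K F c) = 1 := fun c =>
    le_antisymm (W.valuation.map_sub_le hg1 (val_le hW c)) (not_lt.1 fun h => hc ⟨c, h⟩)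
  have h2 : ∀ f : Polynomial K, f ≠ 0 → W.valuation (Polynomial.aeval g f) = 1 := by
    intro f hf
    rw [(IsAlgClosed.splits f).eq_prod_roots, map_mul, Polynomial.aeval_C, map_mul,
      val_eq hW (Polynomial.leadingCoeff_ne_zero.2 hf), one_mul, map_multiset_prod,
      map_multiset_prod, Multiset.map_map, Multiset.map_map]
    refine Multiset.prod_eq_one fun y hy => ?_
    obtain ⟨c, -, rfl⟩ := Multiset.mem_map.1 hy
    simpa using h1 c
  have ht : Transcendental K g := by
    rintro ⟨p, hp, h0⟩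
    have := h2 p hp
    rw [h0, map_zero] at this
    exact zero_ne_one this
  have hb : IsTranscendenceBasis K (fun _ : Unit => g) :=
    (algebraicIndependent_unique_type_iff.2 ht).isTranscendenceBasis_of_trdeg_le_of_finite
      (by rw [trdeg_one hF]; simp)
  have halg := hb.isAlgebraic_field
  rw [Set.range_const] at halg
  apply hW.1
  rw [eq_top_iff]
  intro z _
  refine mem_of_isIntegral (A := K⟮g⟯) W ?_ (halg.isAlgebraic z).isIntegral
  rintro ⟨a, ha⟩
  obtain ⟨r, s, rfl⟩ := (IntermediateField.mem_adjoin_simple_iff K a).1 ha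
  change Polynomial.aeval g r / Polynomial.aeval g s ∈ W
  by_cases hr : r = 0
  · rw [hr, map_zero, zero_div]; exact W.zero_mem
  by_cases hs : s = 0
  · rw [hs, map_zero, div_zero]; exact W.zero_mem
  rw [← W.valuation_le_one_iff, map_div₀, h2 r hr, h2 s hs, div_one]

theorem red_centre [Finite σ] (P : Plc L K) (hP : P.Over K) (f : F →ₐ[K] L) (ξ : PP σ F)
    (x : PP σ K) (h : IsCentre ξ.rep (P.V.comap (f : F →+* L)) x) :
    P.red (pmap (f : F →+* L) ξ) = x := by
  obtain ⟨c, hc⟩ := h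
  have key : ∀ j, f (c * ξ.rep j) ∈ P.V ∧ P.fn (f (c * ξ.rep j)) = x.rep j := by
    intro j
    have h1 : f (c * ξ.rep j - algebraMap K F (x.rep j)) ∈ P.V ∧
        P.fn (f (c * ξ.rep j - algebraMap K F (x.rep j))) = 0 := by
      rcases (ValuationSubring.mem_nonunits_iff_or _).1
        ((ValuationSubring.mem_nonunits_iff _).2 (hc j)) with h0 | h0
      · rw [h0, map_zero]
        exact ⟨P.V.zero_mem, P.fn_zero⟩
      · have h2 : (f (c * ξ.rep j - algebraMap K F (x.rep j)))⁻¹ ∉ P.V := fun h3 =>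
          h0 (by rw [ValuationSubring.mem_comap, map_inv₀]; exact h3)
        simpa only [inv_inv] using P.inv_of_notMem h2
    have e : f (c * ξ.rep j) =
        f (c * ξ.rep j - algebraMap K F (x.rep j)) + algebraMap K L (x.rep j) := by
      rw [map_sub, f.commutes, sub_add_cancel]
    rw [e]
    exact ⟨P.V.add_mem _ _ h1.1 (hP _).1, by
      rw [P.fn_add h1.1 (hP _).1, h1.2, zero_add, (hP _).2]; rfl⟩
  have e1 : (fun j => P.fn (f (c * ξ.rep j))) = x.rep := funext fun j => (key j).2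
  have h1 : (fun j => P.fn (f (c * ξ.rep j))) ≠ 0 := e1 ▸ x.rep_nonzero
  have h0 : (fun j => f (c * ξ.rep j)) ≠ 0 := fun h => h1 (funext fun j => by
    rw [congrFun h j]; exact P.fn_zero)
  have e2 : Projectivization.mk L _ h0 = pmap (f : F →+* L) ξ := by
    unfold pmap
    rw [Projectivization.mk_eq_mk_iff']
    exact ⟨f c, funext fun j => by simp⟩
  rw [← e2, P.red_mk (fun j => (key j).1) h0 h1]
  conv_rhs => rw [← x.mk_rep]
  congr 1

theorem half (hC : CntStmt) [IsAlgClosed K] [CharZero K] [IsAlgClosed L] [Finite σ] (ξ : PP σ F)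
    {h : F} {t : L} (c : ValuationSubring F → PP σ K) (T : Finset (F →ₐ[K] L)) (P : Plc L K)
    (hF : IsCurveFieldOver K F) (hh : Transcendental K h) (ht : Transcendental K t)
    (hc : ∀ V, IsPlaceOver K V → IsCentre ξ.rep V (c V)) (hT : ∀ f, f ∈ T ↔ f h = t)
    (hP : P.Over K) (h1 : t ∈ P.V) (h2 : P.fn t = 0) :
    (∀ f ∈ T, IsPlaceOver K (P.V.comap (f : F →+* L))) ∧
    ∀ U : Finset (ValuationSubring F), (∀ V ∈ U, IsPlaceOver K V) →
      (∀ f ∈ T, P.V.comap (f : F →+* L) ∈ U) →
      (∀ V, IsPlaceOver K V → V ∉ U → zeroOrd V h = 0) ∧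
      ∑ V ∈ U, Finsupp.single (c V) (zeroOrd V h : ℤ) =
        cyc ((T.val.map fun f : F →ₐ[K] L => pmap (f : F →+* L) ξ).map P.red) := by
  obtain ⟨-, a2, a3⟩ := hC K F L h t P hF hh ht hP h1 h2
  have a4 : ∀ V, IsPlaceOver K V →
      zeroOrd V h = (T.filter fun f : F →ₐ[K] L => P.V.comap (f : F →+* L) = V).card := by
    intro V hV
    rw [← a3 V hV, ← Set.ncard_coe_finset]
    congr 1
    ext f
    simp [hT]
  refine ⟨fun f hf => a2 f ((hT f).1 hf), fun U hU hm => ⟨fun V hV hn => ?_, ?_⟩⟩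
  · rw [a4 V hV, Finset.card_eq_zero, Finset.filter_eq_empty_iff]
    exact fun f hf e => hn (e ▸ hm f hf)
  · have e : cyc ((T.val.map fun f : F →ₐ[K] L => pmap (f : F →+* L) ξ).map P.red) =
        ∑ f ∈ T, Finsupp.single (P.red (pmap (f : F →+* L) ξ)) (1 : ℤ) := by
      unfold cyc
      rw [Multiset.map_map, Multiset.map_map]
      rfl
    rw [e, ← Finset.sum_fiberwise_of_maps_to hm]
    refine Finset.sum_congr rfl fun V hV => ?_
    rw [Finset.sum_congr rfl (g := fun _ => Finsupp.single (c V) (1 : ℤ)) fun f hf => by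
      rw [red_centre P hP f ξ (c V) ((Finset.mem_filter.1 hf).2 ▸ hc V (hU V hV))]]
    rw [Finset.sum_const, a4 V (hU V hV), Finsupp.smul_single, nsmul_eq_mul, mul_one]

/-- The multiset in the statement of the row, with the coercion moved inside. -/
theorem map_coe (T : Finset (F →ₐ[K] L)) (ξ : PP σ F) :
    (T.val.map fun f => pmap (f : F →+* L) ξ) =
      T.val.map fun f : F →ₐ[K] L => pmap (f : F →+* L) ξ := by
  simp [Multiset.bind_singleton]

end Div

theorem cenS : CenStmt := by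
  intro K F σ _ _ _ _ _ ξ V hF hV h0
  obtain ⟨a₀, h₀⟩ := Function.ne_iff.1 h0
  have : Nonempty σ := ⟨a₀⟩
  obtain ⟨a, ha⟩ := Finite.exists_max fun b => V.valuation (ξ b)
  have h1 : V.valuation (ξ a) ≠ 0 := fun h => by
    have := ha a₀
    rw [h, le_zero_iff, map_eq_zero] at this
    exact h₀ this
  have h2 : ξ a ≠ 0 := by simpa using h1
  have h3 : ∀ b, ξ b / ξ a ∈ V := fun b => by
    rw [← V.valuation_le_one_iff, map_div₀]
    exact div_le_one_of_le₀ (ha b) zero_le
  choose r hr using fun b => Div.exists_res hF hV (h3 b)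
  have hr0 : r ≠ 0 := fun h => by
    have := hr a
    rw [h, div_self h2] at this
    simp at this
  obtain ⟨u, hu⟩ := Projectivization.exists_smul_eq_mk_rep K r hr0
  refine ⟨Projectivization.mk K r hr0, algebraMap K F u * (ξ a)⁻¹, fun j => ?_⟩
  have e : algebraMap K F u * (ξ a)⁻¹ * ξ j -
      algebraMap K F ((Projectivization.mk K r hr0).rep j) =
      algebraMap K F u * (ξ j / ξ a - algebraMap K F (r j)) := by
    rw [← hu, Pi.smul_apply, Units.smul_def, smul_eq_mul, map_mul]
    ring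
  rw [e, map_mul, Div.val_eq hV u.ne_zero, one_mul]
  exact hr j

theorem divS (hC : CntStmt) : DivStmt := by
  intro K F σ _ _ _ _ _ _ ξ h c T P Q hF hh hc hT hP hQ
  have ht : Transcendental K (tt K) :=
    (transcendental_algebraMap_iff (algebraMap (RatFunc K) (LL K)).injective).2
      RatFunc.transcendental_X
  obtain ⟨p1, p2⟩ := Div.half hC ξ c T P hF hh ht hc hT hP.1 hP.2.1 hP.2.2
  obtain ⟨q1, q2⟩ := Div.half hC ξ (h := h⁻¹) (t := (tt K)⁻¹) c T Q hF
    (fun a => hh (IsAlgebraic.inv_iff.1 a)) (fun a => ht (IsAlgebraic.inv_iff.1 a)) hc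
    (fun f => by rw [hT, map_inv₀, inv_inj]) hQ.1 hQ.2.1 hQ.2.2
  set U : Finset (ValuationSubring F) :=
    T.image (fun f : F →ₐ[K] LL K => P.V.comap (f : F →+* LL K)) ∪
      T.image (fun f : F →ₐ[K] LL K => Q.V.comap (f : F →+* LL K)) with hU
  have u1 : ∀ V ∈ U, IsPlaceOver K V := by
    intro V hV
    rcases Finset.mem_union.1 hV with h1 | h1 <;> obtain ⟨f, hf, rfl⟩ := Finset.mem_image.1 h1
    · exact p1 f hf
    · exact q1 f hf
  obtain ⟨p3, p4⟩ := p2 U u1 fun f hf => Finset.mem_union_left _ (Finset.mem_image_of_mem _ hf)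
  obtain ⟨q3, q4⟩ := q2 U u1 fun f hf => Finset.mem_union_right _ (Finset.mem_image_of_mem _ hf)
  rw [Div.map_coe, ← p4, ← q4, ← Finset.sum_sub_distrib,
    finsum_mem_eq_sum_of_inter_support_eq (t := U)]
  · exact Finset.sum_congr rfl fun V _ => by rw [ordAt, Finsupp.single_sub]
  · ext V
    refine ⟨fun hV => ⟨by_contra fun hn => hV.2 ?_, hV.2⟩, fun hV => ⟨u1 V hV.1, hV.2⟩⟩
    simp [ordAt, p3 V hV.1 hn, q3 V hV.1 hn]

end Pool.Agent.MP_9207e0_ag.CC
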