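import Pool.Agent.MP_9207e0_ag.cc.Rk

/-! PROJECT CCC, row ENDS: the two ends of a family, and the calculus of `RatP`. -/

noncomputable section

namespace Pool.Agent.MP_9207e0_ag.CC

open MvPolynomial
open scoped Classical

variable {k K L σ : Type} [Field k] [Field K] [Field L] [Algebra k K]

theorem ends_lin_ne [Fintype σ] {v : σ → K} (hv : v ≠ 0) : lin v ≠ 0 := fun h => by
  apply hv
  funext j
  have := congrArg (eval (Pi.single j (1 : K))) h
  simpa [lin, Pi.single_apply] using this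

theorem ends_chow_ne [Fintype σ] (A : Multiset (PP σ K)) : chow A ≠ 0 := by
  refine Multiset.prod_ne_zero fun h => ?_
  obtain ⟨x, -, hx⟩ := Multiset.mem_map.1 h
  exact ends_lin_ne x.rep_nonzero hx

theorem ends_chow_add [Fintype σ] (A B : Multiset (PP σ K)) :
    chow (A + B) = chow A * chow B := by
  simp [chow]

theorem ends_rd [Algebra K L] {P : Plc L K} (hP : P.Over K) {u : L} (hu : u ∈ P.V)
    (Φ : Polynomial (MvPolynomial σ K)) :
    Rd P (Φ.eval₂ (map (algebraMap K L)) (C u)) (Φ.eval (C (P.fn u))) := by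
  have h1 : ∀ F : MvPolynomial σ K, Rd P (map (algebraMap K L) F) F := fun F => by
    have := Rd.over hP F
    rwa [Algebra.algebraMap_self, map_id] at this
  induction Φ using Polynomial.induction_on with
  | C a => simpa using h1 a
  | add p q hp hq =>
    rw [Polynomial.eval₂_add, Polynomial.eval_add]
    exact hp.add hq
  | monomial n a h =>
    rw [pow_succ, ← mul_assoc, Polynomial.eval₂_mul, Polynomial.eval_mul, Polynomial.eval₂_X,
      Polynomial.eval_X]
    exact h.mul (Rd.C hu)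

theorem ends_tt_ne : tt K ≠ 0 := by
  unfold tt
  rw [Ne, map_eq_zero]
  exact RatFunc.X_ne_zero

theorem ends_rd_zero {P : Plc (LL K) K} (hP : Zr P (tt K)) (Φ : Polynomial (MvPolynomial σ K)) :
    Rd P (gen Φ) (Φ.coeff 0) := by
  have := ends_rd hP.1 hP.2.1 Φ
  rwa [hP.2.2, C_0, ← Polynomial.coeff_zero_eq_eval_zero] at this

theorem ends_rd_top {P : Plc (LL K) K} (hP : Zr P (tt K)⁻¹) (Φ : Polynomial (MvPolynomial σ K)) :
    Rd P (C ((tt K)⁻¹ ^ Φ.natDegree) * gen Φ) Φ.leadingCoeff := by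
  have h := ends_rd hP.1 hP.2.1 Φ.reverse
  rw [hP.2.2, C_0, ← Polynomial.coeff_zero_eq_eval_zero, Polynomial.coeff_zero_reverse] at h
  have e : (C (tt K)⁻¹ : MvPolynomial σ (LL K)) * C (tt K) = 1 := by
    rw [← C_mul, inv_mul_cancel₀ ends_tt_ne, C_1]
  let _ : Invertible (C (tt K) : MvPolynomial σ (LL K)) :=
    ⟨C (tt K)⁻¹, e, by rw [mul_comm, e]⟩
  have h2 := Polynomial.eval₂_reverse_mul_pow (map (algebraMap K (LL K)))
    (C (tt K) : MvPolynomial σ (LL K)) Φ
  have h3 : C ((tt K)⁻¹ ^ Φ.natDegree) * gen Φ =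
      Φ.reverse.eval₂ (map (algebraMap K (LL K))) (C (tt K)⁻¹) := by
    unfold gen
    rw [← h2, C_pow, mul_left_comm, ← mul_pow, e, one_pow, mul_one]
    rfl
  rwa [h3]

theorem ends_gen_ne {Φ : Polynomial (MvPolynomial σ K)} (h : Φ.coeff 0 ≠ 0) : gen Φ ≠ 0 := by
  intro h0
  let φ : Polynomial K →+* LL K :=
    (algebraMap (RatFunc K) (LL K)).comp (algebraMap (Polynomial K) (RatFunc K))
  have hφ : Function.Injective φ :=
    (algebraMap (RatFunc K) (LL K)).injective.comp (RatFunc.algebraMap_injective K)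
  let Ψ : MvPolynomial σ (Polynomial K) := Φ.eval₂ (map Polynomial.C) (C Polynomial.X)
  have e0 : φ.comp Polynomial.C = algebraMap K (LL K) := by
    ext c
    simp only [φ, RingHom.comp_apply, RatFunc.algebraMap_C]
    rw [IsScalarTower.algebraMap_apply K (RatFunc K) (LL K), RatFunc.algebraMap_eq_C]
  have e1 : map φ Ψ = gen Φ := by
    unfold gen
    rw [Polynomial.hom_eval₂, map_C]
    congr 1
    refine RingHom.ext fun F => ?_
    rw [RingHom.comp_apply, map_map, e0]
  have e2 : Ψ = 0 := map_injective φ hφ (by rw [e1, h0, map_zero])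
  have e3 : map (Polynomial.evalRingHom 0) Ψ = Φ.coeff 0 := by
    rw [Polynomial.hom_eval₂, map_C, Polynomial.coeff_zero_eq_eval_zero, Polynomial.eval]
    congr 1
    · refine RingHom.ext fun F => ?_
      have : (Polynomial.evalRingHom (0 : K)).comp Polynomial.C = RingHom.id K := by
        ext c
        simp
      rw [RingHom.comp_apply, map_map, this, map_id, RingHom.id_apply]
    · simp
  exact h (by rw [← e3, e2, map_zero])

theorem ends_map_gen (τ : LL K ≃ₐ[RatFunc K] LL K) (Φ : Polynomial (MvPolynomial σ K)) :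
    map (τ : LL K →+* LL K) (gen Φ) = gen Φ := by
  have e0 : (τ : LL K →+* LL K).comp (algebraMap K (LL K)) = algebraMap K (LL K) := by
    ext c
    rw [RingHom.comp_apply, IsScalarTower.algebraMap_apply K (RatFunc K) (LL K)]
    exact τ.commutes _
  unfold gen
  rw [Polynomial.hom_eval₂, map_C]
  congr 1
  · refine RingHom.ext fun F => ?_
    rw [RingHom.comp_apply, map_map, e0]
  · exact congrArg C (τ.commutes _)

theorem endsS (hC : ChuStmt) (hT : TransferStmt) : EndsStmt := by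
  intro k K σ _ _ _ _ I A B h
  obtain ⟨-, -, Φ, c₀, c₁, c, M, h₀, h₁, e₀, e₁, hM, e⟩ := h
  have n₀ : Φ.coeff 0 ≠ 0 := by
    rw [e₀]
    exact mul_ne_zero (by simpa using h₀) (ends_chow_ne A)
  have n₁ : Φ.leadingCoeff ≠ 0 := by
    rw [e₁]
    exact mul_ne_zero (by simpa using h₁) (ends_chow_ne B)
  have hg := ends_gen_ne n₀
  have hc : c ≠ 0 := fun h => hg (by rw [e, h, C_0, zero_mul])
  refine ⟨M, hM, fun τ => ?_, fun P hP => ?_, fun P hP => ?_⟩
  · have h2 := Rd.ofHom (τ : LL K →+* LL K) (gen Φ)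
    rw [ends_map_gen] at h2
    nth_rewrite 1 [e] at h2
    obtain ⟨c', -, h3⟩ := hT _ _ σ _ M c _ h2 hg
    have h4 := hC _ σ _ _ c c' hc (e.symm.trans h3)
    exact (Multiset.map_congr rfl fun x _ => (Plc.ofHom_red _ x).symm).trans h4.symm
  · have h2 := ends_rd_zero hP Φ
    rw [e] at h2
    obtain ⟨c', -, h3⟩ := hT _ _ σ _ M c _ h2 n₀
    exact hC _ σ _ _ c₀ c' h₀ (e₀.symm.trans h3)
  · have h2 := ends_rd_top hP Φ
    rw [e, ← mul_assoc, ← C_mul] at h2
    obtain ⟨c', -, h3⟩ := hT _ _ σ _ M _ _ h2 n₁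
    exact hC _ σ _ _ c₁ c' h₁ (e₁.symm.trans h3)

theorem ends_step_add (hT : TransferStmt) [Fintype σ] {I : Ideal (MvPolynomial σ k)} (hI : Hg I)
    {A B D : Multiset (PP σ K)} (hD : OnM I D) (h : Step I A B) : Step I (A + D) (B + D) := by
  obtain ⟨hA, hB, Φ, c₀, c₁, c, M, h₀, h₁, e₀, e₁, hM, e⟩ := h
  have h2 := Rd.ofHom (algebraMap K (LL K)) (C 1 * chow D)
  obtain ⟨c', hc', h3⟩ := hT _ _ σ _ D 1 _ h2 (by
    rw [C_1, one_mul]
    exact fun h => ends_chow_ne D
      (map_injective _ (algebraMap K (LL K)).injective (h.trans (map_zero _).symm)))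
  rw [C_1, one_mul] at h3
  refine ⟨onM_add.2 ⟨hA, hD⟩, onM_add.2 ⟨hB, hD⟩, Φ * Polynomial.C (chow D), c₀, c₁, c * c',
    M + D.map (Plc.ofHom (algebraMap K (LL K))).red, h₀, h₁, ?_, ?_, onM_add.2 ⟨hM, ?_⟩, ?_⟩
  · rw [Polynomial.coeff_mul_C, e₀, ends_chow_add, mul_assoc]
  · rw [Polynomial.leadingCoeff_mul, Polynomial.leadingCoeff_C, e₁, ends_chow_add, mul_assoc]
  · exact hD.red hI (Plc.ofHom_over (IsScalarTower.toAlgHom k K (LL K)))
  · unfold gen at e ⊢
    rw [Polynomial.eval₂_mul, Polynomial.eval₂_C, e, h3, ends_chow_add, C_mul]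
    ring

theorem ends_eqv_add (hT : TransferStmt) [Fintype σ] {I : Ideal (MvPolynomial σ k)} (hI : Hg I)
    {A B D : Multiset (PP σ K)} (hD : OnM I D) (h : Relation.EqvGen (Step I) A B) :
    Relation.EqvGen (Step I) (A + D) (B + D) := by
  induction h with
  | rel A B h => exact .rel _ _ (ends_step_add hT hI hD h)
  | refl A => exact .refl _
  | symm A B _ h => exact .symm _ _ h
  | trans A B E _ _ h h' => exact .trans _ _ _ h h'

theorem ratpS (hT : TransferStmt) : RatpStmt := by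
  intro k K σ _ _ _ _ I hI
  have h0 : OnM I (0 : Multiset (PP σ K)) := fun x hx => absurd hx (Multiset.notMem_zero x)
  refine ⟨fun A => ⟨0, h0, .refl _⟩, fun A B h => ⟨0, h0, ?_⟩, ?_, ?_, ?_, ?_⟩
  · rw [add_zero, add_zero]
    exact .rel _ _ h
  · rintro A B ⟨D, hD, h⟩
    exact ⟨D, hD, .symm _ _ h⟩
  · rintro A B E ⟨D, hD, h⟩ ⟨D', hD', h'⟩
    refine ⟨D + D', onM_add.2 ⟨hD, hD'⟩, ?_⟩
    have h1 := ends_eqv_add hT hI hD' h
    have h2 := ends_eqv_add hT hI hD h'
    rw [add_right_comm B] at h2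
    rw [← add_assoc, ← add_assoc, add_right_comm E]
    exact .trans _ _ _ h1 h2
  · rintro A B E hE ⟨D, hD, h⟩
    refine ⟨D, hD, ?_⟩
    rw [add_right_comm A, add_right_comm B]
    exact ends_eqv_add hT hI hE h
  · rintro A B E hE ⟨D, hD, h⟩
    refine ⟨E + D, onM_add.2 ⟨hE, hD⟩, ?_⟩
    rwa [← add_assoc, ← add_assoc]

end Pool.Agent.MP_9207e0_ag.CC
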