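import Pool.Agent.MP_9207e0_ag.cc.Spec

/-! PROJECT CCC: the calculus of reductions and derivatives of forms. -/

noncomputable section

namespace Pool.Agent.MP_9207e0_ag.CC

open MvPolynomial
open scoped Classical

variable {k K L M σ ι κ : Type} [Field k] [Field K] [Field L] [Field M] [Algebra k K]
  [Algebra k L] [Algebra k M]

/-! Reduction of forms -/

theorem Rd.lift {P : Plc K L} {F : MvPolynomial σ K} {F' : MvPolynomial σ L} (h : Rd P F F') :
    ∃ G : MvPolynomial σ P.V, map P.V.subtype G = F ∧ map P.φ G = F' := by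
  have e : ∀ d, coeff d (∑ d ∈ F.support, monomial d (⟨coeff d F, (h d).1⟩ : P.V)) =
      ⟨coeff d F, (h d).1⟩ := fun d => by
    rw [coeff_sum]
    simp only [coeff_monomial, Finset.sum_ite_eq']
    split_ifs with hd
    · rfl
    · exact Subtype.ext (notMem_support_iff.1 hd).symm
  refine ⟨∑ d ∈ F.support, monomial d (⟨coeff d F, (h d).1⟩ : P.V), ?_, ?_⟩
  · ext d
    rw [coeff_map, e]
    rfl
  · ext d
    rw [coeff_map, e, ← P.fn_mem, (h d).2]

theorem Rd.of_lift (P : Plc K L) (G : MvPolynomial σ P.V) :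
    Rd P (map P.V.subtype G) (map P.φ G) := fun d => by
  rw [coeff_map, coeff_map]
  exact ⟨(coeff d G).2, P.fn_coe _⟩

theorem Rd.unique {P : Plc K L} {F : MvPolynomial σ K} {F' F'' : MvPolynomial σ L}
    (h : Rd P F F') (h' : Rd P F F'') : F' = F'' := by
  ext d
  rw [← (h d).2, (h' d).2]

theorem Rd.add {P : Plc K L} {F G : MvPolynomial σ K} {F' G' : MvPolynomial σ L} (h : Rd P F F')
    (h' : Rd P G G') : Rd P (F + G) (F' + G') := by
  obtain ⟨A, rfl, rfl⟩ := h.lift
  obtain ⟨B, rfl, rfl⟩ := h'.lift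
  rw [← map_add, ← map_add]
  exact Rd.of_lift P _

theorem Rd.mul {P : Plc K L} {F G : MvPolynomial σ K} {F' G' : MvPolynomial σ L} (h : Rd P F F')
    (h' : Rd P G G') : Rd P (F * G) (F' * G') := by
  obtain ⟨A, rfl, rfl⟩ := h.lift
  obtain ⟨B, rfl, rfl⟩ := h'.lift
  rw [← map_mul, ← map_mul]
  exact Rd.of_lift P _

theorem Rd.C {P : Plc K L} {c : K} (h : c ∈ P.V) :
    Rd P (C c : MvPolynomial σ K) (C (P.fn c)) := by
  have := Rd.of_lift (σ := σ) P (MvPolynomial.C ⟨c, h⟩)
  rwa [map_C, map_C, ← P.fn_mem h] at this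

theorem Rd.X (P : Plc K L) (j : σ) : Rd P (X j) (X j) := by
  have := Rd.of_lift P (MvPolynomial.X j)
  rwa [map_X, map_X] at this

theorem Rd.sum {P : Plc K L} {s : Finset ι} {F : ι → MvPolynomial σ K}
    {F' : ι → MvPolynomial σ L} (h : ∀ i ∈ s, Rd P (F i) (F' i)) :
    Rd P (∑ i ∈ s, F i) (∑ i ∈ s, F' i) := fun d => by
  rw [coeff_sum, coeff_sum, P.fn_sum fun i hi => (h i hi d).1]
  exact ⟨sum_mem fun i hi => (h i hi d).1, Finset.sum_congr rfl fun i hi => (h i hi d).2⟩

theorem Rd.map {P : Plc K L} (f : M →+* K) (g : M →+* L) (h : ∀ c, f c ∈ P.V ∧ P.fn (f c) = g c)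
    (F : MvPolynomial σ M) : Rd P (map f F) (map g F) := fun d => by
  rw [coeff_map, coeff_map]
  exact h _

theorem Rd.over {P : Plc K L} (h : P.Over k) (F : MvPolynomial σ k) :
    Rd P (MvPolynomial.map (algebraMap k K) F) (MvPolynomial.map (algebraMap k L) F) :=
  Rd.map _ _ h F

theorem Rd.ofHom (f : K →+* L) (F : MvPolynomial σ K) :
    Rd (Plc.ofHom f) F (MvPolynomial.map f F) := fun d => by
  rw [coeff_map]
  exact ⟨Plc.ofHom_mem f _, Plc.ofHom_fn f _⟩

theorem Rd.fm {P : Plc K L} (hP : P.Over k) {h : ℕ} (β : Fin h → MvPolynomial σ k)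
    {c : Fin h → K} {b : Fin h → L} (hc : ∀ l, c l ∈ P.V ∧ P.fn (c l) = b l) :
    Rd P (fm β c) (fm β b) := by
  refine Rd.sum fun l _ => Rd.mul ?_ (Rd.over hP _)
  rw [← (hc l).2]
  exact Rd.C (hc l).1

theorem Rd.pderiv {P : Plc K L} {F : MvPolynomial σ K} {F' : MvPolynomial σ L} (h : Rd P F F')
    (j : σ) : Rd P (pderiv j F) (pderiv j F') := by
  obtain ⟨A, rfl, rfl⟩ := h.lift
  rw [pderiv_map, pderiv_map]
  exact Rd.of_lift P _

theorem Rd.homog {P : Plc K L} {F : MvPolynomial σ K} {F' : MvPolynomial σ L} (h : Rd P F F')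
    {n : ℕ} (hF : F.IsHomogeneous n) : F'.IsHomogeneous n := fun d hd => hF fun h0 => hd (by
  rw [← (h d).2, h0, P.fn_zero])

theorem Rd.eval {P : Plc K L} {F : MvPolynomial σ K} {F' : MvPolynomial σ L} (h : Rd P F F')
    {z : σ → K} (hz : ∀ j, z j ∈ P.V) :
    eval z F ∈ P.V ∧ P.fn (eval z F) = eval (fun j => P.fn (z j)) F' := by
  obtain ⟨A, rfl, rfl⟩ := h.lift
  exact P.eval_fn hz A

theorem Rd.comp {P : Plc K L} {Q : Plc L M} {R : Plc K M}
    (hR : ∀ x ∈ P.V, P.fn x ∈ Q.V → x ∈ R.V ∧ R.fn x = Q.fn (P.fn x)) {F : MvPolynomial σ K}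
    {F' : MvPolynomial σ L} {F'' : MvPolynomial σ M} (h : Rd P F F') (h' : Rd Q F' F'') :
    Rd R F F'' := fun d => by
  obtain ⟨h1, h2⟩ := hR _ (h d).1 (by rw [(h d).2]; exact (h' d).1)
  exact ⟨h1, by rw [h2, (h d).2, (h' d).2]⟩

theorem eval_smul_homog {F : MvPolynomial σ K} {n : ℕ} (hF : F.IsHomogeneous n) (c : K)
    (v : σ → K) : eval (c • v) F = c ^ n * eval v F :=
  aeval_smul_homog (k := K) hF c v

theorem eval_mk_eq_zero {F : MvPolynomial σ K} {n : ℕ} (hF : F.IsHomogeneous n) {v : σ → K}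
    (h0 : v ≠ 0) : eval (Projectivization.mk K v h0).rep F = 0 ↔ eval v F = 0 :=
  aeval_mk_eq_zero (k := K) hF h0

theorem Rd.eval_red [Finite σ] {P : Plc K L} {F : MvPolynomial σ K} {F' : MvPolynomial σ L}
    (h : Rd P F F') {n : ℕ} (hF : F.IsHomogeneous n) {x : PP σ K}
    (hx : MvPolynomial.eval x.rep F = 0) : MvPolynomial.eval (P.red x).rep F' = 0 := by
  obtain ⟨v, h0, h1, hv, rfl, e⟩ := P.exists_prim x
  rw [eval_mk_eq_zero hF] at hx
  rw [e, eval_mk_eq_zero (h.homog hF), ← (h.eval hv).2, hx, P.fn_zero]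

theorem Zs.red [Finite σ] {I : Ideal (MvPolynomial σ k)} (hI : Hg I) {P : Plc K L}
    (hP : P.Over k) {F G : MvPolynomial σ K} {F' G' : MvPolynomial σ L} {m n : ℕ}
    (hF : F.IsHomogeneous m) (hG : G.IsHomogeneous n) (h : Rd P F F') (h' : Rd P G G')
    {x : PP σ K} (hx : Zs I F G x) : Zs I F' G' (P.red x) :=
  ⟨hx.1.red hI hP, h.eval_red hF hx.2.1, h'.eval_red hG hx.2.2⟩

theorem eval_map_eq (v : σ → K) (f : MvPolynomial σ k) :
    eval v (map (algebraMap k K) f) = aeval v f := by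
  rw [eval_map, aeval_def]

theorem fm_homog {h m : ℕ} {β : Fin h → MvPolynomial σ k} (hβ : ∀ l, (β l).IsHomogeneous m)
    (c : Fin h → K) : (fm β c).IsHomogeneous m :=
  IsHomogeneous.sum _ _ _ fun l _ => ((hβ l).map _).C_mul _

theorem eval_fm {h : ℕ} (β : Fin h → MvPolynomial σ k) (c : Fin h → K) (v : σ → K) :
    eval v (fm β c) = ∑ l, aeval v (β l) * c l := by
  rw [fm, map_sum]
  exact Finset.sum_congr rfl fun l _ => by rw [map_mul, eval_C, eval_map_eq, mul_comm]

theorem IK_self (I : Ideal (MvPolynomial σ k)) : IK k I = I := by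
  have e : (map (algebraMap k k) : MvPolynomial σ k →+* MvPolynomial σ k) = RingHom.id _ :=
    RingHom.ext fun f => map_id f
  rw [IK, e, Ideal.map_id]

theorem IK_eval {I : Ideal (MvPolynomial σ k)} {v : σ → K} (hv : OnX I v) {F : MvPolynomial σ K}
    (hF : F ∈ IK K I) : eval v F = 0 := by
  have : IK K I ≤ RingHom.ker (eval v) := Ideal.map_le_iff_le_comap.2 fun f hf => by
    rw [Ideal.mem_comap, RingHom.mem_ker, eval_map_eq]
    exact hv f hf
  exact this hF

theorem Hg.IK {I : Ideal (MvPolynomial σ k)} (hI : Hg I) : Hg (IK K I) := by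
  letI := MvPolynomial.gradedAlgebra (σ := σ) (R := K)
  have e : CC.IK K I = Ideal.span
      {g | ∃ f ∈ I, ∃ j, g = map (algebraMap k K) (homogeneousComponent j f)} := by
    apply le_antisymm
    · refine Ideal.map_le_iff_le_comap.2 fun f hf => ?_
      rw [Ideal.mem_comap, ← sum_homogeneousComponent f, map_sum]
      exact sum_mem fun j _ => Ideal.subset_span ⟨f, hf, j, rfl⟩
    · refine Ideal.span_le.2 ?_
      rintro _ ⟨f, hf, j, rfl⟩
      exact Ideal.mem_map_of_mem _ (hI f hf j)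
  intro F hF j
  rw [e] at hF ⊢
  refine homogeneousComponent_mem_of_mem (Ideal.homogeneous_span _ _ ?_) hF j
  rintro _ ⟨f, -, i, rfl⟩
  exact ⟨i, (homogeneousComponent_isHomogeneous i f).map _⟩

/-! Derivatives -/

section Dv

variable [Fintype σ]

theorem dv_add (F G : MvPolynomial σ K) (v δ : σ → K) : dv (F + G) v δ = dv F v δ + dv G v δ := by
  simp only [dv, map_add, add_mul, Finset.sum_add_distrib]

theorem dv_sub (F G : MvPolynomial σ K) (v δ : σ → K) : dv (F - G) v δ = dv F v δ - dv G v δ := by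
  simp only [dv, map_sub, sub_mul, Finset.sum_sub_distrib]

theorem dv_mul (F G : MvPolynomial σ K) (v δ : σ → K) :
    dv (F * G) v δ = eval v F * dv G v δ + eval v G * dv F v δ := by
  simp only [dv, pderiv_mul, map_add, map_mul, Finset.mul_sum, ← Finset.sum_add_distrib]
  exact Finset.sum_congr rfl fun j _ => by ring

theorem dv_C (c : K) (v δ : σ → K) : dv (C c) v δ = 0 := by
  simp only [dv, pderiv_C, map_zero, zero_mul, Finset.sum_const_zero]

theorem dv_X (j : σ) (v δ : σ → K) : dv (X j) v δ = δ j := by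
  rw [dv, Finset.sum_eq_single j]
  · rw [pderiv_X_self, map_one, one_mul]
  · intro i _ hi
    rw [pderiv_X_of_ne hi.symm, map_zero, zero_mul]
  · exact fun h => absurd (Finset.mem_univ j) h

theorem dv_sum (s : Finset ι) (F : ι → MvPolynomial σ K) (v δ : σ → K) :
    dv (∑ i ∈ s, F i) v δ = ∑ i ∈ s, dv (F i) v δ := by
  simp only [dv, map_sum, Finset.sum_mul]
  exact Finset.sum_comm

/-- The derivative as a linear form. -/
def dvL (F : MvPolynomial σ K) (v : σ → K) : (σ → K) →ₗ[K] K where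
  toFun := dv F v
  map_add' := fun a b => by simp only [dv, Pi.add_apply, mul_add, Finset.sum_add_distrib]
  map_smul' := fun c a => by
    simp only [dv, Pi.smul_apply, smul_eq_mul, RingHom.id_apply, Finset.mul_sum]
    exact Finset.sum_congr rfl fun j _ => by ring

theorem dvL_apply (F : MvPolynomial σ K) (v δ : σ → K) : dvL F v δ = dv F v δ :=
  rfl

theorem dv_fm {h : ℕ} (β : Fin h → MvPolynomial σ k) (c : Fin h → K) (v δ : σ → K) :
    dv (fm β c) v δ = ∑ l, dv (map (algebraMap k K) (β l)) v δ * c l := by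
  rw [fm, dv_sum]
  exact Finset.sum_congr rfl fun l _ => by
    rw [dv_mul, dv_C, eval_C, mul_zero, add_zero, mul_comm]

/-- Euler. -/
theorem dv_self {F : MvPolynomial σ K} {n : ℕ} (hF : F.IsHomogeneous n) (v : σ → K) :
    dv F v v = n * eval v F := by
  have := congrArg (eval v) hF.sum_X_mul_pderiv
  rw [map_sum, map_nsmul, nsmul_eq_mul] at this
  rw [← this, dv]
  exact Finset.sum_congr rfl fun j _ => by rw [map_mul, eval_X, mul_comm]

theorem dv_smul_left {F : MvPolynomial σ K} {n : ℕ} (hF : F.IsHomogeneous n) (c : K)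
    (v δ : σ → K) : c * dv F (c • v) δ = c ^ n * dv F v δ := by
  rcases n with _ | n
  · rw [← totalDegree_zero_iff_isHomogeneous, totalDegree_eq_zero_iff_eq_C] at hF
    rw [hF, dv_C, dv_C, mul_zero, mul_zero]
  · simp only [dv, Finset.mul_sum]
    refine Finset.sum_congr rfl fun j _ => ?_
    rw [eval_smul_homog hF.pderiv, Nat.add_sub_cancel]
    ring

theorem IK_dv {I : Ideal (MvPolynomial σ k)} {v δ : σ → K} (hv : OnX I v) (hδ : δ ∈ tang I v)
    {F : MvPolynomial σ K} (hF : F ∈ IK K I) : dv F v δ = 0 := by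
  have hF' := hF
  unfold IK Ideal.map at hF
  induction hF using Submodule.span_induction with
  | mem x hx =>
    obtain ⟨f, hf, rfl⟩ := hx
    exact hδ f hf
  | zero => simp only [dv, map_zero, zero_mul, Finset.sum_const_zero]
  | add x y hx hy ihx ihy => rw [dv_add, ihx hx, ihy hy, add_zero]
  | smul a x hx ih =>
    rw [smul_eq_mul, dv_mul, ih hx, IK_eval hv hx, mul_zero, zero_mul, add_zero]

theorem self_mem_tang {I : Ideal (MvPolynomial σ k)} (hI : Hg I) {v : σ → K} (hv : OnX I v) :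
    v ∈ tang I v := fun f hf => by
  rw [← sum_homogeneousComponent f, map_sum, dv_sum]
  refine Finset.sum_eq_zero fun j _ => ?_
  rw [dv_self ((homogeneousComponent_isHomogeneous j f).map _), eval_map_eq, hv _ (hI f hf j),
    mul_zero]

theorem tang_smul {I : Ideal (MvPolynomial σ k)} (hI : Hg I) {c : K} (hc : c ≠ 0) (v : σ → K) :
    tang I (c • v) = tang I v := by
  have key : ∀ {c : K}, c ≠ 0 → ∀ v : σ → K, tang I v ≤ tang I (c • v) := by
    intro c hc v δ hδ f hf
    rw [← sum_homogeneousComponent f, map_sum, dv_sum]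
    refine Finset.sum_eq_zero fun j _ => mul_left_cancel₀ hc ?_
    rw [dv_smul_left ((homogeneousComponent_isHomogeneous j f).map _), hδ _ (hI f hf j), mul_zero,
      mul_zero]
  refine le_antisymm ?_ (key hc v)
  have := key (inv_ne_zero hc) (c • v)
  rwa [inv_smul_smul₀ hc] at this

theorem TransV.smul {I : Ideal (MvPolynomial σ k)} (hI : Hg I) {F G : MvPolynomial σ K}
    {m n : ℕ} (hF : F.IsHomogeneous m) (hG : G.IsHomogeneous n) {v : σ → K} (h : TransV I v F G)
    {c : K} (hc : c ≠ 0) : TransV I (c • v) F G := by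
  intro δ hδ h1 h2
  rw [tang_smul hI hc] at hδ
  have e1 := dv_smul_left hF c v δ
  have e2 := dv_smul_left hG c v δ
  rw [h1, mul_zero] at e1
  rw [h2, mul_zero] at e2
  rw [Submodule.span_singleton_smul_eq (IsUnit.mk0 c hc)]
  exact h δ hδ ((mul_eq_zero.1 e1.symm).resolve_left (pow_ne_zero _ hc))
    ((mul_eq_zero.1 e2.symm).resolve_left (pow_ne_zero _ hc))

theorem trans_mk {I : Ideal (MvPolynomial σ k)} (hI : Hg I) {F G : MvPolynomial σ K} {m n : ℕ}
    (hF : F.IsHomogeneous m) (hG : G.IsHomogeneous n) {v : σ → K} (h0 : v ≠ 0) :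
    Trans I (Projectivization.mk K v h0) F G ↔ TransV I v F G := by
  obtain ⟨c, hc⟩ := Projectivization.exists_smul_eq_mk_rep K v h0
  show TransV I _ F G ↔ _
  rw [← hc, Units.smul_def]
  refine ⟨fun h => ?_, fun h => h.smul hI hF hG c.ne_zero⟩
  have := h.smul hI hF hG (inv_ne_zero c.ne_zero)
  rwa [inv_smul_smul₀ c.ne_zero] at this

theorem Rd.dv {P : Plc K L} {F : MvPolynomial σ K} {F' : MvPolynomial σ L} (h : Rd P F F')
    {z δ : σ → K} (hz : ∀ j, z j ∈ P.V) (hδ : ∀ j, δ j ∈ P.V) :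
    dv F z δ ∈ P.V ∧ P.fn (dv F z δ) = dv F' (fun j => P.fn (z j)) fun j => P.fn (δ j) := by
  have e := fun j => (h.pderiv j).eval hz
  unfold CC.dv
  rw [P.fn_sum fun j _ => P.V.mul_mem _ _ (e j).1 (hδ j)]
  refine ⟨sum_mem fun j _ => P.V.mul_mem _ _ (e j).1 (hδ j), Finset.sum_congr rfl fun j _ => ?_⟩
  rw [P.fn_mul (e j).1 (hδ j), (e j).2]

end Dv

end Pool.Agent.MP_9207e0_ag.CC
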