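import Pool.Agent.MP_9207e0_ag.cc.Spec

/-! PROJECT CCC: the calculus of cycles. -/

noncomputable section

namespace Pool.Agent.MP_9207e0_ag.CC

open MvPolynomial
open scoped Classical

variable {k K L M σ ι κ : Type} [Field k] [Field K] [Field L] [Field M] [Algebra k K]
  [Algebra k L] [Algebra k M]

/-! Cycles -/

theorem ms_elim [Fintype ι] [Fintype κ] (w : ι → PP σ K) (u : κ → PP σ K) :
    ms (Sum.elim w u) = ms w + ms u := by
  unfold ms
  rw [← Finset.univ_disjSum_univ, Finset.val_disjSum, Multiset.disjSum, Multiset.map_add,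
    Multiset.map_map, Multiset.map_map]
  rfl

theorem ms_comp [Fintype ι] [Fintype κ] (w : ι → PP σ K) (e : κ ≃ ι) : ms (w ∘ e) = ms w := by
  unfold ms
  rw [← Multiset.map_map, Multiset.map_univ_val_equiv]

theorem ms_map [Fintype ι] (w : ι → PP σ K) (f : PP σ K → PP σ L) :
    (ms w).map f = ms fun i => f (w i) := by
  unfold ms
  rw [Multiset.map_map]
  rfl

theorem ms_coe (Z : Finset (PP σ K)) : ms (fun x : Z => (x : PP σ K)) = Z.val := by
  unfold ms
  rw [Finset.univ_eq_attach, Finset.attach_val]
  exact Multiset.attach_map_val Z.val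

theorem ms_const [Fintype ι] (x : PP σ K) :
    ms (fun _ : ι => x) = Multiset.replicate (Fintype.card ι) x := by
  unfold ms
  rw [Multiset.map_const']
  rfl

theorem mem_ms [Fintype ι] {w : ι → PP σ K} {x : PP σ K} : x ∈ ms w ↔ ∃ i, w i = x := by
  unfold ms
  rw [Multiset.mem_map]
  exact ⟨fun ⟨i, _, h⟩ => ⟨i, h⟩, fun ⟨i, h⟩ => ⟨i, Finset.mem_univ i, h⟩⟩

theorem ms_erase [Fintype ι] (w : ι → PP σ K) (i : ι) :
    ms w = {w i} + (Finset.univ.erase i).val.map w := by
  unfold ms
  rw [Multiset.singleton_add, ← Multiset.map_cons, Finset.erase_val,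
    Multiset.cons_erase (Finset.mem_univ i)]

theorem exists_equiv_of_ms [Fintype ι] [Fintype κ] {w : ι → PP σ K} {u : κ → PP σ K}
    (h : ms w = ms u) : ∃ e : ι ≃ κ, u ∘ e = w := by
  have hc : ∀ x : PP σ K, Fintype.card {i // w i = x} = Fintype.card {j // u j = x} := by
    intro x
    have h1 := congrArg (Multiset.count x) h
    unfold ms at h1
    rw [Multiset.count_map, Multiset.count_map] at h1
    rw [Fintype.card_subtype, Fintype.card_subtype]
    have e1 : (Finset.univ.filter fun i => w i = x).card =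
        (Finset.univ.val.filter fun i => x = w i).card := by
      rw [Finset.card, Finset.filter_val]
      exact congrArg Multiset.card (Multiset.filter_congr fun _ _ => eq_comm)
    have e2 : (Finset.univ.filter fun j => u j = x).card =
        (Finset.univ.val.filter fun j => x = u j).card := by
      rw [Finset.card, Finset.filter_val]
      exact congrArg Multiset.card (Multiset.filter_congr fun _ _ => eq_comm)
    rw [e1, e2, h1]
  exact ⟨Equiv.ofFiberEquiv fun x => Fintype.equivOfCardEq (hc x),
    funext fun i => Equiv.ofFiberEquiv_map _ i⟩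

theorem onM_add {I : Ideal (MvPolynomial σ k)} {A B : Multiset (PP σ K)} :
    OnM I (A + B) ↔ OnM I A ∧ OnM I B :=
  ⟨fun h => ⟨fun x hx => h x (Multiset.mem_add.2 (Or.inl hx)),
    fun x hx => h x (Multiset.mem_add.2 (Or.inr hx))⟩,
    fun h x hx => (Multiset.mem_add.1 hx).elim (h.1 x) (h.2 x)⟩

theorem OnM.red [Finite σ] {I : Ideal (MvPolynomial σ k)} (hI : Hg I) {P : Plc K L}
    (hP : P.Over k) {A : Multiset (PP σ K)} (h : OnM I A) : OnM I (A.map P.red) := by
  intro x hx
  obtain ⟨y, hy, rfl⟩ := Multiset.mem_map.1 hx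
  exact On.red hI hP (h y hy)

theorem OnM.bc [Finite σ] {I : Ideal (MvPolynomial σ k)} (hI : Hg I) {A : Multiset (PP σ k)}
    (h : OnM I A) : OnM I (A.map (bc K)) := by
  intro x hx
  obtain ⟨y, hy, rfl⟩ := Multiset.mem_map.1 hx
  exact On.bc hI (h y hy)

theorem map_bc_red [Finite σ] {P : Plc K L} (hP : P.Over k) (A : Multiset (PP σ k)) :
    (A.map (bc K)).map P.red = A.map (bc L) := by
  rw [Multiset.map_map]
  exact Multiset.map_congr rfl fun x _ => Plc.red_bc hP x

theorem cyc_zero : cyc (0 : Multiset (PP σ K)) = 0 := by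
  unfold cyc
  rw [Multiset.map_zero, Multiset.sum_zero]

theorem cyc_add (A B : Multiset (PP σ K)) : cyc (A + B) = cyc A + cyc B := by
  unfold cyc
  rw [Multiset.map_add, Multiset.sum_add]

theorem cyc_singleton (x : PP σ K) : cyc {x} = Finsupp.single x 1 := by
  unfold cyc
  rw [Multiset.map_singleton, Multiset.sum_singleton]

theorem cyc_apply (A : Multiset (PP σ K)) (x : PP σ K) : cyc A x = A.count x := by
  induction A using Multiset.induction_on with
  | empty => rw [cyc_zero, Multiset.count_zero]; rfl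
  | cons a A ih =>
    rw [← Multiset.singleton_add, cyc_add, cyc_singleton, Finsupp.add_apply, ih,
      Multiset.count_add, Multiset.count_singleton, Finsupp.single_apply]
    by_cases h : a = x
    · rw [if_pos h, if_pos h.symm]; push_cast; rfl
    · rw [if_neg h, if_neg fun h' => h h'.symm]; push_cast; rfl

theorem cyc_injective : Function.Injective (cyc : Multiset (PP σ K) → PP σ K →₀ ℤ) := by
  intro A B h
  refine Multiset.ext.2 fun x => ?_
  have h1 : cyc A x = cyc B x := by rw [h]
  rw [cyc_apply, cyc_apply] at h1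
  exact_mod_cast h1

theorem cyc_ms [Fintype ι] (w : ι → PP σ K) : cyc (ms w) = ∑ i, Finsupp.single (w i) 1 := by
  unfold cyc ms
  rw [Multiset.map_map]
  rfl

theorem cyc_replicate (n : ℕ) (x : PP σ K) :
    cyc (Multiset.replicate n x) = Finsupp.single x (n : ℤ) := by
  unfold cyc
  rw [Multiset.map_replicate, Multiset.sum_replicate, Finsupp.smul_single, nsmul_one]

end Pool.Agent.MP_9207e0_ag.CC
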