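import Pool.Agent.MP_9207e0_ag.cc.RkA
import Pool.Agent.MP_9207e0_ag.cc.RkB
import Pool.Agent.MP_9207e0_ag.cc.RkC

/-! PROJECT CCC: a cycle that is defined over `K(t)` is a family; decomposition in orbits. -/

noncomputable section

namespace Pool.Agent.MP_9207e0_ag.CC

open MvPolynomial
open scoped Classical

section Aux

variable {K L σ : Type} [Field K] [Field L]

theorem fam_chow_ne [Fintype σ] (A : Multiset (PP σ K)) : chow A ≠ 0 := by
  refine Multiset.prod_ne_zero fun h => ?_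
  obtain ⟨x, -, hx⟩ := Multiset.mem_map.1 h
  refine x.rep_nonzero (funext fun j => ?_)
  have e := congrArg (coeff (Finsupp.single j 1)) hx
  simpa [lin, coeff_sum, coeff_X, Finsupp.single_left_inj] using e

theorem fam_rd [Algebra K L] {P : Plc L K} (hP : P.Over K) {u : L} (hu : u ∈ P.V)
    (Φ : Polynomial (MvPolynomial σ K)) :
    Rd P (Φ.eval₂ (map (algebraMap K L)) (C u)) (Φ.eval (C (P.fn u))) := by
  induction Φ using Polynomial.induction_on' with
  | add p q hp hq =>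
    rw [Polynomial.eval₂_add, Polynomial.eval_add]
    exact hp.add hq
  | monomial n F =>
    rw [Polynomial.eval₂_monomial, Polynomial.eval_monomial, ← C_pow, ← C_pow, ← P.fn_pow hu]
    refine Rd.mul ?_ (Rd.C (pow_mem hu n))
    have e := Rd.over hP F
    rwa [Algebra.algebraMap_self, map_id] at e

theorem fam_rd0 {P : Plc (LL K) K} {u : LL K} (h : Zr P u) (Φ : Polynomial (MvPolynomial σ K)) :
    Rd P (Φ.eval₂ (map (algebraMap K (LL K))) (C u)) (Φ.coeff 0) := by
  have e := fam_rd h.1 h.2.1 Φ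
  rwa [h.2.2, C_0, ← Polynomial.coeff_zero_eq_eval_zero] at e

theorem fam_tt : tt K ≠ 0 := by
  rw [tt, Ne, map_eq_zero]
  exact RatFunc.X_ne_zero

theorem fam_gen (p : Polynomial K) (d : σ →₀ ℕ) :
    gen (p.map (C : K →+* MvPolynomial σ K) * Polynomial.C (monomial d 1)) =
      monomial d (algebraMap (RatFunc K) (LL K) (algebraMap (Polynomial K) (RatFunc K) p)) := by
  have e : (Polynomial.eval₂RingHom (map (σ := σ) (algebraMap K (LL K))) (C (tt K))).comp
      (Polynomial.mapRingHom C) =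
      (C.comp (algebraMap (RatFunc K) (LL K))).comp (algebraMap (Polynomial K) (RatFunc K)) := by
    refine Polynomial.ringHom_ext (fun a => ?_) ?_
    · simp only [RingHom.comp_apply, Polynomial.coe_mapRingHom, Polynomial.map_C,
        Polynomial.coe_eval₂RingHom, Polynomial.eval₂_C, map_C]
      rw [IsScalarTower.algebraMap_apply K (RatFunc K) (LL K)]
      rfl
    · simp [tt]
  have e' := RingHom.congr_fun e p
  simp only [RingHom.comp_apply, Polynomial.coe_mapRingHom, Polynomial.coe_eval₂RingHom] at e'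
  rw [gen, Polynomial.eval₂_mul, e', Polynomial.eval₂_C, map_monomial, map_one, C_mul_monomial,
    mul_one]

/-- A form with coefficients in `K(t)` has a multiple that is the generic member of a family. -/
theorem fam_den {Ψ : MvPolynomial σ (LL K)}
    (h : ∀ d, coeff d Ψ ∈ Set.range (algebraMap (RatFunc K) (LL K))) :
    ∃ (Φ : Polynomial (MvPolynomial σ K)) (β : LL K), β ≠ 0 ∧ gen Φ = C β * Ψ := by
  choose r hr using h
  obtain ⟨b, hb⟩ := IsLocalization.exist_integer_multiples (nonZeroDivisors (Polynomial K))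
    Ψ.support r
  choose! p hp using hb
  refine ⟨∑ d ∈ Ψ.support, (p d).map C * Polynomial.C (monomial d 1),
    algebraMap (RatFunc K) (LL K) (algebraMap (Polynomial K) (RatFunc K) b), ?_, ?_⟩
  · rw [Ne, map_eq_zero, FaithfulSMul.algebraMap_eq_zero_iff]
    exact nonZeroDivisors.coe_ne_zero b
  · conv_rhs => rw [Ψ.as_sum, Finset.mul_sum]
    rw [gen, Polynomial.eval₂_finsetSum]
    refine Finset.sum_congr rfl fun d hd => (fam_gen _ d).trans ?_
    rw [hp d hd, C_mul_monomial, ← hr d, Algebra.smul_def, map_mul]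

theorem fam_fix (hT : TransferStmt) [Fintype σ] [CharZero K] {M : Multiset (PP σ (LL K))} (hM : Gal M) :
    ∃ a : LL K, a ≠ 0 ∧
      ∀ d, coeff d (C a * chow M) ∈ Set.range (algebraMap (RatFunc K) (LL K)) := by
  obtain ⟨d₀, h₀⟩ := ne_zero_iff.1 (fam_chow_ne M)
  refine ⟨(coeff d₀ (chow M))⁻¹, inv_ne_zero h₀, fun d => ?_⟩
  refine (InfiniteGalois.mem_range_algebraMap_iff_fixed _).2 fun τ => ?_
  have e1 : coeff d₀ (map (τ : LL K →+* LL K) (C (coeff d₀ (chow M))⁻¹ * chow M)) = 1 := by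
    rw [coeff_map, coeff_C_mul, inv_mul_cancel₀ h₀, map_one]
  obtain ⟨c, -, hc⟩ := hT _ _ σ (Plc.ofHom (τ : LL K →+* LL K)) M _ _ (Rd.ofHom _ _)
    (fun h => by rw [h, coeff_zero] at e1; exact zero_ne_one e1)
  rw [Multiset.map_congr rfl fun x _ => Plc.ofHom_red _ x, hM τ] at hc
  rw [hc, coeff_C_mul] at e1
  rw [eq_inv_of_mul_eq_one_left e1] at hc
  have e2 := congrArg (coeff d) hc
  rwa [coeff_map] at e2

end Aux

theorem famS (hT : TransferStmt) : FamStmt := by
  intro k K σ _ _ _ _ _ I M P Q hI hM hG hP hQ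
  obtain ⟨a, ha, h1⟩ := fam_fix hT hG
  obtain ⟨Φ₁, β, hβ, h2⟩ := fam_den h1
  have hn : Φ₁ ≠ 0 := by
    rintro rfl
    rw [gen, Polynomial.eval₂_zero] at h2
    exact mul_ne_zero (C_ne_zero.2 hβ) (mul_ne_zero (C_ne_zero.2 ha) (fam_chow_ne M)) h2.symm
  obtain ⟨Φ, h3, h4⟩ := Polynomial.exists_eq_pow_rootMultiplicity_mul_and_not_dvd Φ₁ hn 0
  generalize Polynomial.rootMultiplicity 0 Φ₁ = n at h3
  rw [Polynomial.C_0, sub_zero] at h3 h4
  rw [Polynomial.X_dvd_iff] at h4
  have hΦ : Φ ≠ 0 := by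
    rintro rfl
    exact h4 rfl
  have ht : (C (tt K)⁻¹ : MvPolynomial σ (LL K)) * C (tt K) = 1 := by
    rw [← C_mul, inv_mul_cancel₀ fam_tt, C_1]
  have h5 : gen Φ = C ((tt K)⁻¹ ^ n * β * a) * chow M := by
    rw [h3, gen, Polynomial.eval₂_mul, Polynomial.eval₂_X_pow] at h2
    rw [C_mul, C_mul, mul_assoc, mul_assoc, ← h2, C_pow, ← mul_assoc, ← mul_pow, ht, one_pow,
      one_mul, gen]
  obtain ⟨c₀, e0, e1⟩ := hT _ _ σ P M _ _ (h5 ▸ show Rd P (gen Φ) _ from fam_rd0 hP Φ) h4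
  have h6 : Φ.reverse.eval₂ (map (algebraMap K (LL K))) (C (tt K)⁻¹) =
      C ((tt K)⁻¹ ^ Φ.natDegree * ((tt K)⁻¹ ^ n * β * a)) * chow M := by
    let _ : Invertible (C (tt K) : MvPolynomial σ (LL K)) := ⟨_, ht, by rw [mul_comm, ht]⟩
    have e := Polynomial.eval₂_reverse_mul_pow (map (algebraMap K (LL K))) (C (tt K)) Φ
    rw [C_mul, mul_assoc, ← h5, gen, ← e, C_pow, mul_left_comm, ← mul_pow, ht, one_pow, mul_one]
    rfl
  have h7 := fam_rd0 hQ Φ.reverse
  rw [h6, Polynomial.coeff_zero_reverse] at h7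
  obtain ⟨c₁, e2, e3⟩ := hT _ _ σ Q M _ _ h7 (Polynomial.leadingCoeff_ne_zero.2 hΦ)
  exact ⟨hM.red hI hP.1.self, hM.red hI hQ.1.self, Φ, c₀, c₁, _, M, e0, e2, e1, e3, hM, h5⟩

theorem orbdecS : OrbdecStmt := by
  intro K σ _ Q h0 hadd M
  induction M using Multiset.strongInductionOn with
  | _ M ih =>
    intro hG hO
    rcases M.empty_or_exists_mem with rfl | ⟨x, hx⟩
    · exact h0
    obtain ⟨O, hx'⟩ : ∃ O, Orb x O := by
      refine ⟨M.toFinset.filter fun y => ∃ τ : LL K ≃ₐ[RatFunc K] LL K,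
        pmap (τ : LL K →+* LL K) x = y, fun y => ?_⟩
      rw [Finset.mem_filter, Multiset.mem_toFinset, and_iff_right_iff_imp]
      rintro ⟨τ, rfl⟩
      exact hG τ ▸ Multiset.mem_map_of_mem _ hx
    have h1 : O.val ≤ M := (Multiset.le_iff_subset O.nodup).2 fun y hy => by
      obtain ⟨τ, rfl⟩ := (hx' y).1 hy
      exact hG τ ▸ Multiset.mem_map_of_mem _ hx
    obtain ⟨M', rfl⟩ := Multiset.le_iff_exists_add.1 h1
    have h2 : Gal O.val := fun τ => by
      refine ((O.nodup.map (pmap_injective _)).ext O.nodup).2 fun y => ?_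
      rw [Multiset.mem_map]
      constructor
      · rintro ⟨z, hz, rfl⟩
        obtain ⟨ρ, rfl⟩ := (hx' z).1 hz
        refine (hx' _).2 ⟨ρ.trans τ, Eq.trans ?_ (pmap_pmap _ _ x).symm⟩
        exact congrArg (fun f => pmap f x) (RingHom.ext fun _ => rfl)
      · intro hy
        obtain ⟨ρ, rfl⟩ := (hx' y).1 hy
        refine ⟨_, (hx' _).2 ⟨ρ.trans τ.symm, rfl⟩, (pmap_pmap _ _ x).trans ?_⟩
        exact congrArg (fun f => pmap f x) (RingHom.ext fun t => τ.apply_symm_apply (ρ t))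
    refine hadd _ _ (hO x hx O hx') (ih M' ?_ (fun τ => ?_) fun y hy =>
      hO y (Multiset.mem_add.2 (Or.inr hy)))
    · refine lt_add_of_pos_left _ (Multiset.zero_le _ |>.lt_of_ne fun h => ?_)
      exact Multiset.notMem_zero x (h ▸ (hx' x).2 ⟨AlgEquiv.refl, pmap_id x⟩)
    · have e := hG τ
      rw [Multiset.map_add, h2 τ] at e
      exact add_left_cancel e

end Pool.Agent.MP_9207e0_ag.CC
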