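import Pool.Agent.MP_9207e0_ag.cc.Rk

/-! PROJECT CCC: equivalence by families implies rational equivalence. -/

noncomputable section

namespace Pool.Agent.MP_9207e0_ag.CC

open MvPolynomial
open scoped Classical

section
variable {K F : Type} [Field K] [Field F] [Algebra K F]

theorem l2_poly (g : RatFunc K →ₐ[K] F) (p : Polynomial K) :
    g (algebraMap (Polynomial K) (RatFunc K) p) = Polynomial.aeval (g RatFunc.X) p := by
  rw [Polynomial.aeval_algHom_apply, RatFunc.aeval_X_left_eq_algebraMap]

theorem l2_ext {g g' : RatFunc K →ₐ[K] F} (h : g RatFunc.X = g' RatFunc.X) (r : RatFunc K) :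
    g r = g' r :=
  RatFunc.induction_on (P := fun r => g r = g' r) r fun p q _ => by
    rw [map_div₀, map_div₀, l2_poly, l2_poly, l2_poly, l2_poly, h]

theorem l2_mem (g : RatFunc K →ₐ[K] F) (r : RatFunc K) :
    g r ∈ IntermediateField.adjoin K {g RatFunc.X} :=
  RatFunc.induction_on (P := fun r => g r ∈ IntermediateField.adjoin K {g RatFunc.X}) r
    fun p q _ => by
    rw [map_div₀, l2_poly, l2_poly]
    exact div_mem (IntermediateField.algebra_adjoin_le_adjoin K _
      (Polynomial.aeval_mem_adjoin_singleton K _)) (IntermediateField.algebra_adjoin_le_adjoin K _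
      (Polynomial.aeval_mem_adjoin_singleton K _))

theorem l2_fin [Algebra (RatFunc K) F] [IsScalarTower K (RatFunc K) F]
    [FiniteDimensional (RatFunc K) F] :
    FiniteDimensional (IntermediateField.adjoin K {algebraMap (RatFunc K) F RatFunc.X}) F := by
  let : Algebra (RatFunc K) (IntermediateField.adjoin K {algebraMap (RatFunc K) F RatFunc.X}) :=
    ((algebraMap (RatFunc K) F).codRestrict _
      (l2_mem (IsScalarTower.toAlgHom K (RatFunc K) F))).toAlgebra
  have : IsScalarTower (RatFunc K)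
      (IntermediateField.adjoin K {algebraMap (RatFunc K) F RatFunc.X}) F :=
    IsScalarTower.of_algebraMap_eq fun _ => rfl
  exact Module.Finite.of_restrictScalars_finite (RatFunc K) _ F

end

section
variable {k K σ : Type} [Field k] [Field K] [IsAlgClosed K] [CharZero K] [Algebra k K] [Fintype σ]

omit [IsAlgClosed K] [CharZero K] [Fintype σ] in
theorem l2_pt (x : PP σ (LL K)) :
    ∃ ξ : PP σ (IntermediateField.adjoin (RatFunc K) (rat1 x)),
      pmap (algebraMap _ (LL K)) ξ = x := by
  obtain ⟨a, ha⟩ := Function.ne_iff.1 x.rep_nonzero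
  obtain ⟨h0, e⟩ := mk_div x ha
  refine ⟨Projectivization.mk _ (fun b => ⟨x.rep b / x.rep a,
    IntermediateField.subset_adjoin _ _ ⟨b, a, rfl⟩⟩) fun h => h0 (funext fun b => ?_), ?_⟩
  · exact congrArg Subtype.val (congrFun h b)
  · exact (pmap_mk _ _ h0).trans e

omit [IsAlgClosed K] [CharZero K] [Fintype σ] in
theorem l2_inj {x : PP σ (LL K)} {ξ : PP σ (IntermediateField.adjoin (RatFunc K) (rat1 x))}
    (hξ : pmap (algebraMap _ (LL K)) ξ = x) : Function.Injective
      fun g : IntermediateField.adjoin (RatFunc K) (rat1 x) →ₐ[RatFunc K] LL K =>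
        pmap (g : _ →+* LL K) ξ := by
  intro g g' e
  refine IntermediateField.adjoin_algHom_ext _ ?_
  rintro _ ⟨a, b, rfl⟩
  have h1 : (⟨x.rep a / x.rep b, IntermediateField.subset_adjoin _ _ ⟨a, b, rfl⟩⟩ :
      IntermediateField.adjoin (RatFunc K) (rat1 x)) = ξ.rep a / ξ.rep b := by
    apply (algebraMap _ (LL K)).injective
    rw [← pmap_div, hξ]
    rfl
  rw [h1]
  exact (pmap_div (g : _ →+* LL K) ξ b a).symm.trans
    ((congrArg (fun y : PP σ (LL K) => y.rep a / y.rep b) e).trans
      (pmap_div (g' : _ →+* LL K) ξ b a))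

omit [IsAlgClosed K] [Fintype σ] in
theorem l2_mem_orb {F : IntermediateField (RatFunc K) (LL K)} (ξ : PP σ F) (y : PP σ (LL K)) :
    (∃ τ : LL K ≃ₐ[RatFunc K] LL K,
      pmap (τ : LL K →+* LL K) (pmap (algebraMap F (LL K)) ξ) = y) ↔
      ∃ g : F →ₐ[RatFunc K] LL K, pmap (g : F →+* LL K) ξ = y := by
  constructor
  · rintro ⟨τ, rfl⟩
    exact ⟨(τ : LL K →ₐ[RatFunc K] LL K).comp F.val,
      (pmap_pmap (algebraMap F (LL K)) (τ : LL K →+* LL K) ξ).symm⟩
  · rintro ⟨g, rfl⟩
    refine ⟨AlgEquiv.ofBijective (g.liftNormal (LL K))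
      (Algebra.IsAlgebraic.algHom_bijective _), (pmap_pmap _ _ ξ).trans ?_⟩
    exact congrArg (fun f => pmap f ξ) (RingHom.ext fun t => g.liftNormal_commutes (LL K) t)

theorem l2_gen (hD : DivStmt) (hC : CenStmt) {I : Ideal (MvPolynomial σ k)} (hI : Hg I)
    {P Q : Plc (LL K) K} (hP : Zr P (tt K)) (hQ : Zr Q (tt K)⁻¹) {F : Type} [Field F]
    [Algebra k F] [Algebra K F] [Algebra (RatFunc K) F] [Algebra F (LL K)] [IsScalarTower k K F]
    [IsScalarTower K (RatFunc K) F] [IsScalarTower k F (LL K)] [IsScalarTower K F (LL K)]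
    [IsScalarTower (RatFunc K) F (LL K)] [FiniteDimensional (RatFunc K) F] (ξ : PP σ F)
    (hx : On I (pmap (algebraMap F (LL K)) ξ)) (M : Multiset (PP σ (LL K)))
    (hM : M = (Finset.univ : Finset (F →ₐ[RatFunc K] LL K)).val.map
      fun g : F →ₐ[RatFunc K] LL K => pmap (g : F →+* LL K) ξ) :
    Principal I K (cyc (M.map P.red) - cyc (M.map Q.red)) := by
  have ht : Transcendental K (algebraMap (RatFunc K) F RatFunc.X) := by
    rw [← transcendental_algebraMap_iff (algebraMap F (LL K)).injective,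
      ← IsScalarTower.algebraMap_apply]
    exact tt_transcendental
  have hF : IsCurveFieldOver K F := ⟨_, ht, l2_fin⟩
  have : Nonempty (PP σ K) := ⟨P.red (pmap (algebraMap F (LL K)) ξ)⟩
  choose! c hc using fun V hV => hC K F σ ξ.rep V hF hV ξ.rep_nonzero
  have h := hD K F σ ξ _ c (Finset.univ.map ⟨fun g : F →ₐ[RatFunc K] LL K => g.restrictScalars K,
    AlgHom.restrictScalars_injective K⟩) P Q hF ht hc (fun f => ?_) hP hQ
  · refine ⟨F, inferInstance, inferInstance, inferInstance, inferInstance, hF, ξ.rep,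
      algebraMap (RatFunc K) F RatFunc.X, c,
      ξ.rep_nonzero, fun f hf => ?_, fun e => ht (e ▸ isAlgebraic_zero), hc, ?_⟩
    · rw [pmap, on_mk hI] at hx
      apply (algebraMap F (LL K)).injective
      rw [map_zero, ← hx f hf]
      exact comp_aeval_apply ξ.rep (IsScalarTower.toAlgHom k F (LL K)) f
    · rw [h, hM, bind_pure_comp, Multiset.fmap_def, Finset.map_val]
      simp only [Multiset.map_map]
      rfl
  · rw [Finset.mem_map]
    constructor
    · rintro ⟨g, _, rfl⟩
      exact g.commutes _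
    · intro e
      have e' := l2_ext (g := f.comp (IsScalarTower.toAlgHom K (RatFunc K) F))
        (g' := IsScalarTower.toAlgHom K (RatFunc K) (LL K)) e
      exact ⟨AlgHom.mk (f : F →+* LL K) fun r => e' r, Finset.mem_univ _, AlgHom.ext fun _ => rfl⟩

theorem l2_orb (hD : DivStmt) (hC : CenStmt) {I : Ideal (MvPolynomial σ k)} (hI : Hg I)
    {P Q : Plc (LL K) K} (hP : Zr P (tt K)) (hQ : Zr Q (tt K)⁻¹) {x : PP σ (LL K)} (hx : On I x)
    {O : Finset (PP σ (LL K))} (hO : Orb x O) :
    Principal I K (cyc (O.val.map P.red) - cyc (O.val.map Q.red)) := by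
  obtain ⟨ξ, hξ⟩ := l2_pt x
  have := (rat1_finite x).to_subtype
  have : FiniteDimensional (RatFunc K) (IntermediateField.adjoin (RatFunc K) (rat1 x)) :=
    IntermediateField.finiteDimensional_adjoin fun t _ => Algebra.IsIntegral.isIntegral t
  have inj := l2_inj hξ
  generalize IntermediateField.adjoin (RatFunc K) (rat1 x) = F at *
  subst hξ
  have : IsScalarTower K F (LL K) := IsScalarTower.of_algebraMap_eq fun _ => rfl
  have : IsScalarTower k F (LL K) := IsScalarTower.of_algebraMap_eq fun _ => rfl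
  have : IsScalarTower k K F := IsScalarTower.of_algebraMap_eq fun c =>
    Subtype.ext (IsScalarTower.algebraMap_apply k K (LL K) c)
  have hU : O = Finset.univ.map ⟨_, inj⟩ := by
    ext y
    rw [hO y, l2_mem_orb, Finset.mem_map]
    exact exists_congr fun g => (and_iff_right (Finset.mem_univ g)).symm
  exact l2_gen hD hC hI hP hQ ξ hx _ (congrArg Finset.val hU)

end

theorem l2S (hE : EndsStmt) (hO : OrbdecStmt) (hD : DivStmt) (hC : CenStmt) : L2Stmt := by
  intro k K σ _ _ _ _ _ _ I A B hI ⟨D, _, h⟩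
  have key : ∀ A B : Multiset (PP σ K), Relation.EqvGen (Step I) A B →
      cyc A - cyc B ∈ AddSubgroup.closure {E | Principal I K E} := by
    intro A B h
    induction h with
    | rel A B h =>
      obtain ⟨M, h1, h2, h3, h4⟩ := hE k K σ I A B h
      obtain ⟨⟨P, hP⟩, Q, hQ⟩ := exists_zr (K := K)
      rw [h3 P hP, h4 Q hQ]
      refine hO K σ (fun M => cyc (M.map P.red) - cyc (M.map Q.red) ∈
        AddSubgroup.closure {E | Principal I K E}) ?_ (fun A B hA hB => ?_) M h2
        fun x hx O hx' => AddSubgroup.subset_closure (l2_orb hD hC hI hP hQ (h1 x hx) hx')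
      · rw [Multiset.map_zero, Multiset.map_zero, sub_self]
        exact zero_mem _
      · rw [Multiset.map_add, Multiset.map_add, cyc_add, cyc_add, ← sub_add_sub_comm]
        exact add_mem hA hB
    | refl A => rw [sub_self]; exact zero_mem _
    | symm A B _ ih => rw [← neg_sub]; exact neg_mem ih
    | trans A B C _ _ h1 h2 => rw [← sub_add_sub_cancel _ (cyc B)]; exact add_mem h1 h2
  have := key _ _ h
  rwa [cyc_add, cyc_add, add_sub_add_right_eq_sub] at this

end Pool.Agent.MP_9207e0_ag.CC
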