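import Pool.Agent.MP_9207e0_ag.cc.RkA

/-! PROJECT CCC, row BR: loci and specialisations; pushing a point into a hypersurface. -/

noncomputable section

namespace Pool.Agent.MP_9207e0_ag.CC

open MvPolynomial
open scoped Classical

theorem brS : BrStmt := by
  intro k K σ ε _ _ _ _ ξ
  refine ⟨fun x hx f hf => ?_, fun L _ _ _ p hp => ?_⟩
  · obtain ⟨P, hP, h⟩ := hx
    obtain ⟨a, ha⟩ := exists_chart x
    have hr := fun i => P.ratio (ξ i) (a := a i) (by rw [h i]; exact ha i)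
    have hz : ∀ u : ε × σ,
        algebraMap k K ((x u.1).rep (a u.1)) / (ξ u.1).rep (a u.1) * (ξ u.1).rep u.2 ∈ P.V ∧
        P.fn (algebraMap k K ((x u.1).rep (a u.1)) / (ξ u.1).rep (a u.1) * (ξ u.1).rep u.2) =
          (x u.1).rep u.2 := fun u => by
      have h1 := (hr u.1).2 u.2
      have h2 := hP ((x u.1).rep (a u.1))
      rw [div_mul_eq_mul_div, mul_div_assoc]
      refine ⟨P.V.mul_mem _ _ h2.1 h1.1, ?_⟩
      rw [P.fn_mul h2.1 h1.1, h2.2, h1.2, h u.1]
      exact mul_div_cancel₀ _ (ha u.1)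
    have := ASp.of_plc hP (fun u => (hz u).1) f
      (hf fun i => algebraMap k K ((x i).rep (a i)) / (ξ i).rep (a i))
    simp only [fun u => (hz u).2] at this
    exact this
  · obtain ⟨a, ha⟩ := exists_chart p
    let F := FractionRing (MvPolynomial ε K)
    let y : ε × σ → MvPolynomial ε K := fun u => X u.1 * C ((ξ u.1).rep u.2)
    let g : MvPolynomial ε K →ₐ[k] F := IsScalarTower.toAlgHom k (MvPolynomial ε K) F
    have ginj : Function.Injective g := IsFractionRing.injective (MvPolynomial ε K) F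
    have hs : ASp k (fun u => g (y u)) fun u : ε × σ => (p u.1).rep u.2 := fun f hf => by
      refine hp f fun c => ?_
      rw [← comp_aeval_apply, map_eq_zero_iff g ginj] at hf
      have := congrArg ((aeval c : MvPolynomial ε K →ₐ[K] K).restrictScalars k) hf
      rw [comp_aeval_apply, map_zero] at this
      simpa [y] using this
    obtain ⟨P, hP, h⟩ := hs.place
    let e : K →ₐ[k] F := g.comp (IsScalarTower.toAlgHom k K (MvPolynomial ε K))
    obtain ⟨R, hR, hc⟩ := Plc.comp_over (Plc.ofHom_over e) hP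
    refine ⟨R, hR, fun i => ?_⟩
    have h1 : P.fn (g (y (i, a i))) ≠ 0 := by rw [(h (i, a i)).2]; exact ha i
    have hy : ∀ b, g (y (i, b)) = g (X i) * e ((ξ i).rep b) := fun b => map_mul g _ _
    have h2 := P.ne_zero_of_ne h1
    rw [hy] at h2
    have h3 : (ξ i).rep (a i) ≠ 0 := fun h0 => h2 (by rw [h0, map_zero, mul_zero])
    refine R.red_eq h3 (ha i) fun b => ?_
    have h4 : (Plc.ofHom (e : K →+* F)).fn ((ξ i).rep b / (ξ i).rep (a i)) =
        g (y (i, b)) / g (y (i, a i)) := by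
      rw [Plc.ofHom_fn, hy, hy, mul_div_mul_left _ _ (left_ne_zero_of_mul h2), map_div₀]
      rfl
    have h5 := hc _ (Plc.ofHom_mem _ _) (h4 ▸ P.div_mem (h (i, b)).1 h1)
    exact ⟨h5.1, by rw [h5.2, h4, P.fn_div (h (i, b)).1 h1, (h (i, b)).2, (h (i, a i)).2]⟩

theorem pushS : PushStmt := by
  intro k K σ _ _ _ _ _ S x s δ hδ hs hx
  by_cases h0 : aeval x.rep s = 0
  · refine ⟨Plc.ofHom (AlgHom.id k K : K →+* K), Plc.ofHom_over _,
      fun t _ => ⟨Plc.ofHom_mem _ _, Plc.ofHom_fn _ _⟩, ?_⟩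
    have e : (Plc.ofHom (AlgHom.id k K : K →+* K)).red x = x :=
      (Plc.ofHom_red _ _).trans (pmap_id x)
    rwa [e]
  obtain ⟨j, hj⟩ : ∃ j, x.rep j ^ δ / aeval x.rep s ∉ cl k S := by
    by_contra h
    push Not at h
    refine hx ?_
    rintro _ ⟨a, b, rfl⟩
    refine mem_cl_of_pow hδ ?_
    rw [div_pow, ← div_div_div_cancel_right₀ h0]
    exact div_mem_cl (h a) (h b)
  rw [← inv_mem_cl, inv_div] at hj
  obtain ⟨P, hP, h1, h2, h3⟩ := exists_plc_zero hj
  refine ⟨P, hP, h1, ?_⟩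
  obtain ⟨v, v0, v1, hv, rfl, e⟩ := P.exists_prim x
  have hvj : v j ≠ 0 := fun h => hj (by
    rw [(rep_mk_eq_zero v0 j).2 h, zero_pow hδ.ne', div_zero, ← map_zero (algebraMap k K)]
    exact algebraMap_mem_cl S 0)
  obtain ⟨c, hc⟩ := Projectivization.exists_smul_eq_mk_rep K v v0
  have ht : aeval (Projectivization.mk K v v0).rep s / (Projectivization.mk K v v0).rep j ^ δ *
      v j ^ δ = aeval v s := by
    rw [← hc, Units.smul_def, aeval_smul_homog hs, Pi.smul_apply, smul_eq_mul, mul_pow,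
      mul_div_mul_left _ _ (pow_ne_zero δ c.ne_zero), div_mul_cancel₀ _ (pow_ne_zero δ hvj)]
  rw [e, aeval_mk_eq_zero hs, ← (P.aeval_fn hP hv s).2, ← ht, P.fn_mul h2 (pow_mem (hv j) δ), h3,
    zero_mul]

end Pool.Agent.MP_9207e0_ag.CC
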