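import Pool.Agent.MP_9207e0_ag.cc.Spec

/-! PROJECT CCC, row CARD: finitely many zeros impose independent conditions in high degree. -/

noncomputable section

namespace Pool.Agent.MP_9207e0_ag.CC

open MvPolynomial
open scoped Classical

theorem card_sep {K σ : Type} [Field K] (z z' : PP σ K) (h : z' ≠ z) :
    ∃ l : MvPolynomial σ K, l.IsHomogeneous 1 ∧ eval z.rep l ≠ 0 ∧ eval z'.rep l = 0 := by
  obtain ⟨a, ha⟩ : ∃ a, z'.rep a ≠ 0 := Function.ne_iff.1 z'.rep_nonzero
  obtain ⟨b, hb⟩ : ∃ b, z'.rep a * z.rep b - z'.rep b * z.rep a ≠ 0 := by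
    by_contra hc
    simp only [not_exists, ne_eq, not_not] at hc
    apply h
    rw [← z.mk_rep, ← z'.mk_rep, eq_comm, Projectivization.mk_eq_mk_iff']
    refine ⟨z.rep a / z'.rep a, funext fun b => ?_⟩
    have := hc b
    simp only [Pi.smul_apply, smul_eq_mul]
    field_simp
    linear_combination -this
  refine ⟨C (z'.rep a) * X b - C (z'.rep b) * X a, ?_, ?_, ?_⟩
  · exact ((isHomogeneous_X K b).C_mul _).sub ((isHomogeneous_X K a).C_mul _)
  · simpa using hb
  · simp [mul_comm]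

theorem card_form {K σ : Type} [Field K] (Z : Finset (PP σ K)) (j : ℕ) (hj : Z.card ≤ j)
    (z : PP σ K) : ∃ f : MvPolynomial σ K, f.IsHomogeneous j ∧ eval z.rep f ≠ 0 ∧
      ∀ z' ∈ Z, z' ≠ z → eval z'.rep f = 0 := by
  obtain ⟨a, ha⟩ : ∃ a, z.rep a ≠ 0 := Function.ne_iff.1 z.rep_nonzero
  have h1 : ∀ z' : PP σ K, ∃ l : MvPolynomial σ K, z' ≠ z →
      l.IsHomogeneous 1 ∧ eval z.rep l ≠ 0 ∧ eval z'.rep l = 0 := by
    intro z'
    by_cases h : z' = z
    · exact ⟨0, fun h' => absurd h h'⟩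
    · obtain ⟨l, hl⟩ := card_sep z z' h
      exact ⟨l, fun _ => hl⟩
  choose l hl using h1
  have hc : (Z.erase z).card ≤ j := (Finset.card_erase_le).trans hj
  refine ⟨(∏ z' ∈ Z.erase z, l z') * X a ^ (j - (Z.erase z).card), ?_, ?_, ?_⟩
  · have h2 := (IsHomogeneous.prod (Z.erase z) l (fun _ => 1)
      fun i hi => (hl i (Finset.ne_of_mem_erase hi)).1).mul
      ((isHomogeneous_X K a).pow (j - (Z.erase z).card))
    rwa [Finset.sum_const, smul_eq_mul, mul_one, one_mul, Nat.add_sub_cancel' hc] at h2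
  · rw [map_mul, map_prod, map_pow, eval_X]
    exact mul_ne_zero (Finset.prod_ne_zero_iff.2 fun i hi =>
      (hl i (Finset.ne_of_mem_erase hi)).2.1) (pow_ne_zero _ ha)
  · intro z' hz' hne
    rw [map_mul, map_prod,
      Finset.prod_eq_zero (Finset.mem_erase.2 ⟨hne, hz'⟩) (hl z' hne).2.2, zero_mul]

theorem cardS : CardStmt := by
  intro K σ _ _ J Z j hZ hj
  choose f hf1 hf2 hf3 using card_form Z j hj
  obtain ⟨M, hM⟩ : ∃ M : Submodule K (MvPolynomial σ K ⧸ J),
      M = (homogeneousSubmodule σ K j).map (Ideal.Quotient.mkₐ K J).toLinearMap := ⟨_, rfl⟩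
  have hfin : Module.Finite K M := by
    rw [Module.Finite.iff_fg, hM]
    exact (homogeneousSubmodule_fg σ K j).map _
  have hmem : ∀ z, Ideal.Quotient.mkₐ K J (f z) ∈ M := fun z =>
    hM ▸ Submodule.mem_map_of_mem (f := (Ideal.Quotient.mkₐ K J).toLinearMap) (hf1 z)
  have hli : LinearIndependent K fun z : Z => (⟨_, hmem z⟩ : M) := by
    rw [Fintype.linearIndependent_iff]
    intro g hg z
    have h1 : Ideal.Quotient.mkₐ K J (∑ i : Z, g i • f i) = 0 := by
      have := congrArg M.subtype hg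
      rw [map_sum, map_zero] at this
      rw [map_sum, ← this]
      exact Finset.sum_congr rfl fun i _ => by rw [map_smul, map_smul]; rfl
    have h2 := hZ z z.2 _ (Ideal.Quotient.eq_zero_iff_mem.1 h1)
    rw [map_sum, Finset.sum_eq_single z] at h2
    · rw [smul_eval] at h2
      exact (mul_eq_zero.1 h2).resolve_right (hf2 z)
    · intro i _ hi
      rw [smul_eval, hf3 i z z.2 (fun e => hi (Subtype.ext e.symm)), mul_zero]
    · exact fun h => absurd (Finset.mem_univ z) h
  have h3 := hli.fintype_card_le_finrank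
  rw [Fintype.card_coe, hM] at h3
  exact h3

end Pool.Agent.MP_9207e0_ag.CC
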