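import Pool.Agent.MP_9207e0_ag.cc.Rk

/-! PROJECT CCC: the base locus of a generic pencil is finite and has many moduli. -/

noncomputable section

namespace Pool.Agent.MP_9207e0_ag.CC

open MvPolynomial
open scoped Classical

variable {k K σ : Type} [Field k] [Field K] [Algebra k K]

theorem ci_comp {F : MvPolynomial σ K} {m : ℕ} (hF : F.IsHomogeneous m) (u : MvPolynomial σ K) :
    homogeneousComponent m (u * F) = C (coeff 0 u) * F := by
  induction u using MvPolynomial.induction_on' with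
  | monomial d a =>
    have h := (isHomogeneous_monomial a (rfl : d.degree = d.degree)).mul hF
    rw [homogeneousComponent_of_mem h, coeff_monomial]
    by_cases hd : d = 0
    · subst hd
      simp
    · have : d.degree ≠ 0 := fun h => hd ((Finsupp.degree_eq_zero_iff d).1 h)
      rw [if_neg (by omega), if_neg hd, C_0, zero_mul]
  | add p q hp hq => rw [add_mul, map_add, hp, hq, coeff_add, C_add, add_mul]

theorem ci_fm {h : ℕ} (β : Fin h → MvPolynomial σ k) (e c c' : Fin h → K) (s t : K) :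
    fm β (e - (s • c + t • c')) = fm β e - (C s * fm β c + C t * fm β c') := by
  simp only [fm, Finset.mul_sum, ← Finset.sum_add_distrib, ← Finset.sum_sub_distrib]
  refine Finset.sum_congr rfl fun l _ => ?_
  simp only [Pi.sub_apply, Pi.add_apply, Pi.smul_apply, smul_eq_mul, map_sub, map_add, map_mul]
  ring

theorem ci_span {I : Ideal (MvPolynomial σ k)} (hI : Hg I) {m h : ℕ}
    {β : Fin h → MvPolynomial σ k} (hB : Bas I m β) {e c c' : Fin h → K}
    (he : fm β e ∈ IK K I ⊔ Ideal.span {fm β c, fm β c'}) :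
    e ∈ Submodule.span K (Set.range ![c, c']) := by
  obtain ⟨i, hi, g, hg, e1⟩ := Submodule.mem_sup.1 he
  obtain ⟨u, v, rfl⟩ := Ideal.mem_span_pair.1 hg
  have e2 := congrArg (homogeneousComponent m) e1
  rw [map_add, map_add, ci_comp (fm_homog hB.homog c), ci_comp (fm_homog hB.homog c'),
    homogeneousComponent_of_mem (fm_homog hB.homog e), if_pos rfl] at e2
  have e3 := hB.indep K (e - (coeff 0 u • c + coeff 0 v • c')) (by
    rw [ci_fm, ← e2, add_sub_cancel_right]
    exact hI.IK i hi m)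
  rw [sub_eq_zero.1 e3]
  exact add_mem (Submodule.smul_mem _ _ (Submodule.subset_span ⟨0, rfl⟩))
    (Submodule.smul_mem _ _ (Submodule.subset_span ⟨1, rfl⟩))

theorem ci_two {h : ℕ} {W : Submodule K (Fin h → K)} {c c' : Fin h → K}
    (hW : ∀ e ∈ W, e ∈ Submodule.span K (Set.range ![c, c'])) : Module.finrank K W ≤ 2 := by
  have h1 : Module.finrank K (Submodule.span K (Set.range ![c, c'])) ≤ Fintype.card (Fin 2) :=
    finrank_range_le_card ![c, c']
  exact (Submodule.finrank_mono hW).trans h1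

theorem ci_chart {F : MvPolynomial σ K} {m : ℕ} (hF : F.IsHomogeneous m) {x : PP σ K} {a : σ}
    (ha : x.rep a ≠ 0) : eval (fun b => x.rep b / x.rep a) F = 0 ↔ eval x.rep F = 0 := by
  obtain ⟨h0, e⟩ := mk_div x ha
  rw [← eval_mk_eq_zero hF h0, e]

theorem ciS (hN : NumStmt) (hR : RadStmt) (hC : CardStmt) (hT : TrgStmt) (hL : LinStmt) :
    CiStmt := by
  intro k K _ _ _ _ _ r a I hI m h β c c' hm hB hc
  have hg : Hg I := hI.homog
  have hF := fm_homog hB.homog c
  have hG := fm_homog hB.homog c'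
  obtain ⟨b, hb⟩ := hB.span k (X 0 ^ m) (by simpa using (isHomogeneous_X k 0).pow m)
  obtain ⟨b', hb'⟩ := hB.span k (X 1 ^ m) (by simpa using (isHomogeneous_X k 1).pow m)
  rw [IK_self, ← neg_mem_iff, neg_sub] at hb hb'
  obtain ⟨P, hP, hv⟩ := (ASp.of_indep hc (Sum.elim b b')).place
  obtain ⟨nzd, num⟩ := hN k K r a I hI m P _ _ _ _ hm hP hF hG
    (Rd.fm hP β fun l => hv (Sum.inl l)) (Rd.fm hP β fun l => hv (Sum.inr l)) hb hb'
  have card : ∀ Z : Finset (PP (Fin (r + 3)) K), (∀ x ∈ Z, Zs I (fm β c) (fm β c') x) →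
      Z.card ≤ 2 * a * m ^ 2 := by
    intro Z hZ
    refine (hC K _ _ Z (Z.card + (2 * m + 1)) (fun x hx f hf => ?_) (by omega)).trans
      (num _ (by omega))
    obtain ⟨i, hi, g, hg, rfl⟩ := Submodule.mem_sup.1 hf
    obtain ⟨u, v, rfl⟩ := Ideal.mem_span_pair.1 hg
    obtain ⟨h1, h2, h3⟩ := hZ x hx
    rw [map_add, map_add, map_mul, map_mul, h2, h3, IK_eval h1 hi]
    simp
  have fin : {x | Zs I (fm β c) (fm β c') x}.Finite := by
    by_contra hinf
    obtain ⟨Z, h1, h2⟩ := Set.Infinite.exists_subset_card_eq hinf (2 * a * m ^ 2 + 1)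
    have := card Z fun x hx => h1 hx
    omega
  refine ⟨fin.toFinset, fun x => fin.mem_toFinset, ?_⟩
  have hZ : ∀ x, x ∈ fin.toFinset ↔ Zs I (fm β c) (fm β c') x := fun x => fin.mem_toFinset
  generalize fin.toFinset = Z at hZ
  obtain ⟨ch, hch⟩ := exists_chart fun x : Z => (x : PP (Fin (r + 3)) K)
  set S := rat fun x : Z => (x : PP (Fin (r + 3)) K) with hS
  let A : Z → Fin h → K := fun x l => aeval (fun j => x.1.rep j / x.1.rep (ch x)) (β l)
  have hA : ∀ x l, A x l ∈ cl k S := fun x l =>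
    aeval_mem_cl (fun j => subset_cl S ⟨x, j, ch x, rfl⟩) _
  let W : Submodule K (Fin h → K) := LinearMap.ker (Matrix.mulVecLin (Matrix.of A))
  have hW : ∀ e, e ∈ W ↔ ∀ x, ∑ l, A x l * e l = 0 := fun e => by
    simp [W, funext_iff, Matrix.mulVec, dotProduct]
  have hW' : ∀ e, e ∈ W ↔ ∀ x : Z, eval x.1.rep (fm β e) = 0 := fun e => by
    rw [hW]
    refine forall_congr' fun x => ?_
    rw [← ci_chart (fm_homog hB.homog e) (hch x), eval_fm]
  have hr : Module.finrank K W ≤ 2 := ci_two fun e he => ci_span hg hB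
    (hR k K _ I _ _ _ m m m 2 hg hF hG (fm_homog hB.homog e) nzd fun x hx =>
      ⟨hT k K r a I hI m h β c c' hm hB hc x hx, (hW' e).1 he ⟨x, (hZ x).2 hx⟩⟩)
  have l1 := (hL k K _ _ S A W 2 hA hW hr c ((hW' c).2 fun x => ((hZ x).1 x.2).2.1)).1
  have l2 := (hL k K _ _ (S ∪ Set.range c) A W 2
    (fun x l => cl_mono Set.subset_union_left (hA x l)) hW hr c'
    ((hW' c').2 fun x => ((hZ x).1 x.2).2.2)).1
  have l3 : rk k (Set.range (Sum.elim c c')) ≤ rk k (S ∪ Set.range c ∪ Set.range c') := by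
    refine rk_mono ?_
    rw [Set.Sum.elim_range]
    exact Set.union_subset_union_left _ Set.subset_union_right
  have hh : h + h = a * m ^ 2 + 2 + (a * m ^ 2 + 2) := by rw [← hI.hilb m hm, ← hB.card]
  rw [rk_range_of_indep hc, Fintype.card_sum, Fintype.card_fin, hh] at l3
  have l4 : ((2 * a * m ^ 2 : ℕ) : ℕ∞) + 4 ≤ rk k S + 4 := by
    calc ((2 * a * m ^ 2 : ℕ) : ℕ∞) + 4 = ((a * m ^ 2 + 2 + (a * m ^ 2 + 2) : ℕ) : ℕ∞) := by
          push_cast
          ring
      _ ≤ rk k S + (2 : ℕ) + (2 : ℕ) := l3.trans (l2.trans (by gcongr))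
      _ = rk k S + 4 := by
          rw [add_assoc]
          rfl
  exact (Nat.cast_le.2 (card Z fun x hx => (hZ x).1 hx)).trans
    ((ENat.add_le_add_iff_right (by simp)).1 l4)

end Pool.Agent.MP_9207e0_ag.CC
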