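import Pool.Agent.MP_9207e0_ag.cc.Rk

/-! PROJECT CCC: the class of a generic complete intersection is constant. -/

noncomputable section

namespace Pool.Agent.MP_9207e0_ag.CC

open MvPolynomial
open scoped Classical

theorem cls_map_val {A B : Type} {S : Finset A} {T : Finset B} {f : A → B}
    (h1 : ∀ x ∈ S, f x ∈ T) (h2 : Set.InjOn f S) (h3 : T.card ≤ S.card) : S.val.map f = T.val := by
  rw [← Finset.image_val_of_injOn h2, Finset.eq_of_subset_of_card_le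
    (Finset.image_subset_iff.2 h1) (by rwa [Finset.card_image_of_injOn h2])]

theorem cls_inj (hT : TrgStmt) (hU : Uniq2Stmt) {k K L : Type} [Field k] [IsAlgClosed k] [Field K]
    [Field L] [IsAlgClosed L] [Algebra k K] [Algebra k L] {r a : ℕ}
    {I : Ideal (MvPolynomial (Fin (r + 3)) k)} (hI : IsK3Model I a) {m h : ℕ}
    {β : Fin h → MvPolynomial (Fin (r + 3)) k} (hm : 1 ≤ m) (hβ : Bas I m β) {c c' : Fin h → K}
    {e e' : Fin h → L} (he : AlgebraicIndependent k (Sum.elim e e')) {P : Plc K L} (hP : P.Over k)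
    (h1 : ∀ l, c l ∈ P.V ∧ P.fn (c l) = e l) (h2 : ∀ l, c' l ∈ P.V ∧ P.fn (c' l) = e' l)
    {S : Finset (PP (Fin (r + 3)) K)} {T : Finset (PP (Fin (r + 3)) L)}
    (hS : ∀ x, x ∈ S ↔ Zs I (fm β c) (fm β c') x) (hT' : ∀ x, x ∈ T ↔ Zs I (fm β e) (fm β e') x) :
    (∀ x ∈ S, P.red x ∈ T) ∧ Set.InjOn P.red (S : Set (PP (Fin (r + 3)) K)) := by
  have h3 : ∀ x ∈ S, Zs I (fm β e) (fm β e') (P.red x) := fun x hx =>
    Zs.red hI.homog hP (fm_homog hβ.homog c) (fm_homog hβ.homog c') (Rd.fm hP β h1) (Rd.fm hP β h2)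
      ((hS x).1 hx)
  exact ⟨fun x hx => (hT' _).2 (h3 x hx), fun x hx x' hx' e0 =>
    hU k K L _ I P _ _ _ _ m m x x' hI.homog hP (fm_homog hβ.homog c) (fm_homog hβ.homog c')
      (Rd.fm hP β h1) (Rd.fm hP β h2) ((hS x).1 hx) ((hS x').1 hx') e0
      (hT k L r a I hI m h β e e' hm hβ he _ (h3 x hx))⟩

/-- The pencil through `c` and `b`. -/
def clsE {K : Type} [Field K] (c b : K) : LL K :=
  algebraMap K (LL K) c + tt K * algebraMap K (LL K) b

theorem clsE_zero {K : Type} [Field K] {P : Plc (LL K) K} (hP : Zr P (tt K)) (c b : K) :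
    clsE c b ∈ P.V ∧ P.fn (clsE c b) = c := by
  obtain ⟨h1, h2, h3⟩ := hP
  have h4 := P.V.mul_mem _ _ h2 (h1 b).1
  refine ⟨P.V.add_mem _ _ (h1 c).1 h4, ?_⟩
  rw [clsE, P.fn_add (h1 c).1 h4, P.fn_mul h2 (h1 b).1, h3, zero_mul, add_zero, (h1 c).2]
  rfl

theorem clsE_inf {K : Type} [Field K] {P : Plc (LL K) K} (hP : Zr P (tt K)⁻¹) (c b : K) :
    (tt K)⁻¹ * clsE c b ∈ P.V ∧ P.fn ((tt K)⁻¹ * clsE c b) = b := by
  obtain ⟨h1, h2, h3⟩ := hP
  have h0 : tt K ≠ 0 := fun e => tt_transcendental (K := K) (e ▸ isAlgebraic_zero)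
  have h4 := P.V.mul_mem _ _ h2 (h1 c).1
  rw [clsE, mul_add, inv_mul_cancel_left₀ h0]
  refine ⟨P.V.add_mem _ _ h4 (h1 b).1, ?_⟩
  rw [P.fn_add h4 (h1 b).1, P.fn_mul h2 (h1 c).1, h3, zero_mul, zero_add, (h1 b).2]
  rfl

theorem clsE_fix {K : Type} [Field K] (τ : LL K ≃ₐ[RatFunc K] LL K) (c b : K) :
    τ (clsE c b) = clsE c b := by
  rw [clsE, tt, IsScalarTower.algebraMap_apply K (RatFunc K) (LL K) c,
    IsScalarTower.algebraMap_apply K (RatFunc K) (LL K) b, ← map_mul, ← map_add, τ.commutes]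

theorem clsS (hC : CiStmt) (hT : TrgStmt) (hU : Uniq2Stmt) (hF : FamStmt) (hD : DimStmt)
    (hR : RatpStmt) : ClsStmt := by
  intro k K _ _ _ _ _ _ r a I hI m h β c c' Z hm hβ hc hZ
  have : CharZero K := charZero_of_injective_algebraMap (algebraMap k K).injective
  obtain ⟨b, hb⟩ := hβ.span K (X 0 ^ m) (isHomogeneous_X_pow _ _)
  obtain ⟨b', hb'⟩ := hβ.span K (X 1 ^ m) (isHomogeneous_X_pow _ _)
  obtain ⟨⟨P, hP⟩, Q, hQ⟩ := exists_zr (K := K)
  have hPk : P.Over k := hP.1.self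
  have hQk : Q.Over k := hQ.1.self
  set e : Fin h → LL K := fun l => clsE (c l) (b l) with he
  set e' : Fin h → LL K := fun l => clsE (c' l) (b' l) with he'
  have p1 : ∀ l, e l ∈ P.V ∧ P.fn (e l) = c l := fun l => clsE_zero hP _ _
  have p2 : ∀ l, e' l ∈ P.V ∧ P.fn (e' l) = c' l := fun l => clsE_zero hP _ _
  have hi : AlgebraicIndependent k (Sum.elim e e') := by
    have h1 := ASp.of_plc hPk (z := Sum.elim e e') (by
      rintro (l | l)
      exacts [(p1 l).1, (p2 l).1])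
    have h2 : (fun i => P.fn (Sum.elim e e' i)) = Sum.elim c c' := funext (by
      rintro (l | l)
      exacts [(p1 l).2, (p2 l).2])
    rw [h2] at h1
    exact algebraicIndependent_iff.2 fun f hf => algebraicIndependent_iff.1 hc f (h1 f hf)
  obtain ⟨Z', hZ', -⟩ := hC k (LL K) r a I hI m h β e e' hm hβ hi
  have hG : Gal Z'.val := fun τ => by
    have h0 : (Plc.ofHom (τ : LL K →+* LL K)).Over k := fun x => ⟨Plc.ofHom_mem _ _, by
      rw [Plc.ofHom_fn, IsScalarTower.algebraMap_apply k (RatFunc K) (LL K) x]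
      exact τ.commutes _⟩
    obtain ⟨h1, h2⟩ := cls_inj hT hU hI hm hβ hi h0
      (fun l => ⟨Plc.ofHom_mem _ _, (Plc.ofHom_fn _ _).trans (clsE_fix τ _ _)⟩)
      (fun l => ⟨Plc.ofHom_mem _ _, (Plc.ofHom_fn _ _).trans (clsE_fix τ _ _)⟩) hZ' hZ'
    rw [← funext (Plc.ofHom_red (τ : LL K →+* LL K))]
    exact cls_map_val h1 h2 le_rfl
  have hcard : Z.card ≤ Z'.card := by
    obtain ⟨P', q0, q1⟩ := (ASp.of_indep hc (Sum.elim e e')).place
    obtain ⟨h1, h2⟩ := cls_inj hT hU hI hm hβ hi q0 (fun l => q1 (Sum.inl l))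
      (fun l => q1 (Sum.inr l)) hZ hZ'
    exact Finset.card_le_card_of_injOn _ h1 h2
  obtain ⟨h1, h2⟩ := cls_inj hT hU hI hm hβ hc hPk p1 p2 hZ' hZ
  have hon : OnM I Z'.val := fun x hx => ((hZ' x).1 hx).1
  have hs := hF k K _ I Z'.val P Q hI.homog hon hG hP hQ
  rw [cls_map_val h1 h2 hcard] at hs
  have sc : ∀ (v : Fin (r + 3) → LL K) (d : Fin h → LL K), eval v (fm β d) = 0 →
      eval v (fm β fun l => (tt K)⁻¹ * d l) = 0 := fun v d h0 => by
    rw [eval_fm] at h0 ⊢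
    simp only [mul_left_comm _ (tt K)⁻¹, ← Finset.mul_sum, h0, mul_zero]
  have hK : ∀ x ∈ Z'.val, ∃ q : PP (Fin (r + 3)) k, Q.red x = bc K q := fun x hx => by
    obtain ⟨z1, z2, z3⟩ := (hZ' x).1 hx
    obtain ⟨y1, y2, y3⟩ := Zs.red hI.homog hQk (fm_homog hβ.homog _) (fm_homog hβ.homog _)
      (Rd.fm hQk β fun l => clsE_inf hQ (c l) (b l))
      (Rd.fm hQk β fun l => clsE_inf hQ (c' l) (b' l)) ⟨z1, sc _ _ z2, sc _ _ z3⟩
    have w1 := IK_eval y1 hb
    have w2 := IK_eval y1 hb'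
    rw [map_sub, y2, sub_zero, map_pow, eval_X] at w1
    rw [map_sub, y3, sub_zero, map_pow, eval_X] at w2
    exact (hD k K r a I hI _ y1).2 (pow_eq_zero_iff (by omega) |>.1 w1)
      (pow_eq_zero_iff (by omega) |>.1 w2)
  choose! q hq using hK
  refine ⟨Z'.val.map q, fun y hy => ?_, ?_⟩
  · obtain ⟨x, hx, rfl⟩ := Multiset.mem_map.1 hy
    exact On.of_bc (K := K) hI.homog (hq x hx ▸ (hon x hx).red hI.homog hQk)
  · rw [Multiset.map_map, ← Multiset.map_congr (g := bc K ∘ q) rfl hq]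
    exact (hR k K _ I hI.homog).2.1 _ _ hs

end Pool.Agent.MP_9207e0_ag.CC
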