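import Pool.Agent.MP_9207e0_ag.cc.Spec

/-! PROJECT CCC, row CUTS: every equation lowers the rank by at most one. -/

noncomputable section

namespace Pool.Agent.MP_9207e0_ag.CC

open MvPolynomial
open scoped Classical

variable {k K L ι : Type} [Field k] [Field K] [Field L] [Algebra k K] [Algebra k L]

theorem cuts_rk (f : K →ₐ[k] L) (z : ι → K) :
    rk k (Set.range z) ≤ rk k (Set.range fun i => f (z i)) := by
  obtain ⟨B, hB⟩ := (AlgebraicIndependent.matroid k K).exists_isBasis (Set.range z)
  have h1 : AlgebraicIndependent k fun x : B => (x : K) := hB.indep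
  have h2 : (AlgebraicIndependent.matroid k L).Indep (f '' B) :=
    AlgebraicIndependent.image (s := B) (f := f) (h1.map' f.injective)
  have h3 : Function.Injective f := f.injective
  unfold rk
  rw [← hB.encard_eq_eRk, ← h3.encard_image B, ← h2.eRk_eq_encard]
  refine Matroid.eRk_mono _ ?_
  rintro _ ⟨x, hx, rfl⟩
  obtain ⟨i, rfl⟩ := hB.subset hx
  exact ⟨i, rfl⟩

theorem cuts_inv (z : ι → K) (g : MvPolynomial ι k) : (aeval z g)⁻¹ ∈ cl k (Set.range z) := by
  unfold cl
  rw [AlgebraicIndependent.matroid_closure_eq, SetLike.mem_coe, Subalgebra.mem_algebraicClosure]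
  refine IsAlgebraic.inv (isAlgebraic_algebraMap
    (⟨aeval z g, ?_⟩ : Algebra.adjoin k (Set.range z)))
  rw [Algebra.adjoin_range_eq_range_aeval]
  exact ⟨g, rfl⟩

theorem cutsS (h : ValStmt) : CutsStmt := by
  intro k K L ι τ _ _ _ _ _ _ _ _ z p g hz hg
  have key : ∀ s : Finset τ, ∃ (E : Ext k) (z' : ι → E.K), ASp k z z' ∧ ASp k z' p ∧
      (∀ t ∈ s, aeval z' (g t) = 0) ∧ rk k (Set.range z) ≤ rk k (Set.range z') + s.card := by
    intro s
    induction s using Finset.induction_on with
    | empty =>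
      let f : K →ₐ[k] AlgebraicClosure K := IsScalarTower.toAlgHom k K _
      have e : ∀ q : MvPolynomial ι k, aeval (fun i => f (z i)) q = f (aeval z q) := fun q =>
        (comp_aeval_apply z f q).symm
      refine ⟨⟨AlgebraicClosure K⟩, fun i => f (z i), fun q hq => ?_, fun q hq => hz q ?_,
        fun t ht => absurd ht (Finset.notMem_empty t), (cuts_rk f z).trans le_self_add⟩
      · exact (e q).trans (by rw [hq, map_zero])
      · exact f.injective (((e q).symm.trans hq).trans (map_zero f).symm)
    | insert t s ht ih =>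
      obtain ⟨E, w, a1, a2, a3, a4⟩ := ih
      rw [Finset.card_insert_of_notMem ht, Nat.cast_succ]
      by_cases h0 : aeval w (g t) = 0
      · refine ⟨E, w, a1, a2, fun t' ht' => ?_, a4.trans (add_le_add le_rfl le_self_add)⟩
        rcases Finset.mem_insert.1 ht' with rfl | ht'
        exacts [h0, a3 t' ht']
      obtain ⟨P, hP, hw⟩ := a2.place
      have e : (fun i => P.fn (w i)) = p := funext fun i => (hw i).2
      have b1 := P.aeval_fn hP (fun i => (hw i).1) (g t)
      rw [e, hg] at b1
      obtain ⟨E', Q, hQ, c1, c2, c3, c4⟩ := h k E.K L ι w _ P hP (fun i => (hw i).1)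
        (cuts_inv w (g t)) (P.notMem_inv h0 b1.1 b1.2)
      have c5 := ASp.of_plc hQ c1
      refine ⟨E', fun i => Q.fn (w i), a1.trans c5, e ▸ c3, fun t' ht' => ?_, ?_⟩
      · rcases Finset.mem_insert.1 ht' with rfl | ht'
        · have := (Q.inv_of_notMem c2).2
          rwa [inv_inv, (Q.aeval_fn hQ c1 _).2] at this
        · exact c5 _ (a3 t' ht')
      · refine a4.trans ((add_le_add c4 le_rfl).trans (le_of_eq ?_))
        rw [add_assoc, add_comm 1]
  obtain ⟨E, w, a1, a2, a3, a4⟩ := key Finset.univ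
  exact ⟨E, w, a1, a2, fun t => a3 t (Finset.mem_univ t), a4⟩

end Pool.Agent.MP_9207e0_ag.CC
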