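import Pool.Agent.MP_9207e0_ag.cc.Rk

/-! PROJECT CCC, row DIM: the projection to the first three coordinates is finite. -/

noncomputable section

namespace Pool.Agent.MP_9207e0_ag.CC

open MvPolynomial
open scoped Classical

theorem dim_mem_of_hf {k σ : Type} [Field k] [Finite σ] {J : Ideal (MvPolynomial σ k)} {j : ℕ}
    (h : hf J j = 0) {f : MvPolynomial σ k} (hf' : f.IsHomogeneous j) : f ∈ J := by
  have hfg : ((homogeneousSubmodule σ k j).map (Ideal.Quotient.mkₐ k J).toLinearMap).FG :=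
    (homogeneousSubmodule_fg σ k j).map _
  have := Module.Finite.iff_fg.2 hfg
  have hb : (homogeneousSubmodule σ k j).map (Ideal.Quotient.mkₐ k J).toLinearMap = ⊥ :=
    Submodule.finrank_eq_zero.1 h
  have hm : (Ideal.Quotient.mkₐ k J).toLinearMap f ∈
      (homogeneousSubmodule σ k j).map (Ideal.Quotient.mkₐ k J).toLinearMap :=
    Submodule.mem_map_of_mem ((mem_homogeneousSubmodule _ _).2 hf')
  rw [hb, Submodule.mem_bot] at hm
  exact Ideal.Quotient.eq_zero_iff_mem.1 hm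

theorem nozS (h : ExactStmt) : NozStmt := by
  intro k K _ _ _ r a I hI v hv h0 h1 h2
  obtain ⟨g1, -, a1, b1⟩ := h k (Fin (r + 3)) I (X 0) 1 hI.homog (isHomogeneous_X k 0)
  obtain ⟨g2, -, a2, b2⟩ := h k (Fin (r + 3)) _ (X 1) 1 g1 (isHomogeneous_X k 1)
  obtain ⟨-, -, -, b3⟩ := h k (Fin (r + 3)) _ (X 2) 1 g2 (isHomogeneous_X k 2)
  have c1 := b1.1 fun g hg => (hI.prime.mem_or_mem hg).resolve_left hI.reg0
  have c2 := b2.1 hI.reg1
  have c3 := b3.1 (by
    rw [sup_assoc, ← Ideal.span_insert]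
    exact hI.reg2)
  have e1 := hI.hilb 1 (by norm_num)
  have e2 := hI.hilb 2 (by norm_num)
  have e3 := hI.hilb 3 (by norm_num)
  have e4 := hI.hilb 4 (by norm_num)
  have z : hf (I ⊔ Ideal.span {X 0} ⊔ Ideal.span {X 1} ⊔ Ideal.span {X 2}) 4 = 0 := by
    have := c3 3
    have := c2 3
    have := a2 2
    have := c1 3
    have := c1 1
    have := a1 2
    norm_num at *
    omega
  have hk : I ⊔ Ideal.span {X 0} ⊔ Ideal.span {X 1} ⊔ Ideal.span {X 2} ≤
      RingHom.ker (aeval v : MvPolynomial (Fin (r + 3)) k →ₐ[k] K) := by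
    refine sup_le (sup_le (sup_le hv ?_) ?_) ?_ <;>
      rw [Ideal.span_singleton_le_iff_mem, RingHom.mem_ker, aeval_X] <;> assumption
  funext j
  have := hk (dim_mem_of_hf z (isHomogeneous_X_pow j 4))
  rw [RingHom.mem_ker, map_pow, aeval_X] at this
  exact pow_eq_zero_iff (by norm_num) |>.1 this

theorem dim_key (h : NozStmt) {k K : Type} [Field k] [Field K] [IsAlgClosed K] [Algebra k K]
    {r a : ℕ} {I : Ideal (MvPolynomial (Fin (r + 3)) k)} (hI : IsK3Model I a)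
    {x : PP (Fin (r + 3)) K} (hx : On I x) {S : Set K} {c : Fin (r + 3)} (hc : x.rep c ≠ 0)
    (h0 : x.rep 0 / x.rep c ∈ cl k S) (h1 : x.rep 1 / x.rep c ∈ cl k S)
    (h2 : x.rep 2 / x.rep c ∈ cl k S) : rat1 x ⊆ cl k S := by
  have key : ∀ j, x.rep c / x.rep j ∈ cl k S := fun j => by
    by_contra ht
    obtain ⟨P, hP, hS, ht1, ht2⟩ := exists_plc_zero ht
    have hon := hx.red hI.homog hP
    obtain ⟨v, v0, v1, hv, rfl, e⟩ := P.exists_prim x
    rw [e, on_mk hI.homog] at hon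
    rw [rep_mk_div] at ht ht1 ht2 h0 h1 h2
    have hvc : v c ≠ 0 := fun h' => hc ((rep_mk_eq_zero v0 c).2 h')
    have hvj : v j ≠ 0 := fun h' => ht (by
      rw [h', div_zero, ← map_zero (algebraMap k K)]; exact algebraMap_mem_cl S 0)
    have zc : P.fn (v c) = 0 := by
      rw [← div_mul_cancel₀ (v c) hvj, P.fn_mul ht1 (hv j), ht2, zero_mul]
    have zb : ∀ b, v b / v c ∈ cl k S → P.fn (v b) = 0 := fun b hb => by
      rw [← div_mul_cancel₀ (v b) hvc, P.fn_mul (hS _ hb).1 (hv c), zc, mul_zero]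
    exact v1 (h k K r a I hI _ hon (zb 0 h0) (zb 1 h1) (zb 2 h2))
  rintro t ⟨i, j, rfl⟩
  have e : x.rep i / x.rep j = (x.rep c / x.rep i)⁻¹ / (x.rep c / x.rep j)⁻¹ := by
    rw [inv_div, inv_div, div_div_div_cancel_right₀ hc]
  rw [e]
  exact div_mem_cl (inv_mem_cl.2 (key i)) (inv_mem_cl.2 (key j))

theorem dimS (h : NozStmt) : DimStmt := by
  intro k K _ _ _ _ _ r a I hI x hx
  have one : ∀ (S : Set K) {c : Fin (r + 3)}, x.rep c ≠ 0 → x.rep c / x.rep c ∈ cl k S :=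
    fun S c hc => by
      rw [div_self hc, ← map_one (algebraMap k K)]; exact algebraMap_mem_cl S 1
  have two : ∀ s t : K, rat1 x ⊆ cl k {s, t} → rk k (rat1 x) ≤ 2 := fun s t hst => by
    refine (rk_le_of_subset_cl hst).trans ((rk_le_encard _).trans ?_)
    refine (Set.encard_insert_le _ _).trans ?_
    rw [Set.encard_singleton]
    exact le_of_eq one_add_one_eq_two
  have l : ∀ s t : K, s ∈ cl k {s, t} := fun s t => subset_cl _ (Set.mem_insert _ _)
  have l' : ∀ s t : K, t ∈ cl k {s, t} := fun s t => subset_cl _ (Set.mem_insert_of_mem _ rfl)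
  have nz : x.rep 0 = 0 → x.rep 1 = 0 → x.rep 2 ≠ 0 := fun h0 h1 h2 =>
    x.rep_nonzero (h k K r a I hI _ hx h0 h1 h2)
  refine ⟨?_, fun h0 h1 => kp_of_subset (dim_key h hI hx (nz h0 h1) ?_ ?_ (one _ (nz h0 h1)))⟩
  · by_cases h0 : x.rep 0 = 0
    · by_cases h1 : x.rep 1 = 0
      · exact two _ _ (dim_key h hI hx (nz h0 h1) (l _ _) (l' _ _) (one _ (nz h0 h1)))
      · exact two _ _ (dim_key h hI hx h1 (l _ _) (one _ h1) (l' _ _))
    · exact two _ _ (dim_key h hI hx h0 (one _ h0) (l _ _) (l' _ _))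
  · rw [h0, zero_div, ← map_zero (algebraMap k K)]; exact algebraMap_mem_cl _ 0
  · rw [h1, zero_div, ← map_zero (algebraMap k K)]; exact algebraMap_mem_cl _ 0

end Pool.Agent.MP_9207e0_ag.CC
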