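import Pool.Agent.MP_9207e0_ag.cc.Spec

/-! PROJECT CCC, row EXACT: Hilbert function of a hypersurface section. -/

noncomputable section

namespace Pool.Agent.MP_9207e0_ag.CC

open MvPolynomial
open scoped Classical

theorem exact_rn {K V W : Type} [Field K] [AddCommGroup V] [Module K V] [AddCommGroup W]
    [Module K W] (φ : V →ₗ[K] W) (H : Submodule K V) [Module.Finite K H] :
    Module.finrank K (H.map φ) + Module.finrank K ↥(H ⊓ LinearMap.ker φ) = Module.finrank K H := by
  rw [← LinearMap.finrank_range_add_finrank_ker (φ.domRestrict H), LinearMap.range_domRestrict,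
    LinearMap.ker_domRestrict, ← Submodule.finrank_map_subtype_eq H, Submodule.map_comap_subtype]

variable {K σ : Type} [Field K]

theorem exact_comp {f : MvPolynomial σ K} {e : ℕ} (h : f.IsHomogeneous e) (c : MvPolynomial σ K)
    (n : ℕ) : homogeneousComponent n (c * f) =
      if e ≤ n then homogeneousComponent (n - e) c * f else 0 := by
  induction c using MvPolynomial.induction_on' with
  | monomial d a =>
    have hm : (monomial d a : MvPolynomial σ K).IsHomogeneous d.degree :=
      isHomogeneous_monomial a rfl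
    rw [homogeneousComponent_of_mem (hm.mul h), homogeneousComponent_of_mem hm]
    split_ifs with h1 h2 h3 h4 h5
    · rfl
    · omega
    · omega
    · omega
    · rw [zero_mul]
    · rfl
  | add p q hp hq =>
    rw [add_mul, map_add, hp, hq, map_add]
    split_ifs
    · rw [add_mul]
    · rw [add_zero]

theorem exact_mem {J : Ideal (MvPolynomial σ K)} {f g : MvPolynomial σ K} :
    g ∈ J ⊔ Ideal.span {f} ↔ ∃ c, g - c * f ∈ J := by
  rw [Submodule.mem_sup]
  constructor
  · rintro ⟨i, hi, z, hz, rfl⟩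
    obtain ⟨c, rfl⟩ := Ideal.mem_span_singleton'.1 hz
    exact ⟨c, by rwa [add_sub_cancel_right]⟩
  · rintro ⟨c, hc⟩
    exact ⟨_, hc, c * f, Ideal.mem_span_singleton'.2 ⟨c, rfl⟩, sub_add_cancel _ _⟩

/-- The image of the forms of degree `j` in the quotient. -/
abbrev exactQ (J : Ideal (MvPolynomial σ K)) (j : ℕ) : Submodule K (MvPolynomial σ K ⧸ J) :=
  (homogeneousSubmodule σ K j).map (Ideal.Quotient.mkₐ K J).toLinearMap

theorem exact_fin [Finite σ] (J : Ideal (MvPolynomial σ K)) (j : ℕ) :
    Module.Finite K (exactQ J j) :=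
  Module.Finite.iff_fg.2 ((homogeneousSubmodule_fg σ K j).map _)

theorem exact_memQ {J : Ideal (MvPolynomial σ K)} {j : ℕ} {x : MvPolynomial σ K ⧸ J} :
    x ∈ exactQ J j ↔ ∃ g : MvPolynomial σ K, g.IsHomogeneous j ∧ Ideal.Quotient.mk J g = x :=
  Iff.rfl

/-- First count: passage to a larger ideal. -/
theorem exact_a [Finite σ] {J J' : Ideal (MvPolynomial σ K)} (h : J ≤ J') (j : ℕ)
    (T : Submodule K (MvPolynomial σ K ⧸ J))
    (hT : ∀ x, x ∈ T ↔ ∃ g : MvPolynomial σ K, g.IsHomogeneous j ∧ g ∈ J' ∧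
      Ideal.Quotient.mk J g = x) : hf J' j + Module.finrank K T = hf J j := by
  have := exact_fin J j
  have := exact_rn (Ideal.Quotient.factorₐ K h).toLinearMap (exactQ J j)
  have e1 : (exactQ J j).map (Ideal.Quotient.factorₐ K h).toLinearMap = exactQ J' j := by
    rw [← Submodule.map_comp]
    rfl
  have e2 : exactQ J j ⊓ LinearMap.ker (Ideal.Quotient.factorₐ K h).toLinearMap = T := by
    ext x
    rw [hT, Submodule.mem_inf, exact_memQ, LinearMap.mem_ker]
    constructor
    · rintro ⟨⟨g, hg, rfl⟩, h0⟩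
      exact ⟨g, hg, Ideal.Quotient.eq_zero_iff_mem.1 h0, rfl⟩
    · rintro ⟨g, hg, h0, rfl⟩
      exact ⟨⟨g, hg, rfl⟩, Ideal.Quotient.eq_zero_iff_mem.2 h0⟩
  rw [e1, e2] at this
  exact this

theorem exactS : ExactStmt := by
  intro K σ _ _ J f e hJ hfe
  have key : ∀ j, hf (J ⊔ Ideal.span {f}) (j + e) + hf J j = hf J (j + e) + Module.finrank K
      ↥(exactQ J j ⊓ LinearMap.ker (LinearMap.mulRight K (Ideal.Quotient.mk J f))) := fun j => by
    have := exact_fin J j
    have h1 := exact_rn (LinearMap.mulRight K (Ideal.Quotient.mk J f)) (exactQ J j)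
    have h2 := exact_a (le_sup_left : J ≤ J ⊔ Ideal.span {f}) (j + e)
      ((exactQ J j).map (LinearMap.mulRight K (Ideal.Quotient.mk J f))) fun x => by
        constructor
        · rintro ⟨_, ⟨g, hg, rfl⟩, rfl⟩
          exact ⟨g * f, IsHomogeneous.mul hg hfe, exact_mem.2 ⟨g, by simp⟩, rfl⟩
        · rintro ⟨g, hg, hm, rfl⟩
          obtain ⟨c, hc⟩ := exact_mem.1 hm
          have := hJ _ hc (j + e)
          rw [map_sub, homogeneousComponent_eq_self hg, exact_comp hfe, if_pos (by omega),
            Nat.add_sub_cancel] at this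
          exact ⟨_, ⟨_, homogeneousComponent_mem j c, rfl⟩, (Ideal.Quotient.eq.2 this).symm⟩
    have h3 : Module.finrank K (exactQ J j) = hf J j := rfl
    omega
  refine ⟨fun g hg j => ?_, fun j hj => ?_, fun j => by have := key j; omega, fun h j => ?_,
    fun h g hg => ?_⟩
  · obtain ⟨c, hc⟩ := exact_mem.1 hg
    have := hJ _ hc j
    rw [map_sub, exact_comp hfe] at this
    split_ifs at this
    · exact exact_mem.2 ⟨_, this⟩
    · exact exact_mem.2 ⟨0, by rwa [zero_mul]⟩
  · have := exact_a (le_sup_left : J ≤ J ⊔ Ideal.span {f}) j ⊥ fun x => by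
      rw [Submodule.mem_bot]
      constructor
      · rintro rfl
        exact ⟨0, isHomogeneous_zero _ _ _, Submodule.zero_mem _, rfl⟩
      · rintro ⟨g, hg, hm, rfl⟩
        obtain ⟨c, hc⟩ := exact_mem.1 hm
        have := hJ _ hc j
        rw [map_sub, homogeneousComponent_eq_self hg, exact_comp hfe, if_neg (by omega),
          sub_zero] at this
        exact Ideal.Quotient.eq_zero_iff_mem.2 this
    simpa using this
  · have e0 : exactQ J j ⊓ LinearMap.ker (LinearMap.mulRight K (Ideal.Quotient.mk J f)) = ⊥ := by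
      rw [eq_bot_iff]
      rintro _ ⟨⟨g, -, rfl⟩, h0⟩
      have : g * f ∈ J := Ideal.Quotient.eq_zero_iff_mem.1 h0
      exact Ideal.Quotient.eq_zero_iff_mem.2 (h g (mul_comm g f ▸ this))
    have := key j
    rw [e0, finrank_bot] at this
    omega
  · rw [← sum_homogeneousComponent g]
    refine Ideal.sum_mem _ fun j _ => ?_
    have := exact_fin J j
    have e0 : exactQ J j ⊓ LinearMap.ker (LinearMap.mulRight K (Ideal.Quotient.mk J f)) = ⊥ := by
      have := Submodule.finiteDimensional_of_le (inf_le_left :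
        exactQ J j ⊓ LinearMap.ker (LinearMap.mulRight K (Ideal.Quotient.mk J f)) ≤ _)
      rw [← Submodule.finrank_eq_zero]
      have := key j
      have := h j
      omega
    have h1 := hJ _ hg (j + e)
    rw [mul_comm, exact_comp hfe, if_pos (by omega), Nat.add_sub_cancel] at h1
    have : Ideal.Quotient.mk J (homogeneousComponent j g) ∈
        exactQ J j ⊓ LinearMap.ker (LinearMap.mulRight K (Ideal.Quotient.mk J f)) :=
      ⟨⟨_, homogeneousComponent_mem j g, rfl⟩, Ideal.Quotient.eq_zero_iff_mem.2 h1⟩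
    rw [e0] at this
    exact Ideal.Quotient.eq_zero_iff_mem.1 this

end Pool.Agent.MP_9207e0_ag.CC
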