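import Pool.Agent.MP_9207e0_ag.cc.Rk

/-! PROJECT CCC: families of constant class. -/

noncomputable section

namespace Pool.Agent.MP_9207e0_ag.CC

open MvPolynomial
open scoped Classical

section Aux

variable {k K σ ι : Type} [Field k] [Field K] [Algebra k K]

theorem gd_onM {I : Ideal (MvPolynomial σ k)} {w : ι → PP σ K} (h : ∀ i, On I (w i))
    (ν : Multiset ι) : OnM I (ν.map w) := fun x hx => by
  obtain ⟨i, -, rfl⟩ := Multiset.mem_map.1 hx
  exact h i

theorem gd_nu {w w' : ι → PP σ K} {ν : Multiset ι} {i : ι} (hi : i ∉ ν)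
    (h : ∀ j, j ≠ i → w' j = w j) : ν.map w' = ν.map w :=
  Multiset.map_congr rfl fun j hj => h j fun e => hi (e ▸ hj)

theorem gd_ms [Fintype ι] {w w' : ι → PP σ K} {i : ι} (h : ∀ j, j ≠ i → w' j = w j) :
    ms w' = {w' i} + (Finset.univ.erase i).val.map w := by
  rw [ms_erase w' i, gd_nu (Finset.notMem_erase i Finset.univ) h]

end Aux

theorem gdS (hR : RatpStmt) (hS : SpecStmt) : GdStmt := by
  intro k σ _ _ I hI
  refine ⟨?_, ?_, ?_, ?_, ?_⟩
  · intro K L ι _ _ _ _ _ _ _ w p ν α h hs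
    refine ⟨fun i => hs.on hI (h.on i), h.onc, ?_⟩
    obtain ⟨P, hP, e⟩ := hs
    have c := hS k K L σ I P _ _ hI hP h.cls
    rw [ms_map, Multiset.map_add, map_bc_red hP, Multiset.map_map] at c
    have e' : (fun i => P.red (w i)) = p := funext e
    rw [← e']
    exact c
  · intro K ι κ _ _ _ _ w u ν α γ h h'
    obtain ⟨-, -, -, tr, ad, -⟩ := hR k K σ I hI
    refine ⟨fun i => by cases i with
      | inl i => exact h.on i
      | inr i => exact h'.on i, onM_add.2 ⟨h.onc, h'.onc⟩, ?_⟩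
    have c1 := ad _ _ (ms u) (gd_onM h'.on _) h.cls
    have c2 := ad _ _ (ν.map w + α.map (bc K)) (onM_add.2 ⟨gd_onM h.on _, h.onc.bc hI⟩) h'.cls
    rw [Multiset.map_zero, zero_add, add_comm (ms u), add_comm (γ.map _), add_assoc _ _ (γ.map _)]
      at c2
    rw [ms_elim, Multiset.map_map, Multiset.map_add]
    exact tr _ _ _ c1 c2
  · intro K ι κ _ _ _ _ w u ν α γ h h'
    obtain ⟨-, -, sy, tr, ad, ca⟩ := hR k K σ I hI
    have o : ∀ i, On I (w i) := fun i => h.on (Sum.inl i)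
    refine ⟨o, (onM_add.1 h.onc).1, ca _ _ (γ.map (bc K)) (h'.onc.bc hI) ?_⟩
    have c1 := h.cls
    rw [ms_elim, Multiset.map_map, Multiset.map_add, ← add_assoc] at c1
    have c2 := ad _ _ (ms w) (gd_onM o _) (sy _ _ h'.cls)
    rw [Multiset.map_zero, zero_add, add_comm _ (ms w), add_comm (ms u)] at c2
    exact tr _ _ _ c2 c1
  · intro K ι _ _ _ w w' ν α i hi e h o c
    obtain ⟨-, -, sy, tr, ad, -⟩ := hR k K σ I hI
    refine ⟨fun j => ?_, h.onc, ?_⟩
    · by_cases hj : j = i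
      · exact hj ▸ o
      · exact e j hj ▸ h.on j
    · have c1 := h.cls
      rw [ms_erase w i] at c1
      rw [gd_ms e, gd_nu hi e]
      exact tr _ _ _ (ad _ _ _ (gd_onM h.on _) (sy _ _ c)) c1
  · intro K ι _ _ _ w w' ν α i hi e h h'
    obtain ⟨-, -, sy, tr, -, ca⟩ := hR k K σ I hI
    have c1 := h.cls
    have c2 := h'.cls
    rw [ms_erase w i] at c1
    rw [gd_ms e, gd_nu hi e] at c2
    exact ca _ _ _ (gd_onM h.on _) (tr _ _ _ c1 (sy _ _ c2))

end Pool.Agent.MP_9207e0_ag.CC
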