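import Pool.Agent.MP_9207e0_ag.cc.Lin

/-! PROJECT CCC, row GEN: the generic point of the surface. -/

noncomputable section

namespace Pool.Agent.MP_9207e0_ag.CC

open MvPolynomial
open scoped Classical

theorem gen_ex {k σ : Type} [Field k] (I : Ideal (MvPolynomial σ k)) (hI : I.IsPrime) :
    ∃ (E : Ext k) (v : σ → E.K), ∀ f, aeval v f = 0 ↔ f ∈ I := by
  let R := MvPolynomial σ k ⧸ I
  let F := AlgebraicClosure (FractionRing R)
  let φ : MvPolynomial σ k →ₐ[k] F :=
    ((IsScalarTower.toAlgHom k (FractionRing R) F).comp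
      (IsScalarTower.toAlgHom k R (FractionRing R))).comp (Ideal.Quotient.mkₐ k I)
  refine ⟨Ext.mk F, fun j => φ (X j), fun f => ?_⟩
  have e : (aeval fun j => φ (X j)) = φ := MvPolynomial.algHom_ext fun j => aeval_X _ j
  change (aeval fun j => φ (X j)) f = 0 ↔ _
  rw [e]
  change algebraMap (FractionRing R) F (algebraMap R (FractionRing R) (Ideal.Quotient.mk I f)) = 0
    ↔ _
  rw [map_eq_zero, map_eq_zero_iff _ (IsFractionRing.injective R (FractionRing R)),
    Ideal.Quotient.eq_zero_iff_mem]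

theorem gen_rk {k K σ : Type} [Field k] [Field K] [Algebra k K] {v : σ → K} (h0 : v ≠ 0)
    (s : Fin 3 → σ) (hs : AlgebraicIndependent k fun i => v (s i)) :
    2 ≤ rk k (rat1 (Projectivization.mk K v h0)) := by
  have hne : v (s 0) ≠ 0 := hs.ne_zero 0
  have h1 : (AlgebraicIndependent.matroid k K).Indep (Set.range fun i => v (s i)) :=
    hs.to_subtype_range
  have h3 : 2 + 1 ≤ rk k (Set.range fun i => v (s i)) := by
    unfold rk
    rw [h1.eRk_eq_encard]
    refine le_trans (le_of_eq ?_) hs.injective.encard_range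
    simp
    norm_num
  have h4 := lin_rk (k := k) (rat1 (Projectivization.mk K v h0)) (fun i => v (s i))
    ({()} : Finset Unit) (fun _ => v (s 0)) fun i => by
      have : v (s i) = v (s i) / v (s 0) * v (s 0) := (div_mul_cancel₀ _ hne).symm
      rw [this]
      exact mul_mem (lin_sub (Or.inl ⟨s i, s 0, (rep_mk_div h0 _ _).symm⟩))
        (lin_sub (Or.inr ⟨(), by simp, rfl⟩))
  have h5 : rk k (Set.range fun i => v (s i)) ≤
      rk k (rat1 (Projectivization.mk K v h0) ∪ Set.range fun i => v (s i)) :=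
    (AlgebraicIndependent.matroid k K).eRk_mono Set.subset_union_right
  have h6 := h3.trans (h5.trans h4)
  rw [Finset.card_singleton, Nat.cast_one] at h6
  exact (ENat.add_le_add_iff_right ENat.one_ne_top).1 h6

theorem genS (h : RegStmt) : GenStmt := by
  intro k _ r a I hI
  obtain ⟨E, v, hv⟩ := gen_ex I hI.prime
  have h0 : v ≠ 0 := fun hz => hI.reg0 ((hv _).1 (by rw [aeval_X, hz]; rfl))
  refine ⟨E, Projectivization.mk E.K v h0, (on_mk hI.homog h0).2 fun f hf => (hv f).2 hf, ?_,
    fun f n hf hz => (hv f).1 ((aeval_mk_eq_zero hf h0).1 hz), fun L _ _ _ x hx => ?_⟩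
  · refine gen_rk h0 ![0, 1, 2] (algebraicIndependent_iff.2 fun p hp => ?_)
    refine (h k r a I hI).2 p ((hv _).1 ?_)
    rw [← AlgHom.comp_apply, comp_aeval, ← hp]
    congr 2
    funext i
    fin_cases i <;> simp
  · have hs : ASp k v x.rep := fun f hf => hx f ((hv f).1 hf)
    obtain ⟨P, hP, h1⟩ := hs.place
    have e : (fun b => P.fn (v b)) = x.rep := funext fun b => (h1 b).2
    refine ⟨P, hP, ?_⟩
    rw [P.red_mk (fun b => (h1 b).1) h0 (e ▸ x.rep_nonzero)]
    conv_rhs => rw [← x.mk_rep]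
    congr 1

end Pool.Agent.MP_9207e0_ag.CC
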