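import Pool.Agent.MP_9207e0_ag.cc.Rk

/-! PROJECT CCC: homogenisation, and specialisations tested on forms. -/

noncomputable section

namespace Pool.Agent.MP_9207e0_ag.CC

open MvPolynomial
open scoped Classical

theorem hom_dv_pow {K σ : Type} [Field K] [Fintype σ] {a : σ} (z : σ → K) {δ : σ → K}
    (h : δ a = 0) (n : ℕ) : dv (X a ^ n) z δ = 0 := by
  induction n with
  | zero => rw [pow_zero, ← C_1, dv_C]
  | succ n ih => rw [pow_succ, dv_mul, dv_X, ih, h, mul_zero, mul_zero, add_zero]

theorem homS : HomStmt := by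
  intro k σ _ _ f e a he
  have hf : ∑ j ∈ Finset.range (e + 1), homogeneousComponent j f = f := by
    conv_rhs => rw [← sum_homogeneousComponent f]
    refine (Finset.sum_subset (Finset.range_subset_range.2 (by omega)) fun j _ hj => ?_).symm
    exact homogeneousComponent_eq_zero j f (by simpa using hj)
  refine ⟨∑ j ∈ Finset.range (e + 1), X a ^ (e - j) * homogeneousComponent j f,
    IsHomogeneous.sum _ _ _ fun j hj => ?_, fun K _ _ z hz => ⟨?_, fun δ hδ => ?_⟩⟩
  · have := (isHomogeneous_X_pow (R := k) a (e - j)).mul (homogeneousComponent_isHomogeneous j f)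
    rwa [Nat.sub_add_cancel (by simpa [Nat.lt_succ_iff] using hj)] at this
  · conv_rhs => rw [← hf]
    rw [map_sum, map_sum]
    exact Finset.sum_congr rfl fun j _ => by rw [map_mul, map_pow, aeval_X, hz, one_pow, one_mul]
  · conv_rhs => rw [← hf]
    rw [map_sum, map_sum, dv_sum, dv_sum]
    exact Finset.sum_congr rfl fun j _ => by
      rw [map_mul, map_pow, map_X, dv_mul, hom_dv_pow z hδ, map_pow, eval_X, hz, one_pow, one_mul,
        mul_zero, add_zero]

theorem sphS (h : HomStmt) : SphStmt := by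
  intro k K L σ _ _ _ _ _ _ _ x y hxy
  obtain ⟨a, ha⟩ := Function.ne_iff.1 y.rep_nonzero
  have hy : y.rep a ≠ 0 := ha
  have hx : x.rep a ≠ 0 := fun c =>
    hy (by simpa using hxy (X a) 1 (isHomogeneous_X k a) (by simpa using c))
  have ex : (fun b => x.rep b / x.rep a) = (x.rep a)⁻¹ • x.rep :=
    funext fun b => by rw [Pi.smul_apply, smul_eq_mul, div_eq_inv_mul]
  have ey : (fun b => y.rep b / y.rep a) = (y.rep a)⁻¹ • y.rep :=
    funext fun b => by rw [Pi.smul_apply, smul_eq_mul, div_eq_inv_mul]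
  have hs : ASp k (fun b => x.rep b / x.rep a) fun b => y.rep b / y.rep a := fun f hf => by
    obtain ⟨g, hg, e⟩ := h k σ f _ a le_rfl
    rw [← (e K _ (div_self hx)).1, ex, aeval_smul_homog hg] at hf
    rw [← (e L _ (div_self hy)).1, ey, aeval_smul_homog hg, hxy g _ hg
      ((mul_eq_zero.1 hf).resolve_left (pow_ne_zero _ (inv_ne_zero hx))), mul_zero]
  obtain ⟨P, hP, h1⟩ := hs.place
  exact ⟨P, hP, P.red_eq hx hy h1⟩

end Pool.Agent.MP_9207e0_ag.CC
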