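import Pool.Agent.MP_9207e0_ag.cc.Rk

/-! PROJECT CCC: intersection of two families along common points. -/

noncomputable section

namespace Pool.Agent.MP_9207e0_ag.CC

open MvPolynomial
open scoped Classical

theorem intS (hP : ProdStmt) (hC : CutsStmt) (hL : LocStmt) (hU : UniqStmt) : IntStmt := by
  intro k K₁ K₂ ε ι _ _ _ _ _ _ _ _ r n I hK w₁ w₂ x p T o₁ o₂ h₁ h₂ hT
  have hI : Hg I := hK.homog
  obtain ⟨E, u₁, u₂, s₁, s₂, hrk, hsp⟩ := hP k K₁ K₂ (Fin (r + 3)) (ε ⊕ ι) ι w₁ w₂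
  obtain ⟨ax, hax⟩ := exists_chart x
  obtain ⟨ap, hap⟩ := exists_chart p
  have ha : ∀ i, (Sum.elim (Sum.elim x p) p i).rep (Sum.elim (Sum.elim ax ap) ap i) ≠ 0 := by
    rintro ((i | i) | i)
    exacts [hax i, hap i, hap i]
  obtain ⟨hu, au⟩ := (hsp k _ _ h₁ h₂).asp ha
  choose F G hFG using fun i => hL k r n I hK (fun b => (p i).rep b / (p i).rep (ap i))
    (mk_div (p i) (hap i)).1 ((on_iff_nv hI (hap i)).1 (h₂.on hI (o₂ i)))
  let D : ι → MvPolynomial (Fin (r + 3)) k → MvPolynomial (((ε ⊕ ι) ⊕ ι) × Fin (r + 3)) k :=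
    fun i f => rename (fun j => (.inl (.inr i), j)) f - rename (fun j => (.inr i, j)) f
  have hD : ∀ (L : Type) [Field L] [Algebra k L] (z : ((ε ⊕ ι) ⊕ ι) × Fin (r + 3) → L) i f,
      aeval z (D i f) = 0 ↔ aeval (fun j => z (.inl (.inr i), j)) f =
        aeval (fun j => z (.inr i, j)) f := fun L _ _ z i f => by
    rw [map_sub, aeval_rename, aeval_rename, sub_eq_zero]
    rfl
  obtain ⟨E', z, a₁, a₂, hz, hr⟩ := hC k E.K k _ (T ⊕ T) _ _
    (Sum.elim (fun i => D i (F i)) fun i => D i (G i)) au (by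
      rintro (i | i) <;> exact (hD k _ _ _).2 rfl)
  obtain ⟨W, hW, rfl⟩ := exists_of_nv (z := z) (a := Sum.elim (Sum.elim ax ap) ap) fun i => by
    have := a₁ (X (i, Sum.elim (Sum.elim ax ap) ap i) - 1) (by
      rw [map_sub, aeval_X, map_one, nv, div_self (hu i), sub_self])
    rwa [map_sub, aeval_X, map_one, sub_eq_zero] at this
  have sW := Sp.of_asp hu hW a₁
  have t₁ : Sp k w₁ (W ∘ .inl) := s₁.trans (sW.comp .inl)
  have t₂ : Sp k w₂ (W ∘ .inr) := s₂.trans (sW.comp .inr)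
  have key : ∀ i, W (.inl (.inr i)) = W (.inr i) := fun i => by
    by_cases hi : i ∈ T
    · obtain ⟨P, hP, hp⟩ := a₂.place
      have R := fun f : MvPolynomial (Fin (r + 3)) k => Rd.over (σ := Fin (r + 3)) hP f
      simp only [Algebra.algebraMap_self, map_id] at R
      refine pp_ext (hW _) (hW (.inr i)) (congrFun (hU k E'.K k _ I P _ _ _ _ _ _ _ (ap i) hP
        (R (F i)) (R (G i)) (fun j => hp (.inl (.inr i), j)) (fun j => hp (.inr i, j))
        ((on_iff_nv hI (hW _)).1 (t₁.on hI (o₁ (.inr i))))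
        ((on_iff_nv hI (hW _)).1 (t₂.on hI (o₂ i))) (div_self (hW _)) (div_self (hW _)) ?_ ?_
        (hFG i)))
      · rw [eval_map_eq, eval_map_eq]
        exact (hD _ (nv W _) i (F i)).1 (hz (.inl ⟨i, hi⟩))
      · rw [eval_map_eq, eval_map_eq]
        exact (hD _ (nv W _) i (G i)).1 (hz (.inr ⟨i, hi⟩))
    · exact (t₁.bc (hT i hi).1).trans (t₂.bc (hT i hi).2).symm
  have e : Sum.elim (fun i => W (.inl (.inl i))) (W ∘ .inr) = W ∘ .inl := by
    funext i
    rcases i with i | i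
    exacts [rfl, (key i).symm]
  refine ⟨E', fun i => W (.inl (.inl i)), W ∘ .inr, e ▸ t₁, t₂,
    e ▸ (Sp.of_asp hW ha a₂).comp .inl, hrk.trans ?_⟩
  rw [rk_nv hu, rk_nv hW, Fintype.card_sum, Fintype.card_coe, ← two_mul, Nat.cast_mul,
    Nat.cast_ofNat] at hr
  refine hr.trans (add_le_add (rk_mono ?_) le_rfl)
  have e' : W = (W ∘ .inl) ∘ Sum.elim id .inr := by
    funext i
    rcases i with i | i
    exacts [rfl, (key i).symm]
  rw [e]
  exact (congrArg rat e').le.trans (rat_comp_subset _ _)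

end Pool.Agent.MP_9207e0_ag.CC
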