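import Pool.Agent.MP_9207e0_ag.cc.RkA
import Pool.Agent.MP_9207e0_ag.cc.RkB

/-! PROJECT CCC, row ISOL: a transversal zero is algebraic over the coefficients. -/

noncomputable section

namespace Pool.Agent.MP_9207e0_ag.CC

open MvPolynomial
open scoped Classical

theorem isolS (hT : TensStmt) (hU : Uniq2Stmt) : IsolStmt := by
  intro k K L σ _ _ _ _ _ _ _ _ I S P F G F' G' m n x hI hP hF hG cF cG rF rG hx tr t ht
  by_contra hn
  obtain ⟨E, f₁, f₂, ha, hb⟩ := hT (clF k S) K K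
  let _ : Algebra k E.K := ((algebraMap (clF k S) E.K).comp (algebraMap k (clF k S))).toAlgebra
  have : IsScalarTower k (clF k S) E.K := IsScalarTower.of_algebraMap_eq fun _ => rfl
  obtain ⟨R, hR, r1, r2⟩ := ha K _ _ (Plc.ofHom_over (AlgHom.id (clF k S) K))
    (Plc.ofHom_over (AlgHom.id (clF k S) K))
  obtain ⟨Q, hQ, q⟩ := Plc.comp_over (hR.tower (k := k)) hP
  have ext : ∀ f : K →ₐ[clF k S] E.K,
      (∀ y ∈ (Plc.ofHom (AlgHom.id (clF k S) K : K →+* K)).V, f y ∈ R.V ∧
        R.fn (f y) = (Plc.ofHom (AlgHom.id (clF k S) K : K →+* K)).fn y) →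
      ∀ y ∈ P.V, (f : K →+* E.K) y ∈ Q.V ∧ Q.fn ((f : K →+* E.K) y) = P.fn y := fun f r y hy => by
    obtain ⟨a, b⟩ := r y (Plc.ofHom_mem _ _)
    rw [Plc.ofHom_fn] at b
    have b' : R.fn (f y) = y := b
    have := q (f y) a (by rwa [b'])
    rwa [b'] at this
  have same : ∀ H : MvPolynomial σ K, (∀ d, coeff d H ∈ cl k S) →
      map (f₁ : K →+* E.K) H = map (f₂ : K →+* E.K) H := fun H c => MvPolynomial.ext _ _ fun d => by
    rw [coeff_map, coeff_map]
    exact (f₁.commutes ⟨_, mem_clF.2 (c d)⟩).trans (f₂.commutes ⟨_, mem_clF.2 (c d)⟩).symm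
  have rd : ∀ {H : MvPolynomial σ K} {H'}, Rd P H H' → Rd Q (map (f₁ : K →+* E.K) H) H' := fun r d => by
    rw [coeff_map, ← (r d).2]
    exact ext f₁ r1 _ (r d).1
  have zs : ∀ f : K →ₐ[clF k S] E.K, Zs I (map (f : K →+* E.K) F) (map (f : K →+* E.K) G)
      (pmap (f : K →+* E.K) x) := fun f => by
    rw [← Plc.ofHom_red]
    exact Zs.red hI (Plc.ofHom_over (f.restrictScalars k)) hF hG (Rd.ofHom _ F) (Rd.ofHom _ G) hx
  have z2 := zs f₂
  rw [← same F cF, ← same G cG] at z2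
  have e1 := Plc.red_ext (ext f₁ r1) x
  have e := hU k E.K L σ I Q _ _ F' G' m n _ _ hI hQ (hF.map _) (hG.map _) (rd rF) (rd rG) (zs f₁)
    z2 (e1.trans (Plc.red_ext (ext f₂ r2) x).symm) (e1.symm ▸ tr)
  have et : f₂ t = f₁ t := by
    obtain ⟨a, b, rfl⟩ := ht
    have := pmap_div (f₁ : K →+* E.K) x b a
    rw [e, pmap_div] at this
    exact this
  have one : rk (clF k S) ({t} : Set K) = 1 := by
    have := rk_insert (k := clF k S) (S := ∅) (t := t) fun c => by
      obtain ⟨d, rfl⟩ := mem_cl_empty c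
      exact hn (mem_clF.1 d.2)
    rwa [rk_empty, zero_add, insert_empty_eq] at this
  have := (hb {t} {t}).trans (rk_le_encard _)
  rw [one, Set.image_singleton, Set.image_singleton, et, Set.union_self, Set.encard_singleton]
    at this
  exact absurd this (by decide)

end Pool.Agent.MP_9207e0_ag.CC
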