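import Pool.Agent.MP_9207e0_ag.cc.Rk

/-! PROJECT CCC: rational equivalence by curves gives rational equivalence by families. -/

noncomputable section

namespace Pool.Agent.MP_9207e0_ag.CC

open MvPolynomial
open scoped Classical

theorem l1_zeroOrd {F : Type} [Field F] (V : ValuationSubring F) {h : F} (h0 : h ≠ 0)
    (h1 : h ∈ V) (h2 : h⁻¹ ∈ V) : zeroOrd V h = 0 := by
  unfold zeroOrd
  rw [dif_pos h1]
  have hu : IsUnit (⟨h, h1⟩ : V) :=
    IsUnit.of_mul_eq_one ⟨h⁻¹, h2⟩ (Subtype.ext (mul_inv_cancel₀ h0))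
  rw [Ring.ord_of_isUnit hu]
  rfl

theorem l1_centre {K F σ : Type} [Field K] [Field F] [Algebra K F] {ξ : σ → F} (h0 : ξ ≠ 0)
    {V : ValuationSubring F} {x : PP σ K} (h : IsCentre ξ V x) :
    IsCentre (Projectivization.mk F ξ h0).rep V x := by
  obtain ⟨u, hu⟩ := Projectivization.exists_smul_eq_mk_rep F ξ h0
  obtain ⟨c, hc⟩ := h
  refine ⟨c * ((u⁻¹ : Fˣ) : F), fun j => ?_⟩
  rw [← hu, Pi.smul_apply, Units.smul_def, smul_eq_mul, mul_assoc, Units.inv_mul_cancel_left]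
  exact hc j

theorem l1_coe {K F σ : Type} [Field K] [Field F] [Algebra K F] (ξ : PP σ F)
    (T : Finset (F →ₐ[K] LL K)) : (T.val.map fun f => pmap (f : F →+* LL K) ξ) =
      T.val.map fun f : F →ₐ[K] LL K => pmap (f : F →+* LL K) ξ := by
  change (T.val.bind fun a => {(a : F →+* LL K)}).map _ = _
  rw [Multiset.bind_singleton, Multiset.map_map]
  rfl

theorem l1_gal {K F σ : Type} [Field K] [Field F] [Algebra K F] (ξ : PP σ F) (h : F)
    (T : Finset (F →ₐ[K] LL K)) (hT : ∀ f, f ∈ T ↔ f h = tt K) :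
    Gal (T.val.map fun f : F →ₐ[K] LL K => pmap (f : F →+* LL K) ξ) := by
  intro τ
  let g : (LL K ≃ₐ[RatFunc K] LL K) → (F →ₐ[K] LL K) → (F →ₐ[K] LL K) :=
    fun ρ f => ((ρ : LL K →ₐ[RatFunc K] LL K).restrictScalars K).comp f
  have hg : ∀ ρ f x, g ρ f x = ρ (f x) := fun _ _ _ => rfl
  have hm : ∀ ρ f, f ∈ T → g ρ f ∈ T := fun ρ f hf => by
    rw [hT, hg, (hT f).1 hf]
    exact ρ.commutes _
  have hinj : Function.Injective (g τ) := fun f f' e => AlgHom.ext fun x =>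
    τ.injective (by rw [← hg, ← hg, e])
  have e1 : T.map ⟨g τ, hinj⟩ = T := by
    ext f
    rw [Finset.mem_map]
    refine ⟨?_, fun hf => ⟨g τ.symm f, hm _ _ hf, AlgHom.ext fun x => ?_⟩⟩
    · rintro ⟨f', hf', rfl⟩
      exact hm τ f' hf'
    · change g τ (g τ.symm f) x = f x
      rw [hg, hg, AlgEquiv.apply_symm_apply]
  have e2 : T.val.map (g τ) = T.val := congrArg Finset.val e1
  conv_rhs => rw [← e2]
  rw [Multiset.map_map, Multiset.map_map]
  refine Multiset.map_congr rfl fun f _ => ?_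
  exact pmap_pmap _ _ ξ

theorem l1_principal (hC : CntStmt) (hD : DivStmt) (hF : FamStmt) {k K σ : Type} [Field k]
    [Field K] [IsAlgClosed K] [CharZero K] [Algebra k K] [Fintype σ]
    {I : Ideal (MvPolynomial σ k)} (hI : Hg I) {D : PP σ K →₀ ℤ} (hP : Principal I K D) :
    D = 0 ∨ ∃ A B : Multiset (PP σ K), Step I A B ∧ D = cyc A - cyc B := by
  obtain ⟨F, _, _, _, _, hcf, ξ, h, c, h0, hon, hh, hc, rfl⟩ := hP
  by_cases ha : IsAlgebraic K h
  · left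
    obtain ⟨a, rfl⟩ : h ∈ (algebraMap K F).range :=
      minpoly.degree_eq_one_iff.1 (IsAlgClosed.degree_eq_one_of_irreducible K
        (minpoly.irreducible ha.isIntegral))
    refine finsum_mem_eq_zero_of_forall_eq_zero fun V hV => ?_
    have h1 : algebraMap K F a ∈ V := hV.2 a
    have h2 : (algebraMap K F a)⁻¹ ∈ V := by
      rw [← map_inv₀]
      exact hV.2 _
    unfold ordAt
    rw [l1_zeroOrd V hh h1 h2, l1_zeroOrd V (inv_ne_zero hh) h2 (by rwa [inv_inv])]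
    simp
  · right
    obtain ⟨⟨P, hP⟩, ⟨Q, hQ⟩⟩ := exists_zr (K := K)
    have hfin := (hC K F (LL K) h (tt K) P hcf ha tt_transcendental hP.1 hP.2.1 hP.2.2).1
    have hT : ∀ f, f ∈ hfin.toFinset ↔ f h = tt K := fun f => hfin.mem_toFinset
    have hd := hD K F σ (Projectivization.mk F ξ h0) h c _ P Q hcf ha
      (fun V hV => l1_centre h0 (hc V hV)) hT hP hQ
    rw [l1_coe] at hd
    refine ⟨_, _, hF k K σ I _ P Q hI ?_ (l1_gal (Projectivization.mk F ξ h0) h _ hT) hP hQ, hd⟩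
    intro x hx
    obtain ⟨f, _, rfl⟩ := Multiset.mem_map.1 hx
    exact On.pmap hI (f.restrictScalars k) ((on_mk hI h0).2 hon)

theorem l1S (hC : CntStmt) (hD : DivStmt) (hF : FamStmt) (hR : RatpStmt) : L1Stmt := by
  intro k K σ _ _ _ _ _ _ I A B hI hA hB h
  obtain ⟨r1, r2, r3, r4, r5, r6⟩ := hR k K σ I hI
  have key : ∀ D ∈ AddSubgroup.closure {E | Principal I K E}, ∃ A₀ B₀ : Multiset (PP σ K),
      OnM I A₀ ∧ OnM I B₀ ∧ RatP I A₀ B₀ ∧ D = cyc A₀ - cyc B₀ := by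
    intro D hD'
    have z : ∃ A₀ B₀ : Multiset (PP σ K),
        OnM I A₀ ∧ OnM I B₀ ∧ RatP I A₀ B₀ ∧ (0 : PP σ K →₀ ℤ) = cyc A₀ - cyc B₀ :=
      ⟨0, 0, fun _ hx => absurd hx (Multiset.notMem_zero _),
        fun _ hx => absurd hx (Multiset.notMem_zero _), r1 0, (sub_self _).symm⟩
    induction hD' using AddSubgroup.closure_induction with
    | mem D hD' =>
      rcases l1_principal hC hD hF hI hD' with rfl | ⟨A₀, B₀, hs, e⟩
      · exact z
      · exact ⟨A₀, B₀, hs.1, hs.2.1, r2 _ _ hs, e⟩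
    | zero => exact z
    | add D E _ _ h1 h2 =>
      obtain ⟨A₀, B₀, a0, b0, s0, rfl⟩ := h1
      obtain ⟨A₁, B₁, a1, b1, s1, rfl⟩ := h2
      refine ⟨A₀ + A₁, B₀ + B₁, onM_add.2 ⟨a0, a1⟩, onM_add.2 ⟨b0, b1⟩,
        r4 _ _ _ (r5 _ _ _ a1 s0) ?_, ?_⟩
      · rw [add_comm B₀ A₁, add_comm B₀ B₁]
        exact r5 _ _ _ b0 s1
      · rw [cyc_add, cyc_add]
        abel
    | neg D _ h1 =>
      obtain ⟨A₀, B₀, a0, b0, s0, rfl⟩ := h1
      exact ⟨B₀, A₀, b0, a0, r3 _ _ s0, neg_sub _ _⟩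
  obtain ⟨A₀, B₀, _, b0, s0, e⟩ := key _ h
  have e1 : A + B₀ = A₀ + B := cyc_injective (by
    rw [cyc_add, cyc_add]
    exact sub_eq_sub_iff_add_eq_add.1 e)
  refine r6 A B B₀ b0 ?_
  rw [e1, add_comm B B₀]
  exact r5 _ _ _ hB s0

end Pool.Agent.MP_9207e0_ag.CC
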