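import Pool.Agent.MP_9207e0_ag.cc.Rk

/-! PROJECT CCC: transversal zeros lift to the generic pencil. -/

noncomputable section

namespace Pool.Agent.MP_9207e0_ag.CC

open MvPolynomial
open scoped Classical

section Aux

variable {k K σ ι : Type} [Field k] [Field K] [Algebra k K] {h : ℕ}

theorem lift_chart {F : MvPolynomial σ K} {n : ℕ} (hF : F.IsHomogeneous n) {x : PP σ K} {a : σ}
    (ha : x.rep a ≠ 0) : eval x.rep F = 0 ↔ eval (fun j => x.rep j / x.rep a) F = 0 := by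
  obtain ⟨h0, e⟩ := mk_div x ha
  rw [← eval_mk_eq_zero hF h0, e]

/-- The incidence equation. -/
def liftEq (β : Fin h → MvPolynomial σ k) (o : ι) (e : Fin h → Fin h ⊕ Fin h) :
    MvPolynomial ((ι × σ) ⊕ (Fin h ⊕ Fin h)) k :=
  ∑ l, rename (fun j => Sum.inl (o, j)) (β l) * X (Sum.inr (e l))

theorem lift_aeval (β : Fin h → MvPolynomial σ k) (o : ι) (e : Fin h → Fin h ⊕ Fin h)
    (y : (ι × σ) ⊕ (Fin h ⊕ Fin h) → K) : aeval y (liftEq β o e) =
      eval (fun j => y (Sum.inl (o, j))) (fm β fun l => y (Sum.inr (e l))) := by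
  rw [eval_fm, liftEq, map_sum]
  refine Finset.sum_congr rfl fun l _ => ?_
  rw [map_mul, aeval_X, aeval_rename]
  rfl

theorem lift_coeff {S : Set K} (β : Fin h → MvPolynomial σ k) {c : Fin h → K}
    (hc : ∀ l, c l ∈ S) (d : σ →₀ ℕ) : coeff d (fm β c) ∈ cl k S := by
  rw [← mem_clF, fm, coeff_sum]
  refine sum_mem fun l _ => ?_
  rw [coeff_C_mul, coeff_map]
  exact mul_mem (mem_clF.2 (subset_cl S (hc l))) ((clF k S).algebraMap_mem _)

end Aux

theorem liftS (hG : GenStmt) (hP : PowerStmt) (hT : TensStmt) (hC : CutsStmt) (hI : IsolStmt) :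
    LiftStmt := by
  intro k L _ _ _ _ _ r n I hK m h β b b' O hβ hO
  have hg : Hg I := hK.homog
  obtain ⟨E₀, η, onη, rη, -, hsp⟩ := hG k r n I hK
  obtain ⟨E₁, ξ, h1, h2, h3⟩ := hP k E₀.K (Fin (r + 3)) O η
  have onξ : ∀ o, On I (ξ o) := fun o => (h1 o).sp.on hg (i := ()) onη
  obtain ⟨a, ha⟩ := exists_chart fun o : O => (o : PP (Fin (r + 3)) L)
  obtain ⟨haξ, s1⟩ := (h3 L _ fun o => hsp L o (hO o o.2).1.1).asp ha
  obtain ⟨P₁, o₁, p₁⟩ := s1.place
  have hx : AlgebraicIndependent k fun l : Fin h ⊕ Fin h =>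
      algebraMap _ (FractionRing (MvPolynomial (Fin h ⊕ Fin h) k))
        (X l : MvPolynomial (Fin h ⊕ Fin h) k) :=
    (MvPolynomial.algebraicIndependent_X _ k).map' (f := IsScalarTower.toAlgHom k _ _)
      (IsFractionRing.injective _ _)
  generalize (fun l : Fin h ⊕ Fin h =>
      algebraMap _ (FractionRing (MvPolynomial (Fin h ⊕ Fin h) k))
        (X l : MvPolynomial (Fin h ⊕ Fin h) k)) = x at hx
  obtain ⟨P₂, o₂, p₂⟩ := (ASp.of_indep hx (Sum.elim b b')).place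
  obtain ⟨E₂, f₁, f₂, hA, hB⟩ := hT k E₁.K (FractionRing (MvPolynomial (Fin h ⊕ Fin h) k))
  obtain ⟨P₃, o₃, q₁, q₂⟩ := hA L P₁ P₂ o₁ o₂
  have s3 : ASp k (Sum.elim (f₁ ∘ nv ξ a) (f₂ ∘ x))
      (Sum.elim (nv (fun o : O => (o : PP (Fin (r + 3)) L)) a) (Sum.elim b b')) := by
    have := ASp.of_plc o₃ (z := Sum.elim (f₁ ∘ nv ξ a) (f₂ ∘ x)) fun u => by
      rcases u with u | u
      exacts [(q₁ _ (p₁ u).1).1, (q₂ _ (p₂ u).1).1]
    rwa [show (fun u => P₃.fn (Sum.elim (f₁ ∘ nv ξ a) (f₂ ∘ x) u)) =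
      Sum.elim (nv (fun o : O => (o : PP (Fin (r + 3)) L)) a) (Sum.elim b b') from
        funext fun u => by
          rcases u with u | u
          exacts [(q₁ _ (p₁ u).1).2.trans (p₁ u).2, (q₂ _ (p₂ u).1).2.trans (p₂ u).2]] at this
  obtain ⟨E, z, s4, s5, hz, hr⟩ := hC k E₂.K L _ (O ⊕ O) _ _
    (Sum.elim (fun o => liftEq β o Sum.inl) fun o => liftEq β o Sum.inr) s3 fun t => by
      rcases t with o | o
      · exact (lift_aeval β o _ _).trans ((lift_chart (fm_homog hβ b) (ha o)).1 (hO o o.2).1.2.1)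
      · exact (lift_aeval β o _ _).trans ((lift_chart (fm_homog hβ b') (ha o)).1 (hO o o.2).1.2.2)
  obtain ⟨P, oP, pP⟩ := s5.place
  obtain ⟨w, hw, e⟩ := exists_of_nv (z := fun u => z (Sum.inl u)) (a := a) fun o => by
    have := s4 (X (Sum.inl (o, a o)) - 1) (by
      rw [map_sub, aeval_X, map_one, Sum.elim_inl, Function.comp_apply, nv, div_self (haξ o),
        map_one, sub_self])
    rwa [map_sub, aeval_X, map_one, sub_eq_zero] at this
  have e' : ∀ o, (fun j => (w o).rep j / (w o).rep (a o)) = fun j => z (Sum.inl (o, j)) :=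
    fun o => funext fun j => congrFun e (o, j)
  have hZ : ∀ o, Zs I (fm β fun l => z (Sum.inr (Sum.inl l)))
      (fm β fun l => z (Sum.inr (Sum.inr l))) (w o) := fun o => by
    refine ⟨(on_iff_nv hg (hw o)).2 fun f hf => ?_, (lift_chart (fm_homog hβ _) (hw o)).2 ?_,
      (lift_chart (fm_homog hβ _) (hw o)).2 ?_⟩ <;> rw [e']
    · have := s4 (rename (fun j => Sum.inl (o, j)) f) (by
        have u := congrArg f₁ ((on_iff_nv hg (haξ o)).1 (onξ o) f hf)
        rw [map_zero, ← AlgHom.comp_apply, comp_aeval] at u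
        rw [aeval_rename]
        exact u)
      rwa [aeval_rename] at this
    · exact (lift_aeval β o _ _).symm.trans (hz (Sum.inl o))
    · exact (lift_aeval β o _ _).symm.trans (hz (Sum.inr o))
  have hred : ∀ o : O, P.red (w o) = o := fun o => P.red_eq (hw o) (ha o) fun j => by
    rw [congrFun (e' o) j]
    exact pP (Sum.inl (o, j))
  have c1 : ∀ l, z (Sum.inr (Sum.inl l)) ∈ P.V ∧ P.fn (z (Sum.inr (Sum.inl l))) = b l :=
    fun l => pP (Sum.inr (Sum.inl l))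
  have c2 : ∀ l, z (Sum.inr (Sum.inr l)) ∈ P.V ∧ P.fn (z (Sum.inr (Sum.inr l))) = b' l :=
    fun l => pP (Sum.inr (Sum.inr l))
  refine ⟨E, _, _, P, oP, indep_of_rk ?_, c1, c2, fun o ho => ⟨w ⟨o, ho⟩, hZ _, hred _⟩⟩
  set S := Set.range (Sum.elim (fun l => z (Sum.inr (Sum.inl l))) fun l => z (Sum.inr (Sum.inr l)))
  have hS : Set.range z ⊆ cl k S := by
    rintro _ ⟨⟨o, j⟩ | l | l, rfl⟩
    · refine hI k E.K L _ I S P _ _ _ _ m m (w o) hg oP (fm_homog hβ _) (fm_homog hβ _)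
        (lift_coeff β fun l => ⟨Sum.inl l, rfl⟩) (lift_coeff β fun l => ⟨Sum.inr l, rfl⟩)
        (Rd.fm oP β c1) (Rd.fm oP β c2) (hZ o) (by rw [hred]; exact (hO o o.2).2) ?_
      exact ⟨j, a o, (congrFun (e' o) j).symm⟩
    · exact subset_cl S ⟨Sum.inl l, rfl⟩
    · exact subset_cl S ⟨Sum.inr l, rfl⟩
  have r1 := hB (Set.range (nv ξ a)) (Set.range x)
  rw [← Set.range_comp, ← Set.range_comp, ← Set.Sum.elim_range, rk_nv haξ,
    rk_range_of_indep hx] at r1
  have r2 : ((Fintype.card (O ⊕ O) : ℕ) : ℕ∞) ≤ rk k (rat ξ) := by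
    refine le_trans ?_ ((mul_le_mul_right rη _).trans h2)
    rw [Fintype.card_sum, Nat.cast_add, mul_two]
  have r3 := ((add_le_add_left r2 _).trans r1).trans
    (hr.trans (add_le_add_left (rk_le_of_subset_cl hS) _))
  rw [add_comm] at r3
  exact (ENat.add_le_add_iff_right (ENat.natCast_ne_top _)).1 r3

end Pool.Agent.MP_9207e0_ag.CC
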