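import Pool.Agent.MP_9207e0_ag.cc.Spec

/-! PROJECT CCC, row LIN: the rank of a solution of a linear system. -/

noncomputable section

namespace Pool.Agent.MP_9207e0_ag.CC

open MvPolynomial
open scoped Classical

/-- The closure as a subfield. -/
def linF (k : Type) {K : Type} [Field k] [Field K] [Algebra k K] (S : Set K) : Subfield K :=
  { (Subalgebra.algebraicClosure (Algebra.adjoin k S) K).toSubring with
    inv_mem' := fun _ hx => IsAlgebraic.inv (R := Algebra.adjoin k S) hx }

theorem lin_mem {k K : Type} [Field k] [Field K] [Algebra k K] {S : Set K} {x : K} :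
    x ∈ linF k S ↔ x ∈ cl k S := by
  unfold cl
  rw [AlgebraicIndependent.matroid_closure_eq]
  rfl

theorem lin_sub {k K : Type} [Field k] [Field K] [Algebra k K] {S : Set K} {x : K} (h : x ∈ S) :
    x ∈ linF k S :=
  lin_mem.2 ((AlgebraicIndependent.matroid k K).subset_closure S (Set.subset_univ _) h)

theorem lin_mono {k K : Type} [Field k] [Field K] [Algebra k K] {S T : Set K} {x : K}
    (h : x ∈ linF k S) : x ∈ linF k (S ∪ T) :=
  lin_mem.2 ((AlgebraicIndependent.matroid k K).closure_subset_closure Set.subset_union_left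
    (lin_mem.1 h))

theorem lin_rk {k K ι : Type} [Field k] [Field K] [Algebra k K] (S : Set K) (v : ι → K)
    {α : Type} (b : Finset α) (lam : α → K) (h : ∀ i, v i ∈ linF k (S ∪ lam '' b)) :
    rk k (S ∪ Set.range v) ≤ rk k S + b.card := by
  have h1 : S ∪ Set.range v ⊆ (AlgebraicIndependent.matroid k K).closure (S ∪ lam '' b) := by
    rintro x (hx | ⟨i, rfl⟩)
    · exact lin_mem.1 (lin_sub (Or.inl hx))
    · exact lin_mem.1 (h i)
  refine ((AlgebraicIndependent.matroid k K).eRk_mono h1).trans ?_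
  rw [Matroid.eRk_closure_eq]
  refine (Matroid.eRk_union_le_eRk_add_encard _ _ _).trans ?_
  refine add_le_add le_rfl ((Set.encard_image_le _ _).trans ?_)
  rw [Set.encard_coe_eq_coe_finsetCard]

theorem lin_span {K ι τ : Type} [Field K] [Fintype ι] (F : Subfield K) (A : τ → ι → K)
    (W : Submodule K (ι → K)) (hA : ∀ t i, A t i ∈ F)
    (hW : ∀ v, v ∈ W ↔ ∀ t, ∑ i, A t i * v i = 0) (v : ι → K) (hv : v ∈ W) :
    v ∈ Submodule.span K {w : ι → K | w ∈ W ∧ ∀ i, w i ∈ F} := by
  let B := Module.Basis.ofVectorSpace F K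
  let s := Finset.univ.biUnion fun i => (B.repr (v i)).support
  have e : v = ∑ b ∈ s, B b • fun i => (B.repr (v i) b : K) := by
    funext i
    rw [Finset.sum_apply]
    conv_lhs => rw [← B.linearCombination_repr (v i)]
    rw [Finsupp.linearCombination_apply, Finsupp.sum_of_support_subset _ (s := s)
      (fun b hb => Finset.mem_biUnion.2 ⟨i, Finset.mem_univ _, hb⟩) _ (by simp)]
    refine Finset.sum_congr rfl fun b _ => ?_
    simp only [Pi.smul_apply, smul_eq_mul]
    rw [mul_comm]
    rfl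
  rw [e]
  refine Submodule.sum_mem _ fun b _ => Submodule.smul_mem _ _ (Submodule.subset_span
    ⟨(hW _).2 fun t => ?_, fun i => (B.repr (v i) b).2⟩)
  have h0 : ∑ i, (⟨A t i, hA t i⟩ : F) • v i = 0 := (hW v).1 hv t
  have h1 := congrArg (fun x => ((B.repr x b : F) : K)) h0
  simp only [map_sum, map_smul, Finsupp.coe_finsetSum, Finset.sum_apply, Finsupp.smul_apply,
    smul_eq_mul, map_zero, Finsupp.coe_zero, Pi.zero_apply] at h1
  simpa using h1

theorem lin_dec {K ι τ : Type} [Field K] [Fintype ι] (F : Subfield K) (A : τ → ι → K)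
    (W : Submodule K (ι → K)) (hA : ∀ t i, A t i ∈ F)
    (hW : ∀ v, v ∈ W ↔ ∀ t, ∑ i, A t i * v i = 0) (v : ι → K) (hv : v ∈ W) :
    ∃ (b : Finset (ι → K)) (lam : (ι → K) → K), b.card ≤ Module.finrank K W ∧
      (∀ e ∈ b, ∀ i, e i ∈ F) ∧ ∀ i, v i = ∑ e ∈ b, lam e * e i := by
  obtain ⟨c, hc, hs, hi⟩ := exists_linearIndependent K {w : ι → K | w ∈ W ∧ ∀ i, w i ∈ F}
  have hfin : c.Finite := hi.setFinite
  lift c to Finset (ι → K) using hfin
  have h1 := lin_span F A W hA hW v hv
  rw [← hs] at h1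
  obtain ⟨lam, -, hl⟩ := Submodule.mem_span_finset.1 h1
  refine ⟨c, lam, ?_, fun e he => (hc he).2, fun i => ?_⟩
  · rw [← finrank_span_finset_eq_card hi]
    exact Submodule.finrank_mono (Submodule.span_le.2 fun e he => (hc he).1)
  · rw [← hl, Finset.sum_apply]
    rfl

theorem linS : LinStmt := by
  intro k K ι τ _ _ _ _ S A W ρ hA hW hρ v hv
  obtain ⟨b, lam, hb, hF, hl⟩ := lin_dec (linF k S) A W (fun t i => lin_mem.2 (hA t i)) hW v hv
  have hbρ : b.card ≤ ρ := hb.trans hρ
  refine ⟨?_, fun a ha => ?_⟩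
  · refine (lin_rk S v b lam fun i => ?_).trans (add_le_add le_rfl (by exact_mod_cast hbρ))
    rw [hl]
    exact sum_mem fun e he => mul_mem (lin_sub (Or.inr ⟨e, he, rfl⟩)) (lin_mono (hF e he i))
  · obtain ⟨e₀, he₀, h0⟩ : ∃ e₀ ∈ b, e₀ a ≠ 0 := by
      by_contra hcon
      push Not at hcon
      rw [hl, Finset.sum_eq_zero fun e he => by rw [hcon e he, mul_zero]] at ha
      exact zero_ne_one ha
    have hsum : ∀ i, ∑ e ∈ b.erase e₀, lam e * e i ∈ linF k (S ∪ lam '' (b.erase e₀)) := fun i =>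
      sum_mem fun e he => mul_mem (lin_sub (Or.inr ⟨e, he, rfl⟩))
        (lin_mono (hF e (Finset.mem_of_mem_erase he) i))
    have hl0 : lam e₀ ∈ linF k (S ∪ lam '' (b.erase e₀)) := by
      have : lam e₀ = (1 - ∑ e ∈ b.erase e₀, lam e * e a) / e₀ a := by
        rw [eq_div_iff h0, ← ha, hl a, ← Finset.add_sum_erase b _ he₀]
        ring
      rw [this]
      exact div_mem (sub_mem (one_mem _) (hsum a)) (lin_mono (hF e₀ he₀ a))
    have h2 := lin_rk (k := k) S v (b.erase e₀) lam fun i => by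
      rw [hl, ← Finset.add_sum_erase b _ he₀]
      exact add_mem (mul_mem hl0 (lin_mono (hF e₀ he₀ i))) (hsum i)
    refine (add_le_add h2 le_rfl).trans ?_
    rw [add_assoc]
    refine add_le_add le_rfl ?_
    have := Finset.card_erase_add_one he₀
    exact_mod_cast this.le.trans hbρ

end Pool.Agent.MP_9207e0_ag.CC
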