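import Pool.Agent.MP_9207e0_ag.cc.Start

/-! PROJECT CCC: the theorem from the rows. -/

noncomputable section

namespace Pool.Agent.MP_9207e0_ag.CC

open MvPolynomial
open scoped Classical

theorem onLocus_of (hB : BrStmt) {k K σ ε : Type} [Field k] [Field K] [Algebra k K] [Finite σ]
    {ξ : ε → PP σ K} {x : ε → PP σ k} {n : ℕ} (h : Sp k ξ x) (hn : (n : ℕ∞) ≤ rk k (rat ξ))
    {Q : ∀ (L : Type) [Field L] [Algebra k L], (ε → PP σ L) → Prop}
    (hQ : ∀ (L : Type) [Field L] [IsAlgClosed L] [Algebra k L] (p : ε → PP σ L), Sp k ξ p → Q L p) :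
    OnLocus x n Q := by
  obtain ⟨t, h1, h2⟩ := exists_indep hn
  choose i a b e using h1
  obtain rfl : t = _ := funext e
  exact ⟨K, inferInstance, inferInstance, ξ, (hB k K σ ε ξ).1 x h, ⟨i, a, b, h2⟩,
    fun L _ _ _ p hp => hQ L p ((hB k K σ ε ξ).2 L p hp)⟩

theorem mainS (h1 : L1Stmt) (h2 : L2Stmt) (hP : PrtStmt) (hS : StartStmt) (hB : BrStmt)
    (hD : GdStmt) (hR : RatpStmt) (hI : IntStmt) : MainStmt := by
  intro k _ _ _ r a I hK s δ hδ hs y hy hsy hcls d m x z hx hz h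
  have hH : Hg I := hK.homog
  obtain ⟨g1, -⟩ := hD k _ I hH
  have hC : CCD I s δ y := ⟨hδ, hs, hy, hsy, fun K _ _ _ p hp hp' => by
    have := charZero_of_injective_algebraMap (algebraMap k K).injective
    refine h1 k K _ I _ _ hH (fun t ht => Multiset.mem_singleton.1 ht ▸ hp)
      (fun t ht => Multiset.mem_singleton.1 ht ▸ On.bc hH hy) ?_
    rw [cyc_singleton, cyc_singleton]
    exact hcls K p hp hp'⟩
  have om : ∀ {K ι : Type} [Field K] [Algebra k K] [Fintype ι] (w : ι → PP (Fin (r + 3)) K),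
      (∀ i, On I (w i)) → OnM I (ms w) := fun w hw t ht => by
    obtain ⟨i, rfl⟩ := mem_ms.1 ht
    exact hw i
  obtain ⟨E, ξ, G, S, hr⟩ := hS k r a I hK s δ y d m x z hC hx hz (hP k r a I hK _ _
    (h1 k k _ I _ _ hH (om x hx) (onM_add.2 ⟨om z hz, fun t ht =>
      Multiset.eq_of_mem_replicate ht ▸ hy⟩) (by rwa [cyc_add, cyc_ms, cyc_ms, cyc_replicate])))
  have key : ∀ (L : Type) [Field L] [IsAlgClosed L] [Algebra k L]
      (p : Fin (d + m) ⊕ Fin d → PP (Fin (r + 3)) L), Sp k ξ p → (∀ i, OnX I (p i).rep) ∧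
      RatEq I L (∑ i, Finsupp.single (p (Sum.inl i)) 1) (∑ i, Finsupp.single (p (Sum.inr i)) 1 +
        Finsupp.single (pmap (algebraMap k L) y) (m : ℤ)) := by
    intro L _ _ _ p hp
    have := charZero_of_injective_algebraMap (algebraMap k L).injective
    have G' := g1 _ _ _ _ _ _ _ G hp
    refine ⟨G'.on, ?_⟩
    have h3 := G'.cls
    have e1 : ms p = ms (p ∘ Sum.inl) + ms (p ∘ Sum.inr) := by
      rw [← ms_elim, Sum.elim_comp_inl_inr]
    have e2 : ((Finset.univ : Finset (Fin d)).val.map Sum.inr +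
        (Finset.univ : Finset (Fin d)).val.map Sum.inr).map p =
        ms (p ∘ Sum.inr) + ms (p ∘ Sum.inr) := by
      simp only [Multiset.map_add, Multiset.map_map]
      rfl
    rw [e1, e2, add_right_comm, Multiset.map_replicate] at h3
    have h4 := h2 k L _ I _ _ hH ((hR k L _ I hH).2.2.2.2.2 _ _ _ (om _ fun i => G'.on _) h3)
    rwa [cyc_add, cyc_ms, cyc_ms, cyc_replicate] at h4
  refine ⟨onLocus_of hB S hr key, ?_⟩
  obtain ⟨F, ξ', ω, s₁, s₂, s₃, hrk⟩ := hI k E.K k _ _ r a I hK ξ z x z Finset.univ G.on hz S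
    (Sp.refl z) fun i hi => absurd (Finset.mem_univ i) hi
  have hω : ∀ i, ω i = bc F.K (z i) := fun i => s₂.bc (bc_self _).symm
  refine onLocus_of hB (s₃.comp Sum.inl) ?_ fun L _ _ _ p ⟨P, hP, hp⟩ => ?_
  · have h3 : rk k (rat (Sum.elim ξ' ω)) ≤ rk k (rat ξ') := by
      refine rk_le_of_subset_cl ?_
      rw [rat_elim, rat_eq_iUnion ω]
      exact Set.union_subset (subset_cl _) (Set.iUnion_subset fun i => hω i ▸ rat1_bc_subset _ _)
    have h4 := (hr.trans le_self_add).trans (hrk.trans (add_le_add h3 le_rfl))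
    rw [Finset.card_univ, Fintype.card_fin, Nat.cast_add, add_comm, Nat.cast_mul,
      Nat.cast_ofNat] at h4
    exact (ENat.add_le_add_iff_right (by exact_mod_cast ENat.natCast_ne_top (2 * d))).1 h4
  · have h3 := key L (Sum.elim p fun i => bc L (z i)) (s₁.trans ⟨P, hP, by
      rintro (i | i)
      · exact hp i
      · exact (congrArg P.red (hω i)).trans (Plc.red_bc hP _)⟩)
    exact ⟨fun i => h3.1 (Sum.inl i), h3.2⟩

end Pool.Agent.MP_9207e0_ag.CC
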