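import Pool.Agent.MP_9207e0_ag.cc.Spec

/-! PROJECT CCC, row NUM: the Hilbert function of a deformed complete intersection. -/

noncomputable section

namespace Pool.Agent.MP_9207e0_ag.CC

open MvPolynomial
open scoped Classical

theorem num_self {k σ : Type} [Field k] (I : Ideal (MvPolynomial σ k)) : IK k I = I := by
  have : (map (algebraMap k k) : MvPolynomial σ k →+* MvPolynomial σ k) = RingHom.id _ :=
    RingHom.ext fun f => map_id f
  rw [IK, this, Ideal.map_id]

theorem num_hg {k K σ : Type} [Field k] [Field K] [Algebra k K] {I : Ideal (MvPolynomial σ k)}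
    (hI : Hg I) : Hg (IK K I) := by
  let _ : GradedAlgebra (homogeneousSubmodule σ K) := MvPolynomial.gradedAlgebra
  let s : Set (MvPolynomial σ K) :=
    {g | ∃ f ∈ I, ∃ n, f.IsHomogeneous n ∧ g = map (algebraMap k K) f}
  have e : IK K I = Ideal.span s := by
    refine le_antisymm (Ideal.map_le_iff_le_comap.2 fun f hf => ?_) (Ideal.span_le.2 ?_)
    · rw [Ideal.mem_comap, ← sum_homogeneousComponent f, map_sum]
      exact Ideal.sum_mem _ fun j _ => Ideal.subset_span
        ⟨_, hI f hf j, j, homogeneousComponent_isHomogeneous j f, rfl⟩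
    · rintro g ⟨f, hf, n, -, rfl⟩
      exact Ideal.mem_map_of_mem _ hf
  have h : (Ideal.span s).IsHomogeneous (homogeneousSubmodule σ K) :=
    Ideal.homogeneous_span _ _ (by
      rintro g ⟨f, -, n, hn, rfl⟩
      exact ⟨n, hn.map _⟩)
  intro f hf j
  rw [e] at hf ⊢
  have := h j hf
  rwa [← decomposition.decompose'_apply]

theorem num_X {K L σ : Type} [Field K] [Field L] (P : Plc K L) (j : σ) : Rd P (X j) (X j) := by
  intro d
  rw [coeff_X, coeff_X]
  split_ifs
  · exact ⟨P.V.one_mem, P.fn_one⟩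
  · exact ⟨P.V.zero_mem, P.fn_zero⟩

theorem num_step (hE : ExactStmt) {k K σ : Type} [Field k] [Field K] [Finite σ]
    {J : Ideal (MvPolynomial σ k)} {A : Ideal (MvPolynomial σ K)} {f : MvPolynomial σ k}
    {g : MvPolynomial σ K} {e : ℕ} (hJ : Hg J) (hA : Hg A) (hf' : f.IsHomogeneous e)
    (hg : g.IsHomogeneous e) (h : ∀ j, hf A j = hf J j) (hn : ∀ u, f * u ∈ J → u ∈ J)
    (hle : ∀ j, hf (A ⊔ Ideal.span {g}) j ≤ hf (J ⊔ Ideal.span {f}) j) :
    (∀ j, hf (A ⊔ Ideal.span {g}) j = hf (J ⊔ Ideal.span {f}) j) ∧ ∀ u, g * u ∈ A → u ∈ A := by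
  obtain ⟨-, a2, -, a4⟩ := hE k σ J f e hJ hf'
  obtain ⟨-, b2, b3, b4⟩ := hE K σ A g e hA hg
  have a5 := a4.1 hn
  refine ⟨fun j => ?_, b4.2 fun j => ?_⟩
  · rcases lt_or_ge j e with hj | hj
    · rw [a2 j hj, b2 j hj, h]
    · obtain ⟨i, rfl⟩ : ∃ i, j = i + e := ⟨j - e, by omega⟩
      have := a5 i
      have := b3 i
      have := hle (i + e)
      have := h i
      have := h (i + e)
      omega
  · have := a5 j
    have := hle (j + e)
    have := h j
    have := h (j + e)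
    omega

theorem num_sup {R : Type} [CommRing R] {I J : Ideal R} {f g : R} (hIJ : I ≤ J) (h : f - g ∈ I) :
    J ⊔ Ideal.span {f} = J ⊔ Ideal.span {g} := by
  have key : ∀ f g : R, f - g ∈ J → J ⊔ Ideal.span {f} ≤ J ⊔ Ideal.span {g} := fun f g h => by
    refine sup_le le_sup_left ((Ideal.span_singleton_le_iff_mem _).2 ?_)
    have : f = (f - g) + g := by ring
    rw [this]
    exact Ideal.add_mem _ (Ideal.mem_sup_left h)
      (Ideal.mem_sup_right (Ideal.mem_span_singleton_self g))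
  refine le_antisymm (key f g (hIJ h)) (key g f ?_)
  have : g - f = -(f - g) := by ring
  rw [this]
  exact J.neg_mem (hIJ h)

theorem num_r1 {R : Type} [CommRing R] (J : Ideal R) (f : R) :
    J ⊔ Ideal.span (Set.range ![f]) = J ⊔ Ideal.span {f} := by
  simp

theorem num_r2 {R : Type} [CommRing R] (J : Ideal R) (f g : R) :
    J ⊔ Ideal.span (Set.range ![f, g]) = J ⊔ Ideal.span {f} ⊔ Ideal.span {g} := by
  rw [Matrix.range_cons_cons_empty, Ideal.span_insert, sup_assoc]

theorem num_r3 {R : Type} [CommRing R] (J : Ideal R) (f g u : R) :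
    J ⊔ Ideal.span (Set.range ![f, g, u]) =
      J ⊔ Ideal.span {f} ⊔ Ideal.span {g} ⊔ Ideal.span {u} := by
  rw [Matrix.range_cons, Matrix.range_cons_cons_empty, Ideal.span_union, Ideal.span_insert,
    sup_assoc, sup_assoc]

theorem numS (hE : ExactStmt) (hS : SemiStmt) (hR : RegStmt) : NumStmt := by
  intro k K _ _ _ r a I hI m P F G F' G' hm hP hF hG rF rG eF eG
  obtain ⟨n0, n1, n2⟩ := (hR k r a I hI).1 m
  have hg0 : Hg I := hI.homog
  have x0 : (X 0 ^ m : MvPolynomial (Fin (r + 3)) k).IsHomogeneous m := isHomogeneous_X_pow _ _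
  have x1 : (X 1 ^ m : MvPolynomial (Fin (r + 3)) k).IsHomogeneous m := isHomogeneous_X_pow _ _
  obtain ⟨hg1, -, a3, a4⟩ := hE k _ I _ m hg0 x0
  obtain ⟨hg2, -, -, b4⟩ := hE k _ _ _ m hg1 x1
  have hA0 : Hg (IK K I) := num_hg hg0
  have hA1 := (hE K _ _ F m hA0 hF).1
  have hA2 := (hE K _ _ G m hA1 hG).1
  have h0 : ∀ j, hf (IK K I) j = hf I j := fun j => by
    have u := hS k K k _ Empty I P (fun t => t.elim) (fun t => t.elim) (fun t => t.elim) hg0 hP
      (fun t => t.elim) (fun t => t.elim) j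
    have v := hS k k K _ Empty I (Plc.ofHom (Algebra.ofId k K : k →+* K)) (fun t => t.elim)
      (fun t => t.elim) (fun t => t.elim) hg0 (Plc.ofHom_over _) (fun t => t.elim)
      (fun t => t.elim) j
    simp only [Set.range_eq_empty, Ideal.span_empty, sup_bot_eq, num_self] at u v
    exact le_antisymm u v
  have e1 : I ⊔ Ideal.span {F'} = I ⊔ Ideal.span {X 0 ^ m} := num_sup le_rfl eF
  have e2 : I ⊔ Ideal.span {X 0 ^ m} ⊔ Ideal.span {G'} =
      I ⊔ Ideal.span {X 0 ^ m} ⊔ Ideal.span {X 1 ^ m} := num_sup le_sup_left eG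
  have s1 := hS k K k _ (Fin 1) I P ![F] ![F'] ![m] hg0 hP
    (fun t => by fin_cases t; exact hF) (fun t => by fin_cases t; exact rF)
  have s2 := hS k K k _ (Fin 2) I P ![F, G] ![F', G'] ![m, m] hg0 hP
    (fun t => by fin_cases t; exacts [hF, hG]) (fun t => by fin_cases t; exacts [rF, rG])
  have s3 := hS k K k _ (Fin 3) I P ![F, G, X 2] ![F', G', X 2] ![m, m, 1] hg0 hP
    (fun t => by fin_cases t; exacts [hF, hG, isHomogeneous_X _ _])
    (fun t => by fin_cases t; exacts [rF, rG, num_X P 2])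
  rw [num_r1, num_r1, num_self, e1] at s1
  rw [num_r2, num_r2, num_self, e1, e2] at s2
  rw [num_r3, num_r3, num_self, e1, e2] at s3
  obtain ⟨h1, -⟩ := num_step hE hg0 hA0 x0 hF h0 n0 s1
  obtain ⟨h2, -⟩ := num_step hE hg1 hA1 x1 hG h1 n1 s2
  obtain ⟨-, h3⟩ := num_step hE hg2 hA2 (isHomogeneous_X _ _) (isHomogeneous_X _ _) h2 n2 s3
  rw [Ideal.span_insert, ← sup_assoc]
  refine ⟨h3, fun j hj => ?_⟩
  obtain ⟨i, hi, rfl⟩ : ∃ i, 1 ≤ i ∧ j = i + m + m := ⟨j - 2 * m, by omega, by omega⟩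
  rw [h2]
  have c1 := b4.1 n1 (i + m)
  have c2 := a4.1 n0 (i + m)
  have c3 := a3 i
  rw [hI.hilb _ (by omega), hI.hilb _ (by omega)] at c2 c3
  have c4 : a * (i + m + m) ^ 2 + a * i ^ 2 = 2 * (a * (i + m) ^ 2) + 2 * a * m ^ 2 := by ring
  omega

end Pool.Agent.MP_9207e0_ag.CC
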