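import Pool.Agent.MP_9207e0_ag.cc.Rk

/-! PROJECT CCC: a form that cuts out the tangent line of a curve on the surface. -/

noncomputable section

namespace Pool.Agent.MP_9207e0_ag.CC

open MvPolynomial
open scoped Classical

theorem o1a_lin {K V : Type} [Field K] [AddCommGroup V] [Module K V] [FiniteDimensional K V]
    {T : Submodule K V} (hT : Module.finrank K T ≤ 3) (l₁ l₂ : V →ₗ[K] K) {v δ₀ δ₁ : V}
    (hv : v ∈ T) (v0 : v ≠ 0) (v1 : l₁ v = 0) (v2 : l₂ v = 0) (h0 : δ₀ ∈ T) (h01 : l₁ δ₀ ≠ 0)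
    (h1 : δ₁ ∈ T) (h11 : l₁ δ₁ = 0) (h12 : l₂ δ₁ ≠ 0) :
    ∀ δ ∈ T, l₁ δ = 0 → l₂ δ = 0 → δ ∈ K ∙ v := by
  have a1 : T ⊓ LinearMap.ker l₁ < T :=
    lt_of_le_of_ne inf_le_left fun h => h01 (by rw [← h] at h0; exact h0.2)
  have a2 : T ⊓ LinearMap.ker l₁ ⊓ LinearMap.ker l₂ < T ⊓ LinearMap.ker l₁ :=
    lt_of_le_of_ne inf_le_left fun h => h12 (by
      have : δ₁ ∈ T ⊓ LinearMap.ker l₁ := ⟨h1, h11⟩
      rw [← h] at this
      exact this.2)
  have b1 := Submodule.finrank_lt_finrank_of_lt a1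
  have b2 := Submodule.finrank_lt_finrank_of_lt a2
  have e : (K ∙ v) = T ⊓ LinearMap.ker l₁ ⊓ LinearMap.ker l₂ := by
    refine Submodule.eq_of_le_of_finrank_le
      ((Submodule.span_singleton_le_iff_mem _ _).2 ⟨⟨hv, v1⟩, v2⟩) ?_
    rw [finrank_span_singleton v0]
    omega
  intro δ h h1 h2
  rw [e]
  exact ⟨⟨h, h1⟩, h2⟩

theorem o1aS (hT : TanStmt) (hI : IsolStmt) (hG : GenStmt) (hS : SphStmt) : O1aStmt := by
  intro k L _ _ _ _ _ r a I hK x hx hr
  have hg : Hg I := hK.homog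
  by_cases hc : ∀ δ ∈ tang I x.rep, TC k x δ
  · by_contra hn
    obtain ⟨E, η, hη, h2, -, -⟩ := hG k r a I hK
    have h1 : Sp1 k x η := hS k L E.K _ x η fun f n hf h0 => by
      by_contra h3
      exact hn ⟨f, n, hf, fun h4 => h3 (hη f h4), h0, fun δ hδ _ => hc δ hδ⟩
    have h3 := h2.trans h1.rk_le
    rw [hr] at h3
    exact absurd h3 (by norm_num)
  · simp only [TC, not_forall] at hc
    obtain ⟨δ₀, h0, F, e, hF, F0, hd⟩ := hc
    refine ⟨F, e, hF, fun h => hd (h0 F h), F0, fun δ₁ h1 d1 f n hf f0 => ?_⟩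
    by_contra d2
    have mF : (map (algebraMap k L) F).IsHomogeneous e := hF.map _
    have mf : (map (algebraMap k L) f).IsHomogeneous n := hf.map _
    have eF : eval x.rep (map (algebraMap k L) F) = 0 := (eval_map_eq _ _).trans F0
    have ef : eval x.rep (map (algebraMap k L) f) = 0 := (eval_map_eq _ _).trans f0
    have tr : Trans I x (map (algebraMap k L) F) (map (algebraMap k L) f) := by
      intro δ h a1 a2
      refine o1a_lin (hT k L r a I hK x.rep x.rep_nonzero hx)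
        (dvL (map (algebraMap k L) F) x.rep) (dvL (map (algebraMap k L) f) x.rep)
        (self_mem_tang hg hx) x.rep_nonzero ?_ ?_ h0 ?_ h1 ?_ ?_ δ h ?_ ?_ <;>
        rw [dvL_apply]
      · rw [dv_self mF, eF, mul_zero]
      · rw [dv_self mf, ef, mul_zero]
      exacts [hd, d1, d2, a1, a2]
    have hP := Plc.ofHom_over (AlgHom.id k L)
    have e1 : (Plc.ofHom (AlgHom.id k L : L →+* L)).red x = x :=
      (Plc.ofHom_red _ _).trans (pmap_id x)
    have rd : ∀ G : MvPolynomial (Fin (r + 3)) L, Rd (Plc.ofHom (AlgHom.id k L : L →+* L)) G G :=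
      fun G d => ⟨Plc.ofHom_mem _ _, Plc.ofHom_fn _ _⟩
    have key := hI k L L _ I ∅ _ _ _ _ _ e n x hg hP mF mf
      (fun d => by rw [coeff_map]; exact algebraMap_mem_cl _ _)
      (fun d => by rw [coeff_map]; exact algebraMap_mem_cl _ _) (rd _) (rd _) ⟨hx, eF, ef⟩
      (by rw [e1]; exact tr)
    have h3 := rk_le_of_subset_cl key
    rw [hr, rk_empty] at h3
    exact absurd h3 (by norm_num)

end Pool.Agent.MP_9207e0_ag.CC
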