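import Pool.Agent.MP_9207e0_ag.cc.Rk

/-! PROJECT CCC: the equation of the parameter over the field of a point of rank one. -/

noncomputable section

namespace Pool.Agent.MP_9207e0_ag.CC

open MvPolynomial
open scoped Classical

variable {k L σ : Type} [Field k] [Field L] [Algebra k L]

/-- Division with remainder by an equation of least degree. -/
theorem o1c_key {R : Type} [CommRing R] (φ : R →+* L) (t : L)
    (h : ∃ g : Polynomial R, g.map φ ≠ 0 ∧ (g.map φ).eval t = 0) :
    ∃ μ : Polynomial R, (μ.map φ).eval t = 0 ∧ ∀ g : Polynomial R, (g.map φ).eval t = 0 →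
      ∃ (H : R) (q : Polynomial R), φ H ≠ 0 ∧ (Polynomial.C H * g - μ * q).map φ = 0 := by
  have h1 : ∃ n, ∃ g : Polynomial R, g.map φ ≠ 0 ∧ (g.map φ).eval t = 0 ∧
      (g.map φ).natDegree = n := by
    obtain ⟨g, a, b⟩ := h
    exact ⟨_, g, a, b, rfl⟩
  obtain ⟨μ, m0, m1, m2⟩ := Nat.find_spec h1
  have hmin : ∀ g : Polynomial R, g.map φ ≠ 0 → (g.map φ).eval t = 0 →
      (μ.map φ).natDegree ≤ (g.map φ).natDegree := fun g a b =>
    m2 ▸ Nat.find_min' h1 ⟨g, a, b, rfl⟩
  have hpos : 0 < (μ.map φ).natDegree :=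
    Polynomial.natDegree_pos_iff_degree_pos.mpr (Polynomial.degree_pos_of_root m0 m1)
  refine ⟨μ, m1, fun g => ?_⟩
  induction hn : (g.map φ).natDegree using Nat.strong_induction_on generalizing g with
  | _ n ih =>
    intro hg
    by_cases g0 : g.map φ = 0
    · exact ⟨1, 0, by simp, by simp [g0]⟩
    have hle := hmin g g0 hg
    set g1 : Polynomial R := Polynomial.C (μ.coeff (μ.map φ).natDegree) * g -
      Polynomial.C (g.coeff (g.map φ).natDegree) *
        Polynomial.X ^ ((g.map φ).natDegree - (μ.map φ).natDegree) * μ with hg1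
    have e : g1.map φ = (μ.map φ).cancelLeads (g.map φ) := by
      rw [hg1, Polynomial.cancelLeads, Nat.sub_eq_zero_of_le hle, pow_zero, mul_one]
      simp only [Polynomial.map_sub, Polynomial.map_mul, Polynomial.map_C, Polynomial.map_pow,
        Polynomial.map_X, Polynomial.leadingCoeff, Polynomial.coeff_map]
    have hlt := Polynomial.natDegree_cancelLeads_lt_of_natDegree_le_natDegree hle (hpos.trans_le hle)
    obtain ⟨H, q, hH, hq⟩ := ih _ (by rw [← hn, e]; exact hlt) g1 rfl (by
      rw [hg1]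
      simp only [Polynomial.map_sub, Polynomial.map_mul, Polynomial.eval_sub, Polynomial.eval_mul,
        hg, m1, mul_zero, sub_zero])
    refine ⟨H * μ.coeff (μ.map φ).natDegree, q + Polynomial.C H *
      (Polynomial.C (g.coeff (g.map φ).natDegree) *
        Polynomial.X ^ ((g.map φ).natDegree - (μ.map φ).natDegree)), ?_, ?_⟩
    · rw [map_mul, ← Polynomial.coeff_map]
      exact mul_ne_zero hH (Polynomial.leadingCoeff_ne_zero.mpr m0)
    · rw [← hq, hg1, Polynomial.C_mul]
      congr 1
      ring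

/-- The substitution of `t` for the variable. -/
def o1cPsi (k σ : Type) [Field k] [Algebra k L] (t : L) :
    Polynomial (MvPolynomial σ k) →+* MvPolynomial σ L :=
  Polynomial.eval₂RingHom (map (algebraMap k L)) (C t)

theorem o1cPsi_sum (t : L) (g : Polynomial (MvPolynomial σ k)) :
    o1cPsi k σ t g = ∑ i ∈ Finset.range (g.natDegree + 1),
      C (t ^ i) * map (algebraMap k L) (g.coeff i) := by
  rw [o1cPsi, Polynomial.coe_eval₂RingHom, Polynomial.eval₂_eq_sum_range]
  exact Finset.sum_congr rfl fun i _ => by rw [mul_comm, map_pow]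

theorem o1cPsi_eval (t : L) (z : σ → L) (g : Polynomial (MvPolynomial σ k)) :
    eval z (o1cPsi k σ t g) =
      (g.map (aeval z : MvPolynomial σ k →ₐ[k] L).toRingHom).eval t := by
  rw [o1cPsi, Polynomial.coe_eval₂RingHom, Polynomial.hom_eval₂, Polynomial.eval_map, eval_C]
  congr 1
  exact RingHom.ext fun f => eval_map_eq z f

theorem o1cPsi_C (t : L) (f : MvPolynomial σ k) :
    o1cPsi k σ t (Polynomial.C f) = map (algebraMap k L) f := by
  simp [o1cPsi]

theorem o1cPsi_aeval (t : L) (p : Polynomial k) :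
    o1cPsi k σ t (p.map C) = C (Polynomial.aeval t p) := by
  induction p using Polynomial.induction_on with
  | C c => simp [o1cPsi]
  | add p q hp hq => simp only [Polynomial.map_add, map_add, hp, hq]
  | monomial n c h => simp [o1cPsi]

variable [Fintype σ]

theorem o1c_dv_Cmul (c : L) (F : MvPolynomial σ L) (z δ : σ → L) :
    dv (C c * F) z δ = c * dv F z δ := by
  rw [dv_mul, dv_C, eval_C, mul_zero, add_zero]

theorem o1c_univ (j : σ) (z δ : σ → L) (p : Polynomial L) :
    eval z (p.eval₂ C (X j)) = p.eval (z j) ∧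
      dv (p.eval₂ C (X j)) z δ = p.derivative.eval (z j) * δ j := by
  induction p using Polynomial.induction_on with
  | C c => simp [dv_C]
  | add p q hp hq =>
    simp only [Polynomial.eval₂_add, map_add, dv_add, hp.1, hp.2, hq.1, hq.2, Polynomial.eval_add]
    exact ⟨trivial, by ring⟩
  | monomial n c h =>
    rw [pow_succ, ← mul_assoc, Polynomial.eval₂_mul, Polynomial.eval₂_X, map_mul, dv_mul, h.1, h.2,
      dv_X, eval_X, Polynomial.derivative_mul (f := Polynomial.C c * Polynomial.X ^ n)]
    simp only [Polynomial.eval_mul, Polynomial.eval_X, Polynomial.eval_add,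
      Polynomial.derivative_X, Polynomial.eval_one]
    exact ⟨trivial, by ring⟩

/-- Passage to the chart. -/
theorem o1c_chart {F : MvPolynomial σ L} {n : ℕ} (hF : F.IsHomogeneous n) {c : L} (hc : c ≠ 0)
    {z δ : σ → L} (s : L) (h0 : eval z F = 0) (h : dv F (c • z) δ = 0) :
    dv F z (δ - s • z) = 0 := by
  have h1 := dv_smul_left hF c z δ
  rw [h, mul_zero] at h1
  have h2 : dv F z δ = 0 := (mul_eq_zero.mp h1.symm).resolve_left (pow_ne_zero n hc)
  rw [← dvL_apply, map_sub, map_smul, dvL_apply, dvL_apply, h2, dv_self hF, h0]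
  simp

omit [Fintype σ] in
theorem o1c_alg (p : Polynomial k) :
    algebraMap (RatFunc k) (LL k) (algebraMap (Polynomial k) (RatFunc k) p) =
      Polynomial.aeval (tt k) p := by
  rw [tt, Polynomial.aeval_algebraMap_apply, RatFunc.aeval_X_left_eq_algebraMap]

/-- A separable equation of one coordinate over `k[t]`. -/
theorem o1c_sep [CharZero k] (z : σ → LL k) (j : σ) :
    ∃ (g : Polynomial (MvPolynomial σ k)) (u : LL k), u ≠ 0 ∧ eval z (o1cPsi k σ (tt k) g) = 0 ∧
      ∀ δ, dv (o1cPsi k σ (tt k) g) z δ = u * δ j := by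
  set m := minpoly (RatFunc k) (z j) with hm
  have hsep : Polynomial.aeval (z j) m.derivative ≠ 0 :=
    (Algebra.IsSeparable.isSeparable (RatFunc k) (z j)).aeval_derivative_ne_zero
      (minpoly.aeval _ _)
  obtain ⟨b, hb, hb'⟩ := IsLocalization.integerNormalization_spec
    (nonZeroDivisors (Polynomial k)) m
  set m' := IsLocalization.integerNormalization (nonZeroDivisors (Polynomial k)) m
  set β : RatFunc k := algebraMap (Polynomial k) (RatFunc k) b with hβ
  have β0 : β ≠ 0 := IsFractionRing.to_map_ne_zero_of_mem_nonZeroDivisors hb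
  have e1 : m'.map (algebraMap (Polynomial k) (RatFunc k)) = Polynomial.C β * m := by
    rw [hb', ← algebraMap_smul (RatFunc k) b m, Polynomial.smul_eq_C_mul]
  set p : Polynomial (LL k) := (Polynomial.C β * m).map (algebraMap (RatFunc k) (LL k)) with hp
  have e2 : o1cPsi k σ (tt k) (m'.eval₂ (Polynomial.mapRingHom C) (Polynomial.C (X j))) =
      p.eval₂ C (X j) := by
    rw [hp, ← e1, Polynomial.map_map, Polynomial.eval₂_map, Polynomial.hom_eval₂, o1cPsi_C, map_X]
    congr 1
    refine RingHom.ext fun q => ?_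
    simp only [RingHom.comp_apply, Polynomial.coe_mapRingHom, o1cPsi_aeval, o1c_alg]
  refine ⟨m'.eval₂ (Polynomial.mapRingHom C) (Polynomial.C (X j)), p.derivative.eval (z j), ?_, ?_,
    fun δ => ?_⟩
  · rw [hp, Polynomial.derivative_map, Polynomial.derivative_C_mul, Polynomial.eval_map_algebraMap,
      map_mul, Polynomial.aeval_C]
    exact mul_ne_zero ((map_ne_zero _).mpr β0) hsep
  · rw [e2, (o1c_univ j z z p).1, hp, Polynomial.eval_map_algebraMap, map_mul, hm, minpoly.aeval,
      mul_zero]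
  · rw [e2, (o1c_univ j z δ p).2]

omit [Fintype σ] in
/-- A place that fixes the parameter is an automorphism. -/
theorem o1c_aut (P : Plc (LL k) (LL k))
    (hP : ∀ p : Polynomial k, Polynomial.aeval (tt k) p ∈ P.V ∧
      P.fn (Polynomial.aeval (tt k) p) = Polynomial.aeval (tt k) p) :
    ∃ τ : LL k ≃ₐ[RatFunc k] LL k, ∀ y, τ y = P.fn y := by
  have h1 : ∀ r : RatFunc k, algebraMap (RatFunc k) (LL k) r ∈ P.V ∧
      P.fn (algebraMap (RatFunc k) (LL k) r) = algebraMap (RatFunc k) (LL k) r := fun r => by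
    have h2 : P.fn (Polynomial.aeval (tt k) r.denom) ≠ 0 := by
      rw [(hP _).2, ← o1c_alg]
      exact (map_ne_zero _).mpr (RatFunc.algebraMap_ne_zero r.denom_ne_zero)
    rw [← RatFunc.num_div_denom r, map_div₀, o1c_alg, o1c_alg]
    exact ⟨P.div_mem (hP _).1 h2, by rw [P.fn_div (hP _).1 h2, (hP _).2, (hP _).2]⟩
  have h2 : ∀ y, y ∈ P.V := fun y => by
    refine P.mem_of_cl (F := (algebraMap (RatFunc k) (LL k)).fieldRange) ?_ ?_
    · rintro _ ⟨r, rfl⟩
      exact (h1 r).1
    · obtain ⟨p, p0, hp⟩ := Algebra.IsAlgebraic.isAlgebraic (R := RatFunc k) y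
      refine ⟨p.map (algebraMap (RatFunc k) (LL k)).rangeRestrictField,
        Polynomial.map_ne_zero p0, ?_⟩
      rw [Polynomial.aeval_def, Polynomial.eval₂_map]
      exact hp
  let f : LL k →ₐ[RatFunc k] LL k :=
    { toFun := P.fn
      map_one' := P.fn_one
      map_mul' := fun a b => P.fn_mul (h2 a) (h2 b)
      map_zero' := P.fn_zero
      map_add' := fun a b => P.fn_add (h2 a) (h2 b)
      commutes' := fun r => (h1 r).2 }
  exact ⟨AlgEquiv.ofBijective f (Algebra.IsAlgebraic.algHom_bijective f), fun _ => rfl⟩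

theorem o1c_asp {x y : PP σ L} (h : Sp1 k x y) {a : σ} (ha : y.rep a ≠ 0) :
    ASp k (fun b => x.rep b / x.rep a) fun b => y.rep b / y.rep a := by
  obtain ⟨P, hP, rfl⟩ := h
  have h1 := (P.ratio x ha).2
  have h2 := ASp.of_plc hP fun b => (h1 b).1
  simpa only [fun b => (h1 b).2] using h2

theorem o1cS (h : HomStmt) : O1cStmt := by
  intro k σ _ _ _ _ x hx
  obtain ⟨a, ha⟩ := Function.ne_iff.1 x.rep_nonzero
  have ha : x.rep a ≠ 0 := ha
  set z : σ → LL k := fun b => x.rep b / x.rep a with hz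
  have za : z a = 1 := div_self ha
  have hxz : x.rep = x.rep a • z := funext fun b => (mul_div_cancel₀ _ ha).symm
  set t := tt k with ht
  have halg : t ∈ cl k (Set.range z) := by
    refine subset_cl_of_rk_le (S := Set.range z) (T := {t}) (rk_ne_top (Set.finite_range z))
      (fun y _ => mem_cl_tt y) ((rk_LL _).trans ((one_le_rk hx).trans
        (rk_le_of_subset_cl ?_))) rfl
    rintro _ ⟨b, c, rfl⟩
    have : x.rep b / x.rep c = z b / z c := (div_div_div_cancel_right₀ ha _ _).symm
    rw [this]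
    exact div_mem_cl (subset_cl _ ⟨b, rfl⟩) (subset_cl _ ⟨c, rfl⟩)
  obtain ⟨m, m0, hm⟩ := o1c_key (aeval z : MvPolynomial σ k →ₐ[k] LL k).toRingHom t (by
    obtain ⟨p, p0, hp⟩ := mem_cl_iff.mp halg
    obtain ⟨g, hg⟩ := (Polynomial.mem_lifts (f := (aeval z : MvPolynomial σ k →ₐ[k] LL k).toRingHom)
      (p.map (algebraMap _ (LL k)))).mp ((Polynomial.lifts_iff_coeff_lifts _).mpr fun n => by
        have := (p.coeff n).2
        rw [Polynomial.coeff_map]
        exact (Algebra.adjoin_range_eq_range_aeval k z).le this)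
    refine ⟨g, ?_, ?_⟩
    · rw [hg]
      exact (Polynomial.map_ne_zero_iff Subtype.val_injective).mpr p0
    · rw [hg, Polynomial.eval_map_algebraMap]
      exact hp)
  set N := m.natDegree + 1 with hN
  set e := (Finset.range N).sup fun i => (m.coeff i).totalDegree with he
  choose μ hμ hμ' using fun i : Fin N => h k σ (m.coeff i) e a
    (Finset.le_sup (f := fun i => (m.coeff i).totalDegree) (Finset.mem_range.mpr i.2))
  have hhom : (pu μ t).IsHomogeneous e :=
    IsHomogeneous.sum _ _ _ fun i _ => ((hμ i).map _).C_mul _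
  have ev : ∀ w : σ → LL k, w a = 1 → eval w (pu μ t) = eval w (o1cPsi k σ t m) := fun w hw => by
    rw [pu, o1cPsi_sum, Finset.sum_range, map_sum, map_sum]
    refine Finset.sum_congr rfl fun i _ => ?_
    rw [map_mul, map_mul, eval_map_eq, eval_map_eq, (hμ' i _ w hw).1]
  have dvv : ∀ δ : σ → LL k, δ a = 0 → dv (pu μ t) z δ = dv (o1cPsi k σ t m) z δ := fun δ hδ => by
    rw [pu, o1cPsi_sum, Finset.sum_range, dv_sum, dv_sum]
    refine Finset.sum_congr rfl fun i _ => ?_
    rw [o1c_dv_Cmul, o1c_dv_Cmul, (hμ' i _ z za).2 δ hδ]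
  have e0 : eval z (o1cPsi k σ t m) = 0 := by rw [o1cPsi_eval, m0]
  have e1 : eval z (pu μ t) = 0 := by rw [ev z za, e0]
  refine ⟨N, e, μ, hμ, by rw [hxz, eval_smul_homog hhom, e1, mul_zero], fun δ hT hδ => ?_,
    fun x' s1 s2 hx' => ?_⟩
  · set δ' := δ - δ a • z with hδ'
    have d0 : δ' a = 0 := by simp [hδ', za]
    have d1 : dv (o1cPsi k σ t m) z δ' = 0 := by
      rw [← dvv δ' d0]
      exact o1c_chart hhom ha _ e1 (hxz ▸ hδ)
    have d2 : ∀ f : MvPolynomial σ k, aeval z f = 0 → dv (map (algebraMap k (LL k)) f) z δ' = 0 :=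
      fun f hf => by
        obtain ⟨g, g1, g2⟩ := h k σ f _ a le_rfl
        have g3 : aeval z g = 0 := by rw [(g2 _ z za).1, hf]
        rw [← (g2 _ z za).2 δ' d0]
        refine o1c_chart (g1.map _) ha _ (by rw [eval_map_eq, g3]) (hxz ▸ hT g _ g1 ?_)
        rw [hxz, aeval_smul_homog g1, g3, mul_zero]
    have d3 : ∀ j, δ' j = 0 := fun j => by
      obtain ⟨g, u, u0, g1, g2⟩ := o1c_sep z j
      obtain ⟨H, q, H0, hq⟩ := hm g (by rw [← o1cPsi_eval]; exact g1)
      have d4 : dv (o1cPsi k σ t (Polynomial.C H * g - m * q)) z δ' = 0 := by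
        rw [o1cPsi_sum, dv_sum]
        refine Finset.sum_eq_zero fun i _ => ?_
        rw [o1c_dv_Cmul, d2 _ ?_, mul_zero]
        exact (Polynomial.coeff_map (aeval z : MvPolynomial σ k →ₐ[k] LL k).toRingHom i).symm.trans
          (by rw [hq, Polynomial.coeff_zero])
      rw [map_sub, map_mul, map_mul, dv_sub, dv_mul, dv_mul, e0, d1, g1, g2, o1cPsi_C,
        eval_map_eq] at d4
      simp only [zero_mul, mul_zero, add_zero, sub_zero] at d4
      exact (mul_eq_zero.mp ((mul_eq_zero.mp d4).resolve_left H0)).resolve_left u0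
    refine Submodule.mem_span_singleton.mpr ⟨δ a / x.rep a, funext fun j => ?_⟩
    have := d3 j
    simp only [hδ', hz, Pi.sub_apply, Pi.smul_apply, smul_eq_mul] at this ⊢
    rw [sub_eq_zero.mp this]
    ring
  · have ha' : x'.rep a ≠ 0 := fun h0 => ha (by
      simpa using s2.aeval (isHomogeneous_X k a) (by simpa using h0))
    set z' : σ → LL k := fun b => x'.rep b / x'.rep a with hz'
    have za' : z' a = 1 := div_self ha'
    have hxz' : x'.rep = x'.rep a • z' := funext fun b => (mul_div_cancel₀ _ ha').symm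
    have a1 : ASp k z z' := o1c_asp s1 ha'
    have a2 : ASp k z' z := o1c_asp s2 ha
    have e2 : eval z' (o1cPsi k σ t m) = 0 := by
      rw [hxz', eval_smul_homog hhom, ev z' za'] at hx'
      exact (mul_eq_zero.mp hx').resolve_left (pow_ne_zero _ ha')
    obtain ⟨P, hP⟩ := place ((eval z).comp (o1cPsi k σ t)) ((eval z').comp (o1cPsi k σ t))
      fun g hg => by
        obtain ⟨H, q, H0, hq⟩ := hm g (by rw [← o1cPsi_eval]; exact hg)
        have d4 : eval z' (o1cPsi k σ t (Polynomial.C H * g - m * q)) = 0 := by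
          rw [o1cPsi_sum, map_sum]
          refine Finset.sum_eq_zero fun i _ => ?_
          rw [map_mul, eval_map_eq, a1 _ ?_, mul_zero]
          exact (Polynomial.coeff_map (aeval z : MvPolynomial σ k →ₐ[k] LL k).toRingHom i).symm.trans
            (by rw [hq, Polynomial.coeff_zero])
        rw [map_sub, map_mul, map_mul, map_sub, map_mul, map_mul, e2, zero_mul, sub_zero, o1cPsi_C,
          eval_map_eq] at d4
        exact (mul_eq_zero.mp d4).resolve_left fun h0 => H0 (a2 H h0)
    obtain ⟨τ, hτ⟩ := o1c_aut P fun p => by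
      simpa only [RingHom.comp_apply, o1cPsi_aeval, eval_C] using hP (p.map C)
    refine ⟨τ, pp_ext (a := a) (by rw [Ne, pmap_ne]; exact ha) ha' fun b => ?_⟩
    have := (hP (Polynomial.C (X b))).2
    simp only [RingHom.comp_apply, o1cPsi_C, map_X, eval_X] at this
    rw [pmap_div]
    exact (hτ _).trans this

end Pool.Agent.MP_9207e0_ag.CC
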