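import Pool.Agent.MP_9207e0_ag.cc.Rk

/-! PROJECT CCC: an orbit is cut out by two forms. -/

noncomputable section

namespace Pool.Agent.MP_9207e0_ag.CC

open MvPolynomial
open scoped Classical

section Aux

variable {k K σ : Type} [Field k] [Field K] [Algebra k K]

theorem orb_eval (τ : K →+* K) (F : MvPolynomial σ K) (v : σ → K) :
    eval (fun j => τ (v j)) (map τ F) = τ (eval v F) := by
  induction F using MvPolynomial.induction_on with
  | C c => simp
  | add f g hf hg => simp only [map_add, hf, hg]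
  | mul_X f i hf => simp only [map_mul, map_X, eval_X, hf]

theorem orb_dv [Fintype σ] (τ : K →+* K) (F : MvPolynomial σ K) (v δ : σ → K) :
    dv (map τ F) (fun j => τ (v j)) (fun j => τ (δ j)) = τ (dv F v δ) := by
  simp only [dv, map_sum, map_mul, pderiv_map, orb_eval]

theorem orb_map (τ : K ≃ₐ[k] K) (f : MvPolynomial σ k) :
    map (τ : K →+* K) (map (algebraMap k K) f) = map (algebraMap k K) f := by
  rw [map_map]
  exact congrArg (fun φ => map φ f) (RingHom.ext fun c => τ.commutes c)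

theorem orb_move [Fintype σ] {I : Ideal (MvPolynomial σ k)} (hI : Hg I) (τ : K ≃ₐ[k] K)
    {F G : MvPolynomial σ K} {m : ℕ} (hF : F.IsHomogeneous m) (hG : G.IsHomogeneous m)
    (eF : map (τ : K →+* K) F = F) (eG : map (τ : K →+* K) G = G) {x : PP σ K}
    (hz : Zs I F G x) (ht : Trans I x F G) :
    Zs I F G (pmap (τ : K →+* K) x) ∧ Trans I (pmap (τ : K →+* K) x) F G := by
  have ev : ∀ H : MvPolynomial σ K, H.IsHomogeneous m → map (τ : K →+* K) H = H →
      eval x.rep H = 0 → eval (pmap (τ : K →+* K) x).rep H = 0 := fun H hH e h => by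
    unfold pmap
    rw [eval_mk_eq_zero hH, ← e, orb_eval, h, map_zero]
  refine ⟨⟨hz.1.pmap hI (τ : K →ₐ[k] K), ev F hF eF hz.2.1, ev G hG eG hz.2.2⟩, ?_⟩
  unfold pmap
  rw [trans_mk hI hF hG]
  intro δ h1 h2 h3
  have e : δ = fun j => (τ : K →+* K) (τ.symm (δ j)) :=
    funext fun j => (τ.apply_symm_apply (δ j)).symm
  have kd : ∀ H : MvPolynomial σ K, map (τ : K →+* K) H = H →
      dv H (fun j => (τ : K →+* K) (x.rep j)) δ = 0 → dv H x.rep (fun j => τ.symm (δ j)) = 0 :=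
    fun H eH h => by
      rw [e, ← eH, orb_dv] at h
      exact (map_eq_zero _).1 h
  obtain ⟨c, hc⟩ := Submodule.mem_span_singleton.1
    (ht (fun j => τ.symm (δ j)) (fun f hf => kd _ (orb_map τ f) (h1 f hf)) (kd F eF h2)
      (kd G eG h3))
  refine Submodule.mem_span_singleton.2 ⟨τ c, funext fun j => ?_⟩
  have := congrArg τ (congrFun hc j)
  rw [τ.apply_symm_apply, Pi.smul_apply, smul_eq_mul, map_mul] at this
  exact this

theorem orb_pu_homog {N e : ℕ} {μ : Fin N → MvPolynomial σ k} (h : ∀ i, (μ i).IsHomogeneous e)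
    (u : K) : (pu μ u).IsHomogeneous e :=
  IsHomogeneous.sum _ _ _ fun i _ => ((h i).map _).C_mul _

theorem orb_pu_map (τ : K ≃ₐ[k] K) {N : ℕ} (μ : Fin N → MvPolynomial σ k) {u : K}
    (h : τ u = u) : map (τ : K →+* K) (pu μ u) = pu μ u := by
  unfold pu
  rw [map_sum]
  refine Finset.sum_congr rfl fun i _ => ?_
  rw [map_mul, orb_map, map_C, map_pow]
  exact congrArg (fun z => C (z ^ i.1) * map (algebraMap k K) (μ i)) h

end Aux

theorem orbS (ha : O1aStmt) (hb : O1bStmt) (hc : O1cStmt) : OrbStmt := by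
  intro k _ _ _ r a I hI x O hx hK hO
  have hg : Hg I := hI.homog
  have hr : rk k (rat1 x) = 1 := le_antisymm (rk_LL _) (one_le_rk hK)
  obtain ⟨j, hj⟩ := Function.ne_iff.1 x.rep_nonzero
  replace hj : x.rep j ≠ 0 := hj
  obtain ⟨F₀, e₀, f1, f2, f3, f4⟩ := ha k (LL k) r a I hI x hx hr
  obtain ⟨G₀, G', g, g', g1, g2, g3, g4, g5, g6⟩ := hb k (LL k) r a I hI x (F₀ * X j) (e₀ + 1) hx
    hr (f1.mul (isHomogeneous_X k j))
    (fun h => (hI.prime.mem_or_mem h).elim f2 fun h' => hj (by simpa using hx _ h'))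
    (by rw [map_mul, f3, zero_mul])
  obtain ⟨N, e, μ, m1, m2, m3, m4⟩ := hc k (Fin (r + 3)) x hK
  obtain ⟨p, hp⟩ : ∃ p, p = e₀ + 1 + g + e := ⟨_, rfl⟩
  have p0 : p ≠ 0 := by omega
  have pm : p ≤ g' * p := Nat.le_mul_of_pos_left _ g3
  obtain ⟨n₁, e1⟩ : ∃ n, g' * p = e₀ + (n + 1) := ⟨g' * p - e₀ - 1, by omega⟩
  obtain ⟨n₂, e2⟩ : ∃ n, g' * p = g + n + e := ⟨g' * p - g - e, by omega⟩
  have hA : (G₀ * X j ^ n₂).IsHomogeneous (g + n₂) := by
    simpa using g1.mul ((isHomogeneous_X k j).pow n₂)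
  have hA0 : aeval x.rep (G₀ * X j ^ n₂) ≠ 0 := by
    rw [map_mul, map_pow, aeval_X]
    exact mul_ne_zero g4 (pow_ne_zero _ hj)
  have hF : (map (algebraMap k (LL k)) (F₀ * X j ^ (n₁ + 1))).IsHomogeneous (g' * p) := by
    rw [e1]
    simpa using (f1.mul ((isHomogeneous_X k j).pow (n₁ + 1))).map (algebraMap k (LL k))
  have hG : (map (algebraMap k (LL k)) (G₀ * X j ^ n₂) * pu μ (tt k) +
      map (algebraMap k (LL k)) (G' ^ p)).IsHomogeneous (g' * p) :=
    (e2 ▸ (hA.map _).mul (orb_pu_homog m1 _)).add ((g2.pow p).map _)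
  have evG : ∀ v : Fin (r + 3) → LL k, eval v (map (algebraMap k (LL k)) (G₀ * X j ^ n₂) *
      pu μ (tt k) + map (algebraMap k (LL k)) (G' ^ p)) =
      aeval v (G₀ * X j ^ n₂) * eval v (pu μ (tt k)) + aeval v G' ^ p := fun v => by
    rw [map_add, map_mul (eval v), eval_map_eq, eval_map_eq, map_pow (aeval v) G']
  refine ⟨g' * p, _, _, by omega, hF, hG, fun y hy => ?_, fun y hy => ?_⟩
  · obtain ⟨τ, rfl⟩ := (hO y).1 hy
    refine orb_move hg (τ.restrictScalars k) hF hG (orb_map _ _) ?_ ⟨hx, ?_, ?_⟩ ?_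
    · rw [map_add, map_mul, orb_map, orb_map, orb_pu_map _ μ (τ.commutes RatFunc.X)]
    · rw [eval_map_eq, map_mul, f3, zero_mul]
    · rw [evG, m2, g5, zero_pow p0, mul_zero, add_zero]
    · intro δ h1 h2 h3
      rw [map_mul, dv_mul, eval_map_eq, eval_map_eq, f3, zero_mul, zero_add, map_pow,
        aeval_X] at h2
      have tc := f4 δ h1 ((mul_eq_zero.1 h2).resolve_left (pow_ne_zero _ hj))
      rw [dv_add, dv_mul, m2, zero_mul, add_zero, eval_map_eq,
        tc _ _ (g2.pow p) (by rw [map_pow, g5, zero_pow p0]), add_zero] at h3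
      exact m3 δ tc ((mul_eq_zero.1 h3).resolve_left hA0)
  · obtain ⟨y1, y2, y3⟩ := hy
    rw [eval_map_eq, map_mul, map_pow, aeval_X] at y2
    rw [evG] at y3
    rcases g6 y y1 (by
      rw [map_mul, aeval_X]
      exact mul_eq_zero.2 ((mul_eq_zero.1 y2).imp_right eq_zero_of_pow_eq_zero)) with
      h | ⟨s1, s2⟩ | ⟨z1, z2⟩
    · exact Or.inr h
    · rw [s1.aeval g2 g5, zero_pow p0, add_zero] at y3
      exact Or.inl ((hO y).2 (m4 y s1 s2
        ((mul_eq_zero.1 y3).resolve_left fun h => hA0 (s2.aeval hA h))))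
    · rw [map_mul, z1, zero_mul, zero_mul, zero_add] at y3
      exact absurd (pow_eq_zero_iff p0 |>.1 y3) z2

end Pool.Agent.MP_9207e0_ag.CC
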