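import Pool.Agent.MP_9207e0_ag.cc.Rk

/-! PROJECT CCC: products and powers of families. -/

noncomputable section

namespace Pool.Agent.MP_9207e0_ag.CC

open MvPolynomial
open scoped Classical

theorem prod_sp {k K L σ ι : Type} [Field k] [Field K] [Field L] [Algebra k K] [Algebra k L]
    [Finite σ] (f : K →ₐ[k] L) (w : ι → PP σ K) :
    Sp k w fun i => pmap (f : K →+* L) (w i) :=
  ⟨Plc.ofHom (f : K →+* L), Plc.ofHom_over f, fun _ => Plc.ofHom_red _ _⟩

theorem prodS (h : TensStmt) : ProdStmt := by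
  intro k K₁ K₂ σ ι₁ ι₂ _ _ _ _ _ _ _ w₁ w₂
  obtain ⟨E, f₁, f₂, ha, hb⟩ := h k K₁ K₂
  refine ⟨E, _, _, prod_sp f₁ w₁, prod_sp f₂ w₂, ?_, ?_⟩
  · rw [rat_elim, rat_pmap, rat_pmap]
    exact hb _ _
  · rintro L _ _ _ p₁ p₂ ⟨P₁, h₁, e₁⟩ ⟨P₂, h₂, e₂⟩
    obtain ⟨P, hP, g₁, g₂⟩ := ha L P₁ P₂ h₁ h₂
    refine ⟨P, hP, ?_⟩
    rintro (i | i)
    · exact (Plc.red_ext (f := (f₁ : K₁ →+* E.K)) g₁ _).trans (e₁ i)
    · exact (Plc.red_ext (f := (f₂ : K₂ →+* E.K)) g₂ _).trans (e₂ i)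

theorem prod_rat {K σ ι κ : Type} [Field K] (w : ι → PP σ K) (e : κ ≃ ι) :
    rat w ⊆ rat (w ∘ e) := by
  have := rat_comp_subset (w ∘ e) e.symm
  rwa [Function.comp_assoc, e.self_comp_symm, Function.comp_id] at this

theorem powerS (h : ProdStmt) : PowerStmt := by
  intro k K σ ι _ _ _ _ _ _ η
  rw [← Nat.card_eq_fintype_card]
  induction ι using Finite.induction_empty_option with
  | @of_equiv α β e ih =>
    obtain ⟨E, ξ, h1, h2, h3⟩ := ih
    refine ⟨E, ξ ∘ e.symm, fun i => h1 _, ?_, fun L _ _ _ p hp => ?_⟩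
    · rw [← Nat.card_congr e]
      exact h2.trans (rk_mono (prod_rat ξ e.symm))
    · have := (h3 L (p ∘ e) fun i => hp _).comp e.symm
      rwa [Function.comp_assoc, e.self_comp_symm, Function.comp_id] at this
  | h_empty =>
    refine ⟨Ext.mk k, PEmpty.elim, fun i => i.elim, by simp, fun L _ _ _ p _ => ?_⟩
    obtain ⟨P, hP⟩ := exists_plc (k := k) (K := k) (L := L)
    exact ⟨P, hP, fun i => i.elim⟩
  | @h_option α _ ih =>
    obtain ⟨E, ξ, h1, h2, h3⟩ := ih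
    obtain ⟨E', u₁, u₂, s₁, s₂, r, s⟩ := h k E.K K σ α Unit ξ fun _ => η
    refine ⟨E', Sum.elim u₁ u₂ ∘ Equiv.optionEquivSumPUnit α, ?_, ?_, fun L _ _ _ p hp => ?_⟩
    · rintro (_ | i)
      · exact s₂.sp1 ()
      · exact (h1 i).trans (s₁.sp1 i)
    · rw [rat_const] at r
      rw [Finite.card_option, Nat.cast_succ, add_mul, one_mul]
      exact ((add_le_add h2 le_rfl).trans r).trans (rk_mono (prod_rat _ _))
    · have := (s L (p ∘ some) (fun _ => p none) (h3 L _ fun i => hp _) (hp none).sp).comp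
        (Equiv.optionEquivSumPUnit α)
      rwa [show Sum.elim (p ∘ some) (fun _ : Unit => p none) ∘ Equiv.optionEquivSumPUnit α = p from
        funext fun i => by cases i <;> rfl] at this

end Pool.Agent.MP_9207e0_ag.CC
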