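import Pool.Agent.MP_9207e0_ag.cc.RkA
import Pool.Agent.MP_9207e0_ag.cc.RkC

/-! PROJECT CCC, row PRT: rational equivalence by families implies the relation `PR`. -/

noncomputable section

namespace Pool.Agent.MP_9207e0_ag.CC

open MvPolynomial
open scoped Classical

variable {k σ : Type} [Field k] [IsAlgClosed k] [Fintype σ] {I : Ideal (MvPolynomial σ k)}

theorem prt_refl (hR : RatpStmt) (hI : Hg I) (A : Multiset (PP σ k)) : PR I A A := by
  obtain ⟨P, hP⟩ : ∃ P : Plc k k, P.Over k := exists_plc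
  refine ⟨Empty, inferInstance, Ext.mk k, fun i => i.elim, 0, fun i => i.elim, fun i => i.elim,
    ⟨fun i => i.elim, fun x hx => absurd hx (Multiset.notMem_zero x), ?_⟩, ?_,
    ⟨P, hP, fun i => i.elim⟩, ⟨P, hP, fun i => i.elim⟩, rfl⟩
  · exact (hR k k σ I hI).1 0
  · rw [Fintype.card_eq_zero, Nat.cast_zero]
    exact zero_le

omit [IsAlgClosed k] in
theorem prt_symm {A B : Multiset (PP σ k)} (h : PR I A B) : PR I B A := by
  obtain ⟨ι, _, E, w, α, p, q, h1, h2, h3, h4, h5⟩ := h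
  exact ⟨ι, inferInstance, E, w, α, q, p, h1, h2, h4, h3, h5.symm⟩

theorem prt_add (hP : ProdStmt) (hG : GdStmt) (hI : Hg I) {A B A' B' : Multiset (PP σ k)}
    (h : PR I A B) (h' : PR I A' B') : PR I (A + A') (B + B') := by
  obtain ⟨ι, _, E, w, α, p, q, h1, h2, h3, h4, h5⟩ := h
  obtain ⟨ι', _, E', w', α', p', q', h1', h2', h3', h4', h5'⟩ := h'
  obtain ⟨F, u, u', s, s', hr, hs⟩ := hP k E.K E'.K σ ι ι' w w'
  obtain ⟨g1, g2, -⟩ := hG k σ I hI
  have g := g2 F.K ι ι' u u' 0 α α' (g1 E.K F.K ι w u 0 α h1 s) (g1 E'.K F.K ι' w' u' 0 α' h1' s')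
  rw [Multiset.map_zero] at g
  refine ⟨ι ⊕ ι', inferInstance, F, Sum.elim u u', α + α', Sum.elim p p', Sum.elim q q', g, ?_,
    hs k p p' h3 h3', hs k q q' h4 h4', ?_⟩
  · rw [Fintype.card_sum, Nat.cast_add]
    exact (add_le_add h2 h2').trans hr
  · rw [ms_elim, ms_elim, add_add_add_comm, h5, h5', add_add_add_comm]

omit [IsAlgClosed k] in
theorem prt_cancel {A B D : Multiset (PP σ k)} (h : PR I (A + D) (B + D)) : PR I A B := by
  obtain ⟨ι, _, E, w, α, p, q, h1, h2, h3, h4, h5⟩ := h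
  refine ⟨ι, inferInstance, E, w, α, p, q, h1, h2, h3, h4, add_right_cancel (b := D) ?_⟩
  rw [add_right_comm, h5, add_right_comm]

theorem prt_trans (hP : ProdStmt) (hG : GdStmt) (hI : Hg I) {A B D : Multiset (PP σ k)}
    (h : PR I A B) (h' : PR I B D) : PR I A D := by
  have := prt_add hP hG hI h h'
  rw [add_comm B D] at this
  exact prt_cancel this

theorem prtS (hO : RepoStmt) (hE : EndsStmt) (hD : OrbdecStmt) (hP : ProdStmt) (hG : GdStmt)
    (hR : RatpStmt) : PrtStmt := by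
  intro k _ _ _ r a I hI A B h
  have hH : Hg I := hI.homog
  have step : ∀ A B : Multiset (PP (Fin (r + 3)) k), Step I A B → PR I A B := by
    intro A B h
    obtain ⟨M, hM, hGal, h0, h1⟩ := hE k k _ I A B h
    obtain ⟨⟨P, hP0⟩, Q, hQ⟩ := exists_zr (K := k)
    rw [h0 P hP0, h1 Q hQ]
    refine hD k _ (fun M => PR I (M.map P.red) (M.map Q.red)) ?_ ?_ M hGal ?_
    · exact prt_refl hR hH 0
    · intro M₁ M₂ h₁ h₂
      rw [Multiset.map_add, Multiset.map_add]
      exact prt_add hP hG hH h₁ h₂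
    · intro x hx O hO'
      exact hO k r a I hI x O P Q (hM x hx) hO' hP0.1 hQ.1
  obtain ⟨D, -, h⟩ := h
  refine prt_cancel (D := D) ?_
  generalize A + D = A', B + D = B' at h
  induction h with
  | rel x y h => exact step x y h
  | refl x => exact prt_refl hR hH x
  | symm x y _ ih => exact prt_symm ih
  | trans x y z _ _ ih ih' => exact prt_trans hP hG hH ih ih'

end Pool.Agent.MP_9207e0_ag.CC
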