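import Pool.Agent.MP_9207e0_ag.cc.Rk

/-! PROJECT CCC: forms that vanish at transversal zeros lie in the ideal. -/

noncomputable section

namespace Pool.Agent.MP_9207e0_ag.CC

open MvPolynomial
open scoped Classical

variable {K σ : Type} [Field K]

theorem rad_comp {F : MvPolynomial σ K} {m : ℕ} (hF : F.IsHomogeneous m) (a : MvPolynomial σ K)
    (d : ℕ) : homogeneousComponent d (a * F) =
      if m ≤ d then homogeneousComponent (d - m) a * F else 0 := by
  let := MvPolynomial.gradedAlgebra (σ := σ) (R := K)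
  have := DirectSum.coe_decompose_mul_of_right_mem (homogeneousSubmodule σ K) (a := a) d hF
  rw [← decomposition.decompose'_apply, ← decomposition.decompose'_apply]
  exact this

theorem rad_hg {J : Ideal (MvPolynomial σ K)} (hJ : Hg J) {F G : MvPolynomial σ K} {m n : ℕ}
    (hF : F.IsHomogeneous m) (hG : G.IsHomogeneous n) : Hg (J ⊔ Ideal.span {F, G}) := by
  intro f hf j
  obtain ⟨i, hi, p, hp, rfl⟩ := Submodule.mem_sup.1 hf
  obtain ⟨a, b, rfl⟩ := Ideal.mem_span_pair.1 hp
  rw [map_add, map_add, rad_comp hF, rad_comp hG]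
  refine add_mem (Ideal.mem_sup_left (hJ i hi j)) (Ideal.mem_sup_right (add_mem ?_ ?_))
  · split_ifs
    exacts [Ideal.mul_mem_left _ _ (Ideal.subset_span (by simp)), zero_mem _]
  · split_ifs
    exacts [Ideal.mul_mem_left _ _ (Ideal.subset_span (by simp)), zero_mem _]

/-- From the chart back to the cone. -/
theorem rad_cone {J : Ideal (MvPolynomial σ K)} (hJ : Hg J) {c : σ}
    (hc : ∀ g, X c * g ∈ J → g ∈ J) {f : MvPolynomial σ K} {e : ℕ} (hf : f.IsHomogeneous e)
    (h : f ∈ J ⊔ Ideal.span {X c - 1}) : f ∈ J := by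
  obtain ⟨i, hi, p, hp, e1⟩ := Submodule.mem_sup.1 h
  obtain ⟨g, rfl⟩ := Ideal.mem_span_singleton'.1 hp
  have k : ∀ d, homogeneousComponent d i + (if 1 ≤ d then homogeneousComponent (d - 1) g * X c
      else 0) - homogeneousComponent d g = if d = e then f else 0 := fun d => by
    rw [← homogeneousComponent_of_mem hf, ← e1, mul_sub, mul_one, map_add, map_sub,
      rad_comp (isHomogeneous_X K c), add_sub_assoc]
  have up : ∀ d, d < e → homogeneousComponent d g ∈ J := fun d => by
    induction d using Nat.strong_induction_on with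
    | _ d ih =>
      intro hd
      have := k d
      rw [if_neg hd.ne, sub_eq_zero] at this
      rw [← this]
      refine add_mem (hJ i hi d) ?_
      split_ifs with h1
      exacts [J.mul_mem_right _ (ih _ (by omega) (by omega)), zero_mem _]
  have down : ∀ t d, e ≤ d → g.totalDegree < d + t → homogeneousComponent d g ∈ J := fun t => by
    induction t with
    | zero =>
      intro d _ h2
      rw [homogeneousComponent_eq_zero d g h2]
      exact zero_mem _
    | succ t ih =>
      intro d h1 h2
      have := k (d + 1)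
      rw [if_pos (by omega), if_neg (by omega), Nat.add_sub_cancel, sub_eq_zero,
        ← eq_sub_iff_add_eq'] at this
      refine hc _ ?_
      rw [mul_comm, this]
      exact sub_mem (ih _ (by omega) (by omega)) (hJ i hi _)
  have := k e
  rw [if_pos rfl] at this
  rw [← this]
  refine sub_mem (add_mem (hJ i hi e) ?_) (down (g.totalDegree + 1) e le_rfl (by omega))
  split_ifs with h1
  exacts [J.mul_mem_right _ (up _ (by omega)), zero_mem _]

variable [Fintype σ]

/-- Taylor expansion to the first order. -/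
theorem rad_taylor (z : σ → K) (g : MvPolynomial σ K) :
    g - C (eval z g) - ∑ j, C (eval z (pderiv j g)) * (X j - C (z j)) ∈
      RingHom.ker (eval z) * RingHom.ker (eval z) := by
  induction g using MvPolynomial.induction_on with
  | C a => simp
  | add p q hp hq =>
    simp only [map_add, add_mul, Finset.sum_add_distrib]
    exact (congrArg (· ∈ _) (by ring)).mp (add_mem hp hq)
  | mul_X p i hp =>
    have e : ∑ j, C (eval z (pderiv j (p * X i))) * (X j - C (z j)) =
        C (z i) * ∑ j, C (eval z (pderiv j p)) * (X j - C (z j)) +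
          C (eval z p) * (X i - C (z i) : MvPolynomial σ K) := by
      rw [Finset.mul_sum, ← Finset.sum_ite_eq_of_mem Finset.univ i
        (fun j => C (eval z p) * (X j - C (z j) : MvPolynomial σ K)) (Finset.mem_univ i),
        ← Finset.sum_add_distrib]
      refine Finset.sum_congr rfl fun j _ => ?_
      rw [pderiv_mul, pderiv_X, map_add, map_mul, map_mul, eval_X]
      by_cases h : i = j
      · subst h
        simp only [Pi.single_eq_same, map_one, mul_one, if_true, map_add, map_mul]
        ring
      · simp only [Pi.single_eq_of_ne h, map_zero, mul_zero, add_zero, if_neg h, map_mul]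
        ring
    have h1 : (p - C (eval z p)) * (X i - C (z i)) ∈
        RingHom.ker (eval z) * RingHom.ker (eval z) :=
      Ideal.mul_mem_mul (by simp [RingHom.mem_ker]) (by simp [RingHom.mem_ker])
    rw [e, map_mul, eval_X, map_mul]
    exact (congrArg (· ∈ _) (by ring)).mp (add_mem (Ideal.mul_mem_left _ (C (z i)) hp) h1)

/-- The gradient. -/
def radGrad (z : σ → K) : MvPolynomial σ K →ₗ[K] σ → K where
  toFun g j := eval z (pderiv j g)
  map_add' p q := funext fun j => by simp
  map_smul' a p := funext fun j => by simp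

/-- A reduced isolated zero. -/
theorem rad_loc {J : Ideal (MvPolynomial σ K)} {z : σ → K} (hz : ∀ g ∈ J, eval z g = 0)
    (h : ∀ δ, (∀ g ∈ J, dv g z δ = 0) → δ = 0) :
    ∃ s, eval z s = 1 ∧ ∀ f, eval z f = 0 → s * f ∈ J := by
  have top : (J.restrictScalars K).map (radGrad z) = ⊤ := by
    by_contra c
    obtain ⟨φ, h0, hφ⟩ := Submodule.exists_le_ker_of_lt_top _ (lt_top_iff_ne_top.2 c)
    have e : ∀ v, φ v = ∑ j, v j * φ (Pi.single j 1) := fun v => by
      conv_lhs => rw [pi_eq_sum_univ' v]
      simp only [map_sum, map_smul, smul_eq_mul]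
    have := h (fun j => φ (Pi.single j 1)) fun g hg =>
      (e (radGrad z g)).symm.trans (hφ ⟨g, hg, rfl⟩)
    exact h0 (LinearMap.ext fun v => by
      rw [e]
      exact Finset.sum_eq_zero fun j _ => by rw [congrFun this j, Pi.zero_apply, mul_zero])
  have le : RingHom.ker (eval z) ≤ J ⊔ RingHom.ker (eval z) • RingHom.ker (eval z) := fun p hp => by
    obtain ⟨g, hg, e⟩ : radGrad z p ∈ (J.restrictScalars K).map (radGrad z) := top ▸ trivial
    have := rad_taylor z (p - g)
    have e' : ∀ j, eval z (pderiv j (p - g)) = 0 := fun j => by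
      rw [map_sub, map_sub, sub_eq_zero]
      exact (congrFun e j).symm
    simp only [e', map_zero, zero_mul, Finset.sum_const_zero, sub_zero] at this
    rw [map_sub, RingHom.mem_ker.1 hp, hz g hg, sub_zero, map_zero, sub_zero] at this
    exact Submodule.mem_sup.2 ⟨g, hg, _, this, add_sub_cancel _ _⟩
  obtain ⟨s, h1, h2⟩ := Submodule.exists_sub_one_mem_and_smul_le_of_fg_of_le_sup
    (IsNoetherian.noetherian _) le_rfl le
  refine ⟨s, ?_, fun f hf => h2 (Submodule.smul_mem_pointwise_smul f s _ hf)⟩
  simpa [RingHom.mem_ker, sub_eq_zero] using h1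

theorem radS : RadStmt := by
  intro k K σ _ _ _ _ _ I F G f m n e c hI hF hG hf hc hZ
  refine rad_cone (rad_hg hI.IK hF hG) hc hf ?_
  set J := IK K I ⊔ Ideal.span {F, G} ⊔ Ideal.span {X c - 1} with hJ
  have mI : ∀ p ∈ I, map (algebraMap k K) p ∈ J := fun p hp =>
    Ideal.mem_sup_left (Ideal.mem_sup_left (Ideal.mem_map_of_mem _ hp))
  have mF : F ∈ J := Ideal.mem_sup_left (Ideal.mem_sup_right (Ideal.subset_span (by simp)))
  have mG : G ∈ J := Ideal.mem_sup_left (Ideal.mem_sup_right (Ideal.subset_span (by simp)))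
  have mX : X c - 1 ∈ J := Ideal.mem_sup_right (Ideal.subset_span rfl)
  by_contra hn
  let A : Ideal (MvPolynomial σ K) :=
    Submodule.comap (LinearMap.toSpanSingleton (MvPolynomial σ K) _ f) J
  have mA : ∀ s, s ∈ A ↔ s * f ∈ J := fun s => Iff.rfl
  obtain ⟨M, hM, hA⟩ := A.exists_le_maximal fun t => hn (by
    simpa using (mA 1).1 (t ▸ trivial))
  obtain ⟨z, rfl⟩ := isMaximal_iff_eq_vanishingIdeal_singleton.1 hM
  have ev : ∀ s, s * f ∈ J → eval z s = 0 := fun s hs =>
    (mem_vanishingIdeal_singleton_iff z s).1 (hA ((mA s).2 hs))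
  have hz : ∀ g ∈ J, eval z g = 0 := fun g hg => ev g (J.mul_mem_right f hg)
  have zc : z c = 1 := by simpa [sub_eq_zero] using hz _ mX
  have z0 : z ≠ 0 := fun t => by simp [t] at zc
  obtain ⟨t1, t2⟩ := hZ (Projectivization.mk K z z0)
    ⟨(on_mk hI z0).2 fun p hp => by rw [← eval_map_eq]; exact hz _ (mI p hp),
      (eval_mk_eq_zero hF z0).2 (hz F mF), (eval_mk_eq_zero hG z0).2 (hz G mG)⟩
  obtain ⟨s, s1, s2⟩ := rad_loc hz fun δ hδ => by
    obtain ⟨a, rfl⟩ := Submodule.mem_span_singleton.1
      ((trans_mk hI hF hG z0).1 t1 δ (fun p hp => hδ _ (mI p hp)) (hδ F mF) (hδ G mG))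
    have := hδ _ mX
    rw [dv_sub, dv_X, ← C_1, dv_C, sub_zero, Pi.smul_apply, zc, smul_eq_mul, mul_one] at this
    rw [this, zero_smul]
  exact one_ne_zero (s1.symm.trans (ev s (s2 f ((eval_mk_eq_zero hf z0).1 t2))))

end Pool.Agent.MP_9207e0_ag.CC
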