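import Pool.Agent.MP_9207e0_ag.cc.Spec

/-! PROJECT CCC, row REG: the regular sequence of the first three coordinates. -/

noncomputable section

namespace Pool.Agent.MP_9207e0_ag.CC

open MvPolynomial
open scoped Classical

section

variable {R : Type} [CommRing R] {J : Ideal R} {f g : R}

theorem reg_mem {x : R} : x ∈ J ⊔ Ideal.span {f} ↔ ∃ c, x - f * c ∈ J := by
  rw [Submodule.mem_sup]
  constructor
  · rintro ⟨j, hj, y, hy, rfl⟩
    obtain ⟨c, rfl⟩ := Ideal.mem_span_singleton.1 hy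
    exact ⟨c, by simpa using hj⟩
  · rintro ⟨c, h⟩
    exact ⟨_, h, f * c, Ideal.mem_span_singleton.2 ⟨c, rfl⟩, sub_add_cancel _ _⟩

theorem reg_pow (h : ∀ w, f * w ∈ J → w ∈ J) (m : ℕ) : ∀ w, f ^ m * w ∈ J → w ∈ J := by
  induction m with
  | zero => simp
  | succ m ih => exact fun w e => h w (ih _ (by rwa [← mul_assoc, ← pow_succ]))

theorem reg_thick (h : ∀ w, f * w ∈ J → w ∈ J)
    (h' : ∀ w, g * w ∈ J ⊔ Ideal.span {f} → w ∈ J ⊔ Ideal.span {f}) (m : ℕ) :
    ∀ w, g * w ∈ J ⊔ Ideal.span {f ^ m} → w ∈ J ⊔ Ideal.span {f ^ m} := by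
  simp only [reg_mem] at h' ⊢
  induction m with
  | zero => exact fun w _ => ⟨w, by simp⟩
  | succ m ih =>
    rintro w ⟨c, e⟩
    obtain ⟨u, hu⟩ := h' w ⟨f ^ m * c, by rwa [← mul_assoc, ← pow_succ']⟩
    obtain ⟨d, hd⟩ := ih u ⟨c, h _ (by
      have := J.sub_mem e (J.mul_mem_left g hu)
      rwa [show g * w - f ^ (m + 1) * c - g * (w - f * u) = f * (g * u - f ^ m * c) by ring] at this)⟩
    have := J.add_mem hu (J.mul_mem_left f hd)
    exact ⟨d, by
      rwa [show w - f * u + f * (u - f ^ m * d) = w - f ^ (m + 1) * d by ring] at this⟩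

theorem reg_swap (h : ∀ w, f * w ∈ J → w ∈ J)
    (h' : ∀ w, g * w ∈ J ⊔ Ideal.span {f} → w ∈ J ⊔ Ideal.span {f}) :
    ∀ w, f * w ∈ J ⊔ Ideal.span {g} → w ∈ J ⊔ Ideal.span {g} := by
  simp only [reg_mem] at h' ⊢
  rintro w ⟨c, e⟩
  obtain ⟨u, hu⟩ := h' c ⟨w, by simpa using J.neg_mem e⟩
  refine ⟨u, h _ ?_⟩
  have := J.add_mem e (J.mul_mem_left g hu)
  rwa [show f * w - g * c + g * (c - f * u) = f * (w - g * u) by ring] at this

theorem reg_poly {A : Type} [CommRing A] (φ : A →+* R) (h : ∀ w, f * w ∈ J → w ∈ J)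
    (h' : ∀ a, φ a ∈ J ⊔ Ideal.span {f} → a = 0) (n : ℕ) :
    ∀ p : Polynomial A, p.eval₂ φ f ∈ J → p.coeff n = 0 := by
  have e : ∀ p : Polynomial A, p.eval₂ φ f = f * p.divX.eval₂ φ f + φ (p.coeff 0) := fun p => by
    conv_lhs => rw [← p.X_mul_divX_add]
    rw [Polynomial.eval₂_add, Polynomial.eval₂_mul, Polynomial.eval₂_X, Polynomial.eval₂_C]
  have z : ∀ p : Polynomial A, p.eval₂ φ f ∈ J → p.coeff 0 = 0 := fun p hp =>
    h' _ (reg_mem.2 ⟨-p.divX.eval₂ φ f, by rwa [mul_neg, sub_neg_eq_add, add_comm, ← e]⟩)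
  induction n with
  | zero => exact z
  | succ n ih =>
    intro p hp
    rw [← Polynomial.coeff_divX]
    refine ih _ (h _ ?_)
    have := e p
    rw [z p hp, map_zero, add_zero] at this
    exact this ▸ hp

theorem reg_step {k : Type} [Field k] [Algebra k R] {n : ℕ} (v : Fin n → R)
    (h : ∀ w, f * w ∈ J → w ∈ J)
    (h' : ∀ a : MvPolynomial (Fin n) k, aeval v a ∈ J ⊔ Ideal.span {f} → a = 0)
    (p : MvPolynomial (Fin (n + 1)) k) (hp : aeval (Matrix.vecCons f v) p ∈ J) : p = 0 := by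
  have e : (Polynomial.eval₂RingHom (aeval (R := k) v).toRingHom f).comp
      (finSuccEquiv k n).toRingEquiv.toRingHom = (aeval (R := k) (Matrix.vecCons f v)).toRingHom := by
    refine ringHom_ext (fun c => ?_) fun i => ?_
    · simp [finSuccEquiv_apply]
    · refine Fin.cases ?_ (fun i => ?_) i
      · simp [finSuccEquiv_X_zero]
      · simp [finSuccEquiv_X_succ]
  refine (finSuccEquiv k n).injective ((Polynomial.ext fun j => ?_).trans (map_zero _).symm)
  have e' : (finSuccEquiv k n p).eval₂ (aeval (R := k) v).toRingHom f =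
    aeval (Matrix.vecCons f v) p := RingHom.congr_fun e p
  exact reg_poly (aeval (R := k) v).toRingHom h h' j _ (by rwa [e'])

end

theorem regS : RegStmt := by
  intro k _ r a I hI
  have h0 : ∀ w, X 0 * w ∈ I → w ∈ I := fun w e => (hI.prime.mem_or_mem e).resolve_left hI.reg0
  have h2 := hI.reg2
  rw [Ideal.span_insert, ← sup_assoc] at h2
  refine ⟨fun m => ⟨reg_pow h0 m, reg_pow (reg_thick h0 hI.reg1 m) m,
    reg_thick (reg_thick h0 hI.reg1 m) ?_ m⟩,
    reg_step _ h0 (reg_step _ hI.reg1 (reg_step _ h2 fun p hp => ?_))⟩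
  · rw [sup_right_comm] at h2 ⊢
    exact reg_thick (reg_swap h0 hI.reg1) h2 m
  · have x : ∀ i : Fin (r + 3), Ideal.span {(X i : MvPolynomial (Fin (r + 3)) k)} ≤
        RingHom.ker constantCoeff := fun i => (Ideal.span_singleton_le_iff_mem _).2 (by simp)
    have y : I ≤ RingHom.ker constantCoeff := fun f hf => by
      by_contra c
      have := hI.homog f hf 0
      rw [homogeneousComponent_zero] at this
      exact hI.prime.ne_top (Ideal.eq_top_of_isUnit_mem _ this ((IsUnit.mk0 _ c).map C))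
    have := sup_le (sup_le (sup_le y (x 0)) (x 1)) (x 2) hp
    rw [eq_C_of_isEmpty p] at this ⊢
    simpa using this

end Pool.Agent.MP_9207e0_ag.CC
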