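import Pool.Agent.MP_9207e0_ag.cc.Rk

/-! PROJECT CCC: two reductions of an orbit differ by two members of a large family. -/

noncomputable section

namespace Pool.Agent.MP_9207e0_ag.CC

open MvPolynomial
open scoped Classical

section Aux

variable {k K σ : Type} [Field k] [Field K] [Algebra k K]

theorem repo_eval {I : Ideal (MvPolynomial σ k)} {F F' : MvPolynomial σ K}
    (h : F - F' ∈ IK K I) {y : PP σ K} (hy : On I y) : eval y.rep F = eval y.rep F' := by
  have h1 := IK_eval hy h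
  rwa [map_sub, sub_eq_zero] at h1

theorem repo_dv [Fintype σ] {I : Ideal (MvPolynomial σ k)} {F F' : MvPolynomial σ K}
    (h : F - F' ∈ IK K I) {y : PP σ K} (hy : On I y) {δ : σ → K} (hδ : δ ∈ tang I y.rep) :
    dv F y.rep δ = dv F' y.rep δ := by
  have h1 := IK_dv hy hδ h
  rwa [dv_sub, sub_eq_zero] at h1

theorem repo_zs {I : Ideal (MvPolynomial σ k)} {F F' G G' : MvPolynomial σ K}
    (h : F - F' ∈ IK K I) (h' : G - G' ∈ IK K I) (y : PP σ K) : Zs I F G y ↔ Zs I F' G' y :=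
  and_congr_right fun hy => by rw [repo_eval h hy, repo_eval h' hy]

theorem repo_trans [Fintype σ] {I : Ideal (MvPolynomial σ k)} {F F' G G' : MvPolynomial σ K}
    (h : F - F' ∈ IK K I) (h' : G - G' ∈ IK K I) {y : PP σ K} (hy : On I y)
    (ht : Trans I y F G) : Trans I y F' G' := fun δ hδ h1 h2 =>
  ht δ hδ ((repo_dv h hy hδ).trans h1) ((repo_dv h' hy hδ).trans h2)

theorem repo_kp [Finite σ] {P Q : Plc K k} (hP : P.Over k) (hQ : Q.Over k)
    {B : Multiset (PP σ K)} (h : ∀ y ∈ B, Kp k y) : B.map P.red = B.map Q.red :=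
  Multiset.map_congr rfl fun y hy => by
    obtain ⟨q, rfl⟩ := h y hy
    rw [Plc.red_bc hP, Plc.red_bc hQ]

theorem repo_orb [Fintype σ] {x : PP σ (LL k)} {O : Finset (PP σ (LL k))} (hx : Kp k x)
    (hO : Orb x O) : ∀ y ∈ O.val, Kp k y := by
  intro y hy
  obtain ⟨q, rfl⟩ := hx
  obtain ⟨τ, rfl⟩ := (hO y).1 hy
  refine ⟨q, ?_⟩
  rw [pmap_pmap]
  refine congrArg (fun f => pmap f q) (RingHom.ext fun c => ?_)
  rw [RingHom.comp_apply, IsScalarTower.algebraMap_apply k (RatFunc k) (LL k)]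
  exact τ.commutes _

theorem repo_split {A B : Type} (Z : Finset A) (O : Finset B) (f : A → B)
    (hi : ∀ x ∈ Z, ∀ x' ∈ Z, f x ∈ O → f x = f x' → x = x') (hs : ∀ y ∈ O, ∃ x ∈ Z, f x = y) :
    Z.val.map f = O.val + (Z.val.filter fun x => f x ∉ O).map f := by
  have h1 : (Z.val.filter fun x => f x ∈ O).map f = O.val := by
    refine (Multiset.Nodup.ext (Multiset.Nodup.map_on ?_ (Z.nodup.filter _)) O.nodup).2 fun y => ?_
    · intro x hx x' hx' h
      rw [Multiset.mem_filter] at hx hx'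
      exact hi x hx.1 x' hx'.1 hx.2 h
    · rw [Multiset.mem_map]
      constructor
      · rintro ⟨x, hx, rfl⟩
        exact (Multiset.mem_filter.1 hx).2
      · intro hy
        obtain ⟨x, hx, rfl⟩ := hs y hy
        exact ⟨x, Multiset.mem_filter.2 ⟨hx, hy⟩, rfl⟩
  rw [← h1, ← Multiset.map_add, Multiset.filter_add_not]

end Aux

theorem repoS (hO : OrbStmt) (hB : BasStmt) (hL : LiftStmt) (hC : CiStmt) (hK : ClsStmt)
    (hU : Uniq2Stmt) (hR : RatpStmt) : RepoStmt := by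
  intro k _ _ _ r a I hI x O P Q hx hxO hP hQ
  have hg : Hg I := hI.homog
  by_cases hk : Kp k x
  · let w : Empty → PP (Fin (r + 3)) k := fun e => e.elim
    have hw : ms w = 0 := by simp [ms]
    refine ⟨Empty, inferInstance, Ext.mk k, w, 0, w, w, ⟨fun e => e.elim, fun y hy => ?_, ?_⟩,
      by simp, Sp.refl w, Sp.refl w, by rw [repo_kp hP hQ (repo_orb hk hxO)]⟩
    · exact absurd hy (Multiset.notMem_zero y)
    · have h0 := (hR k k (Fin (r + 3)) I hg).1 (ms w)
      rw [Multiset.map_zero, Multiset.map_zero, add_zero]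
      exact hw ▸ h0
  · obtain ⟨m, F, G, hm, hF, hG, hOz, hZo⟩ := hO k r a I hI x O hx hk hxO
    obtain ⟨h, β, hβ⟩ := hB k (Fin (r + 3)) I m hg
    obtain ⟨b, hb⟩ := hβ.span (LL k) F hF
    obtain ⟨b', hb'⟩ := hβ.span (LL k) G hG
    have hOz' : ∀ y ∈ O, Zs I (fm β b) (fm β b') y ∧ Trans I y (fm β b) (fm β b') :=
      fun y hy => ⟨(repo_zs hb hb' y).1 (hOz y hy).1, repo_trans hb hb' (hOz y hy).1.1 (hOz y hy).2⟩
    obtain ⟨E, c, c', R, hRo, hind, hc, hc', hlift⟩ :=
      hL k (LL k) r a I hI m h β b b' O hβ.homog hOz'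
    obtain ⟨Z, hZ, hrk⟩ := hC k E.K r a I hI m h β c c' hm hβ hind
    obtain ⟨α, hα, hcls⟩ := hK k E.K r a I hI m h β c c' Z hm hβ hind hZ
    have d1 : Rd R (fm β c) (fm β b) := Rd.fm hRo β hc
    have d2 : Rd R (fm β c') (fm β b') := Rd.fm hRo β hc'
    have g1 := fm_homog hβ.homog c
    have g2 := fm_homog hβ.homog c'
    have hsp := repo_split Z O R.red
      (fun y hy y' hy' hyO e => hU k E.K (LL k) (Fin (r + 3)) I R _ _ _ _ m m y y' hg hRo g1 g2
        d1 d2 ((hZ y).1 hy) ((hZ y').1 hy') e (hOz' _ hyO).2)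
      (fun y hy => by
        obtain ⟨y', h1, h2⟩ := hlift y hy
        exact ⟨y', (hZ y').2 h1, h2⟩)
    have hkp : ∀ y ∈ (Z.val.filter fun y => R.red y ∉ O).map R.red, Kp k y := by
      intro y hy
      obtain ⟨y', hy', rfl⟩ := Multiset.mem_map.1 hy
      rw [Multiset.mem_filter] at hy'
      exact (hZo _ ((repo_zs hb hb' _).2
        (Zs.red hg hRo g1 g2 d1 d2 ((hZ y').1 hy'.1)))).resolve_left hy'.2
    have hw : Sp k (fun y : Z => (y : PP (Fin (r + 3)) E.K)) fun y : Z => R.red y :=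
      ⟨R, hRo, fun _ => rfl⟩
    have hm2 : ∀ T : Plc (LL k) k, (ms fun y : Z => T.red (R.red y)) =
        O.val.map T.red + ((Z.val.filter fun y => R.red y ∉ O).map R.red).map T.red := by
      intro T
      rw [← Multiset.map_add, ← hsp, ← ms_coe Z, ms_map, ms_map]
    refine ⟨Z, inferInstance, E, fun y : Z => (y : PP (Fin (r + 3)) E.K), α,
      fun y : Z => Q.red (R.red y), fun y : Z => P.red (R.red y),
      ⟨fun y => ((hZ y).1 y.2).1, hα, ?_⟩, ?_, hw.trans ⟨Q, hQ, fun _ => rfl⟩,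
      hw.trans ⟨P, hP, fun _ => rfl⟩, ?_⟩
    · rw [ms_coe, Multiset.map_zero, zero_add]
      exact hcls
    · rw [Fintype.card_coe]
      exact hrk
    · rw [hm2 Q, hm2 P, repo_kp hP hQ hkp]
      exact add_left_comm _ _ _

end Pool.Agent.MP_9207e0_ag.CC
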