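import Pool.Agent.MP_9207e0_ag.cc.Spec

/-! PROJECT CCC, row SEMI: semicontinuity of the Hilbert function. -/

noncomputable section

namespace Pool.Agent.MP_9207e0_ag.CC

open MvPolynomial
open scoped Classical

variable {k K L σ : Type} [Field k] [Field K] [Field L]

theorem semi_rank [Finite σ] (J : Ideal (MvPolynomial σ K)) (j : ℕ) :
    hf J j + Module.finrank K ↥(homogeneousSubmodule σ K j ⊓ J.restrictScalars K) =
      Nat.card {d : σ →₀ ℕ | d.degree = j} := by
  have : Module.Finite K (homogeneousSubmodule σ K j) :=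
    Module.Finite.iff_fg.2 (homogeneousSubmodule_fg σ K j)
  have h := ((Ideal.Quotient.mkₐ K J).toLinearMap.domRestrict
    (homogeneousSubmodule σ K j)).finrank_range_add_finrank_ker
  have e : LinearMap.ker (Ideal.Quotient.mkₐ K J).toLinearMap = J.restrictScalars K := by
    ext f
    exact Ideal.Quotient.eq_zero_iff_mem
  rw [LinearMap.range_domRestrict, LinearMap.ker_domRestrict, e,
    ← Submodule.finrank_map_subtype_eq (homogeneousSubmodule σ K j),
    Submodule.map_comap_subtype] at h
  rw [hf, h, homogeneousSubmodule_eq_finsupp_supported]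
  exact Module.finrank_eq_nat_card_basis (basisRestrictSupport K {d : σ →₀ ℕ | d.degree = j})

theorem semi_indep (P : Plc K L) {ι : Type} {g : ι → MvPolynomial σ K}
    {g' : ι → MvPolynomial σ L} (h : ∀ i, Rd P (g i) (g' i)) (hl : LinearIndependent L g') :
    LinearIndependent K g := by
  rw [linearIndependent_iff'] at hl ⊢
  intro s c hs i₀ h₀
  by_contra hne
  obtain ⟨i₁, h₁, hm⟩ := s.exists_max_image (fun i => P.V.valuation (c i)) ⟨i₀, h₀⟩
  have v1 : P.V.valuation (c i₁) ≠ 0 := fun e => by
    have := hm i₀ h₀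
    rw [e, le_zero_iff, map_eq_zero] at this
    exact hne this
  have c1 : c i₁ ≠ 0 := by simpa using v1
  have hv : ∀ i ∈ s, c i / c i₁ ∈ P.V := fun i hi => by
    rw [← P.V.valuation_le_one_iff, map_div₀]
    exact div_le_one_of_le₀ (hm i hi) zero_le
  have := hl s (fun i => P.fn (c i / c i₁)) ?_ i₁ h₁
  · rw [div_self c1, P.fn_one] at this
    exact one_ne_zero this
  ext d
  have e := congrArg (coeff d) hs
  rw [coeff_sum, coeff_zero] at e ⊢
  have e2 : ∑ i ∈ s, c i / c i₁ * coeff d (g i) = 0 := by
    simp only [coeff_smul, smul_eq_mul] at e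
    simp only [div_mul_eq_mul_div, ← Finset.sum_div, e, zero_div]
  rw [← P.fn_zero, ← e2, P.fn_sum fun i hi => P.V.mul_mem _ _ (hv i hi) (h i d).1]
  refine Finset.sum_congr rfl fun i hi => ?_
  rw [coeff_smul, smul_eq_mul, P.fn_mul (hv i hi) (h i d).1, (h i d).2]

theorem semi_homog {P : Plc K L} {F : MvPolynomial σ K} {F' : MvPolynomial σ L} (h : Rd P F F')
    {n : ℕ} (hF : F.IsHomogeneous n) : F'.IsHomogeneous n := fun d hd =>
  hF (P.ne_zero_of_ne ((h d).2 ▸ hd))

theorem semi_X {P : Plc K L} {F : MvPolynomial σ K} {F' : MvPolynomial σ L} (h : Rd P F F')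
    (i : σ) : Rd P (X i * F) (X i * F') := fun d => by
  rw [coeff_X_mul', coeff_X_mul']
  split_ifs
  · exact h _
  · exact ⟨P.V.zero_mem, P.fn_zero⟩

/-- Reductions of forms of degree `j` in `J`. -/
def semiT (P : Plc K L) (J : Ideal (MvPolynomial σ K)) (j : ℕ) : Set (MvPolynomial σ L) :=
  {G' | ∃ G ∈ J, G.IsHomogeneous j ∧ Rd P G G'}

theorem semi_mul (P : Plc K L) (J : Ideal (MvPolynomial σ K)) (a : MvPolynomial σ L) :
    ∀ u ∈ Submodule.span L (⋃ j, semiT P J j), a * u ∈ Submodule.span L (⋃ j, semiT P J j) := by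
  induction a using MvPolynomial.induction_on with
  | C c => exact fun u hu => smul_eq_C_mul u c ▸ Submodule.smul_mem _ c hu
  | add p q hp hq => exact fun u hu => add_mul p q u ▸ add_mem (hp u hu) (hq u hu)
  | mul_X p i hp =>
    intro u hu
    rw [mul_assoc]
    refine hp _ ?_
    induction hu using Submodule.span_induction with
    | mem x hx =>
      obtain ⟨j, G, h1, h2, h3⟩ := Set.mem_iUnion.1 hx
      exact Submodule.subset_span (Set.mem_iUnion.2
        ⟨1 + j, X i * G, J.mul_mem_left _ h1, (isHomogeneous_X K i).mul h2, semi_X h3 i⟩)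
    | zero => rw [mul_zero]; exact zero_mem _
    | add x y _ _ hx hy => rw [mul_add]; exact add_mem hx hy
    | smul c x _ hx => rw [mul_smul_comm]; exact Submodule.smul_mem _ c hx

theorem semi_comp (P : Plc K L) (J : Ideal (MvPolynomial σ K)) (j : ℕ) {u : MvPolynomial σ L}
    (hu : u ∈ Submodule.span L (⋃ j, semiT P J j)) :
    homogeneousComponent j u ∈ Submodule.span L (semiT P J j) := by
  induction hu using Submodule.span_induction with
  | mem x hx =>
    obtain ⟨i, G, h1, h2, h3⟩ := Set.mem_iUnion.1 hx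
    rw [homogeneousComponent_of_mem (semi_homog h3 h2)]
    split_ifs with e
    · exact Submodule.subset_span ⟨G, h1, e ▸ h2, h3⟩
    · exact zero_mem _
  | zero => rw [map_zero]; exact zero_mem _
  | add x y _ _ hx hy => rw [map_add]; exact add_mem hx hy
  | smul c x _ hx => rw [map_smul]; exact Submodule.smul_mem _ c hx

theorem semi_le [Finite σ] (P : Plc K L) (J : Ideal (MvPolynomial σ K)) (j : ℕ)
    (W : Submodule L (MvPolynomial σ L)) (hW : W ≤ Submodule.span L (semiT P J j)) :
    Module.finrank L W ≤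
      Module.finrank K ↥(homogeneousSubmodule σ K j ⊓ J.restrictScalars K) := by
  have : Module.Finite K (homogeneousSubmodule σ K j) :=
    Module.Finite.iff_fg.2 (homogeneousSubmodule_fg σ K j)
  have : Module.Finite K ↥(homogeneousSubmodule σ K j ⊓ J.restrictScalars K) :=
    Submodule.finiteDimensional_of_le inf_le_left
  obtain ⟨b, h1, h2, h3⟩ := exists_linearIndependent L (semiT P J j)
  choose g g1 g2 g3 using fun x : b => h1 x.2
  have h4 : LinearIndependent K fun x : b =>
      (⟨g x, g2 x, g1 x⟩ : ↥(homogeneousSubmodule σ K j ⊓ J.restrictScalars K)) :=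
    LinearIndependent.of_comp (Submodule.subtype _) (semi_indep P g3 h3)
  refine Cardinal.toNat_le_toNat ((Submodule.rank_mono hW).trans ?_) (Module.rank_lt_aleph0 K _)
  rw [← h2, rank_span_set h3]
  exact h4.cardinal_le_rank

theorem semiS : SemiStmt := by
  intro k K L σ τ _ _ _ _ _ _ I P F F' e hI hP hF hR j
  have h1 := semi_rank (IK K I ⊔ Ideal.span (Set.range F)) j
  have h2 := semi_rank (IK L I ⊔ Ideal.span (Set.range F')) j
  let W : Ideal (MvPolynomial σ L) :=
    { (Submodule.span L (⋃ j, semiT P (IK K I ⊔ Ideal.span (Set.range F)) j)).toAddSubmonoid with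
      smul_mem' := fun a u hu => semi_mul P _ a u hu }
  have hW : IK L I ⊔ Ideal.span (Set.range F') ≤ W := by
    refine sup_le (Ideal.map_le_iff_le_comap.2 fun f hf => ?_) (Ideal.span_le.2 ?_)
    · rw [Ideal.mem_comap, ← sum_homogeneousComponent f, map_sum]
      refine sum_mem fun i _ => Submodule.subset_span (Set.mem_iUnion.2
        ⟨i, map (algebraMap k K) (homogeneousComponent i f),
          Ideal.mem_sup_left (Ideal.mem_map_of_mem _ (hI f hf i)),
          (homogeneousComponent_isHomogeneous i f).map _, fun d => ?_⟩)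
      rw [coeff_map, coeff_map]
      exact hP _
    · rintro _ ⟨t, rfl⟩
      exact Submodule.subset_span (Set.mem_iUnion.2
        ⟨e t, F t, Ideal.mem_sup_right (Ideal.subset_span ⟨t, rfl⟩), hF t, hR t⟩)
  have h3 := semi_le P (IK K I ⊔ Ideal.span (Set.range F)) j
    (homogeneousSubmodule σ L j ⊓ (IK L I ⊔ Ideal.span (Set.range F')).restrictScalars L)
    fun u hu => homogeneousComponent_eq_self hu.1 ▸ semi_comp P _ j (hW hu.2)
  omega

end Pool.Agent.MP_9207e0_ag.CC
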