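import Pool.Agent.MP_9207e0_ag.cc.Rk

/-! PROJECT CCC, row TAN: the tangent space of the cone, and transversal forms. -/

noncomputable section

namespace Pool.Agent.MP_9207e0_ag.CC

open MvPolynomial
open scoped Classical

/-- Vectors with independent reductions are independent. -/
theorem tan_indep {K L ι σ : Type} [Field K] [Field L] [Fintype ι] (P : Plc K L)
    {g : ι → σ → K} (hg : ∀ l j, g l j ∈ P.V)
    (h : LinearIndependent L fun l j => P.fn (g l j)) : LinearIndependent K g := by
  rw [Fintype.linearIndependent_iff] at h ⊢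
  intro c hc
  by_contra hne
  have h0 : c ≠ 0 := fun e => hne fun i => congrFun e i
  obtain ⟨c', h0', h1, hv, e, -⟩ := P.exists_prim (Projectivization.mk K c h0)
  obtain ⟨u, rfl⟩ := (Projectivization.mk_eq_mk_iff' K _ _ h0' h0).1 e
  refine h1 (funext (h _ (funext fun j => ?_)))
  have h2 : ∑ l, (u • c) l * g l j = 0 := by
    have := congrFun hc j
    simp only [Finset.sum_apply, Pi.smul_apply, smul_eq_mul, Pi.zero_apply] at this
    simp only [Pi.smul_apply, smul_eq_mul, mul_assoc, ← Finset.mul_sum, this, mul_zero]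
  have h3 := congrArg P.fn h2
  rw [P.fn_sum fun l _ => P.V.mul_mem _ _ (hv l) (hg l j), P.fn_zero] at h3
  rw [Finset.sum_apply, Pi.zero_apply, ← h3]
  exact Finset.sum_congr rfl fun l _ => (P.fn_mul (hv l) (hg l j)).symm

theorem tanS : TanStmt := by
  intro k K _ _ _ _ r a I hI v h0 hv
  obtain ⟨P, hP⟩ : ∃ P : Plc K k, P.Over k := exists_plc
  obtain ⟨v', h0', h1, hV, e, -⟩ := P.exists_prim (Projectivization.mk K v h0)
  obtain ⟨u, hu⟩ := (Projectivization.mk_eq_mk_iff' K _ _ h0' h0).1 e
  have hu0 : u ≠ 0 := by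
    rintro rfl
    exact h0' (by rw [← hu, zero_smul])
  have hv' : OnX I v' := hu ▸ hv.smul hI.homog u
  rw [← tang_smul hI.homog hu0 v, hu]
  have hp : OnX I fun b => P.fn (v' b) := fun f hf => by
    rw [← (P.aeval_fn hP hV f).2, hv' f hf, P.fn_zero]
  obtain ⟨G, hG, hL⟩ := hI.smooth _ h1 hp
  let g : Matrix (Fin r) (Fin (r + 3)) K := fun l j => aeval v' (pderiv j (G l))
  have hg : LinearIndependent K g.row := by
    refine tan_indep P (fun l j => (P.aeval_fn hP hV _).1) ?_
    have e1 : (fun l j => P.fn (g.row l j)) =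
        fun l j => eval (fun b => P.fn (v' b)) (pderiv j (G l)) := by
      funext l j
      exact (P.aeval_fn hP hV (pderiv j (G l))).2.trans (congrFun (aeval_eq_eval _) _)
    rw [e1]
    exact hL
  have h2 := LinearMap.finrank_range_add_finrank_ker g.mulVecLin
  have h3 : Module.finrank K (LinearMap.range g.mulVecLin) = r := by
    simpa [Matrix.rank] using hg.rank_matrix
  have h4 : tang I v' ≤ LinearMap.ker g.mulVecLin := by
    intro δ hδ
    rw [LinearMap.mem_ker]
    funext l
    have := hδ (G l) (hG l)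
    simp only [dv, pderiv_map, eval_map_eq] at this
    exact this
  have h5 := Submodule.finrank_mono h4
  rw [h3, Module.finrank_fintype_fun_eq_card, Fintype.card_fin] at h2
  omega

theorem tan_form {k σ : Type} [Field k] [Fintype σ] (φ : (σ → k) →ₗ[k] k) :
    ∃ F : MvPolynomial σ k, ∀ v δ, dv F v δ = φ δ := by
  refine ⟨∑ j, C (φ (Pi.single j 1)) * X j, fun v δ => ?_⟩
  rw [dv_sum]
  simp only [dv_mul, dv_C, dv_X, eval_C, mul_zero, add_zero]
  conv_rhs => rw [pi_eq_sum_univ' δ, map_sum]
  exact Finset.sum_congr rfl fun j _ => by rw [map_smul, smul_eq_mul, mul_comm]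

theorem locS (h : TanStmt) : LocStmt := by
  intro k _ _ r a I hI v h0 hv
  have h1 := h k k r a I hI v h0 hv
  have hm : v ∈ tang I v := self_mem_tang hI.homog hv
  let q := (k ∙ v).mkQ
  have h2 := LinearMap.finrank_range_add_finrank_ker (q.domRestrict (tang I v))
  have h3 : 1 ≤ Module.finrank k (LinearMap.ker (q.domRestrict (tang I v))) := by
    rw [Submodule.one_le_finrank_iff, Submodule.ne_bot_iff]
    refine ⟨⟨v, hm⟩, ?_, fun e => h0 (congrArg Subtype.val e)⟩
    exact (Submodule.Quotient.mk_eq_zero _).2 (Submodule.mem_span_singleton_self v)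
  have h4 : Module.finrank k (LinearMap.range (q.domRestrict (tang I v))) ≤
      Module.finrank k (Fin 2 → k) := by
    rw [Module.finrank_fintype_fun_eq_card, Fintype.card_fin]
    omega
  obtain ⟨f, hf⟩ := finrank_le_iff_exists_linearMap.1 h4
  obtain ⟨g, hg⟩ := f.exists_extend
  obtain ⟨F, hF⟩ := tan_form ((LinearMap.proj 0).comp (g.comp q))
  obtain ⟨G, hG⟩ := tan_form ((LinearMap.proj 1).comp (g.comp q))
  refine ⟨F, G, fun δ hδ e1 e2 => ?_⟩
  rw [hF] at e1
  rw [hG] at e2
  have h5 : f ⟨q δ, ⟨δ, hδ⟩, rfl⟩ = 0 := by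
    rw [← hg]
    funext i
    fin_cases i
    · exact e1
    · exact e2
  have h6 : q δ = 0 := congrArg Subtype.val (hf (h5.trans (map_zero f).symm))
  exact (Submodule.Quotient.mk_eq_zero _).1 h6

end Pool.Agent.MP_9207e0_ag.CC
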