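import Pool.Agent.MP_9207e0_ag.cc.Spec

/-! PROJECT CCC: the free compositum of two fields over an algebraically closed field. -/

noncomputable section

namespace Pool.Agent.MP_9207e0_ag.CC

open MvPolynomial
open scoped Classical TensorProduct

namespace Tens

variable {k k2 K L : Type} [Field k] [Field k2] [Field K] [Field L] [Algebra k k2] [Algebra k K]
  [Algebra k L]

theorem exists_pt [IsAlgClosed k] {C : Set k2} (hC : C.Finite) :
    ∃ (T : Subalgebra k k2) (ψ : T →ₐ[k] k), ∀ c ∈ C, ∃ h : c ∈ T, c ≠ 0 → ψ ⟨c, h⟩ ≠ 0 := by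
  let T := Algebra.adjoin k (C ∪ C⁻¹)
  have : Algebra.FiniteType k T := (Subalgebra.fg_iff_finiteType _).1
    (Subalgebra.fg_def.2 ⟨_, hC.union hC.inv, rfl⟩)
  obtain ⟨m, hm⟩ := Ideal.exists_maximal T
  let _ := Ideal.Quotient.field m
  have : Module.Finite k (T ⧸ m) := finite_of_finite_type_of_isJacobsonRing k (T ⧸ m)
  refine ⟨T, (IsAlgClosed.lift : (T ⧸ m) →ₐ[k] k).comp (Ideal.Quotient.mkₐ k m), fun c hc =>
    ⟨Algebra.subset_adjoin (Or.inl hc), fun h0 => IsUnit.ne_zero (IsUnit.map _ ?_)⟩⟩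
  exact IsUnit.of_mul_eq_one ⟨c⁻¹, Algebra.subset_adjoin (Or.inr (by simpa using hc))⟩
    (Subtype.ext (mul_inv_cancel₀ h0))

/-- The inclusion of tensor products. -/
def inc (K : Type) [Field K] [Algebra k K] (T : Subalgebra k k2) :
    T ⊗[k] K →ₐ[k] k2 ⊗[k] K := Algebra.TensorProduct.map T.val (AlgHom.id k K)

/-- The specialization map. -/
def spc (K : Type) [Field K] [Algebra k K] {T : Subalgebra k k2} (ψ : T →ₐ[k] k) :
    T ⊗[k] K →ₐ[k] K := Algebra.TensorProduct.productMap ((Algebra.ofId k K).comp ψ) (AlgHom.id k K)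

theorem inc_inj (T : Subalgebra k k2) : Function.Injective (inc K T) :=
  Module.Flat.rTensor_preserves_injective_linearMap (M := K) T.val.toLinearMap
    Subtype.val_injective

theorem exists_spec [IsAlgClosed k] {Z : Set (k2 ⊗[k] K)} (hZ : Z.Finite) :
    ∃ (T : Subalgebra k k2) (ψ : T →ₐ[k] k),
      ∀ z ∈ Z, ∃ z', inc K T z' = z ∧ (z ≠ 0 → spc K ψ z' ≠ 0) := by
  let ε := Module.Basis.ofVectorSpace k K
  let β := Algebra.TensorProduct.basis k2 ε
  obtain ⟨T, ψ, h⟩ := exists_pt (k := k) (hZ.biUnion fun z _ => (β.repr z).finite_range)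
  refine ⟨T, ψ, fun z hz => ?_⟩
  choose h1 h2 using fun i => h (β.repr z i) (Set.mem_biUnion hz ⟨i, rfl⟩)
  refine ⟨∑ i ∈ (β.repr z).support, (⟨_, h1 i⟩ : T) ⊗ₜ ε i, ?_, fun h0 e => h0 ?_⟩
  · conv_rhs => rw [← β.linearCombination_repr z, Finsupp.linearCombination_apply, Finsupp.sum]
    rw [map_sum]
    refine Finset.sum_congr rfl fun i _ => ?_
    simp [inc, β, TensorProduct.smul_tmul']
  · rw [map_sum] at e
    have h3 := linearIndependent_iff'.1 ε.linearIndependent (β.repr z).support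
      (fun i => ψ ⟨_, h1 i⟩) (by
        rw [← e]
        refine Finset.sum_congr rfl fun i _ => ?_
        simp [spc, Algebra.smul_def])
    refine β.repr.map_eq_zero_iff.1 (Finsupp.ext fun i => ?_)
    by_contra h4
    exact h2 i h4 (h3 i (Finsupp.mem_support_iff.2 h4))

theorem tensor_domain [IsAlgClosed k] : IsDomain (k2 ⊗[k] K) := by
  have : NoZeroDivisors (k2 ⊗[k] K) := ⟨fun {x y} hxy => by
    by_contra h
    rw [not_or] at h
    obtain ⟨T, ψ, H⟩ := exists_spec (k := k) (Set.toFinite {x, y})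
    obtain ⟨x', rfl, hx⟩ := H x (by simp)
    obtain ⟨y', rfl, hy⟩ := H y (by simp)
    have h1 : x' * y' = 0 := inc_inj T (by rw [map_mul, hxy, map_zero])
    exact mul_ne_zero (hx h.1) (hy h.2) (by rw [← map_mul, h1, map_zero])⟩
  exact NoZeroDivisors.to_isDomain _

/-- The ring of a place as a subalgebra. -/
def ring {P : Plc K L} (h : P.Over k) : Subalgebra k K :=
  { P.V.toSubring with algebraMap_mem' := fun c => (h c).1 }

/-- The place as a homomorphism of algebras. -/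
def hom {P : Plc K L} (h : P.Over k) : ring h →ₐ[k] L where
  toFun x := P.fn x
  map_one' := P.fn_one
  map_mul' x y := P.fn_mul x.2 y.2
  map_zero' := P.fn_zero
  map_add' x y := P.fn_add x.2 y.2
  commutes' c := (h c).2

theorem joint {E : Type} [Field E] [Algebra k E] (g : k2 ⊗[k] K →ₐ[k] E)
    (hg : Function.Injective g) [IsAlgClosed L] {P₁ : Plc k2 L} {P₂ : Plc K L} (h₁ : P₁.Over k)
    (h₂ : P₂.Over k) : ∃ P : Plc E L, P.Over k ∧
      (∀ x ∈ P₁.V, g (x ⊗ₜ 1) ∈ P.V ∧ P.fn (g (x ⊗ₜ 1)) = P₁.fn x) ∧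
      ∀ x ∈ P₂.V, g (1 ⊗ₜ x) ∈ P.V ∧ P.fn (g (1 ⊗ₜ x)) = P₂.fn x := by
  let i := Algebra.TensorProduct.map (ring h₁).val (ring h₂).val
  have hi : Function.Injective i :=
    TensorProduct.map_injective_of_flat_flat (ring h₁).val.toLinearMap (ring h₂).val.toLinearMap
      Subtype.val_injective Subtype.val_injective
  let s := Algebra.TensorProduct.productMap (hom h₁) (hom h₂)
  obtain ⟨P, hP⟩ := place (g.comp i).toRingHom s.toRingHom fun r hr => by
    have : r = 0 := (hg.comp hi) (hr.trans (map_zero (g.comp i)).symm)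
    rw [this, map_zero]
  have hP' : ∀ r, g (i r) ∈ P.V ∧ P.fn (g (i r)) = s r := hP
  refine ⟨P, fun c => ?_, fun x hx => ?_, fun x hx => ?_⟩
  · have := hP' (algebraMap k _ c)
    rwa [AlgHom.commutes, AlgHom.commutes, AlgHom.commutes] at this
  · have := hP' ((⟨x, hx⟩ : ring h₁) ⊗ₜ 1)
    rwa [Algebra.TensorProduct.map_tmul, Algebra.TensorProduct.productMap_apply_tmul, map_one,
      map_one, mul_one] at this
  · have := hP' (1 ⊗ₜ (⟨x, hx⟩ : ring h₂))
    rwa [Algebra.TensorProduct.map_tmul, Algebra.TensorProduct.productMap_apply_tmul, map_one,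
      map_one, one_mul] at this

theorem asp {ι : Type} {z : ι → K} (h : AlgebraicIndependent k z) (p : ι → L) : ASp k z p :=
  fun f hf => by rw [algebraicIndependent_iff.1 h f hf, map_zero]

end Tens

open Tens in
theorem tensS : TensStmt := by
  intro k K₁ K₂ _ _ _ _ _ _
  have : IsDomain (K₁ ⊗[k] K₂) := tensor_domain
  let F := FractionRing (K₁ ⊗[k] K₂)
  let g : K₁ ⊗[k] K₂ →ₐ[k] AlgebraicClosure F :=
    (IsScalarTower.toAlgHom k F (AlgebraicClosure F)).comp (IsScalarTower.toAlgHom k _ F)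
  have hg : Function.Injective g :=
    (algebraMap F (AlgebraicClosure F)).injective.comp (IsFractionRing.injective (K₁ ⊗[k] K₂) F)
  refine ⟨Ext.mk (AlgebraicClosure F), g.comp Algebra.TensorProduct.includeLeft,
    g.comp Algebra.TensorProduct.includeRight, fun L _ _ _ P₁ P₂ h₁ h₂ => joint g hg h₁ h₂,
    fun S₁ S₂ => ?_⟩
  obtain ⟨B₁, b₁⟩ := (AlgebraicIndependent.matroid k K₁).exists_isBasis' S₁
  obtain ⟨B₂, b₂⟩ := (AlgebraicIndependent.matroid k K₂).exists_isBasis' S₂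
  have i₁ : AlgebraicIndependent k ((↑) : B₁ → K₁) :=
    AlgebraicIndependent.matroid_indep_iff.1 b₁.indep
  have i₂ : AlgebraicIndependent k ((↑) : B₂ → K₂) :=
    AlgebraicIndependent.matroid_indep_iff.1 b₂.indep
  let z : B₁ ⊕ B₂ → AlgebraicClosure F :=
    Sum.elim (fun x => g ((x : K₁) ⊗ₜ 1)) fun x => g (1 ⊗ₜ (x : K₂))
  have hz : AlgebraicIndependent k z := by
    refine algebraicIndependent_iff.2 fun f hf => MvPolynomial.funext fun x => ?_
    obtain ⟨P₁, h₁, e₁⟩ := (asp i₁ fun b => x (Sum.inl b)).place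
    obtain ⟨P₂, h₂, e₂⟩ := (asp i₂ fun b => x (Sum.inr b)).place
    obtain ⟨P, hP, j₁, j₂⟩ := joint g hg h₁ h₂
    have a1 : ∀ u, z u ∈ P.V ∧ P.fn (z u) = x u := by
      rintro (b | b)
      · exact ⟨(j₁ _ (e₁ b).1).1, (j₁ _ (e₁ b).1).2.trans (e₁ b).2⟩
      · exact ⟨(j₂ _ (e₂ b).1).1, (j₂ _ (e₂ b).1).2.trans (e₂ b).2⟩
    have a2 := ASp.of_plc hP (fun u => (a1 u).1) f hf
    rw [show (fun u => P.fn (z u)) = x from funext fun u => (a1 u).2] at a2
    rw [map_zero]
    exact a2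
  have hr : (AlgebraicIndependent.matroid k (AlgebraicClosure F)).Indep (Set.range z) :=
    AlgebraicIndependent.matroid_indep_iff.2 hz.to_subtype_range
  unfold rk
  rw [← b₁.encard_eq_eRk, ← b₂.encard_eq_eRk]
  refine le_trans ?_ (hr.encard_le_eRk_of_subset ?_)
  · have := hz.injective.encard_range
    rwa [ENat.card_sum, ENat.card_coe_set_eq, ENat.card_coe_set_eq] at this
  · rintro _ ⟨b | b, rfl⟩
    · exact Or.inl ⟨b, b₁.subset b.2, rfl⟩
    · exact Or.inr ⟨b, b₂.subset b.2, rfl⟩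

end Pool.Agent.MP_9207e0_ag.CC
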