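import Pool.Agent.MP_9207e0_ag.cc.Rk

/-! PROJECT CCC: generic pencils are transversal. -/

noncomputable section

namespace Pool.Agent.MP_9207e0_ag.CC

open MvPolynomial
open scoped Classical

variable {k K σ : Type} [Field k] [Field K] [Algebra k K] [Fintype σ]

theorem trg_pow {z δ : σ → K} {a : σ} (h : δ a = 0) (n : ℕ) : dv (X a ^ n) z δ = 0 := by
  induction n with
  | zero => simpa using dv_C (1 : K) z δ
  | succ n ih => rw [pow_succ, dv_mul, dv_X, ih, h, mul_zero, mul_zero, add_zero]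

omit [Fintype σ] in
theorem trg_pd {S : Set K} {z : σ → K} (hz : ∀ j, z j ∈ cl k S) (f : MvPolynomial σ k) (j : σ) :
    eval z (pderiv j (map (algebraMap k K) f)) ∈ cl k S := by
  rw [pderiv_map, eval_map_eq]
  exact aeval_mem_cl hz _

theorem trg_dir (hL : LinStmt) {I : Ideal (MvPolynomial σ k)} (hI : Hg I) {S : Set K}
    {z δ : σ → K} {a b : σ} (hz : ∀ j, z j ∈ cl k S) (hS : rk k S ≤ 2)
    (ht : Module.finrank K (tang I z) ≤ 3) (ho : OnX I z) (ha : z a = 1) (hδ : δ ∈ tang I z)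
    (h0 : δ a = 0) (h1 : δ b = 1) : rk k (S ∪ Set.range δ) ≤ 3 := by
  let W : Submodule K (σ → K) := tang I z ⊓ LinearMap.ker (LinearMap.proj a)
  have hW : Module.finrank K W < Module.finrank K (tang I z) :=
    Submodule.finrank_lt_finrank_of_lt (lt_of_le_of_ne inf_le_left fun e => by
      have h2 : z ∈ W := e ▸ self_mem_tang hI ho
      exact one_ne_zero (ha.symm.trans h2.2))
  have := (hL k K σ (Option I) S
    (fun t i => t.elim (if i = a then 1 else 0)
      fun f => eval z (pderiv i (map (algebraMap k K) f.1))) W 2 ?_ ?_ (by omega) δ ⟨hδ, h0⟩).2 b h1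
  · refine (ENat.add_le_add_iff_right ENat.one_ne_top).1 (this.trans ?_)
    exact (add_le_add hS le_rfl).trans (le_of_eq rfl)
  · rintro (_ | f) i
    · simp only [Option.elim_none]
      split_ifs
      · exact mem_clF.1 (one_mem _)
      · exact mem_clF.1 (zero_mem _)
    · exact trg_pd hz _ _
  · intro v
    constructor
    · rintro ⟨h2, h3⟩ (_ | f)
      · simpa using h3
      · exact h2 f.1 f.2
    · exact fun h => ⟨fun f hf => h (some ⟨f, hf⟩), by simpa using h none⟩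

theorem trg_core (hL : LinStmt) {I : Ideal (MvPolynomial σ k)} {m h : ℕ}
    {β : Fin h → MvPolynomial σ k} {c c' : Fin h → K} (hm : 1 ≤ m) (hβ : Bas I m β)
    (hc : AlgebraicIndependent k (Sum.elim c c')) {S : Set K} {z δ : σ → K} {a b : σ}
    (hz : ∀ j, z j ∈ cl k S) (hd : ∀ j, δ j ∈ cl k S) (hS : rk k S ≤ 3) (ho : OnX I z)
    (ha : z a = 1) (hδ : δ ∈ tang I z) (h0 : δ a = 0) (h1 : δ b = 1)
    (e1 : eval z (fm β c) = 0) (e2 : eval z (fm β c') = 0) (d1 : dv (fm β c) z δ = 0)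
    (d2 : dv (fm β c') z δ = 0) : False := by
  let B : Fin 2 → Fin h → K :=
    ![fun l => aeval z (β l), fun l => dv (map (algebraMap k K) (β l)) z δ]
  let φ : (Fin h → K) →ₗ[K] (Fin 2 → K) := (Matrix.of B).mulVecLin
  have hφ : ∀ v, φ v = ![eval z (fm β v), dv (fm β v) z δ] := fun v => by
    rw [eval_fm, dv_fm]
    ext t
    fin_cases t <;> rfl
  have hF : ∀ F : MvPolynomial σ K, F.IsHomogeneous m → ∃ v, φ v = ![eval z F, dv F z δ] := by
    intro F hF
    obtain ⟨v, hv⟩ := hβ.span K F hF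
    have h2 := IK_eval ho hv
    have h3 := IK_dv ho hδ hv
    rw [map_sub, sub_eq_zero] at h2
    rw [dv_sub, sub_eq_zero] at h3
    exact ⟨v, by rw [hφ, h2, h3]⟩
  obtain ⟨v0, h2⟩ := hF (X a ^ m) (isHomogeneous_X_pow a m)
  obtain ⟨v1, h3⟩ := hF (X a ^ (m - 1) * X b) (by
    have := (isHomogeneous_X_pow (R := K) a (m - 1)).mul (isHomogeneous_X K b)
    rwa [Nat.sub_add_cancel hm] at this)
  rw [trg_pow h0, map_pow, eval_X, ha, one_pow] at h2
  rw [dv_mul, trg_pow h0, dv_X, map_mul, map_pow, eval_X, eval_X, ha, one_pow, h1] at h3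
  have hs : LinearMap.range φ = ⊤ := LinearMap.range_eq_top.2 fun y =>
    ⟨(y 0 - z b * y 1) • v0 + y 1 • v1, by
      rw [map_add, map_smul, map_smul, h2, h3]
      ext t
      fin_cases t
      · simp [mul_comm]
      · simp⟩
  have hr := φ.finrank_range_add_finrank_ker
  rw [hs, finrank_top, Module.finrank_fin_fun, Module.finrank_fin_fun] at hr
  have hB : ∀ t l, B t l ∈ cl k S := fun t l => by
    fin_cases t
    · exact aeval_mem_cl hz _
    · exact mem_clF.1 (sum_mem fun j _ => mul_mem (mem_clF.2 (trg_pd hz _ j)) (mem_clF.2 (hd j)))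
  have hW : ∀ v, v ∈ LinearMap.ker φ ↔ ∀ t, ∑ i, B t i * v i = 0 := fun v => funext_iff
  have m1 : c ∈ LinearMap.ker φ := by
    rw [LinearMap.mem_ker, hφ, e1, d1]
    simp
  have m2 : c' ∈ LinearMap.ker φ := by
    rw [LinearMap.mem_ker, hφ, e2, d2]
    simp
  have r1 := (hL k K _ _ S B _ _ hB hW le_rfl c m1).1
  have r2 := (hL k K _ _ (S ∪ Set.range c) B _ _
    (fun t l => cl_mono Set.subset_union_left (hB t l)) hW le_rfl c' m2).1
  have r3 : rk k (Set.range (Sum.elim c c')) ≤ rk k (S ∪ Set.range c ∪ Set.range c') := by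
    rw [Set.Sum.elim_range, Set.union_assoc]
    exact rk_mono Set.subset_union_right
  rw [rk_range_of_indep hc, Fintype.card_sum, Fintype.card_fin] at r3
  have r4 := r3.trans (r2.trans (add_le_add (r1.trans (add_le_add hS le_rfl)) le_rfl))
  have r5 : h + h ≤ 3 + Module.finrank K (LinearMap.ker φ) +
      Module.finrank K (LinearMap.ker φ) := by exact_mod_cast r4
  omega

theorem trg_vec (hL : LinStmt) {I : Ideal (MvPolynomial σ k)} (hI : Hg I) {m h : ℕ}
    {β : Fin h → MvPolynomial σ k} {c c' : Fin h → K} (hm : 1 ≤ m) (hβ : Bas I m β)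
    (hc : AlgebraicIndependent k (Sum.elim c c')) {S : Set K} {z : σ → K} {a : σ}
    (hz : ∀ j, z j ∈ cl k S) (hS : rk k S ≤ 2) (ht : Module.finrank K (tang I z) ≤ 3)
    (ho : OnX I z) (ha : z a = 1) (e1 : eval z (fm β c) = 0) (e2 : eval z (fm β c') = 0) :
    TransV I z (fm β c) (fm β c') := by
  intro δ h1 h2 h3
  by_contra hn
  have h4 : δ - δ a • z ≠ 0 := fun h => hn (Submodule.mem_span_singleton.2
    ⟨δ a, (sub_eq_zero.1 h).symm⟩)
  obtain ⟨b, hb⟩ := Function.ne_iff.1 h4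
  have h5 : ((δ - δ a • z) b)⁻¹ • (δ - δ a • z) ∈ tang I z :=
    Submodule.smul_mem _ _ (sub_mem h1 (Submodule.smul_mem _ _ (self_mem_tang hI ho)))
  have h6 : (((δ - δ a • z) b)⁻¹ • (δ - δ a • z)) a = 0 := by simp [ha]
  have h7 : (((δ - δ a • z) b)⁻¹ • (δ - δ a • z)) b = 1 := inv_mul_cancel₀ hb
  have h8 : ∀ v : Fin h → K, eval z (fm β v) = 0 → dv (fm β v) z δ = 0 →
      dv (fm β v) z (((δ - δ a • z) b)⁻¹ • (δ - δ a • z)) = 0 := fun v f1 f2 => by
    rw [← dvL_apply, map_smul, map_sub, map_smul, dvL_apply, dvL_apply, f2,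
      dv_self (fm_homog hβ.homog v), f1]
    simp
  exact trg_core hL hm hβ hc (fun j => cl_mono Set.subset_union_left (hz j))
    (fun j => subset_cl _ (Or.inr (Set.mem_range_self j)))
    (trg_dir hL hI hz hS ht ho ha h5 h6 h7) ho ha h5 h6 h7
    e1 e2 (h8 c e1 h2) (h8 c' e2 h3)

theorem trgS (hT : TanStmt) (hD : DimStmt) (hL : LinStmt) : TrgStmt := by
  intro k K _ _ _ _ _ r a I hK m h β c c' hm hβ hc x ⟨x1, x2, x3⟩
  have hI : Hg I := hK.homog
  obtain ⟨i, hi⟩ := Function.ne_iff.1 x.rep_nonzero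
  obtain ⟨h0, e⟩ := mk_div x hi
  have hF := fm_homog hβ.homog c
  have hG := fm_homog hβ.homog c'
  have ho := (on_iff_nv hI hi).1 x1
  rw [← e, eval_mk_eq_zero hF] at x2
  rw [← e, eval_mk_eq_zero hG] at x3
  rw [← e, trans_mk hI hF hG]
  exact trg_vec hL hI hm hβ hc (a := i) (S := rat1 x) (fun j => subset_cl _ ⟨j, i, rfl⟩)
    (hD k K r a I hK x x1).1 (hT k K r a I hK _ h0 ho) ho (div_self hi) x2 x3

end Pool.Agent.MP_9207e0_ag.CC
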