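import Pool.Agent.MP_9207e0_ag.cc.RkA

/-! PROJECT CCC, row VAL: a pole is detected by a place of codimension at most one. -/

noncomputable section

namespace Pool.Agent.MP_9207e0_ag.CC

open MvPolynomial
open scoped Classical

theorem val_integral_map {B S K : Type} [CommRing B] [CommRing S] [CommRing K] [Algebra B K]
    [Algebra S K] (φ : B →+* S) (hφ : (algebraMap S K).comp φ = algebraMap B K) {x : K}
    (hx : IsIntegral B x) : IsIntegral S x := by
  obtain ⟨p, hp, h⟩ := hx
  exact ⟨p.map φ, hp.map φ, by rw [Polynomial.eval₂_map, hφ]; exact h⟩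

theorem val_coprime {B K : Type} [CommRing B] [IsDomain B] [UniqueFactorizationMonoid B] [Field K]
    [Algebra B K] [FaithfulSMul B K] {x b : B} (hx : x ≠ 0) (hb : b ≠ 0) (h : IsRelPrime x b)
    {y : K} (h1 : IsIntegral B (x • y)) (h2 : IsIntegral B (b • y)) : IsIntegral B y := by
  have e : (minpoly B (x • y)).scaleRoots b = (minpoly B (b • y)).scaleRoots x := by
    rw [← IsIntegrallyClosed.minpoly_smul hb h1, ← IsIntegrallyClosed.minpoly_smul hx h2,
      smul_comm]
  set p := minpoly B (x • y) with hp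
  set q := minpoly B (b • y) with hq
  have hd : p.natDegree = q.natDegree := by
    rw [← Polynomial.natDegree_scaleRoots p b, e, Polynomial.natDegree_scaleRoots]
  have hdv : ∀ i, x ^ (p.natDegree - i) ∣ p.coeff i := fun i => by
    have h3 := congrArg (fun r => Polynomial.coeff r i) e
    simp only [Polynomial.coeff_scaleRoots] at h3
    rw [← hd] at h3
    exact (h.pow (m := p.natDegree - i) (n := p.natDegree - i)).dvd_of_dvd_mul_right
      (h3 ▸ dvd_mul_left _ _)
  choose c hc using hdv
  have hm : p.Monic := minpoly.monic h1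
  let r : Polynomial B := ∑ i ∈ Finset.range (p.natDegree + 1), Polynomial.monomial i (c i)
  have hr : ∀ i, r.coeff i = if i ≤ p.natDegree then c i else 0 := fun i => by
    simp only [r, Polynomial.finsetSum_coeff, Polynomial.coeff_monomial, Finset.sum_ite_eq',
      Finset.mem_range, Nat.lt_succ_iff]
  have hc1 : c p.natDegree = 1 := by
    have := hc p.natDegree
    rw [Nat.sub_self, pow_zero, one_mul] at this
    rw [← this]; exact hm
  have hle : r.natDegree ≤ p.natDegree :=
    Polynomial.natDegree_le_iff_coeff_eq_zero.2 fun i hi => by rw [hr, if_neg (by omega)]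
  have hr1 : r.coeff p.natDegree = 1 := by rw [hr, if_pos le_rfl, hc1]
  have hrm : r.Monic := Polynomial.monic_of_natDegree_le_of_coeff_eq_one _ hle hr1
  have hrd : r.natDegree = p.natDegree :=
    Polynomial.natDegree_eq_of_le_of_coeff_ne_zero hle (by rw [hr1]; exact one_ne_zero)
  have hs : r.scaleRoots x = p := by
    ext i
    rw [Polynomial.coeff_scaleRoots, hr, hrd]
    split_ifs with hi
    · rw [hc i, mul_comm]
    · rw [zero_mul, Polynomial.coeff_eq_zero_of_natDegree_lt (by omega)]
  refine ⟨r, hrm, ?_⟩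
  have h4 := Polynomial.scaleRoots_eval₂_mul (p := r) (algebraMap B K) y x
  rw [hs, ← Algebra.smul_def] at h4
  have h5 : Polynomial.eval₂ (algebraMap B K) (x • y) p = 0 := minpoly.aeval B (x • y)
  rw [h5] at h4
  exact (mul_eq_zero.1 h4.symm).resolve_left
    (pow_ne_zero _ ((map_ne_zero_iff _ (FaithfulSMul.algebraMap_injective B K)).2 hx))

theorem val_mem {B K L : Type} [CommRing B] [Field K] [Field L] [Algebra B K] (P : Plc K L)
    (hB : ∀ b, algebraMap B K b ∈ P.V) {x : K} (hx : IsIntegral B x) : x ∈ P.V := by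
  have h := val_integral_map (S := P.V) ((algebraMap B K).codRestrict P.V.toSubring hB) rfl hx
  obtain ⟨y, rfl⟩ := IsIntegrallyClosed.isIntegral_iff.1 h
  exact y.2

theorem val_core (k B K L : Type) [Field k] [CommRing B] [IsDomain B]
    [UniqueFactorizationMonoid B] [Field K] [Field L] [Algebra k B] [Algebra B K] [Algebra k K]
    [IsScalarTower k B K] [FaithfulSMul B K] (P : Plc K L) (hB : ∀ b, algebraMap B K b ∈ P.V)
    (u : K) (hu : IsAlgebraic B u) (hn : u ∉ P.V) :
    ∃ (E : Ext k) (Q : Plc K E.K), Q.Over k ∧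
      (∀ x, IsIntegral B x → x ∈ Q.V ∧ (Q.fn x = 0 → P.fn x = 0)) ∧ u ∉ Q.V ∧
      ∃ π : B, Prime π ∧ ∀ b, Q.fn (algebraMap B K b) = 0 → π ∣ b := by
  let R := integralClosure B K
  have hR : ∀ x : R, (x : K) ∈ P.V := fun x => val_mem P hB x.2
  let φ : R →+* L := P.φ.comp (R.val.toRingHom.codRestrict P.V.toSubring hR)
  have hφ : ∀ x : R, φ x = P.fn x := fun x => (P.fn_mem (hR x)).symm
  let D : Ideal R :=
    { carrier := {g | IsIntegral B ((g : K) * u)}
      add_mem' := fun {a b} ha hb => by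
        have := IsIntegral.add ha hb
        rwa [← add_mul] at this
      zero_mem' := by
        show IsIntegral B (((0 : R) : K) * u)
        rw [ZeroMemClass.coe_zero, zero_mul]; exact isIntegral_zero
      smul_mem' := fun c a ha => by
        have := IsIntegral.mul c.2 ha
        rwa [← mul_assoc] at this }
  have hD : ∀ g : R, g ∈ D ↔ IsIntegral B ((g : K) * u) := fun g => Iff.rfl
  have hle : D ≤ RingHom.ker φ := fun g hg => by
    rw [RingHom.mem_ker, hφ]
    by_contra h
    have := P.div_mem (val_mem P hB ((hD g).1 hg)) h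
    rw [mul_div_cancel_left₀ _ (P.ne_zero_of_ne h)] at this
    exact hn this
  have := RingHom.ker_isPrime φ
  obtain ⟨q, hq, hqle⟩ := Ideal.exists_minimalPrimes_le hle
  have hqp : q.IsPrime := hq.1.1
  have hu0 : u ≠ 0 := fun h => hn (h ▸ P.V.zero_mem)
  let E := AlgebraicClosure (FractionRing (R ⧸ q))
  let ψ : R →+* E := (algebraMap (FractionRing (R ⧸ q)) E).comp
    ((algebraMap (R ⧸ q) (FractionRing (R ⧸ q))).comp (Ideal.Quotient.mk q))
  have hψ : ∀ x, ψ x = 0 ↔ x ∈ q := fun x => by
    simp only [ψ, RingHom.comp_apply, map_eq_zero, FaithfulSMul.algebraMap_eq_zero_iff,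
      Ideal.Quotient.eq_zero_iff_mem]
  obtain ⟨Q, hQ⟩ := place (Polynomial.eval₂RingHom R.val.toRingHom u⁻¹)
    (Polynomial.eval₂RingHom ψ 0) (fun p hp => by
      rw [Polynomial.coe_eval₂RingHom] at hp ⊢
      rw [Polynomial.eval₂_at_zero, hψ]
      by_cases h0 : p.coeff 0 = 0
      · rw [h0]; exact q.zero_mem
      refine hq.1.2 ((hD _).2 ?_)
      letI := invertibleOfNonzero (inv_ne_zero hu0)
      rw [← Polynomial.eval₂_reverse_eq_zero_iff, invOf_eq_inv, inv_inv] at hp
      have h1 := isIntegral_leadingCoeff_smul (R := R) p.reverse u hp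
      rw [Polynomial.reverse_leadingCoeff, Polynomial.trailingCoeff_eq_coeff_zero h0] at h1
      exact isIntegral_trans (A := R) _ h1)
  have hQ1 : ∀ x : R, (x : K) ∈ Q.V ∧ Q.fn x = ψ x := fun x => by
    simpa using hQ (Polynomial.C x)
  have hQ2 : u⁻¹ ∈ Q.V ∧ Q.fn u⁻¹ = 0 := by simpa using hQ Polynomial.X
  obtain ⟨b, hb0, hb⟩ := hu.exists_integral_multiple
  refine ⟨@Ext.mk k _ E _ _ (ψ.comp ((algebraMap B R).comp (algebraMap k B))).toAlgebra, Q,
    fun c => ?_, fun x hx => ⟨(hQ1 ⟨x, hx⟩).1, fun h => ?_⟩, ?_, ?_⟩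
  · rw [IsScalarTower.algebraMap_apply k B K]
    exact hQ1 (algebraMap B R (algebraMap k B c))
  · have h1 : (⟨x, hx⟩ : R) ∈ q := (hψ _).1 ((hQ1 ⟨x, hx⟩).2.symm.trans h)
    exact (hφ ⟨x, hx⟩).symm.trans (hqle h1)
  · have := Q.notMem_inv (inv_ne_zero hu0) hQ2.1 hQ2.2
    rwa [inv_inv] at this
  · have hbq : b ∈ q.comap (algebraMap B R) := hq.1.2 ((hD _).2 (by
      rw [Algebra.smul_def] at hb; exact hb))
    have key : ∀ x ∈ q.comap (algebraMap B R), x ≠ 0 →
        ∃ π ∈ (UniqueFactorizationMonoid.factors b).toFinset, π ∣ x := fun x hx hx0 => by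
      obtain ⟨y, hy, hxy⟩ := Ideal.exists_mul_mem_of_mem_minimalPrimes hq (Ideal.mem_comap.1 hx)
      have hnr : ¬ IsRelPrime x b := fun hr => hy ((hD y).2 (val_coprime hx0 hb0 hr (by
        have := (hD _).1 hxy
        rw [Algebra.smul_def, ← mul_assoc]
        exact this) (by
        have := IsIntegral.mul y.2 hb
        rwa [mul_smul_comm] at this)))
      rw [UniqueFactorizationMonoid.isRelPrime_iff_no_prime_factors hx0] at hnr
      push Not at hnr
      obtain ⟨d, hd1, hd2, hd⟩ := hnr
      obtain ⟨π, hπ, ha⟩ :=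
        UniqueFactorizationMonoid.exists_mem_factors_of_dvd hb0 hd.irreducible hd2
      exact ⟨π, Multiset.mem_toFinset.2 hπ, ha.symm.dvd.trans hd1⟩
    obtain ⟨π₀, hπ₀, -⟩ := key b hbq hb0
    obtain ⟨π, hπ, hsub⟩ := (Ideal.subset_union_prime (s := (UniqueFactorizationMonoid.factors b).toFinset)
      (f := fun π => Ideal.span {π}) π₀ π₀ (fun i hi _ _ =>
        (Ideal.span_singleton_prime (UniqueFactorizationMonoid.prime_of_factor i
          (Multiset.mem_toFinset.1 hi)).ne_zero).2
          (UniqueFactorizationMonoid.prime_of_factor i (Multiset.mem_toFinset.1 hi)))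
      (I := q.comap (algebraMap B R))).1 (fun x hx => by
        by_cases hx0 : x = 0
        · exact Set.mem_biUnion (Finset.mem_coe.2 hπ₀) (by rw [hx0]; exact Ideal.zero_mem _)
        · obtain ⟨π, hπ, h⟩ := key x hx hx0
          exact Set.mem_biUnion (Finset.mem_coe.2 hπ) (Ideal.mem_span_singleton.2 h))
    refine ⟨π, UniqueFactorizationMonoid.prime_of_factor π (Multiset.mem_toFinset.1 hπ),
      fun c hc => Ideal.mem_span_singleton.1 (hsub ?_)⟩
    exact (hψ _).1 ((hQ1 (algebraMap B R c)).2.symm.trans hc)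

theorem valS : ValStmt := by
  intro k K L ι _ _ _ _ _ _ z u P hP hz hu hn
  let A := Algebra.adjoin k (Set.range z)
  have : Algebra.FiniteType k A := Algebra.FiniteType.adjoin_of_finite (Set.finite_range z)
  obtain ⟨d, g, hinj, hint⟩ := exists_integral_inj_algHom_of_fg k A
  let G : MvPolynomial (Fin d) k →ₐ[k] K := A.val.comp g
  let t : Fin d → K := fun j => G (X j)
  have hG : ∀ f, G f = aeval t f := fun f => by
    rw [show G = aeval t from MvPolynomial.algHom_ext fun j => by simp [t]]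
  have hA : ∀ x ∈ A, ∃ f : MvPolynomial ι k, aeval z f = x := fun x hx => by
    rw [show A = (aeval z).range from Algebra.adjoin_range_eq_range_aeval k z] at hx
    exact hx
  letI : Algebra (MvPolynomial (Fin d) k) K := G.toRingHom.toAlgebra
  have hal : ∀ f, algebraMap (MvPolynomial (Fin d) k) K f = G f := fun f => rfl
  have : IsScalarTower k (MvPolynomial (Fin d) k) K :=
    IsScalarTower.of_algebraMap_eq fun c => (G.commutes c).symm
  have : FaithfulSMul (MvPolynomial (Fin d) k) K :=
    (faithfulSMul_iff_algebraMap_injective _ _).2 (Subtype.val_injective.comp hinj)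
  have hI : ∀ x ∈ A, IsIntegral (MvPolynomial (Fin d) k) x := fun x hx => by
    obtain ⟨p, hp, h⟩ := hint ⟨x, hx⟩
    refine ⟨p, hp, ?_⟩
    have := Polynomial.hom_eval₂ p g.toRingHom A.val.toRingHom ⟨x, hx⟩
    rw [show Polynomial.eval₂ g.toRingHom ⟨x, hx⟩ p = 0 from h, map_zero] at this
    exact this.symm
  have hzA : ∀ i, z i ∈ A := fun i => Algebra.subset_adjoin ⟨i, rfl⟩
  let S := Algebra.adjoin k (Set.range t)
  have hS : S = G.range := by
    rw [show G = aeval t from AlgHom.ext hG]
    exact Algebra.adjoin_range_eq_range_aeval k t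
  let φ : MvPolynomial (Fin d) k →+* S :=
    G.toRingHom.codRestrict S.toSubring fun f => by rw [hS]; exact ⟨f, rfl⟩
  have hφ : Function.Surjective φ := fun x => by
    obtain ⟨f, hf⟩ : (x : K) ∈ G.range := hS ▸ x.2
    exact ⟨f, Subtype.ext hf⟩
  have hzt : Set.range z ⊆ cl k (Set.range t) := by
    rintro _ ⟨i, rfl⟩
    exact mem_cl_iff.2 (val_integral_map (S := S) φ rfl (hI _ (hzA i))).isAlgebraic
  have hua : IsAlgebraic (MvPolynomial (Fin d) k) u := by
    obtain ⟨p, hp, h⟩ := mem_cl_iff.1 (cl_subset_cl hzt hu)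
    obtain ⟨r, rfl⟩ := Polynomial.map_surjective φ hφ p
    refine ⟨r, fun h0 => hp (by rw [h0, Polynomial.map_zero]), ?_⟩
    rw [Polynomial.aeval_def, Polynomial.eval₂_map] at h
    exact h
  obtain ⟨E, Q, hQ, h1, h2, π, hπ, h3⟩ := val_core k (MvPolynomial (Fin d) k) K L P (fun b => by
    obtain ⟨f, hf⟩ := hA _ (g b).2
    have := (P.aeval_fn hP hz f).1
    rwa [hf] at this) u hua hn
  have hzQ : ∀ i, z i ∈ Q.V := fun i => (h1 _ (hI _ (hzA i))).1
  refine ⟨E, Q, hQ, hzQ, h2, fun f hf => ?_, ?_⟩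
  · rw [← (Q.aeval_fn hQ hzQ f).2] at hf
    rw [← (P.aeval_fn hP hz f).2]
    refine (h1 _ (hI _ ?_)).2 hf
    rw [show A = (aeval z).range from Algebra.adjoin_range_eq_range_aeval k z]
    exact ⟨f, rfl⟩
  · obtain ⟨j, hj⟩ : π.vars.Nonempty := Finset.nonempty_iff_ne_empty.2 fun h => by
      rw [vars_eq_empty_iff_eq_C] at h
      have h0 : π.coeff 0 ≠ 0 := fun h0 => hπ.ne_zero (by rw [h, h0, map_zero])
      exact hπ.not_isUnit (h ▸ (IsUnit.mk0 _ h0).map C)
    have htQ : ∀ i, t i ∈ Q.V := fun i => (h1 _ (hI _ (g (X i)).2)).1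
    have hind : AlgebraicIndependent k fun i : {i // i ≠ j} => Q.fn (t i.1) := by
      rw [algebraicIndependent_iff]
      intro f hf
      have h4 : Q.fn (algebraMap (MvPolynomial (Fin d) k) K (rename Subtype.val f)) = 0 := by
        rw [hal, hG, (Q.aeval_fn hQ htQ _).2, aeval_rename]
        exact hf
      obtain ⟨c, hc⟩ := h3 _ h4
      by_contra h0
      have h5 : rename Subtype.val f ≠ 0 := fun h =>
        h0 (rename_injective _ Subtype.val_injective (by rw [h, map_zero]))
      have h6 : c ≠ 0 := fun h => h5 (by rw [hc, h, mul_zero])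
      have h7 : j ∈ (rename Subtype.val f).vars := by
        rw [mem_vars_iff_degreeOf_ne_zero] at hj ⊢
        rw [hc, degreeOf_mul_eq hπ.ne_zero h6]
        omega
      obtain ⟨i, -, hi⟩ := mem_vars_rename _ _ h7
      exact i.2 hi
    have h8 : (Set.range fun i : {i // i ≠ j} => Q.fn (t i.1)) ⊆
        cl k (Set.range fun i => Q.fn (z i)) := by
      rintro _ ⟨i, rfl⟩
      obtain ⟨f, hf⟩ := hA _ (g (X i.1)).2
      have h9 : t i.1 = aeval z f := hf.symm
      show Q.fn (t i.1) ∈ _
      rw [h9, (Q.aeval_fn hQ hzQ f).2]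
      exact aeval_mem_cl (fun l => subset_cl _ (Set.mem_range_self l)) f
    have h9 := rk_le_of_subset_cl h8
    rw [rk_range_of_indep hind] at h9
    have h10 : Fintype.card (Fin d) = Fintype.card {i // i ≠ j} + 1 := by
      rw [Fintype.card_subtype_compl, Fintype.card_subtype_eq]
      have : 0 < Fintype.card (Fin d) := Fintype.card_pos_iff.2 ⟨j⟩
      omega
    refine (rk_le_of_subset_cl hzt).trans ((rk_range_le t).trans ?_)
    rw [h10]
    push_cast
    exact add_le_add h9 le_rfl

end Pool.Agent.MP_9207e0_ag.CC
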