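import Pool.Agent.MP_9207e0_ag.cc.Bas
import Pool.Agent.MP_9207e0_ag.cc.Br
import Pool.Agent.MP_9207e0_ag.cc.Card
import Pool.Agent.MP_9207e0_ag.cc.Chu
import Pool.Agent.MP_9207e0_ag.cc.Ci
import Pool.Agent.MP_9207e0_ag.cc.Cls
import Pool.Agent.MP_9207e0_ag.cc.Cnt
import Pool.Agent.MP_9207e0_ag.cc.Cuts
import Pool.Agent.MP_9207e0_ag.cc.Dim
import Pool.Agent.MP_9207e0_ag.cc.Div
import Pool.Agent.MP_9207e0_ag.cc.Ends
import Pool.Agent.MP_9207e0_ag.cc.Exact
import Pool.Agent.MP_9207e0_ag.cc.Fam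
import Pool.Agent.MP_9207e0_ag.cc.Gd
import Pool.Agent.MP_9207e0_ag.cc.Gen
import Pool.Agent.MP_9207e0_ag.cc.Hom
import Pool.Agent.MP_9207e0_ag.cc.Int
import Pool.Agent.MP_9207e0_ag.cc.Isol
import Pool.Agent.MP_9207e0_ag.cc.L1
import Pool.Agent.MP_9207e0_ag.cc.L2
import Pool.Agent.MP_9207e0_ag.cc.Lift
import Pool.Agent.MP_9207e0_ag.cc.Lin
import Pool.Agent.MP_9207e0_ag.cc.Main
import Pool.Agent.MP_9207e0_ag.cc.Num
import Pool.Agent.MP_9207e0_ag.cc.O1a
import Pool.Agent.MP_9207e0_ag.cc.O1b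
import Pool.Agent.MP_9207e0_ag.cc.O1c
import Pool.Agent.MP_9207e0_ag.cc.Orb
import Pool.Agent.MP_9207e0_ag.cc.Prod
import Pool.Agent.MP_9207e0_ag.cc.Prt
import Pool.Agent.MP_9207e0_ag.cc.Rad
import Pool.Agent.MP_9207e0_ag.cc.Red
import Pool.Agent.MP_9207e0_ag.cc.Reg
import Pool.Agent.MP_9207e0_ag.cc.Repo
import Pool.Agent.MP_9207e0_ag.cc.Semi
import Pool.Agent.MP_9207e0_ag.cc.Tan
import Pool.Agent.MP_9207e0_ag.cc.Tens
import Pool.Agent.MP_9207e0_ag.cc.Trg
import Pool.Agent.MP_9207e0_ag.cc.Uniq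
import Pool.Agent.MP_9207e0_ag.cc.Val

/-! PROJECT CCC: assembly. -/

namespace Pool.Agent.MP_9207e0_ag.CC

theorem all_of_spec (hS : SpecStmt) : MainStmt := by
  have hR := ratpS transferS
  have hGd := gdS hR hS
  have hP := prodS tensS
  have hW := powerS hP
  have hC := cutsS valS
  have hU := uniq2S uniqS
  have hIs := isolS tensS hU
  have hD := dimS (nozS exactS)
  have hG := genS regS
  have hSph := sphS homS
  have hT := trgS tanS hD linS
  have hCi := ciS (numS exactS semiS regS) radS cardS hT linS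
  have hF := famS transferS
  have hE := endsS chuS transferS
  have hI := intS hP hC (locS tanS) uniqS
  have hRepo := repoS (orbS (o1aS tanS hIs hG hSph) (o1bS hG hD hSph) (o1cS homS)) basS
    (liftS hG hW tensS hC hIs) hCi (clsS hCi hT hU hF hD hR) hU hR
  exact mainS (l1S cntS (divS cntS) hF hR) (l2S hE orbdecS (divS cntS) cenS)
    (prtS hRepo hE orbdecS hP hGd hR)
    (startS hG hC hP hW hGd hR (indS hI pushS (redS valS pushS hGd hR) hGd) (escS hD hG hW hS hR))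
    brS hGd hR hI

end Pool.Agent.MP_9207e0_ag.CC
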