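import Pool.Agent.MP_9207e0_ag.cc.Spec

/-! PROJECT CCC, row BAS: a basis of the forms of degree `m` modulo `I`, stable under extension
of the ground field. -/

noncomputable section

namespace Pool.Agent.MP_9207e0_ag.CC

open MvPolynomial
open scoped Classical

variable {k K σ : Type} [Field k] [Field K] [Algebra k K]

/-- A `k`-linear form on `K` applied to every coefficient. -/
def basL (φ : K →ₗ[k] k) (F : MvPolynomial σ K) : MvPolynomial σ k :=
  AddMonoidAlgebra.map φ.toAddMonoidHom F

theorem bas_coeff (φ : K →ₗ[k] k) (F : MvPolynomial σ K) (d : σ →₀ ℕ) :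
    coeff d (basL φ F) = φ (coeff d F) := rfl

theorem bas_zero (φ : K →ₗ[k] k) : basL φ (0 : MvPolynomial σ K) = 0 := by
  ext d
  rw [bas_coeff, coeff_zero, coeff_zero, map_zero]

theorem bas_add (φ : K →ₗ[k] k) (F G : MvPolynomial σ K) :
    basL φ (F + G) = basL φ F + basL φ G := by
  ext d
  rw [coeff_add, bas_coeff, bas_coeff, bas_coeff, coeff_add, map_add]

theorem bas_mul (φ : K →ₗ[k] k) (F : MvPolynomial σ K) (f : MvPolynomial σ k) :
    basL φ (F * map (algebraMap k K) f) = basL φ F * f := by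
  ext d
  rw [bas_coeff, coeff_mul, coeff_mul, map_sum]
  refine Finset.sum_congr rfl fun x _ => ?_
  rw [coeff_map, bas_coeff, mul_comm, ← Algebra.smul_def, map_smul, smul_eq_mul, mul_comm]

theorem bas_mem (φ : K →ₗ[k] k) {I : Ideal (MvPolynomial σ k)} {F : MvPolynomial σ K}
    (hF : F ∈ IK K I) : basL φ F ∈ I := by
  have key : ∀ a, basL φ (a * F) ∈ I := by
    unfold IK Ideal.map at hF
    induction hF using Submodule.span_induction with
    | mem x hx =>
      obtain ⟨f, hf, rfl⟩ := hx
      intro a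
      rw [bas_mul]
      exact I.mul_mem_left _ hf
    | zero =>
      intro a
      rw [mul_zero, bas_zero]
      exact I.zero_mem
    | add x y _ _ hx hy =>
      intro a
      rw [mul_add, bas_add]
      exact I.add_mem (hx a) (hy a)
    | smul b x _ hx =>
      intro a
      rw [smul_eq_mul, ← mul_assoc]
      exact hx _
  have := key 1
  rwa [one_mul] at this

theorem bas_fm (φ : K →ₗ[k] k) {h : ℕ} (β : Fin h → MvPolynomial σ k) (c : Fin h → K) :
    basL φ (fm β c) = ∑ l, φ (c l) • β l := by
  ext d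
  rw [bas_coeff, fm, coeff_sum, coeff_sum, map_sum]
  refine Finset.sum_congr rfl fun l _ => ?_
  rw [coeff_C_mul, coeff_map, coeff_smul, mul_comm, ← Algebra.smul_def, map_smul, smul_eq_mul,
    smul_eq_mul, mul_comm]

theorem bas_fm_sum {h : ℕ} (β : Fin h → MvPolynomial σ k) {τ : Type} (s : Finset τ) (a : τ → K)
    (g : τ → Fin h → k) :
    fm β (fun l => ∑ d ∈ s, a d * algebraMap k K (g d l)) =
      ∑ d ∈ s, C (a d) * map (algebraMap k K) (∑ l, g d l • β l) := by
  unfold fm
  simp only [map_sum, Finset.sum_mul, Finset.mul_sum]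
  rw [Finset.sum_comm]
  refine Finset.sum_congr rfl fun d _ => Finset.sum_congr rfl fun l _ => ?_
  rw [smul_eq_C_mul, map_mul, map_mul, map_C, mul_assoc]

theorem basS : BasStmt := by
  intro k σ _ _ _ I m _
  set Q := (homogeneousSubmodule σ k m).map (Ideal.Quotient.mkₐ k I).toLinearMap with hQ
  have : Module.Finite k Q :=
    Module.Finite.iff_fg.2 ((homogeneousSubmodule_fg σ k m).map _)
  let b := Module.finBasis k Q
  have hb : ∀ l, ∃ p : MvPolynomial σ k, p.IsHomogeneous m ∧
      Ideal.Quotient.mkₐ k I p = (b l : MvPolynomial σ k ⧸ I) := by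
    intro l
    obtain ⟨p, hp, e⟩ := (b l).2
    exact ⟨p, hp, e⟩
  choose β hβ eβ using hb
  have hsum : ∀ g : Fin (Module.finrank k Q) → k,
      Ideal.Quotient.mkₐ k I (∑ l, g l • β l) = ((∑ l, g l • b l : Q) : MvPolynomial σ k ⧸ I) := by
    intro g
    rw [map_sum, Submodule.coe_sum]
    refine Finset.sum_congr rfl fun l _ => ?_
    rw [map_smul, eβ, Submodule.coe_smul]
  have hsp : ∀ p : MvPolynomial σ k, ∃ g : Fin (Module.finrank k Q) → k,
      p.IsHomogeneous m → p - ∑ l, g l • β l ∈ I := by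
    intro p
    by_cases hp : p.IsHomogeneous m
    · have hq : Ideal.Quotient.mkₐ k I p ∈ Q := ⟨p, hp, rfl⟩
      refine ⟨fun l => b.repr ⟨_, hq⟩ l, fun _ => ?_⟩
      rw [← Ideal.Quotient.eq]
      have := hsum fun l => b.repr ⟨_, hq⟩ l
      rw [b.sum_repr] at this
      exact this.symm
    · exact ⟨0, fun h => absurd h hp⟩
  choose g hg using hsp
  refine ⟨Module.finrank k Q, β, rfl, hβ, ?_, ?_⟩
  · intro K _ _ F hF
    refine ⟨fun l => ∑ d ∈ F.support, coeff d F * algebraMap k K (g (monomial d 1) l), ?_⟩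
    rw [bas_fm_sum β F.support (fun d => coeff d F) fun d => g (monomial d 1)]
    have e : F = ∑ d ∈ F.support, C (coeff d F) * map (algebraMap k K) (monomial d (1 : k)) := by
      refine F.as_sum.trans (Finset.sum_congr rfl fun d _ => ?_)
      rw [map_monomial, map_one, C_mul_monomial, mul_one]
    have e2 : F - ∑ d ∈ F.support, C (coeff d F) *
        map (algebraMap k K) (∑ l, g (monomial d 1) l • β l) =
        ∑ d ∈ F.support, C (coeff d F) *
          map (algebraMap k K) (monomial d 1 - ∑ l, g (monomial d 1) l • β l) := by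
      simp only [map_sub, mul_sub, Finset.sum_sub_distrib]
      rw [← e]
    rw [e2]
    refine Ideal.sum_mem _ fun d hd => Ideal.mul_mem_left _ _ (Ideal.mem_map_of_mem _ (hg _ ?_))
    refine isHomogeneous_monomial _ ?_
    rw [Finsupp.degree_eq_weight_one]
    exact hF (mem_support_iff.1 hd)
  · intro K _ _ c hc
    funext l
    refine (Module.forall_dual_apply_eq_zero_iff k (c l)).1 fun φ => ?_
    have h1 := bas_mem φ hc
    rw [bas_fm] at h1
    have h2 := hsum fun l => φ (c l)
    rw [Ideal.Quotient.mkₐ_eq_mk, Ideal.Quotient.eq_zero_iff_mem.2 h1] at h2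
    have h3 : (∑ l, φ (c l) • b l : Q) = 0 := Subtype.ext h2.symm
    exact Fintype.linearIndependent_iff.1 b.linearIndependent _ h3 l

end Pool.Agent.MP_9207e0_ag.CC
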