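import Pool.Agent.MP_9207e0_ag.cc.Defs

/-! PROJECT CCC: places, specialisations, ranks, Chow forms. -/

noncomputable section

namespace Pool.Agent.MP_9207e0_ag.CC

open MvPolynomial
open scoped Classical

/-- An algebraically closed extension field of `k`. -/
structure Ext (k : Type) [Field k] : Type 1 where
  K : Type
  [f : Field K]
  [ac : IsAlgClosed K]
  [al : Algebra k K]

instance {k : Type} [Field k] (E : Ext k) : Field E.K := E.f
instance {k : Type} [Field k] (E : Ext k) : IsAlgClosed E.K := E.ac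
instance {k : Type} [Field k] (E : Ext k) : Algebra k E.K := E.al

/-- A place of `K` with values in `L`. -/
structure Plc (K L : Type) [Field K] [Field L] where
  V : ValuationSubring K
  φ : V →+* L
  ker : ∀ x : V, φ x = 0 ↔ V.valuation x < 1

variable {k K L M σ ι : Type} [Field k] [Field K] [Field L] [Field M]

namespace Plc

variable (P : Plc K L)

/-- The value of the place, `0` at infinity. -/
def fn (x : K) : L := if h : x ∈ P.V then P.φ ⟨x, h⟩ else 0

/-- The place is the identity on `k`. -/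
def Over (k : Type) [Field k] [Algebra k K] [Algebra k L] : Prop :=
  ∀ c : k, algebraMap k K c ∈ P.V ∧ P.fn (algebraMap k K c) = algebraMap k L c

theorem fn_coe (x : P.V) : P.fn x = P.φ x := dif_pos x.2

theorem fn_mem {x : K} (h : x ∈ P.V) : P.fn x = P.φ ⟨x, h⟩ := dif_pos h

theorem fn_zero : P.fn 0 = 0 := by rw [P.fn_mem P.V.zero_mem]; exact map_zero P.φ

theorem fn_one : P.fn 1 = 1 := by rw [P.fn_mem P.V.one_mem]; exact map_one P.φ

theorem fn_add {x y : K} (hx : x ∈ P.V) (hy : y ∈ P.V) : P.fn (x + y) = P.fn x + P.fn y := by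
  rw [P.fn_mem hx, P.fn_mem hy, P.fn_mem (P.V.add_mem _ _ hx hy), ← map_add]; rfl

theorem fn_mul {x y : K} (hx : x ∈ P.V) (hy : y ∈ P.V) : P.fn (x * y) = P.fn x * P.fn y := by
  rw [P.fn_mem hx, P.fn_mem hy, P.fn_mem (P.V.mul_mem _ _ hx hy), ← map_mul]; rfl

theorem fn_neg {x : K} (hx : x ∈ P.V) : P.fn (-x) = -P.fn x := by
  rw [P.fn_mem hx, P.fn_mem (P.V.neg_mem _ hx), ← map_neg]; rfl

theorem fn_sub {x y : K} (hx : x ∈ P.V) (hy : y ∈ P.V) : P.fn (x - y) = P.fn x - P.fn y := by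
  rw [sub_eq_add_neg, P.fn_add hx (P.V.neg_mem _ hy), P.fn_neg hy, sub_eq_add_neg]

theorem fn_pow {x : K} (hx : x ∈ P.V) (n : ℕ) : P.fn (x ^ n) = P.fn x ^ n := by
  rw [P.fn_mem hx, P.fn_mem (pow_mem hx n), ← map_pow]; rfl

theorem fn_sum {s : Finset ι} {x : ι → K} (hx : ∀ i ∈ s, x i ∈ P.V) :
    P.fn (∑ i ∈ s, x i) = ∑ i ∈ s, P.fn (x i) := by
  induction s using Finset.induction_on with
  | empty => simpa using P.fn_zero
  | insert a s ha ih =>
    rw [Finset.sum_insert ha, Finset.sum_insert ha, P.fn_add (hx a (Finset.mem_insert_self a s))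
      (sum_mem fun i hi => hx i (Finset.mem_insert_of_mem hi)),
      ih fun i hi => hx i (Finset.mem_insert_of_mem hi)]

theorem fn_eq_zero {x : K} (hx : x ∈ P.V) : P.fn x = 0 ↔ P.V.valuation x < 1 := by
  rw [P.fn_mem hx]; exact P.ker ⟨x, hx⟩

theorem mem_of_ne {x : K} (h : P.fn x ≠ 0) : x ∈ P.V := by
  by_contra hx
  exact h (dif_neg hx)

theorem val_eq_one {x : K} (h : P.fn x ≠ 0) : P.V.valuation x = 1 := by
  have hx := P.mem_of_ne h
  exact le_antisymm ((P.V.valuation_le_one_iff x).2 hx) (not_lt.1 fun h' => h ((P.fn_eq_zero hx).2 h'))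

theorem ne_zero_of_ne {x : K} (h : P.fn x ≠ 0) : x ≠ 0 := by
  rintro rfl
  exact h P.fn_zero

theorem inv_mem {x : K} (h : P.fn x ≠ 0) : x⁻¹ ∈ P.V := by
  rw [← P.V.valuation_le_one_iff, map_inv₀, P.val_eq_one h, inv_one]

theorem fn_inv {x : K} (h : P.fn x ≠ 0) : P.fn x⁻¹ = (P.fn x)⁻¹ := by
  have := P.fn_mul (P.mem_of_ne h) (P.inv_mem h)
  rw [mul_inv_cancel₀ (P.ne_zero_of_ne h), P.fn_one] at this
  exact eq_inv_of_mul_eq_one_right this.symm

theorem div_mem {x y : K} (hx : x ∈ P.V) (h : P.fn y ≠ 0) : x / y ∈ P.V := by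
  rw [div_eq_mul_inv]; exact P.V.mul_mem _ _ hx (P.inv_mem h)

theorem fn_div {x y : K} (hx : x ∈ P.V) (h : P.fn y ≠ 0) : P.fn (x / y) = P.fn x / P.fn y := by
  rw [div_eq_mul_inv, P.fn_mul hx (P.inv_mem h), P.fn_inv h, div_eq_mul_inv]

/-- An element with a pole has an inverse with a zero. -/
theorem inv_of_notMem {x : K} (h : x ∉ P.V) : x⁻¹ ∈ P.V ∧ P.fn x⁻¹ = 0 := by
  have h1 : x⁻¹ ∈ P.V := (P.V.mem_or_inv_mem x).resolve_left h
  refine ⟨h1, by_contra fun h2 => h ?_⟩
  simpa using P.inv_mem h2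

theorem notMem_inv {x : K} (h0 : x ≠ 0) (hx : x ∈ P.V) (h : P.fn x = 0) : x⁻¹ ∉ P.V := fun h1 => by
  have := P.fn_mul hx h1
  rw [mul_inv_cancel₀ h0, P.fn_one, h, zero_mul] at this
  exact one_ne_zero this

theorem aeval_fn [Algebra k K] [Algebra k L] (hP : P.Over k) {z : ι → K} (hz : ∀ i, z i ∈ P.V)
    (f : MvPolynomial ι k) :
    aeval z f ∈ P.V ∧ P.fn (aeval z f) = aeval (fun i => P.fn (z i)) f := by
  induction f using MvPolynomial.induction_on with
  | C c => simpa using hP c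
  | add f g hf hg =>
    rw [map_add, map_add]
    exact ⟨P.V.add_mem _ _ hf.1 hg.1, by rw [P.fn_add hf.1 hg.1, hf.2, hg.2]⟩
  | mul_X f i hf =>
    rw [map_mul, map_mul, aeval_X, aeval_X]
    exact ⟨P.V.mul_mem _ _ hf.1 (hz i), by rw [P.fn_mul hf.1 (hz i), hf.2]⟩

theorem eval_fn {z : ι → K} (hz : ∀ i, z i ∈ P.V) (f : MvPolynomial ι P.V) :
    eval z (map P.V.subtype f) ∈ P.V ∧
      P.fn (eval z (map P.V.subtype f)) = eval (fun i => P.fn (z i)) (map P.φ f) := by
  induction f using MvPolynomial.induction_on with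
  | C c => simpa using P.fn_coe c
  | add f g hf hg =>
    simp only [map_add]
    exact ⟨P.V.add_mem _ _ hf.1 hg.1, by rw [P.fn_add hf.1 hg.1, hf.2, hg.2]⟩
  | mul_X f i hf =>
    simp only [map_mul, map_X, eval_X]
    exact ⟨P.V.mul_mem _ _ hf.1 (hz i), by rw [P.fn_mul hf.1 (hz i), hf.2]⟩

theorem exists_max [Finite σ] (x : PP σ K) :
    ∃ a, x.rep a ≠ 0 ∧ ∀ b, x.rep b / x.rep a ∈ P.V := by
  obtain ⟨a₀, h₀⟩ := Function.ne_iff.1 x.rep_nonzero
  have : Nonempty σ := ⟨a₀⟩
  obtain ⟨a, ha⟩ := Finite.exists_max fun b => P.V.valuation (x.rep b)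
  have h1 : P.V.valuation (x.rep a) ≠ 0 := fun h => by
    have := ha a₀
    rw [h, le_zero_iff, map_eq_zero] at this
    exact h₀ this
  refine ⟨a, by simpa using h1, fun b => ?_⟩
  rw [← P.V.valuation_le_one_iff, map_div₀]
  exact div_le_one_of_le₀ (ha b) zero_le

/-- The reduction of a projective point at a place. -/
def red [Finite σ] (x : PP σ K) : PP σ L :=
  Projectivization.mk L (fun b => P.fn (x.rep b / x.rep (P.exists_max x).choose)) fun h => by
    have := congrFun h (P.exists_max x).choose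
    rw [div_self (P.exists_max x).choose_spec.1, P.fn_one] at this
    exact one_ne_zero this

theorem red_mk [Finite σ] {v : σ → K} (hv : ∀ b, v b ∈ P.V) (h0 : v ≠ 0)
    (h1 : (fun b => P.fn (v b)) ≠ 0) :
    P.red (Projectivization.mk K v h0) = Projectivization.mk L _ h1 := by
  set x := Projectivization.mk K v h0 with hx
  obtain ⟨c, hc⟩ := (Projectivization.mk_eq_mk_iff K _ _ x.rep_nonzero h0).1
    (x.mk_rep.trans hx)
  obtain ⟨ha, hb⟩ := (P.exists_max x).choose_spec
  set a := (P.exists_max x).choose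
  have hr : ∀ b, x.rep b / x.rep a = v b / v a := fun b => by
    rw [← hc]
    simp only [Pi.smul_apply, Units.smul_def, smul_eq_mul]
    rw [mul_div_mul_left _ _ c.ne_zero]
  have hva : v a ≠ 0 := fun h => ha (by rw [← hc]; simp [h])
  obtain ⟨b₀, hb₀⟩ := Function.ne_iff.1 h1
  have h2 : P.fn (v a) ≠ 0 := fun h => hb₀ (by
    have : v b₀ = v b₀ / v a * v a := (div_mul_cancel₀ _ hva).symm
    rw [this, P.fn_mul (hr b₀ ▸ hb b₀) (hv a), h, mul_zero]
    rfl)
  unfold red
  rw [Projectivization.mk_eq_mk_iff']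
  refine ⟨(P.fn (v a))⁻¹, funext fun b => ?_⟩
  rw [hr, P.fn_div (hv b) h2, Pi.smul_apply, smul_eq_mul, div_eq_inv_mul]

/-- A primitive vector for `x`. -/
theorem exists_prim [Finite σ] (x : PP σ K) : ∃ (v : σ → K) (h0 : v ≠ 0)
    (h1 : (fun b => P.fn (v b)) ≠ 0), (∀ b, v b ∈ P.V) ∧ Projectivization.mk K v h0 = x ∧
      P.red x = Projectivization.mk L _ h1 := by
  obtain ⟨a, ha, hb⟩ := P.exists_max x
  have h1 : (fun b => P.fn (x.rep b / x.rep a)) ≠ 0 := fun h => by
    have := congrFun h a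
    rw [div_self ha, P.fn_one] at this
    exact one_ne_zero this
  have h0 : (fun b => x.rep b / x.rep a) ≠ 0 := fun h => by
    have := congrFun h a
    rw [div_self ha] at this
    exact one_ne_zero this
  have e : Projectivization.mk K _ h0 = x := by
    conv_rhs => rw [← x.mk_rep]
    rw [Projectivization.mk_eq_mk_iff']
    exact ⟨(x.rep a)⁻¹, funext fun b => by rw [Pi.smul_apply, smul_eq_mul, div_eq_inv_mul]⟩
  exact ⟨_, h0, h1, hb, e, (congrArg P.red e).symm.trans (P.red_mk hb h0 h1)⟩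

end Plc

theorem rep_mk_div {v : σ → K} (h0 : v ≠ 0) (a b : σ) :
    (Projectivization.mk K v h0).rep b / (Projectivization.mk K v h0).rep a = v b / v a := by
  obtain ⟨c, hc⟩ := Projectivization.exists_smul_eq_mk_rep K v h0
  rw [← hc]
  simp only [Pi.smul_apply, Units.smul_def, smul_eq_mul]
  rw [mul_div_mul_left _ _ c.ne_zero]

theorem rep_mk_eq_zero {v : σ → K} (h0 : v ≠ 0) (a : σ) :
    (Projectivization.mk K v h0).rep a = 0 ↔ v a = 0 := by
  obtain ⟨c, hc⟩ := Projectivization.exists_smul_eq_mk_rep K v h0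
  rw [← hc]
  simp [Units.smul_def]

theorem mk_div (x : PP σ K) {a : σ} (ha : x.rep a ≠ 0) :
    ∃ h0 : (fun b => x.rep b / x.rep a) ≠ 0, Projectivization.mk K _ h0 = x := by
  have h0 : (fun b => x.rep b / x.rep a) ≠ 0 := fun h => by
    have := congrFun h a
    rw [div_self ha] at this
    exact one_ne_zero this
  refine ⟨h0, ?_⟩
  conv_rhs => rw [← x.mk_rep]
  rw [Projectivization.mk_eq_mk_iff']
  exact ⟨(x.rep a)⁻¹, funext fun b => by rw [Pi.smul_apply, smul_eq_mul, div_eq_inv_mul]⟩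

theorem pp_ext {x y : PP σ K} {a : σ} (hx : x.rep a ≠ 0) (hy : y.rep a ≠ 0)
    (h : ∀ b, x.rep b / x.rep a = y.rep b / y.rep a) : x = y := by
  obtain ⟨h1, e1⟩ := mk_div x hx
  obtain ⟨h2, e2⟩ := mk_div y hy
  rw [← e1, ← e2]
  congr 1
  exact funext h

/-- The reduction in a chart. -/
theorem Plc.ratio [Finite σ] (P : Plc K L) (x : PP σ K) {a : σ} (ha : (P.red x).rep a ≠ 0) :
    x.rep a ≠ 0 ∧ ∀ b, x.rep b / x.rep a ∈ P.V ∧
      P.fn (x.rep b / x.rep a) = (P.red x).rep b / (P.red x).rep a := by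
  obtain ⟨v, h0, h1, hv, rfl, e⟩ := P.exists_prim x
  rw [e] at ha ⊢
  have h2 : P.fn (v a) ≠ 0 := fun h => ha ((rep_mk_eq_zero h1 a).2 h)
  refine ⟨fun h => P.ne_zero_of_ne h2 ((rep_mk_eq_zero h0 a).1 h), fun b => ?_⟩
  rw [rep_mk_div, rep_mk_div]
  exact ⟨P.div_mem (hv b) h2, P.fn_div (hv b) h2⟩

theorem Plc.red_eq [Finite σ] (P : Plc K L) {x : PP σ K} {y : PP σ L} {a : σ} (hx : x.rep a ≠ 0)
    (hy : y.rep a ≠ 0) (h : ∀ b, x.rep b / x.rep a ∈ P.V ∧
      P.fn (x.rep b / x.rep a) = y.rep b / y.rep a) : P.red x = y := by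
  obtain ⟨h0, e⟩ := mk_div x hx
  obtain ⟨h1, e'⟩ := mk_div y hy
  have h2 : (fun b => P.fn (x.rep b / x.rep a)) = fun b => y.rep b / y.rep a :=
    funext fun b => (h b).2
  refine (congrArg P.red e).symm.trans
    ((P.red_mk (fun b => (h b).1) h0 (h2 ▸ h1)).trans (Eq.trans ?_ e'))
  congr 1

theorem pmap_ne (f : K →+* L) (x : PP σ K) (a : σ) : (pmap f x).rep a = 0 ↔ x.rep a = 0 := by
  unfold pmap
  rw [rep_mk_eq_zero, map_eq_zero]

theorem pmap_div (f : K →+* L) (x : PP σ K) (a b : σ) :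
    (pmap f x).rep b / (pmap f x).rep a = f (x.rep b / x.rep a) := by
  unfold pmap
  rw [rep_mk_div, map_div₀]

theorem pmap_mk (f : K →+* L) {v : σ → K} (h0 : v ≠ 0) (h1 : (fun b => f (v b)) ≠ 0) :
    pmap f (Projectivization.mk K v h0) = Projectivization.mk L _ h1 := by
  obtain ⟨a, ha⟩ := Function.ne_iff.1 h0
  refine pp_ext (a := a) ?_ ?_ fun b => ?_
  · rw [Ne, pmap_ne, rep_mk_eq_zero]; exact ha
  · rw [Ne, rep_mk_eq_zero, map_eq_zero]; exact ha
  · rw [pmap_div, rep_mk_div, rep_mk_div, map_div₀]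

theorem pmap_pmap (f : K →+* L) (g : L →+* M) (x : PP σ K) :
    pmap g (pmap f x) = pmap (g.comp f) x := by
  obtain ⟨a, ha⟩ := Function.ne_iff.1 x.rep_nonzero
  refine pp_ext (a := a) ?_ ?_ fun b => ?_
  · rw [Ne, pmap_ne, pmap_ne]; exact ha
  · rw [Ne, pmap_ne]; exact ha
  · rw [pmap_div, pmap_div, pmap_div]; rfl

theorem pmap_id (x : PP σ K) : pmap (RingHom.id K) x = x := x.mk_rep

theorem pmap_injective (f : K →+* L) : Function.Injective (pmap f : PP σ K → PP σ L) := by
  intro x y h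
  obtain ⟨a, ha⟩ := Function.ne_iff.1 x.rep_nonzero
  refine pp_ext (a := a) ha ?_ fun b => f.injective ?_
  · rw [Ne, ← pmap_ne f, ← h, pmap_ne]; exact ha
  · rw [← pmap_div, ← pmap_div, h]

/-- A place that agrees with `g` on the image of `f`. -/
theorem Plc.red_pmap [Finite σ] (P : Plc K L) (f : M →+* K) (g : M →+* L)
    (h : ∀ c, f c ∈ P.V ∧ P.fn (f c) = g c) (x : PP σ M) : P.red (pmap f x) = pmap g x := by
  obtain ⟨a, ha⟩ := Function.ne_iff.1 x.rep_nonzero
  refine P.red_eq (a := a) ?_ ?_ fun b => ?_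
  · rw [Ne, pmap_ne]; exact ha
  · rw [Ne, pmap_ne]; exact ha
  · rw [pmap_div, pmap_div]; exact h _

/-- A homomorphism of fields as a place. -/
def Plc.ofHom (f : K →+* L) : Plc K L where
  V := ⊤
  φ := f.comp (⊤ : ValuationSubring K).subtype
  ker := fun x => by
    rw [← ValuationSubring.valuation_lt_one_iff, IsLocalRing.mem_maximalIdeal, mem_nonunits_iff,
      RingHom.comp_apply, map_eq_zero]
    refine ⟨fun h hu => hu.ne_zero (Subtype.ext h), fun h => by_contra fun h0 => h ?_⟩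
    exact IsUnit.of_mul_eq_one ⟨(x : K)⁻¹, trivial⟩ (Subtype.ext (mul_inv_cancel₀ h0))

theorem Plc.ofHom_mem (f : K →+* L) (x : K) : x ∈ (Plc.ofHom f).V := trivial

theorem Plc.ofHom_fn (f : K →+* L) (x : K) : (Plc.ofHom f).fn x = f x :=
  (Plc.ofHom f).fn_mem (Plc.ofHom_mem f x)

theorem Plc.ofHom_red [Finite σ] (f : K →+* L) (x : PP σ K) : (Plc.ofHom f).red x = pmap f x := by
  have := (Plc.ofHom f).red_pmap (RingHom.id K) f
    (fun c => ⟨Plc.ofHom_mem f _, Plc.ofHom_fn f _⟩) x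
  rwa [pmap_id] at this

section Defs

variable [Algebra k K] [Algebra k L]

/-- Base change of a point. -/
abbrev bc (K : Type) [Field K] [Algebra k K] (x : PP σ k) : PP σ K := pmap (algebraMap k K) x

theorem Plc.red_bc [Finite σ] {P : Plc K L} (h : P.Over k) (x : PP σ k) :
    P.red (bc K x) = bc L x := P.red_pmap _ _ h x

theorem bc_self (x : PP σ k) : bc k x = x := pmap_id x

/-- Homogeneous ideals. -/
def Hg (I : Ideal (MvPolynomial σ k)) : Prop := ∀ f ∈ I, ∀ j, homogeneousComponent j f ∈ I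

/-- The point lies on the zero set of `I`. -/
def On (I : Ideal (MvPolynomial σ k)) (x : PP σ K) : Prop := OnX I x.rep

theorem aeval_smul_homog {f : MvPolynomial σ k} {n : ℕ} (hf : f.IsHomogeneous n) (c : K)
    (v : σ → K) : aeval (c • v) f = c ^ n * aeval v f := by
  rw [aeval_def, aeval_def, eval₂_eq, eval₂_eq, Finset.mul_sum]
  refine Finset.sum_congr rfl fun d hd => ?_
  have : n = ∑ i ∈ d.support, d i := by
    rw [← hf (mem_support_iff.1 hd), Finsupp.weight_apply]
    simp [Finsupp.sum]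
  simp only [Pi.smul_apply, smul_eq_mul, mul_pow, Finset.prod_mul_distrib,
    Finset.prod_pow_eq_pow_sum, this]
  ring

theorem OnX.smul {I : Ideal (MvPolynomial σ k)} (hI : Hg I) {v : σ → K} (h : OnX I v) (c : K) :
    OnX I (c • v) := fun f hf => by
  rw [← sum_homogeneousComponent f, map_sum]
  refine Finset.sum_eq_zero fun j _ => ?_
  rw [aeval_smul_homog (homogeneousComponent_isHomogeneous j f), h _ (hI f hf j), mul_zero]

theorem on_mk {I : Ideal (MvPolynomial σ k)} (hI : Hg I) {v : σ → K} (h0 : v ≠ 0) :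
    On I (Projectivization.mk K v h0) ↔ OnX I v := by
  obtain ⟨c, hc⟩ := Projectivization.exists_smul_eq_mk_rep K v h0
  unfold On
  rw [← hc]
  refine ⟨fun h => ?_, fun h => h.smul hI c⟩
  have := h.smul hI ((c⁻¹ : Kˣ) : K)
  rwa [Units.smul_def, smul_smul, Units.inv_mul, one_smul] at this

theorem aeval_mk_eq_zero {f : MvPolynomial σ k} {n : ℕ} (hf : f.IsHomogeneous n) {v : σ → K}
    (h0 : v ≠ 0) : aeval (Projectivization.mk K v h0).rep f = 0 ↔ aeval v f = 0 := by
  obtain ⟨c, hc⟩ := Projectivization.exists_smul_eq_mk_rep K v h0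
  rw [← hc, Units.smul_def, aeval_smul_homog hf]
  simp

theorem Plc.aeval_red [Finite σ] {P : Plc K L} (hP : P.Over k) {f : MvPolynomial σ k} {n : ℕ}
    (hf : f.IsHomogeneous n) {x : PP σ K} (h : aeval x.rep f = 0) :
    aeval (P.red x).rep f = 0 := by
  obtain ⟨v, h0, h1, hv, rfl, e⟩ := P.exists_prim x
  rw [aeval_mk_eq_zero hf] at h
  rw [e, aeval_mk_eq_zero hf, ← (P.aeval_fn hP hv f).2, h, P.fn_zero]

theorem On.red [Finite σ] {I : Ideal (MvPolynomial σ k)} (hI : Hg I) {P : Plc K L}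
    (hP : P.Over k) {x : PP σ K} (h : On I x) : On I (P.red x) := by
  obtain ⟨v, h0, h1, hv, rfl, e⟩ := P.exists_prim x
  rw [on_mk hI] at h
  rw [e, on_mk hI]
  intro f hf
  rw [← (P.aeval_fn hP hv f).2, h f hf, P.fn_zero]

theorem Plc.ofHom_over (f : K →ₐ[k] L) : (Plc.ofHom (f : K →+* L)).Over k :=
  fun c => ⟨Plc.ofHom_mem _ _, by rw [Plc.ofHom_fn]; exact f.commutes c⟩

theorem On.pmap [Finite σ] {I : Ideal (MvPolynomial σ k)} (hI : Hg I) (f : K →ₐ[k] L)
    {x : PP σ K} (h : On I x) : On I (pmap (f : K →+* L) x) :=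
  Plc.ofHom_red (f : K →+* L) x ▸ h.red hI (Plc.ofHom_over f)

theorem On.bc [Finite σ] {I : Ideal (MvPolynomial σ k)} (hI : Hg I) {x : PP σ k} (h : On I x) :
    On I (bc K x) := h.pmap hI (Algebra.ofId k K)

/-- Specialisation of tuples of projective points. -/
def Sp (k : Type) [Field k] [Algebra k K] [Algebra k L] [Finite σ] (w : ι → PP σ K)
    (p : ι → PP σ L) : Prop :=
  ∃ P : Plc K L, P.Over k ∧ ∀ i, P.red (w i) = p i

/-- Specialisation of one projective point. -/
def Sp1 (k : Type) [Field k] [Algebra k K] [Algebra k L] [Finite σ] (x : PP σ K) (y : PP σ L) :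
    Prop := ∃ P : Plc K L, P.Over k ∧ P.red x = y

/-- Specialisation of affine points. -/
def ASp (k : Type) [Field k] [Algebra k K] [Algebra k L] (z : ι → K) (p : ι → L) : Prop :=
  ∀ f : MvPolynomial ι k, aeval z f = 0 → aeval p f = 0

theorem ASp.of_plc {P : Plc K L} (hP : P.Over k) {z : ι → K} (hz : ∀ i, z i ∈ P.V) :
    ASp k z fun i => P.fn (z i) := fun f hf => by
  rw [← (P.aeval_fn hP hz f).2, hf, P.fn_zero]

theorem ASp.trans [Algebra k M] {z : ι → K} {p : ι → L} {q : ι → M} (h : ASp k z p)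
    (h' : ASp k p q) : ASp k z q := fun f hf => h' f (h f hf)

/-- The affine coordinates of a tuple in the chart `a`. -/
def nv (w : ι → PP σ K) (a : ι → σ) : ι × σ → K :=
  fun u => (w u.1).rep u.2 / (w u.1).rep (a u.1)

/-- The ratios of the coordinates of one point. -/
def rat1 (x : PP σ K) : Set K := {t | ∃ a b, t = x.rep a / x.rep b}

/-- The ratios of the coordinates of a tuple. -/
def rat (w : ι → PP σ K) : Set K := {t | ∃ i a b, t = (w i).rep a / (w i).rep b}

/-- The transcendence degree of the field generated by `S`. -/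
def rk (k : Type) [Field k] [Algebra k K] (S : Set K) : ℕ∞ :=
  (AlgebraicIndependent.matroid k K).eRk S

/-- The elements that are algebraic over the field generated by `S`. -/
def cl (k : Type) [Field k] [Algebra k K] (S : Set K) : Set K :=
  (AlgebraicIndependent.matroid k K).closure S

/-- The derivative of `F` at `v` in the direction `δ`. -/
def dv [Fintype σ] (F : MvPolynomial σ K) (v δ : σ → K) : K := ∑ j, eval v (pderiv j F) * δ j

/-- The tangent space of the cone. -/
def tang [Fintype σ] (I : Ideal (MvPolynomial σ k)) (v : σ → K) : Submodule K (σ → K) where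
  carrier := {δ | ∀ f ∈ I, dv (map (algebraMap k K) f) v δ = 0}
  add_mem' := fun {a b} ha hb f hf => by
    have := ha f hf
    have := hb f hf
    simp only [dv, Pi.add_apply, mul_add, Finset.sum_add_distrib] at *
    simp [*]
  zero_mem' := fun f _ => by simp [dv]
  smul_mem' := fun c a ha f hf => by
    have := ha f hf
    simp only [dv, Pi.smul_apply, smul_eq_mul] at *
    simp only [mul_left_comm _ c, ← Finset.mul_sum, this, mul_zero]

/-- The forms `F`, `G` are transversal at `x`. -/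
def Trans [Fintype σ] (I : Ideal (MvPolynomial σ k)) (x : PP σ K) (F G : MvPolynomial σ K) :
    Prop := ∀ δ ∈ tang I x.rep, dv F x.rep δ = 0 → dv G x.rep δ = 0 → δ ∈ K ∙ x.rep

/-- The extension of `I` to `K`. -/
def IK (K : Type) [Field K] [Algebra k K] (I : Ideal (MvPolynomial σ k)) :
    Ideal (MvPolynomial σ K) := I.map (map (algebraMap k K))

/-- The form with the coefficients `c` in the basis `β`. -/
def fm {h : ℕ} (β : Fin h → MvPolynomial σ k) (c : Fin h → K) : MvPolynomial σ K :=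
  ∑ l, C (c l) * map (algebraMap k K) (β l)

/-- The linear form of a point. -/
def lin [Fintype σ] (v : σ → K) : MvPolynomial σ K := ∑ j, C (v j) * X j

/-- The Chow form of an effective cycle. -/
def chow [Fintype σ] (A : Multiset (PP σ K)) : MvPolynomial σ K :=
  (A.map fun x => lin x.rep).prod

/-- The effective cycle lies on the zero set of `I`. -/
def OnM (I : Ideal (MvPolynomial σ k)) (A : Multiset (PP σ K)) : Prop := ∀ x ∈ A, On I x

/-- The cycle of a tuple. -/
def ms [Fintype ι] (w : ι → PP σ K) : Multiset (PP σ K) := Finset.univ.val.map w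

/-- The cycle of a multiset. -/
def cyc (A : Multiset (PP σ K)) : PP σ K →₀ ℤ := (A.map fun x => Finsupp.single x (1 : ℤ)).sum

end Defs

/-- The algebraic closure of `K(t)`. -/
abbrev LL (K : Type) [Field K] : Type := AlgebraicClosure (RatFunc K)

/-- The variable. -/
def tt (K : Type) [Field K] : LL K := algebraMap (RatFunc K) (LL K) RatFunc.X

section Step

variable [Algebra k K] [Fintype σ]

/-- The generic member of a family of forms. -/
def gen (Φ : Polynomial (MvPolynomial σ K)) : MvPolynomial σ (LL K) :=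
  Φ.eval₂ (map (algebraMap K (LL K))) (C (tt K))

/-- `A` and `B` are the fibres over `0` and `∞` of a family of cycles on the projective line. -/
def Step (I : Ideal (MvPolynomial σ k)) (A B : Multiset (PP σ K)) : Prop :=
  OnM I A ∧ OnM I B ∧ ∃ (Φ : Polynomial (MvPolynomial σ K)) (c₀ c₁ : K) (c : LL K)
    (M : Multiset (PP σ (LL K))), c₀ ≠ 0 ∧ c₁ ≠ 0 ∧ Φ.coeff 0 = C c₀ * chow A ∧
      Φ.leadingCoeff = C c₁ * chow B ∧ OnM I M ∧ gen Φ = C c * chow M

/-- Rational equivalence of effective cycles, by families. -/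
def RatP (I : Ideal (MvPolynomial σ k)) (A B : Multiset (PP σ K)) : Prop :=
  ∃ D, OnM I D ∧ Relation.EqvGen (Step I) (A + D) (B + D)

/-- The cycle is defined over `K(t)`. -/
def Gal (M : Multiset (PP σ (LL K))) : Prop :=
  ∀ τ : LL K ≃ₐ[RatFunc K] LL K, M.map (pmap (τ : LL K →+* LL K)) = M

/-- `O` is the orbit of `x`. -/
def Orb (x : PP σ (LL K)) (O : Finset (PP σ (LL K))) : Prop :=
  ∀ y, y ∈ O ↔ ∃ τ : LL K ≃ₐ[RatFunc K] LL K, pmap (τ : LL K →+* LL K) x = y

/-- A place over `K` at which `u` vanishes. -/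
def Zr (P : Plc (LL K) K) (u : LL K) : Prop := P.Over K ∧ u ∈ P.V ∧ P.fn u = 0

end Step

end Pool.Agent.MP_9207e0_ag.CC
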