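import Pool.Agent.MP_9207e0_ag.Defs

/-! Projective models of K3 surfaces, zero-cycles and rational equivalence. -/

noncomputable section

namespace Pool.Agent.MP_9207e0_ag.CC

open MvPolynomial

/-- The points of projective space with coordinates indexed by `σ`. -/
abbrev PP (σ K : Type) [Field K] : Type := Projectivization K (σ → K)

variable {k σ : Type} [Field k]

/-- The vector `v` is a zero of the ideal `I`. -/
def OnX (I : Ideal (MvPolynomial σ k)) {K : Type} [Field K] [Algebra k K] (v : σ → K) : Prop :=
  ∀ f ∈ I, aeval v f = 0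

/-- The Hilbert function of the quotient by `J`. -/
def hf (J : Ideal (MvPolynomial σ k)) (j : ℕ) : ℕ :=
  Module.finrank k ((homogeneousSubmodule σ k j).map (Ideal.Quotient.mkₐ k J).toLinearMap)

/-- `I` is the ideal of a smooth irreducible surface in `ℙ^(r+2)` with Hilbert function
`a j^2 + 2`, and `x₀, x₁, x₂` is a regular sequence of its coordinate ring. -/
structure IsK3Model {r : ℕ} (I : Ideal (MvPolynomial (Fin (r + 3)) k)) (a : ℕ) : Prop where
  prime : I.IsPrime
  homog : ∀ f ∈ I, ∀ j, homogeneousComponent j f ∈ I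
  smooth : ∀ v : Fin (r + 3) → k, v ≠ 0 → OnX I v →
    ∃ G : Fin r → MvPolynomial (Fin (r + 3)) k, (∀ l, G l ∈ I) ∧
      LinearIndependent k fun l j => eval v (pderiv j (G l))
  hilb : ∀ j, 1 ≤ j → hf I j = a * j ^ 2 + 2
  reg0 : X 0 ∉ I
  reg1 : ∀ f, X 1 * f ∈ I ⊔ Ideal.span {X 0} → f ∈ I ⊔ Ideal.span {X 0}
  reg2 : ∀ f, X 2 * f ∈ I ⊔ Ideal.span {X 0, X 1} → f ∈ I ⊔ Ideal.span {X 0, X 1}

/-- The image of a point under a homomorphism of fields. -/
def pmap {K L : Type} [Field K] [Field L] (f : K →+* L) (x : PP σ K) : PP σ L :=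
  Projectivization.mk L (fun j => f (x.rep j)) fun h =>
    x.rep_nonzero (funext fun j => f.injective ((congrFun h j).trans (map_zero f).symm))

/-- The point `x` is the value at the place `V` of the point with coordinates `ξ`. -/
def IsCentre {K F : Type} [Field K] [Field F] [Algebra K F] (ξ : σ → F) (V : ValuationSubring F)
    (x : PP σ K) : Prop :=
  ∃ c : F, ∀ j, V.valuation (c * ξ j - algebraMap K F (x.rep j)) < 1

/-- The cycles `f_* div h` on the zero set `X` of `I` over `K`: `f : C → X` is a morphism from a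
smooth projective curve (given by its function field `F`, the coordinates `ξ` of `f` and its
values `c V` at the places) and `h` is a nonzero rational function on `C`. -/
def Principal (I : Ideal (MvPolynomial σ k)) (K : Type) [Field K] [Algebra k K]
    (D : PP σ K →₀ ℤ) : Prop :=
  ∃ (F : Type) (_ : Field F) (_ : Algebra K F) (_ : Algebra k F) (_ : IsScalarTower k K F),
    IsCurveFieldOver K F ∧ ∃ (ξ : σ → F) (h : F) (c : ValuationSubring F → PP σ K),
      ξ ≠ 0 ∧ OnX I ξ ∧ h ≠ 0 ∧ (∀ V, IsPlaceOver K V → IsCentre ξ V (c V)) ∧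
      D = ∑ᶠ V ∈ {V : ValuationSubring F | IsPlaceOver K V}, Finsupp.single (c V) (ordAt V h)

/-- Rational equivalence of zero-cycles on the zero set of `I` over `K`. -/
def RatEq (I : Ideal (MvPolynomial σ k)) (K : Type) [Field K] [Algebra k K]
    (D D' : PP σ K →₀ ℤ) : Prop :=
  D - D' ∈ AddSubgroup.closure {E | Principal I K E}

/-- `p` lies in the Zariski closure over `k` of the point `ξ` of a power of projective space. -/
def InLocus (k : Type) [Field k] {ε K L : Type} [Field K] [Algebra k K] [Field L] [Algebra k L]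
    (ξ : ε → PP σ K) (p : ε → PP σ L) : Prop :=
  ∀ f : MvPolynomial (ε × σ) k,
    (∀ c : ε → K, aeval (fun u : ε × σ => c u.1 * (ξ u.1).rep u.2) f = 0) →
      aeval (fun u : ε × σ => (p u.1).rep u.2) f = 0

/-- `x` lies in the closure over `k` of a point `ξ` with `n` algebraically independent ratios of
coordinates (an irreducible variety of dimension at least `n`), and all points of this closure
over all algebraically closed fields have the property `Q`. -/
def OnLocus {ε : Type} (x : ε → PP σ k) (n : ℕ)
    (Q : ∀ (L : Type) [Field L] [Algebra k L], (ε → PP σ L) → Prop) : Prop :=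
  ∃ (K : Type) (_ : Field K) (_ : Algebra k K) (ξ : ε → PP σ K), InLocus k ξ x ∧
    (∃ (i : Fin n → ε) (a b : Fin n → σ),
      AlgebraicIndependent k fun l => (ξ (i l)).rep (a l) / (ξ (i l)).rep (b l)) ∧
    ∀ (L : Type) [Field L] [IsAlgClosed L] [Algebra k L] (p : ε → PP σ L), InLocus k ξ p → Q L p

end Pool.Agent.MP_9207e0_ag.CC
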