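import Pool.Agent.MP_9207e0_ag.cc.Defs

/-! Hypersurface sections of constant class, and flecnodes. -/

noncomputable section

namespace Pool.Agent.MP_9207e0_ag.CC

open MvPolynomial

variable {k σ : Type} [Field k]

/-- `y` lies on a hypersurface section `s = 0` of the zero set of `I` such that `N p` is
rationally equivalent to `N y` for all its points `p` over all algebraically closed fields. -/
def ConstSection (I : Ideal (MvPolynomial σ k)) (N : ℕ) (y : PP σ k) : Prop :=
  ∃ (s : MvPolynomial σ k) (δ : ℕ), 0 < δ ∧ s.IsHomogeneous δ ∧ aeval y.rep s = 0 ∧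
    ∀ (K : Type) [Field K] [IsAlgClosed K] [Algebra k K] (p : PP σ K), OnX I p.rep →
      aeval p.rep s = 0 →
        RatEq I K (Finsupp.single p (N : ℤ)) (Finsupp.single (pmap (algebraMap k K) y) (N : ℤ))

/-- Some line through `y` has contact of order at least four with the zero set of `I` at `y`. -/
def IsFlex (I : Ideal (MvPolynomial σ k)) {K : Type} [Field K] [Algebra k K] (y : PP σ K) :
    Prop :=
  ∃ q : σ → K, q ∉ Submodule.span K {y.rep} ∧ ∀ f ∈ I, (Polynomial.X : Polynomial K) ^ 4 ∣
    aeval (fun j => Polynomial.C (y.rep j) + Polynomial.X * Polynomial.C (q j)) f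

end Pool.Agent.MP_9207e0_ag.CC
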