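import Pool.Agent.MP_9207e0_ag.cc.Spec2

/-! PROJECT CCC, row FRAME: linear algebra of the tangent frames of a quartic surface. -/

noncomputable section

namespace Pool.Agent.MP_9207e0_ag.CC

open MvPolynomial
open scoped Classical

namespace FrameA

variable {K : Type} [Field K]

/-- The determinant of four vectors. -/
def dd (u v w x : Fin 4 → K) : K := Matrix.det (Matrix.of ![u, v, w, x])

theorem dd_eq (u v w x : Fin 4 → K) : dd u v w x =
    (u 0 * v 1 - u 1 * v 0) * (w 2 * x 3 - w 3 * x 2) -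
    (u 0 * v 2 - u 2 * v 0) * (w 1 * x 3 - w 3 * x 1) +
    (u 0 * v 3 - u 3 * v 0) * (w 1 * x 2 - w 2 * x 1) +
    (u 1 * v 2 - u 2 * v 1) * (w 0 * x 3 - w 3 * x 0) -
    (u 1 * v 3 - u 3 * v 1) * (w 0 * x 2 - w 2 * x 0) +
    (u 2 * v 3 - u 3 * v 2) * (w 0 * x 1 - w 1 * x 0) := by
  simp [dd, Matrix.det_succ_row_zero, Fin.sum_univ_succ, Fin.succAbove]
  ring

/-- The tangent vector. -/
def tv (g : Fin 4 → K) (b i : Fin 4) : Fin 4 → K := g b • Pi.single i 1 - g i • Pi.single b 1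

theorem dot_tv (g : Fin 4 → K) (b i : Fin 4) : g ⬝ᵥ tv g b i = 0 := by
  simp [tv, mul_comm]

theorem dd_comb (p u v n : Fin 4 → K) (x y z x' y' z' : K) :
    dd p (x • u + y • v + z • p) (x' • u + y' • v + z' • p) n = (x * y' - y * x') * dd p u v n := by
  simp only [dd_eq, Pi.add_apply, Pi.smul_apply, smul_eq_mul]
  ring

theorem dd_last (p u v n : Fin 4 → K) (x y z w : K) :
    dd p u v (x • u + y • v + z • p + w • n) = w * dd p u v n := by
  simp only [dd_eq, Pi.add_apply, Pi.smul_apply, smul_eq_mul]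
  ring

theorem dd_tv (g p : Fin 4 → K) (b i j : Fin 4) : dd p (tv g b i) (tv g b j) (Pi.single b 1) =
    g b * (g b * dd p (Pi.single i 1) (Pi.single j 1) (Pi.single b 1)) := by
  simp only [dd_eq, tv, Pi.sub_apply, Pi.smul_apply, smul_eq_mul]
  ring

theorem vm (p u v n : Fin 4 → K) (c : Fin 4 → K) :
    Matrix.vecMul c (Matrix.of ![p, u, v, n]) = c 1 • u + c 2 • v + c 0 • p + c 3 • n := by
  ext l
  simp [Matrix.vecMul, dotProduct, Fin.sum_univ_four]
  ring

theorem span {p u v n : Fin 4 → K} (h : dd p u v n ≠ 0) (q : Fin 4 → K) :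
    ∃ x y z w : K, q = x • u + y • v + z • p + w • n := by
  refine ⟨_, _, _, _, Eq.trans ?_ (vm p u v n (Matrix.vecMul q (Matrix.of ![p, u, v, n])⁻¹))⟩
  rw [Matrix.vecMul_vecMul, Matrix.nonsing_inv_mul _ (Ne.isUnit h), Matrix.vecMul_one]

theorem ex {p : Fin 4 → K} {a b : Fin 4} (hab : a ≠ b) (h : p a ≠ 0) :
    ∃ i j, dd p (Pi.single i 1) (Pi.single j 1) (Pi.single b 1) ≠ 0 := by
  fin_cases a <;> fin_cases b <;> first
    | exact absurd rfl hab
    | exact ⟨2, 3, by simpa [dd_eq] using h⟩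
    | exact ⟨1, 3, by simpa [dd_eq] using h⟩
    | exact ⟨1, 2, by simpa [dd_eq] using h⟩
    | exact ⟨0, 3, by simpa [dd_eq] using h⟩
    | exact ⟨0, 2, by simpa [dd_eq] using h⟩
    | exact ⟨0, 1, by simpa [dd_eq] using h⟩

theorem alg (g p : Fin 4 → K) (h : g ⬝ᵥ p = 0) :
    (p ≠ 0 → (∃ b, g b ≠ 0) →
      ∃ b i j, g b * dd p (Pi.single i 1) (Pi.single j 1) (Pi.single b 1) ≠ 0) ∧
    ∀ b i j, g b * dd p (Pi.single i 1) (Pi.single j 1) (Pi.single b 1) ≠ 0 →
      (∀ x y z : K, x • tv g b i + y • tv g b j + z • p = 0 → x = 0 ∧ y = 0) ∧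
      (∀ q, g ⬝ᵥ q = 0 → ∃ x y z : K, q = x • tv g b i + y • tv g b j + z • p) ∧
      ∀ (b' i' j' : Fin 4) (x y z x' y' z' : K), g b' ≠ 0 →
        tv g b' i' = x • tv g b i + y • tv g b j + z • p →
        tv g b' j' = x' • tv g b i + y' • tv g b j + z' • p →
        g b' * dd p (Pi.single i' 1) (Pi.single j' 1) (Pi.single b' 1) =
          (x * y' - y * x') * (g b * dd p (Pi.single i 1) (Pi.single j 1) (Pi.single b 1)) := by
  refine ⟨fun hp ⟨b, hb⟩ => ?_, fun b i j hv => ?_⟩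
  · obtain ⟨a, hab, ha⟩ : ∃ a, a ≠ b ∧ p a ≠ 0 := by
      by_contra! hc
      have e : g ⬝ᵥ p = g b * p b :=
        Finset.sum_eq_single b (fun a _ ha => by rw [hc a ha, mul_zero]) (by simp)
      refine hp (funext fun a => ?_)
      by_cases ha : a = b
      · exact ha ▸ (mul_eq_zero.1 (e ▸ h)).resolve_left hb
      · exact hc a ha
    obtain ⟨i, j, e⟩ := ex hab ha
    exact ⟨b, i, j, mul_ne_zero hb e⟩
  have hb := left_ne_zero_of_mul hv
  have hd : dd p (tv g b i) (tv g b j) (Pi.single b 1) ≠ 0 := dd_tv g p b i j ▸ mul_ne_zero hb hv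
  have dot : ∀ x y z w : K,
      g ⬝ᵥ (x • tv g b i + y • tv g b j + z • p + w • Pi.single b 1) = w * g b := by
    intro x y z w
    simp [dot_tv, h]
  refine ⟨fun x y z e => ?_, fun q hq => ?_, fun b' i' j' x y z x' y' z' hb' e1 e2 => ?_⟩
  · have e1 := dd_comb p (tv g b i) (tv g b j) (Pi.single b 1) x y z 0 1 0
    have e2 := dd_comb p (tv g b i) (tv g b j) (Pi.single b 1) x y z 1 0 0
    rw [e, dd_eq] at e1 e2
    simp only [Pi.zero_apply, mul_zero, sub_zero, zero_mul, add_zero, mul_one, zero_sub] at e1 e2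
    exact ⟨(mul_eq_zero.1 e1.symm).resolve_right hd,
      neg_eq_zero.1 ((mul_eq_zero.1 e2.symm).resolve_right hd)⟩
  · obtain ⟨x, y, z, w, rfl⟩ := span hd q
    rw [dot] at hq
    exact ⟨x, y, z, by rw [(mul_eq_zero.1 hq).resolve_right hb, zero_smul, add_zero]⟩
  · obtain ⟨a, c, d, w, e⟩ := span hd (Pi.single b' 1)
    have e3 : g b' = w * g b := by rw [← dot a c d w, ← e]; simp
    have e4 := dd_tv g p b' i' j'
    rw [e1, e2, dd_comb] at e4
    have e5 := dd_last p (tv g b i) (tv g b j) (Pi.single b 1) a c d w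
    rw [← e, dd_tv] at e5
    refine mul_left_cancel₀ hb' ?_
    rw [← e4, e5, e3]
    ring

end FrameA

open FrameA in
theorem frameS : FrameStmt := by
  intro k K _ _ _ F p hF h0
  have e1 : ∀ δ, dv (map (algebraMap k K) F) p δ = (fun l => aeval p (pderiv l F)) ⬝ᵥ δ :=
    fun δ => Finset.sum_congr rfl fun l _ => by rw [pderiv_map, eval_map]; rfl
  have e2 : ∀ b i, (fun l => aeval p (fr F b i l)) = tv (fun l => aeval p (pderiv l F)) b i :=
    fun b i => funext fun l => by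
      simp only [fr, tv, map_sub, apply_ite (aeval p), map_zero, Pi.sub_apply, Pi.smul_apply,
        Pi.single_apply, smul_eq_mul, mul_ite, mul_one, mul_zero]
  have e3 : ∀ b i j, aeval p (vol F b i j) = aeval p (pderiv b F) *
      dd p (Pi.single i 1) (Pi.single j 1) (Pi.single b 1) := fun b i j => by
    rw [vol, map_mul, AlgHom.map_det, dd]
    congr 2
    ext r l
    fin_cases r <;> simp [Pi.single_apply, apply_ite (aeval p)]
  have e4 : (fun l => aeval p (pderiv l F)) ⬝ᵥ p = 0 := by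
    have := congrArg (aeval p) hF.sum_X_mul_pderiv
    simpa [h0, dotProduct, mul_comm] using this
  simp only [e1, e2, e3]
  exact ⟨fun b i => dot_tv _ b i, alg _ p e4⟩

end Pool.Agent.MP_9207e0_ag.CC
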