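import Pool.Agent.MP_9207e0_ag.cc.Rk

/-! PROJECT CCC: the induction on the number of auxiliary points. -/

noncomputable section

namespace Pool.Agent.MP_9207e0_ag.CC

open MvPolynomial
open scoped Classical

theorem indS (hI : IntStmt) (hP : PushStmt) (hR : RedStmt) (hG : GdStmt) : IndStmt := by
  intro k ε ι _ _ _ _ r a I hK s δ y ν α γ x m hC T
  have hH : Hg I := hK.homog
  obtain ⟨g1, -, g3, -, -⟩ := hG k _ I hH
  induction T using Finset.strongInduction with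
  | H T ih =>
  intro E₁ E₂ w₁ w₂ p G₁ G₂ S₁ S₂ hf hr
  obtain ⟨E, ξ, ω, s₁, s₂, s₃, hrk⟩ := hI k E₁.K E₂.K ε ι r a I hK w₁ w₂ x p T G₁.on G₂.on S₁ S₂
    fun i hi => by
      rw [(S₂.bc (hf i hi).2).trans (bc_self y)]
      exact hf i hi
  have hT : (2 * T.card : ℕ∞) ≠ ⊤ := by exact_mod_cast ENat.natCast_ne_top (2 * T.card)
  have hm : (m : ℕ∞) ≤ rk k (rat (Sum.elim ξ ω)) :=
    (ENat.add_le_add_iff_right hT).1 (hr.trans hrk)
  by_cases h : (m : ℕ∞) ≤ rk k (rat ξ)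
  · exact Or.inr ⟨E, ξ, g3 _ _ _ ξ ω ν γ α (g1 _ _ _ _ _ _ _ G₁ s₁) (g1 _ _ _ _ _ _ _ G₂ s₂),
      s₃.comp Sum.inl, h⟩
  obtain ⟨i, hi⟩ : ∃ i, ¬ rat1 (ω i) ⊆ cl k (rat ξ) := by
    by_contra h1
    refine h (hm.trans (rk_le_of_subset_cl ?_))
    rw [rat_elim, rat_eq_iUnion ω]
    exact Set.union_subset (subset_cl _) (Set.iUnion_subset fun i => not_not.1 (not_exists.1 h1 i))
  have hiT : i ∈ T := by_contra fun h1 => hi (s₂.bc (hf i h1).2 ▸ rat1_bc_subset _ y)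
  obtain ⟨P, hP, hfix, hz⟩ := hP k E.K _ (rat ξ) (ω i) s δ hC.pos hC.homog hi
  obtain ⟨Q, hQ, hQ'⟩ := s₃
  let p' : ι → PP (Fin (r + 3)) k := fun j => Q.red (P.red (ω j))
  have sp : Sp k (Sum.elim ξ ω) (Sum.elim x p') := by
    refine Sp.trans (p := fun u => P.red (Sum.elim ξ ω u)) ⟨P, hP, fun _ => rfl⟩ ⟨Q, hQ, ?_⟩
    rintro (e | j)
    · exact (congrArg Q.red (P.red_eq_self fun t ht =>
        hfix t (subset_cl _ (rat1_subset ξ e ht)))).trans (hQ' (Sum.inl e))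
    · rfl
  have hs : aeval (p' i).rep s = 0 := Plc.aeval_red hQ hC.homog hz
  obtain h1 | ⟨F₁, u₁, A₁, B₁, C₁, D₁, R₁⟩ := hR k E₁.K _ _ I s δ y w₁ _ _ (Sum.elim x p')
    (Sum.elim x (Function.update p' i y)) (Sum.inr i) hH hC G₁ (by simp) (s₁.trans sp) hs
    (by simp) (by
      rintro (e | j) hj
      · rfl
      · exact Function.update_of_ne (fun h => hj (congrArg Sum.inr h)) y p')
  · exact Or.inl h1
  obtain h1 | ⟨F₂, u₂, A₂, B₂, C₂, D₂, R₂⟩ := hR k E₂.K _ _ I s δ y w₂ _ _ p'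
    (Function.update p' i y) i hH hC G₂ (by simp) (s₂.trans (sp.comp Sum.inr)) hs
    (Function.update_self ..) fun j hj => Function.update_of_ne hj ..
  · exact Or.inl h1
  refine ih (T.erase i) (Finset.erase_ssubset hiT) F₁ F₂ u₁ u₂ _ A₁ A₂ B₁ B₂ (fun j hj => ?_) ?_
  · by_cases hji : j = i
    · exact hji ▸ ⟨C₁, C₂⟩
    · have hjT : j ∉ T := fun h => hj (Finset.mem_erase.2 ⟨hji, h⟩)
      exact ⟨D₁ _ _ (fun h => hji (Sum.inr_injective h)) (hf j hjT).1, D₂ _ _ hji (hf j hjT).2⟩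
  · have h2 := hr.trans (add_le_add R₁ R₂)
    rw [← Finset.card_erase_add_one hiT] at h2
    refine (ENat.add_le_add_iff_right (k := 2) (by decide)).1 (le_of_eq_of_le ?_ (h2.trans_eq ?_))
    · push_cast; ring
    · ring

variable {k K σ : Type} [Field k] [Field K] [Algebra k K] [Fintype σ]
  {I : Ideal (MvPolynomial σ k)}

theorem ratp_add (hR : RatpStmt) (hI : Hg I) {A A' B B' : Multiset (PP σ K)} (hB : OnM I B)
    (hA : OnM I A') (h : RatP I A A') (h' : RatP I B B') : RatP I (A + B) (A' + B') := by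
  obtain ⟨-, -, -, r4, r5, -⟩ := hR k K σ I hI
  refine r4 _ _ _ (r5 _ _ _ hB h) ?_
  rw [add_comm A' B, add_comm A' B']
  exact r5 _ _ _ hA h'

theorem ratp_replicate (hR : RatpStmt) (hI : Hg I) {c : PP σ K} (hc : On I c)
    (A : Multiset (PP σ K)) (hA : ∀ x ∈ A, On I x ∧ RatP I {x} {c}) :
    RatP I A (Multiset.replicate (Multiset.card A) c) := by
  induction A using Multiset.induction_on with
  | empty => exact (hR k K σ I hI).1 _
  | cons x A ih =>
    rw [Multiset.card_cons, Multiset.replicate_succ, ← Multiset.singleton_add,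
      ← Multiset.singleton_add]
    exact ratp_add hR hI (fun z hz => (hA z (Multiset.mem_cons_of_mem hz)).1)
      (fun z hz => Multiset.mem_singleton.1 hz ▸ hc) (hA x (Multiset.mem_cons_self _ _)).2
      (ih fun z hz => hA z (Multiset.mem_cons_of_mem hz))

theorem Sp1.on {L : Type} [Field L] [Algebra k L] (hI : Hg I) {x : PP σ K} {y : PP σ L}
    (h : Sp1 k x y) (hx : On I x) : On I y := h.sp.on hI (i := ()) hx

theorem escS (hD : DimStmt) (hG : GenStmt) (hP : PowerStmt) (hS : SpecStmt) (hR : RatpStmt) :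
    EscStmt := by
  intro k ε _ _ _ r a I hK y ν γ x m hy ⟨E, η, hη, h2, hc⟩ hγ hcard hx hm
  have hH : Hg I := hK.homog
  obtain ⟨E₀, η₀, h₀, -, -, gen⟩ := hG k r a I hK
  have h3 : Sp1 k η η₀ := (gen _ η hη).drop ((hD k _ r a I hK η₀ h₀).1.trans h2)
  obtain ⟨F, ξ, h4, h5, h6⟩ := hP k E.K _ ε η
  have h7 : ∀ A : Multiset (PP (Fin (r + 3)) F.K), OnM I A →
      RatP I A (Multiset.replicate (Multiset.card A) (bc F.K y)) := fun A hA =>
    ratp_replicate hR hH (hy.bc hH) A fun z hz => ⟨hA z hz, by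
      obtain ⟨P, hP, rfl⟩ := h3.trans (gen _ z (hA z hz))
      simpa [Plc.red_bc hP] using hS k _ _ _ I P _ _ hH hP hc⟩
  have h8 : ∀ i, On I (ξ i) := fun i => (h4 i).on hH hη
  refine ⟨F, ξ, ⟨h8, hγ, ?_⟩, h6 k x fun i => h3.trans (gen _ _ (hx i)), le_trans ?_ h5⟩
  · obtain ⟨-, -, r3, r4, -⟩ := hR k F.K _ I hH
    refine r4 _ _ _ (h7 _ fun z hz => ?_) (r3 _ _ ?_)
    · obtain ⟨i, rfl⟩ := mem_ms.1 hz
      exact h8 i
    · have := h7 (ν.map ξ + γ.map (bc F.K)) (onM_add.2 ⟨fun z hz => by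
        obtain ⟨i, -, rfl⟩ := Multiset.mem_map.1 hz
        exact h8 i, hγ.bc hH⟩)
      rw [Multiset.card_add, Multiset.card_map, Multiset.card_map, hcard] at this
      simpa [ms] using this
  · exact (Nat.cast_le.2 hm).trans (le_mul_of_one_le_right' (le_trans (by decide) h2))

end Pool.Agent.MP_9207e0_ag.CC
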