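import Pool.Agent.MP_9207e0_ag.cc.Rk

/-! PROJECT CCC: forms that separate one component of a hypersurface section from the others. -/

noncomputable section

namespace Pool.Agent.MP_9207e0_ag.CC

open MvPolynomial
open scoped Classical

section

variable {k σ : Type} [Field k]

/-- The generic point of a prime ideal. -/
theorem o1b_gp (q : Ideal (MvPolynomial σ k)) [q.IsPrime] :
    ∃ (E : Ext k) (v : σ → E.K), ∀ f, aeval v f = 0 ↔ f ∈ q := by
  let R := MvPolynomial σ k ⧸ q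
  let E := AlgebraicClosure (FractionRing R)
  let φ : MvPolynomial σ k →ₐ[k] E := (IsScalarTower.toAlgHom k R E).comp (Ideal.Quotient.mkₐ k q)
  have inj : Function.Injective (algebraMap R E) := by
    rw [IsScalarTower.algebraMap_eq R (FractionRing R) E]
    exact (algebraMap (FractionRing R) E).injective.comp (IsFractionRing.injective R _)
  refine ⟨Ext.mk E, fun j => φ (X j), fun f => ?_⟩
  have e : (aeval fun j => φ (X j)) = φ := (aeval_unique φ).symm
  exact (congrArg (· = 0) (DFunLike.congr_fun e f)).to_iff.trans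
    ((map_eq_zero_iff _ inj).trans Ideal.Quotient.eq_zero_iff_mem)

theorem o1b_pos {L : Type} [Field L] [Algebra k L] {f : MvPolynomial σ k} {n : ℕ} {v w : σ → L}
    (hf : f.IsHomogeneous n) (h0 : aeval v f = 0) (h1 : aeval w f ≠ 0) : 0 < n := by
  refine Nat.pos_of_ne_zero fun e => h1 ?_
  subst e
  have := totalDegree_eq_zero_iff_eq_C.1 ((totalDegree_zero_iff_isHomogeneous σ).2 hf)
  rw [this, aeval_C] at h0 ⊢
  exact h0

/-- Homogeneous prime avoidance. -/
theorem o1b_avoid [Infinite k] {ι L : Type} [Fintype ι] [Field L] [Algebra k L] (v : σ → L)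
    (q : ι → Ideal (MvPolynomial σ k)) (hq : ∀ i, (q i).IsPrime)
    (h : ∀ i, ∃ (H : MvPolynomial σ k) (n : ℕ), 0 < n ∧ H.IsHomogeneous n ∧ aeval v H = 0 ∧ H ∉ q i) :
    ∃ (G : MvPolynomial σ k) (g : ℕ), 0 < g ∧ G.IsHomogeneous g ∧ aeval v G = 0 ∧ ∀ i, G ∉ q i := by
  choose H n h0 h1 h2 h3 using h
  have g0 : 0 < ∏ i, n i := Finset.prod_pos fun i _ => h0 i
  let W : Submodule k (MvPolynomial σ k) :=
    homogeneousSubmodule σ k (∏ i, n i) ⊓ LinearMap.ker (aeval v).toLinearMap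
  obtain ⟨G, hG⟩ := Submodule.exists_forall_notMem_of_forall_ne_top
    (fun i => ((q i).restrictScalars k).comap W.subtype) fun i e => by
      obtain ⟨m, hm⟩ := Finset.dvd_prod_of_mem n (Finset.mem_univ i)
      have m0 : m ≠ 0 := fun z => by simp [hm, z] at g0
      have a : H i ^ m ∈ W := ⟨hm ▸ (h1 i).pow m, by
        show aeval v (H i ^ m) = 0
        rw [map_pow, h2, zero_pow m0]⟩
      have b : (⟨_, a⟩ : W) ∈ ((q i).restrictScalars k).comap W.subtype := e ▸ Submodule.mem_top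
      exact h3 i ((hq i).mem_of_pow_mem m b)
  exact ⟨G, _, g0, G.2.1, G.2.2, hG⟩

end

section

variable {k : Type} [Field k] [IsAlgClosed k] {r a e : ℕ} {I : Ideal (MvPolynomial (Fin (r + 3)) k)}
  {F : MvPolynomial (Fin (r + 3)) k}

theorem o1b_rk (hG : GenStmt) (hD : DimStmt) (hI : IsK3Model I a) (hF : F.IsHomogeneous e)
    (hn : F ∉ I) {L : Type} [Field L] [IsAlgClosed L] [Algebra k L] {y : PP (Fin (r + 3)) L}
    (hy : On I y) (h0 : aeval y.rep F = 0) : rk k (rat1 y) ≤ 1 := by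
  obtain ⟨E, η, a1, -, a3, a4⟩ := hG k r a I hI
  by_contra c
  have c2 : 2 ≤ rk k (rat1 y) := Order.add_one_le_of_lt (not_le.1 c)
  exact hn (a3 F e hF (((a4 L y hy).drop ((hD k E.K r a I hI η a1).1.trans c2)).aeval hF h0))

theorem o1b_key (hG : GenStmt) (hD : DimStmt) (hS : SphStmt) (hI : IsK3Model I a)
    (hF : F.IsHomogeneous e) (hn : F ∉ I) {q : Ideal (MvPolynomial (Fin (r + 3)) k)}
    (hq : q.IsPrime) (h1 : I ⊔ Ideal.span {F} ≤ q) {L : Type} [Field L] [IsAlgClosed L] [Algebra k L]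
    {y : PP (Fin (r + 3)) L} (hy : ¬ Kp k y) (h2 : q ≤ RingHom.ker (aeval y.rep))
    {f : MvPolynomial (Fin (r + 3)) k} {n : ℕ} (hf : f.IsHomogeneous n) (h0 : aeval y.rep f = 0) :
    f ∈ q := by
  obtain ⟨E, v, hv⟩ := o1b_gp q
  have v0 : v ≠ 0 := fun z => y.rep_nonzero (funext fun j => by
    have := h2 ((hv (X j)).1 (by rw [aeval_X, z]; rfl))
    rwa [RingHom.mem_ker, aeval_X] at this)
  have b1 : On I (Projectivization.mk E.K v v0) :=
    (on_mk hI.homog v0).2 fun g hg => (hv g).2 (h1 (Ideal.mem_sup_left hg))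
  have b2 := (aeval_mk_eq_zero hF v0).2
    ((hv F).2 (h1 (Ideal.mem_sup_right (Ideal.mem_span_singleton_self F))))
  have b3 : Sp1 k (Projectivization.mk E.K v v0) y := hS k E.K L _ _ y fun g m hg z =>
    h2 ((hv g).1 ((aeval_mk_eq_zero hg v0).1 z))
  have b4 := b3.drop ((o1b_rk hG hD hI hF hn b1 b2).trans (one_le_rk hy))
  exact (hv f).1 ((aeval_mk_eq_zero hf v0).1 (b4.aeval hf h0))

end

theorem o1bS (hG : GenStmt) (hD : DimStmt) (hS : SphStmt) : O1bStmt := by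
  intro k L _ _ _ _ _ r a I hI x F e hx rx hF hn h0
  let B : Set (Ideal (MvPolynomial (Fin (r + 3)) k)) := {q | q ∈ (I ⊔ Ideal.span {F}).minimalPrimes ∧
    ∃ y : PP (Fin (r + 3)) L, ¬ Kp k y ∧ q ≤ RingHom.ker (aeval y.rep) ∧ ¬ (Sp1 k x y ∧ Sp1 k y x)}
  have fin : B.Finite := (Ideal.finite_minimalPrimes_of_isNoetherianRing _ _).subset fun _ h => h.1
  have := fin.fintype
  have two : ∀ q : B, (∃ (G : MvPolynomial (Fin (r + 3)) k) (g : ℕ), G.IsHomogeneous g ∧
      aeval x.rep G ≠ 0 ∧ G ∈ q.1) ∧ ∃ (H : MvPolynomial (Fin (r + 3)) k) (n : ℕ), 0 < n ∧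
      H.IsHomogeneous n ∧ aeval x.rep H = 0 ∧ H ∉ q.1 := by
    rintro ⟨q, ⟨q1, q2⟩, y, y1, y2, y3⟩
    have c1 : rk k (rat1 y) ≤ 1 := o1b_rk hG hD hI hF hn (fun f hf => y2 (q1.2 (Ideal.mem_sup_left hf)))
      (y2 (q1.2 (Ideal.mem_sup_right (Ideal.mem_span_singleton_self F))))
    constructor
    · by_contra c
      have s : Sp1 k y x := hS k L L _ y x fun f n hf z => by_contra fun u =>
        c ⟨f, n, hf, u, o1b_key hG hD hS hI hF hn q1.1 q1.2 y1 y2 hf z⟩
      exact y3 ⟨s.drop (rx ▸ c1), s⟩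
    · by_contra c
      have s : Sp1 k x y := hS k L L _ x y fun f n hf z => by_contra fun u =>
        c ⟨f, n, o1b_pos hf z u, hf, z, fun m => u (y2 m)⟩
      exact y3 ⟨s, s.drop (rx ▸ one_le_rk y1)⟩
  obtain ⟨G', g', d0, d1, d2, d3⟩ := o1b_avoid x.rep (fun q : B => q.1) (fun q => q.2.1.1.1)
    fun q => (two q).2
  choose G g e1 e2 e3 using fun q => (two q).1
  refine ⟨∏ q, G q, G', ∑ q, g q, g', IsHomogeneous.prod _ _ _ fun q _ => e1 q, d1, d0, ?_, d2,
    fun y y1 y2 => ?_⟩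
  · rw [map_prod]
    exact Finset.prod_ne_zero_iff.2 fun q _ => e2 q
  by_cases c1 : Kp k y
  · exact Or.inl c1
  by_cases c2 : Sp1 k x y ∧ Sp1 k y x
  · exact Or.inr (Or.inl c2)
  have := RingHom.ker_isPrime (aeval y.rep : MvPolynomial (Fin (r + 3)) k →ₐ[k] L)
  obtain ⟨q, q1, q2⟩ := Ideal.exists_minimalPrimes_le (I := I ⊔ Ideal.span {F})
    (J := RingHom.ker (aeval y.rep : MvPolynomial (Fin (r + 3)) k →ₐ[k] L))
    (sup_le y1 ((Ideal.span_singleton_le_iff_mem _).2 y2))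
  let z : B := ⟨q, q1, y, c1, q2, c2⟩
  refine Or.inr (Or.inr ⟨?_, fun u => d3 z (o1b_key hG hD hS hI hF hn q1.1.1 q1.1.2 c1 q2 d1 u)⟩)
  rw [map_prod]
  exact Finset.prod_eq_zero (Finset.mem_univ z) (q2 (e3 z))

end Pool.Agent.MP_9207e0_ag.CC
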