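import Pool.Agent.MP_9207e0_ag.cc.Base

/-! PROJECT CCC: extension of homomorphisms to places, and specialisations. -/

noncomputable section

namespace Pool.Agent.MP_9207e0_ag.CC

open MvPolynomial
open scoped Classical

variable {k K L M σ ι : Type} [Field k] [Field K] [Field L] [Field M]

theorem place_aux [IsAlgClosed L] (Γ : Subring (K × L)) (h0 : ∀ y, (0, y) ∈ Γ → y = 0)
    (hm : ∀ Γ' : Subring (K × L), (∀ y, (0, y) ∈ Γ' → y = 0) → Γ ≤ Γ' → Γ' ≤ Γ) :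
    ∃ P : Plc K L, ∀ x y, (x, y) ∈ Γ → x ∈ P.V ∧ P.fn x = y := by
  let p₁ : Γ →+* K := (RingHom.fst K L).comp Γ.subtype
  let p₂ : Γ →+* L := (RingHom.snd K L).comp Γ.subtype
  have hk : ∀ γ : Γ, p₁ γ = 0 → γ = 0 := fun γ h => by
    have h1 : γ.1.1 = 0 := h
    have h2 : γ.1.2 = 0 := h0 _ (by rw [← h1]; exact γ.2)
    exact Subtype.ext (Prod.ext h1 h2)
  have inj : Function.Injective p₁ := (injective_iff_map_eq_zero p₁).2 hk
  have ext : ∀ x y, (∀ p : Polynomial Γ, p.eval₂ p₁ x = 0 → p.eval₂ p₂ y = 0) → (x, y) ∈ Γ := by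
    intro x y h
    let F := (Polynomial.eval₂RingHom p₁ x).prod (Polynomial.eval₂RingHom p₂ y)
    refine hm F.range ?_ (fun γ hγ => ⟨Polynomial.C ⟨γ, hγ⟩, ?_⟩) ⟨Polynomial.X, ?_⟩
    · rintro z ⟨p, hp⟩
      have h1 : p.eval₂ p₁ x = 0 := congrArg Prod.fst hp
      exact (congrArg Prod.snd hp).symm.trans (h p h1)
    · exact Prod.ext (Polynomial.eval₂_C _ _) (Polynomial.eval₂_C _ _)
    · exact Prod.ext (Polynomial.eval₂_X _ _) (Polynomial.eval₂_X _ _)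
  have unit : ∀ γ : Γ, p₂ γ ≠ 0 → IsUnit γ := by
    intro γ h2
    have h1 : p₁ γ ≠ 0 := fun h => h2 (by rw [hk γ h, map_zero])
    have hm : ((p₁ γ)⁻¹, (p₂ γ)⁻¹) ∈ Γ := ext _ _ fun p hp => by
      letI := invertibleOfNonzero (inv_ne_zero h1)
      letI := invertibleOfNonzero (inv_ne_zero h2)
      rw [← Polynomial.eval₂_reverse_eq_zero_iff, invOf_eq_inv, inv_inv,
        Polynomial.eval₂_at_apply] at hp ⊢
      rw [hk _ hp, map_zero]
    refine IsUnit.of_mul_eq_one ⟨_, hm⟩ (inj ?_)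
    rw [map_mul, map_one]
    exact mul_inv_cancel₀ h1
  have : IsLocalRing Γ := IsLocalRing.of_isUnit_or_isUnit_one_sub_self fun γ => by
    by_cases h : p₂ γ = 0
    · exact Or.inr (unit _ (by rw [map_sub, map_one, h, sub_zero]; exact one_ne_zero))
    · exact Or.inl (unit _ h)
  have : IsLocalHom p₂ := ⟨fun γ h => unit γ h.ne_zero⟩
  obtain ⟨V, hV, hl⟩ := IsLocalRing.exists_factor_valuationRing p₁
  let ρ : Γ →+* V := p₁.codRestrict V.toSubring hV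
  have : IsLocalHom ρ := hl
  have surj : Function.Surjective ρ := by
    intro x
    letI := (IsLocalRing.ResidueField.map ρ).toAlgebra
    letI := (IsLocalRing.ResidueField.lift p₂).toAlgebra
    obtain ⟨y, hy⟩ : ∃ y : L, ∀ q : Polynomial (IsLocalRing.ResidueField Γ),
        Polynomial.aeval (IsLocalRing.residue V x) q = 0 → Polynomial.aeval y q = 0 := by
      by_cases hi : IsIntegral (IsLocalRing.ResidueField Γ) (IsLocalRing.residue V x)
      · obtain ⟨y, hy⟩ := IsAlgClosed.exists_aeval_eq_zero L _ (minpoly.degree_pos hi).ne'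
        refine ⟨y, fun q hq => ?_⟩
        obtain ⟨r, rfl⟩ := minpoly.dvd _ _ hq
        rw [map_mul, hy, zero_mul]
      · refine ⟨0, fun q hq => ?_⟩
        by_cases hq0 : q = 0
        · rw [hq0, map_zero]
        · exact absurd (IsAlgebraic.isIntegral ⟨q, hq0, hq⟩) hi
    refine ⟨⟨((x : K), y), ext _ _ fun p hp => ?_⟩, rfl⟩
    have h1 : p.eval₂ ρ x = 0 := Subtype.ext (by
      have := Polynomial.hom_eval₂ p ρ V.subtype x
      exact this.trans hp)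
    have h2 := hy (p.map (IsLocalRing.residue Γ)) (by
      have := Polynomial.hom_eval₂ p ρ (IsLocalRing.residue V) x
      rw [h1, map_zero] at this
      rw [Polynomial.aeval_def, Polynomial.eval₂_map]
      exact this.symm)
    rw [Polynomial.aeval_def, Polynomial.eval₂_map] at h2
    exact h2
  let e : Γ ≃+* V := RingEquiv.ofBijective ρ ⟨fun a b h => inj (congrArg Subtype.val h), surj⟩
  refine ⟨⟨V, p₂.comp (e.symm : V →+* Γ), fun x => ?_⟩, fun x y h => ⟨hV ⟨_, h⟩, ?_⟩⟩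
  · obtain ⟨γ, rfl⟩ := e.surjective x
    rw [← ValuationSubring.valuation_lt_one_iff, IsLocalRing.mem_maximalIdeal, mem_nonunits_iff]
    have : (p₂.comp (e.symm : V →+* Γ)) (e γ) = p₂ γ := congrArg p₂ (e.symm_apply_apply γ)
    rw [this, MulEquiv.isUnit_map e]
    exact ⟨fun h hu => (hu.map p₂).ne_zero h, fun h => by_contra fun h' => h (unit γ h')⟩
  · refine (Plc.fn_mem _ (hV ⟨_, h⟩)).trans ?_
    exact congrArg p₂ (e.symm_apply_apply ⟨_, h⟩)

/-- A homomorphism into an algebraically closed field extends to a place. -/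
theorem place [IsAlgClosed L] {R : Type} [CommRing R] (f : R →+* K) (g : R →+* L)
    (h : ∀ r, f r = 0 → g r = 0) : ∃ P : Plc K L, ∀ r, f r ∈ P.V ∧ P.fn (f r) = g r := by
  obtain ⟨Γ, h1, h2⟩ := zorn_le_nonempty₀ {Γ : Subring (K × L) | ∀ y, (0, y) ∈ Γ → y = 0}
    (fun c hc hch Γ hΓ => ⟨sSup c, fun y hy => by
      obtain ⟨Γ', h1, h2⟩ := (Subring.mem_sSup_of_directedOn ⟨Γ, hΓ⟩ hch.directedOn).1 hy
      exact hc h1 y h2, fun z hz => le_sSup hz⟩) (f.prod g).range (by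
    rintro y ⟨r, hr⟩
    exact (congrArg Prod.snd hr).symm.trans (h r (congrArg Prod.fst hr)))
  obtain ⟨P, hP⟩ := place_aux Γ h2.1 fun Γ' h3 h4 => h2.2 h3 h4
  exact ⟨P, fun r => hP _ _ (h1 ⟨r, rfl⟩)⟩

/-- The composition of two places. -/
theorem Plc.comp [IsAlgClosed M] (P : Plc K L) (Q : Plc L M) : ∃ R : Plc K M,
    ∀ x ∈ P.V, P.fn x ∈ Q.V → x ∈ R.V ∧ R.fn x = Q.fn (P.fn x) := by
  let A : Subring P.V := Q.V.toSubring.comap P.φ
  obtain ⟨R, hR⟩ := place (P.V.subtype.comp A.subtype)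
    (Q.φ.comp ((P.φ.comp A.subtype).codRestrict Q.V.toSubring fun a => a.2)) fun r hr => by
      have : r = 0 := Subtype.ext (Subtype.ext hr)
      rw [this, map_zero]
  refine ⟨R, fun x hx hq => ?_⟩
  have h1 := P.fn_mem hx
  have := hR ⟨⟨x, hx⟩, (h1 ▸ hq : P.φ ⟨x, hx⟩ ∈ Q.V)⟩
  refine ⟨this.1, this.2.trans ?_⟩
  rw [Q.fn_mem hq]
  exact congrArg Q.φ (Subtype.ext h1.symm)

theorem Plc.red_comp [Finite σ] {P : Plc K L} {Q : Plc L M} {R : Plc K M}
    (h : ∀ x ∈ P.V, P.fn x ∈ Q.V → x ∈ R.V ∧ R.fn x = Q.fn (P.fn x)) (x : PP σ K) :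
    R.red x = Q.red (P.red x) := by
  obtain ⟨a, ha⟩ := Function.ne_iff.1 (Q.red (P.red x)).rep_nonzero
  obtain ⟨h1, h2⟩ := Q.ratio _ ha
  obtain ⟨h3, h4⟩ := P.ratio _ h1
  refine R.red_eq h3 ha fun b => ?_
  have := h _ (h4 b).1 ((h4 b).2 ▸ (h2 b).1)
  exact ⟨this.1, by rw [this.2, (h4 b).2, (h2 b).2]⟩

variable [Algebra k K] [Algebra k L] [Algebra k M]

/-- The composition of two places over `k`. -/
theorem Plc.comp_over [IsAlgClosed M] {P : Plc K L} {Q : Plc L M} (hP : P.Over k)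
    (hQ : Q.Over k) : ∃ R : Plc K M, R.Over k ∧
      ∀ x ∈ P.V, P.fn x ∈ Q.V → x ∈ R.V ∧ R.fn x = Q.fn (P.fn x) := by
  obtain ⟨R, hR⟩ := P.comp Q
  refine ⟨R, fun c => ?_, hR⟩
  have := hR _ (hP c).1 ((hP c).2 ▸ (hQ c).1)
  exact ⟨this.1, by rw [this.2, (hP c).2, (hQ c).2]⟩

theorem ASp.place [IsAlgClosed L] {z : ι → K} {p : ι → L} (h : ASp k z p) :
    ∃ P : Plc K L, P.Over k ∧ ∀ i, z i ∈ P.V ∧ P.fn (z i) = p i := by
  obtain ⟨P, hP⟩ := CC.place (aeval z : MvPolynomial ι k →ₐ[k] K).toRingHom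
    (aeval p : MvPolynomial ι k →ₐ[k] L).toRingHom h
  exact ⟨P, fun c => by simpa using hP (C c), fun i => by simpa using hP (X i)⟩

variable [Finite σ]

theorem Sp.refl (w : ι → PP σ K) : Sp k w w :=
  ⟨Plc.ofHom (AlgHom.id k K : K →+* K), Plc.ofHom_over _, fun i =>
    (Plc.ofHom_red _ _).trans (pmap_id _)⟩

theorem Sp.trans [IsAlgClosed M] {w : ι → PP σ K} {p : ι → PP σ L} {q : ι → PP σ M}
    (h : Sp k w p) (h' : Sp k p q) : Sp k w q := by
  obtain ⟨P, hP, h1⟩ := h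
  obtain ⟨Q, hQ, h2⟩ := h'
  obtain ⟨R, hR, h3⟩ := Plc.comp_over hP hQ
  exact ⟨R, hR, fun i => by rw [Plc.red_comp h3, h1, h2]⟩

theorem Sp.comp {κ : Type} {w : ι → PP σ K} {p : ι → PP σ L} (h : Sp k w p) (e : κ → ι) :
    Sp k (w ∘ e) (p ∘ e) := by
  obtain ⟨P, hP, h1⟩ := h
  exact ⟨P, hP, fun i => h1 (e i)⟩

theorem Sp.sp1 {w : ι → PP σ K} {p : ι → PP σ L} (h : Sp k w p) (i : ι) : Sp1 k (w i) (p i) := by
  obtain ⟨P, hP, h1⟩ := h
  exact ⟨P, hP, h1 i⟩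

theorem Sp1.sp {x : PP σ K} {y : PP σ L} (h : Sp1 k x y) :
    Sp k (fun _ : Unit => x) fun _ => y := by
  obtain ⟨P, hP, h1⟩ := h
  exact ⟨P, hP, fun _ => h1⟩

theorem Sp1.trans [IsAlgClosed M] {x : PP σ K} {y : PP σ L} {z : PP σ M} (h : Sp1 k x y)
    (h' : Sp1 k y z) : Sp1 k x z := (h.sp.trans h'.sp).sp1 ()

theorem Sp.bc {w : ι → PP σ K} {p : ι → PP σ L} (h : Sp k w p) {i : ι} {q : PP σ k}
    (hq : w i = bc K q) : p i = bc L q := by
  obtain ⟨P, hP, h1⟩ := h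
  rw [← h1, hq, Plc.red_bc hP]

theorem Sp.on {I : Ideal (MvPolynomial σ k)} (hI : Hg I) {w : ι → PP σ K} {p : ι → PP σ L}
    (h : Sp k w p) {i : ι} (hw : On I (w i)) : On I (p i) := by
  obtain ⟨P, hP, h1⟩ := h
  exact h1 i ▸ hw.red hI hP

/-- From projective to affine specialisations, in a chart of the special point. -/
theorem Sp.asp {w : ι → PP σ K} {p : ι → PP σ L} (h : Sp k w p) {a : ι → σ}
    (ha : ∀ i, (p i).rep (a i) ≠ 0) :
    (∀ i, (w i).rep (a i) ≠ 0) ∧ ASp k (nv w a) (nv p a) := by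
  obtain ⟨P, hP, h1⟩ := h
  obtain rfl : p = fun i => P.red (w i) := funext fun i => (h1 i).symm
  refine ⟨fun i => (P.ratio _ (ha i)).1, ?_⟩
  have := ASp.of_plc hP (z := nv w a) fun u => ((P.ratio _ (ha u.1)).2 u.2).1
  rwa [show (fun u => P.fn (nv w a u)) = nv (fun i => P.red (w i)) a from
    funext fun u => ((P.ratio _ (ha u.1)).2 u.2).2] at this

/-- From affine to projective specialisations. -/
theorem Sp.of_asp [IsAlgClosed L] {w : ι → PP σ K} {p : ι → PP σ L} {a : ι → σ}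
    (hw : ∀ i, (w i).rep (a i) ≠ 0) (ha : ∀ i, (p i).rep (a i) ≠ 0)
    (h : ASp k (nv w a) (nv p a)) : Sp k w p := by
  obtain ⟨P, hP, h1⟩ := h.place
  exact ⟨P, hP, fun i => P.red_eq (hw i) (ha i) fun b => h1 (i, b)⟩

omit [Finite σ] in
theorem exists_chart (p : ι → PP σ L) : ∃ a : ι → σ, ∀ i, (p i).rep (a i) ≠ 0 :=
  ⟨fun i => (Function.ne_iff.1 (p i).rep_nonzero).choose,
    fun i => (Function.ne_iff.1 (p i).rep_nonzero).choose_spec⟩

end Pool.Agent.MP_9207e0_ag.CC
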