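import Pool.Agent.MP_9207e0_ag.cc.Spec2

/-! PROJECT CCC, row QCARD: a general line meets a quartic surface in four points. -/

noncomputable section

namespace Pool.Agent.MP_9207e0_ag.CC

open MvPolynomial
open scoped Classical

namespace Qcard

variable {K σ : Type} [Field K]

/-- The restriction to a line. -/
def ln (v u : σ → K) : MvPolynomial σ K →ₐ[K] Polynomial K :=
  aeval fun j => Polynomial.C (v j) + Polynomial.C (u j) * Polynomial.X

theorem eval_ln (v u : σ → K) (t : K) (F : MvPolynomial σ K) :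
    (ln v u F).eval t = eval (v + t • u) F := by
  induction F using MvPolynomial.induction_on with
  | C a => simp [ln]
  | add p q hp hq => rw [map_add, map_add, Polynomial.eval_add, hp, hq]
  | mul_X p j hp =>
    rw [map_mul, map_mul, Polynomial.eval_mul, hp]
    simp [ln, mul_comm t]

theorem der_ln [Fintype σ] (v u : σ → K) (t : K) (F : MvPolynomial σ K) :
    (ln v u F).derivative.eval t = dv F (v + t • u) u := by
  induction F using MvPolynomial.induction_on with
  | C a => rw [dv_C]; simp [ln]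
  | add p q hp hq => rw [map_add, map_add, Polynomial.eval_add, hp, hq, dv_add]
  | mul_X p j hp =>
    rw [map_mul, Polynomial.derivative_mul, Polynomial.eval_add, Polynomial.eval_mul,
      Polynomial.eval_mul, hp, eval_ln, eval_ln, dv_mul, dv_X]
    simp [ln, mul_comm t]
    ring

theorem top_prod (g : σ → Polynomial K) (hg : ∀ j, (g j).natDegree ≤ 1) (d : σ → ℕ)
    (s : Finset σ) : (∏ j ∈ s, g j ^ d j).natDegree ≤ ∑ j ∈ s, d j ∧
      (∏ j ∈ s, g j ^ d j).coeff (∑ j ∈ s, d j) = ∏ j ∈ s, (g j).coeff 1 ^ d j := by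
  induction s using Finset.induction_on with
  | empty => simp
  | insert a s ha ih =>
    have h1 : (g a ^ d a).natDegree ≤ d a :=
      (Polynomial.natDegree_pow_le_of_le _ (hg a)).trans_eq (mul_one _)
    have h2 := Polynomial.coeff_pow_of_natDegree_le (m := d a) (hg a)
    rw [mul_one] at h2
    rw [Finset.prod_insert ha, Finset.sum_insert ha, Finset.prod_insert ha,
      Polynomial.coeff_mul_add_eq_of_natDegree_le h1 ih.1, h2, ih.2]
    exact ⟨Polynomial.natDegree_mul_le_of_le h1 ih.1, rfl⟩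

theorem deg_ln {F : MvPolynomial σ K} {n : ℕ} (hF : F.IsHomogeneous n) (v : σ → K) {u : σ → K}
    (h : eval u F ≠ 0) : (ln v u F).natDegree = n ∧ ln v u F ≠ 0 := by
  have key : ∀ d ∈ F.support, _ := fun d hd => hF.degree_eq_sum_deg_support hd ▸
    top_prod (fun j => Polynomial.C (v j) + Polynomial.C (u j) * Polynomial.X)
      (fun j => by compute_degree) d d.support
  have h1 : (ln v u F).coeff n = eval u F := by
    rw [ln, aeval_def, eval₂_eq, eval_eq, Polynomial.finsetSum_coeff]
    refine Finset.sum_congr rfl fun d hd => ?_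
    rw [Polynomial.algebraMap_eq, Polynomial.coeff_C_mul, (key d hd).2]
    simp [Polynomial.coeff_C]
  refine ⟨Polynomial.natDegree_eq_of_le_of_coeff_ne_zero ?_ (h1 ▸ h), fun e => h ?_⟩
  · rw [ln, aeval_def, eval₂_eq]
    exact Polynomial.natDegree_sum_le_of_forall_le _ _ fun d hd =>
      (Polynomial.natDegree_C_mul_le _ _).trans (key d hd).1
  · rw [← h1, e, Polynomial.coeff_zero]

/-- The points of a line. -/
theorem pts {u v : σ → K} (h : ∀ x y : K, x • u + y • v = 0 → x = 0 ∧ y = 0) :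
    ∃ h0 : ∀ t : K, v + t • u ≠ 0,
      Function.Injective fun t => Projectivization.mk K _ (h0 t) := by
  refine ⟨fun t e => one_ne_zero (h t 1 (by rw [one_smul, add_comm, e])).2, fun t t' e => ?_⟩
  obtain ⟨a, ha⟩ := (Projectivization.mk_eq_mk_iff' K _ _ _ _).1 e
  obtain ⟨h1, h2⟩ := h (a * t' - t) (a - 1) (by linear_combination (norm := module) ha)
  linear_combination t' * h2 - h1

theorem core [IsAlgClosed K] [Fintype σ] {F : MvPolynomial σ K} {n : ℕ} (hF : F.IsHomogeneous n)
    (W : Submodule K (σ → K)) (hW : Module.finrank K W = 2) (Z : Finset (PP σ K))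
    (hZ : ∀ x, x ∈ Z ↔ x.rep ∈ W ∧ eval x.rep F = 0)
    (hT : ∀ x ∈ Z, ∀ δ ∈ W, dv F x.rep δ = 0 → δ ∈ K ∙ x.rep) : Z.card = n := by
  have hm : ∀ w (h0 : w ≠ 0), w ∈ W → (Projectivization.mk K w h0 ∈ Z ↔ eval w F = 0) :=
    fun w h0 hw => by
      rw [hZ, eval_mk_eq_zero hF, and_iff_right]
      obtain ⟨a, ha⟩ := Projectivization.exists_smul_eq_mk_rep K w h0
      exact ha ▸ W.smul_mem (a : K) hw
  let b := Module.finBasisOfFinrankEq K W hW
  have b1 : ∀ x y : K, x • (b 1 : σ → K) + y • (b 0 : σ → K) = 0 → x = 0 ∧ y = 0 := fun x y e => by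
    have := Fintype.linearIndependent_iff.1 b.linearIndependent ![y, x]
      (Subtype.ext (by simpa [Fin.sum_univ_two, add_comm] using e))
    exact ⟨this 1, this 0⟩
  obtain ⟨p0, p1⟩ := pts b1
  obtain ⟨t, ht⟩ : ∃ t, Projectivization.mk K _ (p0 t) ∉ Z := by
    by_contra! e
    exact Set.infinite_range_of_injective p1 (Z.finite_toSet.subset (Set.range_subset_iff.2 e))
  have uW : (b 0 : σ → K) + t • (b 1 : σ → K) ∈ W := W.add_mem (b 0).2 (W.smul_mem _ (b 1).2)
  rw [hm _ _ uW] at ht
  have i1 : ∀ x y : K, x • ((b 0 : σ → K) + t • (b 1 : σ → K)) + y • (b 1 : σ → K) = 0 →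
      x = 0 ∧ y = 0 := fun x y e => by
    obtain ⟨h1, h2⟩ := b1 (x * t + y) x (by linear_combination (norm := module) e)
    exact ⟨h2, by linear_combination h1 - t * h2⟩
  have i2 : ∀ w ∈ W, ∃ x y : K, w = x • ((b 0 : σ → K) + t • (b 1 : σ → K)) + y • (b 1 : σ → K) :=
    fun w hw => by
      have := congrArg Subtype.val (b.sum_repr ⟨w, hw⟩)
      simp only [Fin.sum_univ_two, Submodule.coe_add, Submodule.coe_smul] at this
      exact ⟨b.repr ⟨w, hw⟩ 0, b.repr ⟨w, hw⟩ 1 - b.repr ⟨w, hw⟩ 0 * t, by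
        linear_combination (norm := module) -this⟩
  have vW := (b 1).2
  generalize (b 0 : σ → K) + t • (b 1 : σ → K) = u at uW ht i1 i2
  generalize (b 1 : σ → K) = v at vW i1 i2
  obtain ⟨q0, q1⟩ := pts i1
  obtain ⟨d1, d2⟩ := deg_ln hF v ht
  have rt : ∀ s, Projectivization.mk K _ (q0 s) ∈ Z ↔ (ln v u F).eval s = 0 := fun s => by
    rw [hm _ _ (W.add_mem vW (W.smul_mem s uW)), eval_ln]
  have sep : (ln v u F).Separable :=
    (Polynomial.isCoprime_iff_aeval_ne_zero_of_isAlgClosed K K _ _).2 fun s => by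
      by_contra! e
      simp only [Polynomial.coe_aeval_eq_eval] at e
      obtain ⟨a, ha⟩ := Projectivization.exists_smul_eq_mk_rep K _ (q0 s)
      have h1 := dv_smul_left hF a (v + s • u) u
      rw [← der_ln, e.2, mul_zero, mul_eq_zero, or_iff_right a.ne_zero] at h1
      have h2 := hT _ ((rt s).2 e.1) u uW (ha ▸ h1)
      obtain ⟨c, hc⟩ := Submodule.mem_span_singleton.1 h2
      rw [← ha, Units.smul_def] at hc
      obtain ⟨h3, h4⟩ := i1 (c * a * s - 1) (c * a) (by linear_combination (norm := module) hc)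
      exact one_ne_zero (by linear_combination s * h4 - h3)
  have e : Z = (ln v u F).roots.toFinset.image fun s => Projectivization.mk K _ (q0 s) := by
    ext x
    simp only [Finset.mem_image, Multiset.mem_toFinset, Polynomial.mem_roots d2, Polynomial.IsRoot,
      ← rt]
    refine ⟨fun hx => ?_, fun ⟨s, h1, h2⟩ => h2 ▸ h1⟩
    obtain ⟨h1, h2⟩ := (hZ x).1 hx
    obtain ⟨a, c, h3⟩ := i2 _ h1
    have c0 : c ≠ 0 := by
      rintro rfl
      rw [zero_smul, add_zero] at h3
      rw [h3, eval_smul_homog hF, mul_eq_zero, or_iff_left ht] at h2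
      exact x.rep_nonzero (by rw [h3, eq_zero_of_pow_eq_zero h2, zero_smul])
    have h4 : Projectivization.mk K _ (q0 (a / c)) = x := by
      rw [← x.mk_rep, eq_comm, Projectivization.mk_eq_mk_iff']
      exact ⟨c, by rw [h3, smul_add, smul_smul, mul_div_cancel₀ _ c0, add_comm]⟩
    exact ⟨_, h4 ▸ hx, h4⟩
  rw [e, Finset.card_image_of_injective _ q1,
    Multiset.toFinset_card_of_nodup (Polynomial.nodup_roots sep),
    IsAlgClosed.card_roots_eq_natDegree, d1]

theorem dv_lin [Fintype σ] {G : MvPolynomial σ K} (hG : G.IsHomogeneous 1) (w δ : σ → K) :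
    dv G w δ = eval δ G := by
  have h : ∀ w', dv G w' δ = dv G 0 δ := fun w' => Finset.sum_congr rfl fun j _ => by
    have := hG.pderiv (i := j)
    rw [← totalDegree_zero_iff_isHomogeneous, totalDegree_eq_zero_iff_eq_C] at this
    rw [this, eval_C, eval_C]
  rw [h, ← h δ, dv_self hG, Nat.cast_one, one_mul]

end Qcard

open Qcard in
theorem qcardS (hT : TrgStmt) : QcardStmt := by
  intro k K _ _ _ _ _ F h β c c' Z hF hK hB hc hZ
  have g1 := fm_homog hB.homog c
  have g2 := fm_homog hB.homog c'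
  let M := (dvL (fm β c) 0).prod (dvL (fm β c') 0)
  have hM : ∀ w, M w = (eval w (fm β c), eval w (fm β c')) := fun w =>
    Prod.ext (dv_lin g1 0 w) (dv_lin g2 0 w)
  have hr : LinearMap.range M = ⊤ := by
    by_contra hn
    obtain ⟨f, f0, hf⟩ := Submodule.exists_le_ker_of_lt_top _ (lt_top_iff_ne_top.2 hn)
    have e : ∀ x y, f (x, y) = x * f (1, 0) + y * f (0, 1) := fun x y => by
      rw [← smul_eq_mul, ← smul_eq_mul y, ← map_smul, ← map_smul, ← map_add]
      simp
    have h1 : fm β (f (1, 0) • c + f (0, 1) • c') = 0 := MvPolynomial.funext fun w => by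
      have := hf ⟨w, rfl⟩
      rw [LinearMap.mem_ker, hM, e, eval_fm, eval_fm, Finset.sum_mul, Finset.sum_mul,
        ← Finset.sum_add_distrib] at this
      rw [map_zero, eval_fm]
      refine (Finset.sum_congr rfl fun l _ => ?_).trans this
      simp only [Pi.add_apply, Pi.smul_apply, smul_eq_mul]
      ring
    have h2 := hB.indep K _ (h1 ▸ Ideal.zero_mem _)
    have h4 : h = 4 := hB.card.trans (hK.hilb 1 le_rfl)
    subst h4
    have a0 := congrFun h2 0
    have a1 := congrFun h2 1
    simp only [Pi.add_apply, Pi.smul_apply, smul_eq_mul, Pi.zero_apply] at a0 a1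
    have h3 : c 0 * c' 1 - c 1 * c' 0 ≠ 0 := fun e => by
      have := congrArg (eval (Sum.elim ![1, 0, 0, 0] ![0, 1, 0, 0])) (hc.eq_zero_of_aeval_eq_zero
        (X (.inl 0) * X (.inr 1) - X (.inl 1) * X (.inr 0)) (by simpa using e))
      simp at this
    have u1 : f (1, 0) = 0 := mul_left_cancel₀ h3 (by linear_combination c' 1 * a0 - c' 0 * a1)
    have u2 : f (0, 1) = 0 := mul_left_cancel₀ h3 (by linear_combination c 0 * a1 - c 1 * a0)
    exact f0 (LinearMap.ext fun p => (e p.1 p.2).trans (by simp [u1, u2]))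
  have hk := M.finrank_range_add_finrank_ker
  rw [hr, finrank_top, Module.finrank_prod, Module.finrank_self, Module.finrank_fin_fun] at hk
  have on : ∀ x : PP (Fin (1 + 3)) K, On (Ideal.span {F}) x ↔ aeval x.rep F = 0 := fun x =>
    ⟨fun h => h F (Ideal.mem_span_singleton_self F), fun h f hf => by
      obtain ⟨g, rfl⟩ := Ideal.mem_span_singleton'.1 hf
      rw [map_mul, h, mul_zero]⟩
  refine core (hF.map (algebraMap k K)) (LinearMap.ker M) (by omega) Z (fun x => ?_)
    fun x hx δ h1 h2 => ?_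
  · rw [hZ, Zs, on, LinearMap.mem_ker, hM, Prod.mk_eq_zero, eval_map_eq, and_comm]
  · rw [LinearMap.mem_ker, hM, Prod.mk_eq_zero] at h1
    refine hT k K 1 2 _ hK 1 h β c c' le_rfl hB hc x ((hZ x).1 hx) δ (fun f hf => ?_)
      ((dv_lin g1 _ _).trans h1.1) ((dv_lin g2 _ _).trans h1.2)
    obtain ⟨g, rfl⟩ := Ideal.mem_span_singleton'.1 hf
    rw [map_mul, dv_mul, h2, eval_map_eq _ F, (on x).1 ((hZ x).1 hx).1, mul_zero, zero_mul,
      add_zero]

end Pool.Agent.MP_9207e0_ag.CC
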