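import Pool.Agent.MP_9207e0_ag.cc.Spec2
import Pool.Agent.MP_9207e0_ag.cc.Chu
import Pool.Agent.MP_9207e0_ag.cc.Ind

/-! PROJECT CCC: four times a flecnode of a quartic surface has a constant class. -/

noncomputable section

namespace Pool.Agent.MP_9207e0_ag.CC

open MvPolynomial
open scoped Classical

theorem qcls_aeval {k K L σ : Type} [Field k] [Field K] [Field L] [Algebra k K] [Algebra k L]
    [Algebra K L] [IsScalarTower k K L] (u v : σ → K) (t : L) (f : MvPolynomial σ k) :
    Polynomial.aeval t (aeval (fun j => Polynomial.C (u j) + Polynomial.X * Polynomial.C (v j)) f) =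
      aeval (fun j => algebraMap K L (u j) + t * algebraMap K L (v j)) f := by
  have := comp_aeval_apply (fun j => Polynomial.C (u j) + Polynomial.X * Polynomial.C (v j))
    ((Polynomial.aeval t : Polynomial K →ₐ[K] L).restrictScalars k) f
  simp only [AlgHom.restrictScalars_apply, map_add, map_mul, Polynomial.aeval_C,
    Polynomial.aeval_X] at this
  exact this

theorem qcls_eval {k K σ : Type} [Field k] [Field K] [Algebra k K] (u v : σ → K) (t : K)
    (f : MvPolynomial σ k) :
    Polynomial.eval t (aeval (fun j => Polynomial.C (u j) + Polynomial.X * Polynomial.C (v j)) f) =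
      aeval (u + t • v) f := by
  rw [← Polynomial.coe_aeval_eq_eval, qcls_aeval]
  rfl

theorem lineS : LineStmt := by
  intro k K σ _ _ _ _ I p q hI hq h
  refine ⟨0, fun x hx => absurd hx (Multiset.notMem_zero x), Relation.EqvGen.rel _ _ ?_⟩
  rw [add_zero, add_zero]
  have v0 : (fun j => algebraMap K (LL K) (p.rep j) + tt K * algebraMap K (LL K) (q.rep j)) ≠ 0 := by
    intro h0
    obtain ⟨a, ha⟩ := Function.ne_iff.1 q.rep_nonzero
    refine tt_transcendental (K := K) ⟨Polynomial.C (q.rep a) * Polynomial.X +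
      Polynomial.C (p.rep a), fun e => ha ?_, ?_⟩
    · simpa using congrArg (fun g => Polynomial.coeff g 1) e
    · have := congrFun h0 a
      simp only [Pi.zero_apply] at this
      simp only [map_add, map_mul, Polynomial.aeval_C, Polynomial.aeval_X]
      linear_combination this
  obtain ⟨u, hu⟩ := Projectivization.exists_smul_eq_mk_rep (LL K) _ v0
  refine ⟨fun x hx f hf => ?_, fun x hx => Multiset.mem_singleton.1 hx ▸ hq,
    Polynomial.C (lin q.rep) * Polynomial.X + Polynomial.C (lin p.rep), 1, 1,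
    ((u⁻¹ : (LL K)ˣ) : LL K), {Projectivization.mk _ _ v0}, one_ne_zero, one_ne_zero, ?_, ?_,
    fun x hx => ?_, ?_⟩
  · have := qcls_eval p.rep q.rep 0 f
    rw [h f hf, Polynomial.eval_zero, zero_smul, add_zero] at this
    rw [Multiset.mem_singleton.1 hx]
    exact this.symm
  · simp [chow]
  · rw [Polynomial.leadingCoeff_linear (chu_lin_ne q.rep_nonzero)]
    simp [chow]
  · rw [Multiset.mem_singleton.1 hx, on_mk hI]
    intro f hf
    rw [← qcls_aeval, h f hf, map_zero]
  · rw [chow, Multiset.map_singleton, Multiset.prod_singleton, ← hu, Units.smul_def, chu_lin_smul,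
      ← mul_assoc, ← C_mul, Units.inv_mul, C_1, one_mul, gen, Polynomial.eval₂_add,
      Polynomial.eval₂_mul, Polynomial.eval₂_C, Polynomial.eval₂_C, Polynomial.eval₂_X]
    simp only [lin, map_sum, map_mul, map_C, map_X, map_add, Finset.sum_mul,
      ← Finset.sum_add_distrib]
    exact Finset.sum_congr rfl fun j _ => by ring

/-- A quartic form with contact of order four along a line is a multiple of `t ^ 4`. -/
theorem qcls_line {k K σ : Type} [Field k] [Field K] [IsAlgClosed K] [Algebra k K]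
    {F : MvPolynomial σ k} (hF : F.IsHomogeneous 4) {p q : σ → K}
    (h : (Polynomial.X : Polynomial K) ^ 4 ∣
      aeval (fun j => Polynomial.C (p j) + Polynomial.X * Polynomial.C (q j)) F) :
    ∃ e : K, ∀ s : K, aeval (q + s • p) F = e := by
  have hd : (aeval (fun j => Polynomial.C (p j) + Polynomial.X * Polynomial.C (q j)) F :
      Polynomial K).natDegree ≤ 4 * 1 := by
    rw [← aeval_map_algebraMap K]
    refine aeval_natDegree_le _ (hF.map _).totalDegree_le _ fun j => ?_
    rw [add_comm, mul_comm]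
    exact Polynomial.natDegree_linear_le
  obtain ⟨g, hg⟩ := h
  have g0 : g.natDegree = 0 := by
    by_cases h0 : g = 0
    · rw [h0, Polynomial.natDegree_zero]
    · rw [hg, Polynomial.natDegree_X_pow_mul 4 h0] at hd
      omega
  obtain ⟨e, rfl⟩ := Polynomial.natDegree_eq_zero.1 g0
  have key : aeval (fun j => Polynomial.C (q j) + Polynomial.X * Polynomial.C (p j)) F =
      Polynomial.C e := by
    refine Polynomial.eq_of_infinite_eval_eq _ _
      ((Set.finite_singleton (0 : K)).infinite_compl.mono fun s hs => ?_)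
    have s0 : s ≠ 0 := hs
    have e1 := qcls_eval p q s⁻¹ F
    have e2 : q + s • p = s • (p + s⁻¹ • q) := by
      rw [smul_add, smul_smul, mul_inv_cancel₀ s0, one_smul, add_comm]
    rw [Set.mem_ofPred_eq, qcls_eval, e2, aeval_smul_homog hF, ← e1, hg]
    simp only [Polynomial.eval_mul, Polynomial.eval_pow, Polynomial.eval_X, Polynomial.eval_C]
    field_simp
  exact ⟨e, fun s => by rw [← qcls_eval, key, Polynomial.eval_C]⟩

/-- Two linear forms that cut out a line. -/
theorem qcls_forms {K : Type} [Field K] {p q : Fin (1 + 3) → K} (hp : p ≠ 0)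
    (hq : q ∉ Submodule.span K {p}) : ∃ G : Fin 2 → MvPolynomial (Fin (1 + 3)) K,
      (∀ i, (G i).IsHomogeneous 1) ∧
      ∀ v, (∀ i, eval v (G i) = 0) → ∃ a b : K, a • q + b • p = v := by
  have li : LinearIndependent K ![q, p] := linearIndependent_fin2.2
    ⟨hp, fun a ha => hq (Submodule.mem_span_singleton.2 ⟨a, ha⟩)⟩
  have f1 := finrank_span_eq_card li
  have er : Set.range ![q, p] = {q, p} := Matrix.range_cons_cons_empty q p _
  rw [er] at f1
  have f2 := Submodule.finrank_quotient_add_finrank (Submodule.span K {q, p})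
  rw [f1, Module.finrank_fin_fun, Fintype.card_fin] at f2
  let B := Module.finBasisOfFinrankEq K ((Fin (1 + 3) → K) ⧸ Submodule.span K {q, p})
    (n := 2) (by omega)
  let φ : Fin 2 → (Fin (1 + 3) → K) →ₗ[K] K := fun i => (B.coord i).comp (Submodule.mkQ _)
  refine ⟨fun i => lin fun j => φ i fun l => if j = l then 1 else 0, fun i => chu_lin_homog _,
    fun v hv => Submodule.mem_span_pair.1 ((Submodule.Quotient.mk_eq_zero _).1
      (B.forall_coord_eq_zero_iff.1 fun i => ?_))⟩
  have := hv i
  rw [chu_eval_lin] at this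
  refine (LinearMap.pi_apply_eq_sum_univ (φ i) v).trans (Eq.trans ?_ this)
  exact Finset.sum_congr rfl fun j _ => mul_comm _ _

theorem qclsS (hB : BasStmt) (hC : CiStmt) (hK : ClsStmt) (hQ : QcardStmt) (hS : SpecStmt)
    (hR : RatpStmt) (hL : LineStmt) : QclsStmt := by
  intro k _ _ _ F hF hI
  have hH : Hg (Ideal.span {F}) := hI.homog
  obtain ⟨h, β, hβ⟩ := hB k _ (Ideal.span {F}) 1 hH
  obtain ⟨E, z, hz⟩ : ∃ (E : Ext k) (z : Fin h ⊕ Fin h → E.K), AlgebraicIndependent k z :=
    ⟨⟨AlgebraicClosure (FractionRing (MvPolynomial (Fin h ⊕ Fin h) k))⟩, _,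
      ((MvPolynomial.algebraicIndependent_X _ k).map' (f := IsScalarTower.toAlgHom k _
        (FractionRing (MvPolynomial (Fin h ⊕ Fin h) k))) (IsFractionRing.injective _ _)).map'
        (f := IsScalarTower.toAlgHom k _ _) (RingHom.injective _)⟩
  have hz' : AlgebraicIndependent k (Sum.elim (z ∘ Sum.inl) (z ∘ Sum.inr)) := by
    rwa [Sum.elim_comp_inl_inr]
  obtain ⟨Z, hZ, -⟩ := hC k E.K 1 2 _ hI 1 h β _ _ le_rfl hβ hz'
  obtain ⟨α, -, hα⟩ := hK k E.K 1 2 _ hI 1 h β _ _ Z le_rfl hβ hz' hZ
  have c4 := hQ k E.K F h β _ _ Z hF hI hβ hz' hZ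
  refine ⟨α, fun K _ _ _ p hp ⟨q, hq, hf⟩ => ?_⟩
  obtain ⟨G, g1, g2⟩ := qcls_forms p.rep_nonzero hq
  obtain ⟨b, hb⟩ := hβ.span K (G 0) (g1 0)
  obtain ⟨b', hb'⟩ := hβ.span K (G 1) (g1 1)
  obtain ⟨P, hP, pz⟩ := (ASp.of_indep hz (Sum.elim b b')).place
  have sp := hS k E.K K _ _ P _ _ hH hP hα
  rw [map_bc_red hP] at sp
  obtain ⟨r1, -, r3, r4, -⟩ := hR k K _ (Ideal.span {F}) hH
  have hFI : F ∈ Ideal.span {F} := Ideal.mem_span_singleton_self F
  obtain ⟨e, he⟩ := qcls_line hF (hf F hFI)
  have key := ratp_replicate hR hH hp (Z.val.map P.red) fun y hy => by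
    obtain ⟨x, hx, rfl⟩ := Multiset.mem_map.1 hy
    obtain ⟨y1, y2, y3⟩ := Zs.red hH hP (fm_homog hβ.homog _) (fm_homog hβ.homog _)
      (Rd.fm hP β (b := b) fun l => pz (Sum.inl l)) (Rd.fm hP β (b := b') fun l => pz (Sum.inr l))
      ((hZ x).1 hx)
    generalize P.red x = y at y1 y2 y3
    have w1 := IK_eval y1 hb
    have w2 := IK_eval y1 hb'
    rw [map_sub, y2, sub_zero] at w1
    rw [map_sub, y3, sub_zero] at w2
    obtain ⟨s, t, hy⟩ := g2 y.rep (Fin.forall_fin_two.2 ⟨w1, w2⟩)
    refine ⟨y1, ?_⟩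
    by_cases s0 : s = 0
    · have : y = p := by
        rw [← y.mk_rep, ← p.mk_rep, Projectivization.mk_eq_mk_iff']
        exact ⟨t, by rw [← hy, s0, zero_smul, zero_add]⟩
      rw [this]
      exact r1 _
    · have sc : ∀ c d : K, c ≠ 0 → aeval (c • q + d • p.rep) F = c ^ 4 * e := fun c d c0 => by
        rw [← he (c⁻¹ * d), ← aeval_smul_homog hF, smul_add, smul_smul, mul_inv_cancel_left₀ c0]
      have e0 : e = 0 := by
        have := sc s t s0
        rw [hy, y1 F hFI] at this
        exact (mul_eq_zero.1 this.symm).resolve_left (pow_ne_zero _ s0)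
      refine r3 _ _ (hL k K _ _ p y hH y1 fun f hf' => ?_)
      obtain ⟨g, rfl⟩ := Ideal.mem_span_singleton'.1 hf'
      rw [map_mul]
      refine mul_eq_zero_of_right _ (Polynomial.funext fun τ => ?_)
      rw [qcls_eval, Polynomial.eval_zero]
      by_cases t0 : τ = 0
      · rw [t0, zero_smul, add_zero]
        exact hp F hFI
      · have e1 : p.rep + τ • y.rep = (τ * s) • q + (1 + τ * t) • p.rep := by
          rw [← hy]
          module
        rw [e1, sc _ _ (mul_ne_zero t0 s0), e0, mul_zero]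
  rw [Multiset.card_map, Finset.card_val, c4] at key
  exact r4 _ _ _ (r3 _ _ key) sp

end Pool.Agent.MP_9207e0_ag.CC
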