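import Pool.Agent.MP_9207e0_ag.cc.Spec2
import Pool.Agent.MP_9207e0_ag.cc.Gen

/-! PROJECT CCC, row QFORM: the equation of the flecnodal curve. -/

noncomputable section

namespace Pool.Agent.MP_9207e0_ag.CC

open MvPolynomial
open scoped Classical

variable {k K σ : Type} [Field k] [Field K] [Algebra k K]

theorem qform_comp [Infinite K] (v : σ → K) (s : MvPolynomial σ k) (m n : ℕ) (y : K)
    (h : ∀ c : K, c ^ m * aeval (c • v) s = c ^ (n + m) * y) :
    aeval v (homogeneousComponent n s) = y := by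
  let P : Polynomial K := ∑ j ∈ Finset.range (s.totalDegree + 1),
    Polynomial.monomial j (aeval v (homogeneousComponent j s))
  have hP : ∀ c : K, P.eval c = aeval (c • v) s := fun c => by
    conv_rhs => rw [← sum_homogeneousComponent s, map_sum]
    rw [Polynomial.eval_finsetSum]
    refine Finset.sum_congr rfl fun j _ => ?_
    rw [aeval_smul_homog (homogeneousComponent_isHomogeneous j s), Polynomial.eval_monomial,
      mul_comm]
  have h1 : Polynomial.X ^ m * P = Polynomial.monomial (n + m) y := by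
    refine Polynomial.funext fun c => ?_
    rw [Polynomial.eval_mul, Polynomial.eval_pow, Polynomial.eval_X, hP, h,
      Polynomial.eval_monomial, mul_comm]
  have h2 := congrArg (fun Q => Polynomial.coeff Q (n + m)) h1
  simp only [Polynomial.coeff_X_pow_mul, Polynomial.coeff_monomial, if_true] at h2
  rw [← h2, Polynomial.finsetSum_coeff]
  simp only [Polynomial.coeff_monomial, Finset.sum_ite_eq', Finset.mem_range]
  split_ifs with h3
  · rfl
  · rw [homogeneousComponent_eq_zero _ _ (by omega), map_zero]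

theorem qform_coeff [Fintype σ] (z q : σ → K) (f : MvPolynomial σ k) :
    (aeval (fun j => Polynomial.C (z j) + Polynomial.X * Polynomial.C (q j)) f :
      Polynomial K).coeff 0 = aeval z f ∧
    (aeval (fun j => Polynomial.C (z j) + Polynomial.X * Polynomial.C (q j)) f :
      Polynomial K).coeff 1 = dv (map (algebraMap k K) f) z q := by
  induction f using MvPolynomial.induction_on with
  | C c => simp [dv_C, Polynomial.coeff_C, Polynomial.algebraMap_apply]
  | add f g hf hg =>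
    simp only [map_add, Polynomial.coeff_add, hf.1, hf.2, hg.1, hg.2, dv_add, and_self]
  | mul_X f i hf =>
    simp only [map_mul, aeval_X, map_X, dv_mul, dv_X, eval_X, eval_map_eq]
    rw [mul_add, ← mul_assoc, Polynomial.coeff_add, Polynomial.coeff_add, Polynomial.coeff_mul_C,
      Polynomial.coeff_mul_C, Polynomial.coeff_mul_C, Polynomial.coeff_mul_C,
      Polynomial.coeff_mul_X_zero, Polynomial.coeff_mul_X, hf.1, hf.2]
    exact ⟨by ring, by ring⟩

theorem qform_fr {F : MvPolynomial σ k} (hF : F.IsHomogeneous 4) (b i l : σ) :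
    (fr F b i l).IsHomogeneous 3 := by
  unfold fr
  refine IsHomogeneous.sub ?_ ?_ <;> split_ifs
  · exact hF.pderiv
  · exact isHomogeneous_zero _ _ _
  · exact hF.pderiv
  · exact isHomogeneous_zero _ _ _

theorem qform_single [DecidableEq σ] (i l : σ) :
    ((Pi.single i 1 : σ → MvPolynomial σ k) l).IsHomogeneous 0 := by
  rw [Pi.single_apply]
  split_ifs
  · exact isHomogeneous_one _ _
  · exact isHomogeneous_zero _ _ _

theorem qform_vol {F : MvPolynomial (Fin (1 + 3)) k} (hF : F.IsHomogeneous 4)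
    (b i j : Fin (1 + 3)) : (vol F b i j).IsHomogeneous 4 := by
  unfold vol
  refine IsHomogeneous.mul (m := 3) (n := 1) hF.pderiv ?_
  rw [Matrix.det_apply']
  refine IsHomogeneous.sum _ _ _ fun π _ => ?_
  refine IsHomogeneous.mul (m := 0) (n := 1) ?_ ?_
  · rw [← map_intCast (C : k →+* MvPolynomial (Fin (1 + 3)) k)]
    exact isHomogeneous_C _ _
  · have e : (1 : ℕ) = ∑ l, (![1, 0, 0, 0] : Fin (1 + 3) → ℕ) (π l) := by
      rw [Equiv.sum_comp π (![1, 0, 0, 0] : Fin (1 + 3) → ℕ)]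
      decide
    refine (congrArg (IsHomogeneous _) e).mpr (IsHomogeneous.prod _ _ _ fun l _ => ?_)
    generalize π l = a
    fin_cases a
    · exact isHomogeneous_X _ _
    · exact qform_single (k := k) i l
    · exact qform_single (k := k) j l
    · exact qform_single (k := k) b l

/-- The resultant in the frame `(i, j, b)`. -/
def qfR (F : MvPolynomial σ k) (b i j : σ) : MvPolynomial σ k :=
  rho F X (fr F b i) (fr F b j)

theorem qform_eval (h1 : RhoMapStmt) (F : MvPolynomial σ k) (b i j : σ) (p : σ → K) :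
    aeval p (qfR F b i j) =
      rho F p (fun l => aeval p (fr F b i l)) fun l => aeval p (fr F b j l) := by
  have := (h1 k σ _ K F X (fr F b i) (fr F b j)).1 (aeval p)
  have e : (aeval p : MvPolynomial σ k →ₐ[k] K) ∘ X = p := funext fun l => aeval_X p l
  rw [e] at this
  exact this

theorem qform_scale (h1 : RhoMapStmt) {F : MvPolynomial σ k} (hF : F.IsHomogeneous 4)
    (b i j : σ) (p : σ → K) (c : K) :
    aeval (c • p) (qfR F b i j) = c ^ 44 * aeval p (qfR F b i j) := by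
  rw [qform_eval h1, qform_eval h1, ← (h1 k σ K K F p _ _).2 hF c]
  congr 1 <;> funext l <;> exact aeval_smul_homog (qform_fr hF _ _ l) c p

theorem qform_change (h1 : RhoMapStmt) (h2 : RhoTrStmt) (h4 : FrameStmt)
    {F : MvPolynomial (Fin (1 + 3)) k} (hF : F.IsHomogeneous 4) {p : Fin (1 + 3) → K}
    (hp : aeval p F = 0) {b i j b' i' j' : Fin (1 + 3)} (h : aeval p (vol F b i j) ≠ 0)
    (h' : aeval p (vol F b' i' j') ≠ 0) :
    aeval p (qfR F b' i' j') * aeval p (vol F b i j) ^ 6 =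
      aeval p (qfR F b i j) * aeval p (vol F b' i' j') ^ 6 := by
  obtain ⟨f1, -, f3⟩ := h4 k K F p hF hp
  obtain ⟨-, g2, g3⟩ := f3 b i j h
  obtain ⟨x, y, z, e⟩ := g2 _ (f1 b' i')
  obtain ⟨x', y', z', e'⟩ := g2 _ (f1 b' j')
  have hb : aeval p (pderiv b' F) ≠ 0 := fun h0 => h' (by
    unfold vol
    rw [map_mul, h0, zero_mul])
  rw [g3 b' i' j' x y z x' y' z' hb e e', qform_eval h1, qform_eval h1, e, e',
    h2 k K _ F p _ _ x y x' y' z z' hF hp (f1 b i) (f1 b j)]
  ring

theorem qform_good [IsAlgClosed k] (h4 : FrameStmt) (hT : TanStmt)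
    {F : MvPolynomial (Fin (1 + 3)) k} (hF : F.IsHomogeneous 4)
    (hI : IsK3Model (Ideal.span {F}) 2) {p : Fin (1 + 3) → K} (h0 : p ≠ 0)
    (hp : aeval p F = 0) : ∃ b i j, aeval p (vol F b i j) ≠ 0 := by
  refine (h4 k K F p hF hp).2.1 h0 ?_
  by_contra hc
  push Not at hc
  have hon : OnX (Ideal.span {F}) p := fun f hf => by
    obtain ⟨g, rfl⟩ := Ideal.mem_span_singleton'.1 hf
    rw [map_mul, hp, mul_zero]
  have h5 := hT k K 1 2 _ hI p h0 hon
  have h6 : tang (Ideal.span {F}) p = ⊤ := by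
    refine eq_top_iff.2 fun δ _ f hf => ?_
    obtain ⟨g, rfl⟩ := Ideal.mem_span_singleton'.1 hf
    have : dv (map (algebraMap k K) F) p δ = 0 := by
      unfold dv
      refine Finset.sum_eq_zero fun j _ => ?_
      rw [pderiv_map, eval_map_eq, hc, zero_mul]
    rw [map_mul, dv_mul, this, eval_map_eq p F, hp, mul_zero, zero_mul, add_zero]
  rw [h6, finrank_top, Module.finrank_fin_fun] at h5
  omega

theorem qform_glue [IsAlgClosed k] (hR : RegStmt) {r a : ℕ}
    {I : Ideal (MvPolynomial (Fin (r + 3)) k)} (hI : IsK3Model I a) {v : Fin (r + 3) → K}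
    (hv : ∀ f, aeval v f = 0 ↔ f ∈ I) (u : K)
    (h : ∀ z : Fin (r + 3) → k, z ≠ 0 → OnX I z →
      ∃ g g' : MvPolynomial (Fin (r + 3)) k, aeval z g ≠ 0 ∧ aeval v g * u = aeval v g') :
    ∃ s : MvPolynomial (Fin (r + 3)) k, aeval v s = u := by
  let A : Ideal (MvPolynomial (Fin (r + 3)) k) :=
    { carrier := {g | ∃ g' : MvPolynomial (Fin (r + 3)) k, aeval v g * u = aeval v g'}
      add_mem' := by
        rintro f g ⟨f', hf⟩ ⟨g', hg⟩
        exact ⟨f' + g', by rw [map_add, map_add, add_mul, hf, hg]⟩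
      zero_mem' := ⟨0, by simp⟩
      smul_mem' := by
        rintro c g ⟨g', hg⟩
        exact ⟨c * g', by rw [smul_eq_mul, map_mul, map_mul, mul_assoc, hg]⟩ }
  have hX : ∀ j, X j ∈ A.radical := fun j => by
    rw [← vanishingIdeal_zeroLocus_eq_radical (K := k), mem_vanishingIdeal_iff]
    intro z hz
    by_cases h0 : z = 0
    · rw [aeval_X, h0]
      rfl
    · obtain ⟨g, g', h1, h2⟩ := h z h0 fun f hf => hz f ⟨0, by rw [(hv f).2 hf]; simp⟩
      exact absurd (hz g ⟨g', h2⟩) h1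
  obtain ⟨n₀, h₀⟩ := hX 0
  obtain ⟨n₁, h₁⟩ := hX 1
  obtain ⟨g₀, e₀⟩ : X 0 ^ (n₀ + n₁) ∈ A := by
    rw [pow_add]
    exact A.mul_mem_right _ h₀
  obtain ⟨g₁, e₁⟩ : X 1 ^ (n₀ + n₁) ∈ A := by
    rw [pow_add]
    exact A.mul_mem_left _ h₁
  have h2 : X 1 ^ (n₀ + n₁) * g₀ - g₁ * X 0 ^ (n₀ + n₁) ∈ I := (hv _).1 (by
    rw [map_sub, map_mul, map_mul, ← e₀, ← e₁]
    ring)
  have h3 := ((hR k r a I hI).1 (n₀ + n₁)).2.1 g₀ (by
    rw [← sub_add_cancel (X 1 ^ (n₀ + n₁) * g₀) (g₁ * X 0 ^ (n₀ + n₁))]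
    exact Submodule.add_mem_sup h2 (Ideal.mem_span_singleton'.2 ⟨g₁, rfl⟩))
  obtain ⟨f, hf, w, hw, e⟩ := Submodule.mem_sup.1 h3
  obtain ⟨s, rfl⟩ := Ideal.mem_span_singleton'.1 hw
  refine ⟨s, ?_⟩
  have h4 : aeval v (X 0 ^ (n₀ + n₁) : MvPolynomial (Fin (r + 3)) k) ≠ 0 := fun h =>
    hI.reg0 (hI.prime.mem_of_pow_mem _ ((hv _).1 h))
  rw [← e, map_add, (hv f).2 hf, zero_add, map_mul, mul_comm] at e₀
  exact (mul_right_cancel₀ h4 e₀).symm

theorem qform_flex [IsAlgClosed K] (h2 : RhoTrStmt) (h3 : RhoZeroStmt) (h4 : FrameStmt)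
    {F : MvPolynomial (Fin (1 + 3)) k} (hF : F.IsHomogeneous 4) {p : PP (Fin (1 + 3)) K}
    (hp : aeval p.rep F = 0) {b i j : Fin (1 + 3)} (h : aeval p.rep (vol F b i j) ≠ 0) :
    rho F p.rep (fun l => aeval p.rep (fr F b i l)) (fun l => aeval p.rep (fr F b j l)) = 0 ↔
      IsFlex (Ideal.span {F}) p := by
  obtain ⟨f1, -, f3⟩ := h4 k K F p.rep hF hp
  obtain ⟨g1, g2, -⟩ := f3 b i j h
  have d1 := f1 b i
  have d2 := f1 b j
  generalize (fun l => aeval p.rep (fr F b i l)) = e₁ at *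
  generalize (fun l => aeval p.rep (fr F b j l)) = e₂ at *
  constructor
  · intro h0
    obtain ⟨x, y, hxy, hd⟩ := (h3 k K _ F p.rep e₁ e₂ hp d1 d2).1 h0
    refine ⟨fun l => x * e₁ l + y * e₂ l, fun hq => ?_, fun f hf => ?_⟩
    · obtain ⟨t, ht⟩ := Submodule.mem_span_singleton.1 hq
      have := g1 x y (-t) (by
        rw [neg_smul, ht]
        funext l
        simp)
      tauto
    · obtain ⟨g, rfl⟩ := Ideal.mem_span_singleton'.1 hf
      rw [map_mul]
      exact hd.mul_left _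
  · rintro ⟨q, hq, hd⟩
    have hd' := hd F (Ideal.mem_span_singleton_self F)
    have d3 : dv (map (algebraMap k K) F) p.rep q = 0 := by
      rw [← (qform_coeff p.rep q F).2]
      exact Polynomial.X_pow_dvd_iff.1 hd' 1 (by norm_num)
    obtain ⟨x, y, w, e⟩ := g2 q d3
    obtain ⟨c, d, hcd⟩ : ∃ c d : K, x * d - y * c ≠ 0 := by
      by_cases hx : x = 0
      · refine ⟨1, 0, fun h => hq ?_⟩
        have hy : y = 0 := by simpa using h
        rw [e, hx, hy, zero_smul, zero_smul, zero_add, zero_add]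
        exact Submodule.mem_span_singleton.2 ⟨w, rfl⟩
      · exact ⟨0, 1, by simpa using hx⟩
    have d4 : dv (map (algebraMap k K) F) p.rep (c • e₁ + d • e₂ + (0 : K) • p.rep) = 0 := by
      rw [zero_smul, add_zero, ← dvL_apply, map_add, map_smul, map_smul, dvL_apply, dvL_apply,
        d1, d2]
      simp
    have h5 := (h3 k K _ F p.rep q _ hp d3 d4).2 ⟨1, 0, Or.inl one_ne_zero, by
      simpa only [one_mul, zero_mul, add_zero] using hd'⟩
    rw [e, h2 k K _ F p.rep e₁ e₂ x y c d w 0 hF hp d1 d2] at h5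
    exact (mul_eq_zero.1 h5).resolve_left (pow_ne_zero _ hcd)

theorem qformS (h1 : RhoMapStmt) (h2 : RhoTrStmt) (h3 : RhoZeroStmt) (h4 : FrameStmt)
    (_hG : GenStmt) (hR : RegStmt) (hT : TanStmt) : QformStmt := by
  intro k _ _ F hF hI
  obtain ⟨E, v, hv⟩ := gen_ex _ hI.prime
  have h0 : v ≠ 0 := fun hz => hI.reg0 ((hv _).1 (by rw [aeval_X, hz]; rfl))
  have hFI := Ideal.mem_span_singleton_self F
  have hvF := (hv F).2 hFI
  obtain ⟨b₀, i₀, j₀, hω⟩ := qform_good h4 hT hF hI h0 hvF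
  let u : E.K := aeval v (qfR F b₀ i₀ j₀) / aeval v (vol F b₀ i₀ j₀) ^ 6
  have hu : ∀ b i j, vol F b i j ∉ Ideal.span {F} →
      aeval v (vol F b i j ^ 6) * u = aeval v (qfR F b i j) := fun b i j hb => by
    have := qform_change h1 h2 h4 hF hvF hω fun h => hb ((hv _).1 h)
    rw [map_pow, ← mul_div_assoc, div_eq_iff (pow_ne_zero _ hω), this, mul_comm]
  obtain ⟨s₀, hs₀⟩ := qform_glue hR hI hv u fun z hz hon => by
    obtain ⟨b, i, j, hb⟩ := qform_good h4 hT hF hI hz (hon F hFI)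
    exact ⟨_, _, by rw [map_pow]; exact pow_ne_zero _ hb, hu b i j fun h => hb (hon _ h)⟩
  have hmem : ∀ s, aeval v s = u → ∀ b i j, vol F b i j ∉ Ideal.span {F} →
      vol F b i j ^ 6 * s - qfR F b i j ∈ Ideal.span {F} := fun s hs b i j hb => (hv _).1 (by
    rw [map_sub, map_mul, hs, hu b i j hb, sub_self])
  have hs : aeval v (homogeneousComponent 20 s₀) = u := by
    refine qform_comp v s₀ 24 20 u fun c => ?_
    have hg : vol F b₀ i₀ j₀ ∉ Ideal.span {F} := fun h => hω ((hv _).2 h)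
    have h5 := OnX.smul hI.homog (fun f hf => (hv f).2 hf) c _ (hmem s₀ hs₀ _ _ _ hg)
    rw [map_sub, map_mul, map_pow, aeval_smul_homog (qform_vol hF _ _ _), qform_scale h1 hF,
      ← hu _ _ _ hg, map_pow, sub_eq_zero] at h5
    refine mul_left_cancel₀ (pow_ne_zero 6 hω) ?_
    linear_combination h5
  refine ⟨_, homogeneousComponent_isHomogeneous 20 s₀, fun K _ _ _ p hp => ?_⟩
  obtain ⟨b, i, j, hb⟩ := qform_good h4 hT hF hI p.rep_nonzero (hp F hFI)
  have h5 := hp _ (hmem _ hs b i j fun h => hb (hp _ h))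
  rw [map_sub, map_mul, map_pow, sub_eq_zero, qform_eval h1] at h5
  rw [← qform_flex h2 h3 h4 hF (hp F hFI) hb, ← h5, mul_eq_zero, or_iff_right (pow_ne_zero _ hb)]

end Pool.Agent.MP_9207e0_ag.CC
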