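import Pool.Agent.MP_9207e0_ag.cc.Spec2

/-! PROJECT CCC, row QHYP: a model in projective three-space is a quartic hypersurface. -/

noncomputable section

namespace Pool.Agent.MP_9207e0_ag.CC

open MvPolynomial
open scoped Classical

variable {k : Type} [Field k]

theorem qhyp_six (n : ℕ) : 6 * (n + 3).choose n = (n + 1) * (n + 2) * (n + 3) := by
  have h := Nat.descFactorial_eq_factorial_mul_choose (n + 3) 3
  rw [Nat.choose_symm_add, show 6 = Nat.factorial 3 from rfl, ← h]
  simp only [Nat.descFactorial_succ, Nat.descFactorial_zero]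
  rw [show n + 3 - 2 = n + 1 from rfl, show n + 3 - 1 = n + 2 from rfl]
  simp only [Nat.sub_zero]
  ring

theorem qhyp_rank (J : Ideal (MvPolynomial (Fin (1 + 3)) k)) (j : ℕ) :
    hf J j + Module.finrank k ↥(homogeneousSubmodule (Fin (1 + 3)) k j ⊓ J.restrictScalars k) =
      (j + 3).choose j := by
  have : Module.Finite k (homogeneousSubmodule (Fin (1 + 3)) k j) :=
    Module.Finite.iff_fg.2 (homogeneousSubmodule_fg _ k j)
  have h := ((Ideal.Quotient.mkₐ k J).toLinearMap.domRestrict
    (homogeneousSubmodule (Fin (1 + 3)) k j)).finrank_range_add_finrank_ker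
  have e : LinearMap.ker (Ideal.Quotient.mkₐ k J).toLinearMap = J.restrictScalars k := by
    ext f
    exact Ideal.Quotient.eq_zero_iff_mem
  rw [LinearMap.range_domRestrict, LinearMap.ker_domRestrict, e,
    ← Submodule.finrank_map_subtype_eq (homogeneousSubmodule (Fin (1 + 3)) k j),
    Submodule.map_comap_subtype] at h
  rw [hf, h, homogeneousSubmodule_eq_finsupp_supported]
  refine (Module.finrank_eq_nat_card_basis
    (basisRestrictSupport k {d : Fin (1 + 3) →₀ ℕ | d.degree = j})).trans ?_
  have e2 : {d : Fin (1 + 3) →₀ ℕ | d.degree = j} =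
      ↑(Finset.finsuppAntidiag (Finset.univ : Finset (Fin (1 + 3))) j) := by
    ext d
    simp [Finsupp.degree_eq_sum]
  rw [e2, Nat.card_coe_set_eq, Set.ncard_coe_finset, Finset.card_finsuppAntidiag_nat_eq_choose,
    Finset.card_univ, Fintype.card_fin, show 1 + 3 + j - 1 = j + 3 by omega]

theorem qhyp_bot (j : ℕ) : hf (⊥ : Ideal (MvPolynomial (Fin (1 + 3)) k)) j = (j + 3).choose j := by
  have h := qhyp_rank (⊥ : Ideal (MvPolynomial (Fin (1 + 3)) k)) j
  rwa [Submodule.restrictScalars_bot, inf_bot_eq, finrank_bot, add_zero] at h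

theorem qhypS (h : ExactStmt) : QhypStmt := by
  intro k _ I hI
  obtain ⟨F, ⟨hF, hFI⟩, F0⟩ : ∃ F ∈ homogeneousSubmodule (Fin (1 + 3)) k 4 ⊓ I.restrictScalars k,
      F ≠ 0 := by
    refine Submodule.exists_mem_ne_zero_of_ne_bot fun e => ?_
    have h4 := qhyp_rank I 4
    rw [e, finrank_bot, hI.hilb 4 (by norm_num)] at h4
    exact absurd h4 (by decide)
  have le : Ideal.span {F} ≤ I := (Ideal.span_singleton_le_iff_mem _).2 hFI
  obtain ⟨-, e1, -, e3⟩ := h k _ ⊥ F 4 (fun f hf j => by
    rw [(Submodule.mem_bot _).1 hf, map_zero]; exact zero_mem _) hF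
  rw [bot_sup_eq] at e1 e3
  have e4 := e3.1 fun g hg => (Submodule.mem_bot _).2
    ((mul_eq_zero.1 ((Submodule.mem_bot _).1 hg)).resolve_left F0)
  have key : ∀ j, 1 ≤ j → hf (Ideal.span {F}) j ≤ hf I j := by
    intro j hj
    rw [hI.hilb j hj]
    by_cases h4 : j < 4
    · rw [e1 j h4, qhyp_bot]
      interval_cases j <;> decide
    · obtain ⟨i, rfl⟩ : ∃ i, j = i + 4 := ⟨j - 4, by omega⟩
      have a := e4 i
      rw [qhyp_bot, qhyp_bot] at a
      have b := qhyp_six i
      have c := qhyp_six (i + 4)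
      have d : (i + 4 + 1) * (i + 4 + 2) * (i + 4 + 3) =
          (i + 1) * (i + 2) * (i + 3) + 6 * (2 * (i + 4) ^ 2 + 2) := by ring
      omega
  refine ⟨F, hF, le_antisymm (fun f hf' => ?_) le⟩
  rw [← sum_homogeneousComponent f]
  refine sum_mem fun j _ => ?_
  have hj := hI.homog f hf' j
  rcases Nat.eq_zero_or_pos j with rfl | j1
  · rw [homogeneousComponent_zero] at hj ⊢
    by_cases c0 : coeff 0 f = 0
    · rw [c0, map_zero]; exact zero_mem _
    · exact absurd (I.eq_top_of_isUnit_mem hj ((Ne.isUnit c0).map C)) hI.prime.ne_top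
  · have : Module.Finite k (homogeneousSubmodule (Fin (1 + 3)) k j) :=
      Module.Finite.iff_fg.2 (homogeneousSubmodule_fg _ k j)
    have : Module.Finite k
        ↥(homogeneousSubmodule (Fin (1 + 3)) k j ⊓ I.restrictScalars k) :=
      Submodule.finiteDimensional_of_le inf_le_left
    have a := qhyp_rank I j
    have b := qhyp_rank (Ideal.span {F}) j
    have c := key j j1
    have e := Submodule.eq_of_le_of_finrank_le
      (S₁ := homogeneousSubmodule (Fin (1 + 3)) k j ⊓ (Ideal.span {F}).restrictScalars k)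
      (S₂ := homogeneousSubmodule (Fin (1 + 3)) k j ⊓ I.restrictScalars k)
      (inf_le_inf_left _ fun _ hx => le hx) (by omega)
    exact (e.ge ⟨homogeneousComponent_mem j f, hj⟩).2

end Pool.Agent.MP_9207e0_ag.CC
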