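import Pool.Agent.MP_9207e0_ag.cc.Spec2

/-! PROJECT CCC, row RHOMAP: functoriality and homogeneity of the resultant `rho`. -/

noncomputable section

namespace Pool.Agent.MP_9207e0_ag.CC

open MvPolynomial
open scoped Classical

namespace Rhomap

variable {k σ R R' : Type} [Field k] [CommRing R] [Algebra k R] [CommRing R'] [Algebra k R']

theorem aeval_smul_ring {f : MvPolynomial σ k} {n : ℕ} (hf : f.IsHomogeneous n) (c : R)
    (v : σ → R) : aeval (fun j => c * v j) f = c ^ n * aeval v f := by
  rw [f.as_sum, map_sum, map_sum, Finset.mul_sum]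
  refine Finset.sum_congr rfl fun d hd => ?_
  have hdeg : ∑ i ∈ d.support, d i = n := by
    have := hf (mem_support_iff.1 hd)
    simpa [Finsupp.weight_apply, Finsupp.sum] using this
  rw [aeval_monomial, aeval_monomial, Finsupp.prod, Finsupp.prod]
  simp only [mul_pow]
  rw [Finset.prod_mul_distrib, Finset.prod_pow_eq_pow_sum, hdeg]
  ring

theorem map_psi (F : MvPolynomial σ k) (p e₁ e₂ : σ → R) (f : R →ₐ[k] R') :
    map (f : R →+* R') (psi F p e₁ e₂) = psi F (f ∘ p) (f ∘ e₁) (f ∘ e₂) := by
  unfold psi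
  induction F using MvPolynomial.induction_on with
  | C a =>
    rw [aeval_C, aeval_C, MvPolynomial.algebraMap_apply, MvPolynomial.algebraMap_apply, map_C]
    exact congrArg C (f.commutes a)
  | add p q hp hq => rw [map_add, map_add, map_add, hp, hq]
  | mul_X q n hq =>
    rw [map_mul, map_mul, map_mul, hq, aeval_X, aeval_X]
    simp

theorem coeff_scale (u : R) (g : MvPolynomial (Fin 2) R) (d : Fin 2 →₀ ℕ) :
    coeff d (aeval (fun i => C u * X i) g : MvPolynomial (Fin 2) R) =
      u ^ (d 0 + d 1) * coeff d g := by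
  induction g using MvPolynomial.induction_on' with
  | monomial e a =>
    have : (aeval (fun i => C u * X i) (monomial e a) : MvPolynomial (Fin 2) R) =
        monomial e (u ^ (e 0 + e 1) * a) := by
      rw [aeval_monomial, Finsupp.prod_fintype _ _ (by simp), Fin.prod_univ_two, monomial_eq,
        Finsupp.prod_fintype _ _ (by simp), Fin.prod_univ_two, algebraMap_eq]
      simp only [map_mul, map_pow]
      ring
    rw [this, coeff_monomial, coeff_monomial]
    split_ifs with h
    · rw [h]
    · rw [mul_zero]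
  | add p q hp hq => rw [map_add, coeff_add, coeff_add, hp, hq, mul_add]

theorem psi_scale {F : MvPolynomial σ k} (hF : F.IsHomogeneous 4) (p e₁ e₂ : σ → R) (c : R) :
    psi F (c • p) (c ^ 3 • e₁) (c ^ 3 • e₂) =
      C (c ^ 4) * aeval (fun i => C (c ^ 2) * X i) (psi F p e₁ e₂) := by
  have h1 : (aeval (fun i => C (c ^ 2) * X i) (psi F p e₁ e₂) : MvPolynomial (Fin 2) R) =
      aeval (fun j => (C (p j) + C (c ^ 2) * X 0 * C (e₁ j) + C (c ^ 2) * X 1 * C (e₂ j) :
        MvPolynomial (Fin 2) R)) F := by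
    unfold psi
    have := congrArg (fun φ : MvPolynomial σ k →ₐ[k] MvPolynomial (Fin 2) R => φ F)
      (comp_aeval (fun j => (C (p j) + X 0 * C (e₁ j) + X 1 * C (e₂ j) : MvPolynomial (Fin 2) R))
        ((aeval (fun i => C (c ^ 2) * X i) :
          MvPolynomial (Fin 2) R →ₐ[R] MvPolynomial (Fin 2) R).restrictScalars k))
    simpa using this
  rw [h1, map_pow (C : R →+* MvPolynomial (Fin 2) R) c 4, ← aeval_smul_ring hF]
  unfold psi
  congr 2
  funext j
  simp only [Pi.smul_apply, smul_eq_mul, map_mul, map_pow]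
  ring

theorem coeff_psi_scale {F : MvPolynomial σ k} (hF : F.IsHomogeneous 4) (p e₁ e₂ : σ → R) (c : R)
    (i j : ℕ) : coeff (mono i j) (psi F (c • p) (c ^ 3 • e₁) (c ^ 3 • e₂)) =
      c ^ 4 * ((c ^ 2) ^ (i + j) * coeff (mono i j) (psi F p e₁ e₂)) := by
  rw [psi_scale hF, coeff_C_mul, coeff_scale]
  simp [mono]

end Rhomap

theorem rhoMapS : RhoMapStmt := by
  intro k σ R R' _ _ _ _ _ F p e₁ e₂
  refine ⟨fun f => ?_, fun hF c => ?_⟩
  · unfold rho
    rw [← Rhomap.map_psi F p e₁ e₂ f]
    simp only [coeff_map, res23, map_add, map_sub, map_mul, map_pow, map_ofNat, RingHom.coe_coe]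
  · unfold rho
    simp only [Rhomap.coeff_psi_scale hF, res23]
    ring

end Pool.Agent.MP_9207e0_ag.CC
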