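import Pool.Agent.MP_9207e0_ag.cc.Spec2

/-! PROJECT CCC, row RHOTR: the resultant under a change of the tangent frame. -/

noncomputable section

namespace Pool.Agent.MP_9207e0_ag.CC

open MvPolynomial
open scoped Classical

section Aux

variable {k K σ : Type} [Field k] [Field K] [Algebra k K]

theorem rhotr_shear (a₀ a₁ a₂ b₀ b₁ b₂ b₃ x y : K) :
    res23 a₀ a₁ a₂ (b₀ + x * a₀) (b₁ + x * a₁ + y * a₀) (b₂ + x * a₂ + y * a₁) (b₃ + y * a₂) =
      res23 a₀ a₁ a₂ b₀ b₁ b₂ b₃ := by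
  unfold res23
  ring

theorem rhotr_lin (a₀ a₁ a₂ b₀ b₁ b₂ b₃ a b c d : K) :
    res23 (a₀ * a ^ 2 + a₁ * a * b + a₂ * b ^ 2)
      (2 * a₀ * a * c + a₁ * (a * d + b * c) + 2 * a₂ * b * d) (a₀ * c ^ 2 + a₁ * c * d + a₂ * d ^ 2)
      (b₀ * a ^ 3 + b₁ * a ^ 2 * b + b₂ * a * b ^ 2 + b₃ * b ^ 3)
      (3 * b₀ * a ^ 2 * c + b₁ * a * (a * d + 2 * b * c) + b₂ * b * (2 * a * d + b * c) +
        3 * b₃ * b ^ 2 * d)
      (3 * b₀ * a * c ^ 2 + b₁ * c * (2 * a * d + b * c) + b₂ * d * (a * d + 2 * b * c) +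
        3 * b₃ * b * d ^ 2)
      (b₀ * c ^ 3 + b₁ * c ^ 2 * d + b₂ * c * d ^ 2 + b₃ * d ^ 3) =
      (a * d - b * c) ^ 6 * res23 a₀ a₁ a₂ b₀ b₁ b₂ b₃ := by
  unfold res23
  ring

theorem rhotr_mono (x : K) (i j : ℕ) :
    (C x * X 0 ^ i * X 1 ^ j : MvPolynomial (Fin 2) K) = monomial (mono i j) x := by
  rw [C_mul_X_pow_eq_monomial, X_pow_eq_monomial, monomial_mul, mul_one, mono]

theorem rhotr_inj {i j i' j' : ℕ} : mono i j = mono i' j' ↔ i = i' ∧ j = j' := by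
  refine ⟨fun h => ⟨?_, ?_⟩, fun ⟨h, h'⟩ => by rw [h, h']⟩
  · simpa [mono] using DFunLike.congr_fun h 0
  · simpa [mono] using DFunLike.congr_fun h 1

theorem rhotr_read {F : MvPolynomial σ k} {p e₁ e₂ : σ → K} {a₀ a₁ a₂ b₀ b₁ b₂ b₃ : K}
    {R : MvPolynomial (Fin 2) K} (hR : R.IsHomogeneous 4)
    (h : psi F p e₁ e₂ = C a₀ * X 0 ^ 2 * X 1 ^ 0 + C a₁ * X 0 ^ 1 * X 1 ^ 1 +
      C a₂ * X 0 ^ 0 * X 1 ^ 2 + C b₀ * X 0 ^ 3 * X 1 ^ 0 + C b₁ * X 0 ^ 2 * X 1 ^ 1 +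
      C b₂ * X 0 ^ 1 * X 1 ^ 2 + C b₃ * X 0 ^ 0 * X 1 ^ 3 + R) :
    rho F p e₁ e₂ = res23 a₀ a₁ a₂ b₀ b₁ b₂ b₃ := by
  have e : ∀ i j, i + j ≠ 4 → coeff (mono i j) R = 0 := fun i j hij =>
    hR.coeff_eq_zero (by simpa [mono] using hij)
  simp only [rhotr_mono] at h
  simp [rho, h, rhotr_inj, e]

/-- Ternary quartics. -/
def rhotrQ (g : ℕ → ℕ → K) : MvPolynomial (Fin 3) K :=
  ∑ i ∈ Finset.range 5, ∑ j ∈ Finset.range (5 - i), C (g i j) * X 0 ^ (4 - i - j) * X 1 ^ i * X 2 ^ j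

theorem rhotr_form {G : MvPolynomial (Fin 3) K} (h : G.IsHomogeneous 4) : ∃ g, G = rhotrQ g := by
  rw [G.as_sum]
  refine Finset.sum_induction _ (fun H => ∃ g, H = rhotrQ g) ?_ ⟨0, by simp [rhotrQ]⟩ fun d hd => ?_
  · rintro _ _ ⟨g, rfl⟩ ⟨g', rfl⟩
    exact ⟨g + g', by simp [rhotrQ, add_mul, Finset.sum_add_distrib]⟩
  · have e : d 0 + d 1 + d 2 = 4 := by
      have := by_contra fun hne => mem_support_iff.1 hd (h.coeff_eq_zero hne)
      rwa [Finsupp.degree_eq_sum, Fin.sum_univ_three] at this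
    refine ⟨fun i j => if i = d 1 ∧ j = d 2 then coeff d G else 0, ?_⟩
    rw [rhotrQ, Finset.sum_eq_single_of_mem (d 1) (Finset.mem_range.2 (by omega))
      fun i _ hi => by simp [hi], Finset.sum_eq_single_of_mem (d 2) (Finset.mem_range.2 (by omega))
      fun j _ hj => by simp [hj], if_pos ⟨rfl, rfl⟩, monomial_eq, Finsupp.prod_fintype _ _ (by simp),
      Fin.prod_univ_three, show 4 - d 1 - d 2 = d 0 by omega, mul_assoc, mul_assoc, mul_assoc]

theorem rhotr_chain [Fintype σ] (φ : σ → MvPolynomial (Fin 3) K) (z : Fin 3 → K) (i : Fin 3)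
    (F : MvPolynomial σ k) : eval z (aeval φ F) = aeval (fun j => eval z (φ j)) F ∧
      eval z (pderiv i (aeval φ F)) = dv (map (algebraMap k K) F) (fun j => eval z (φ j))
        fun j => eval z (pderiv i (φ j)) := by
  induction F using MvPolynomial.induction_on with
  | C c => simp [dv_C, MvPolynomial.algebraMap_apply]
  | add f g hf hg => simp only [map_add, dv_add, hf.1, hf.2, hg.1, hg.2, and_self]
  | mul_X f j hf =>
    simp only [map_mul, aeval_X, map_X, dv_mul, dv_X, eval_X, eval_map_eq, Derivation.leibniz,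
      smul_eq_mul, map_add, hf.1, hf.2, and_self]

end Aux

theorem rhoTrS : RhoTrStmt := by
  intro k K σ _ _ _ _ F p e₁ e₂ a b c d l m hF h0 h1 h2
  let φ : σ → MvPolynomial (Fin 3) K := fun j => X 0 * C (p j) + X 1 * C (e₁ j) + X 2 * C (e₂ j)
  have hx : ∀ (i : Fin 3) (x : K), (X i * C x : MvPolynomial (Fin 3) K).IsHomogeneous 1 :=
    fun i x => (isHomogeneous_X K i).mul (isHomogeneous_C _ x)
  obtain ⟨g, hg⟩ := rhotr_form (hF.aeval φ fun j => ((hx 0 _).add (hx 1 _)).add (hx 2 _))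
  have hp : (fun j => eval ![1, 0, 0] (φ j)) = p := by
    funext j
    simp [φ]
  have g0 : g 0 0 = 0 := by
    have e := (rhotr_chain φ ![1, 0, 0] 0 F).1
    rw [hp, h0, hg] at e
    simpa [rhotrQ, Finset.sum_range_succ] using e
  have g1 : g 1 0 = 0 := by
    have e := (rhotr_chain φ ![1, 0, 0] 1 F).2
    rw [hp, hg, show (fun j => eval ![1, 0, 0] (pderiv 1 (φ j))) = e₁ by
      funext j
      simp [φ], h1] at e
    simpa [rhotrQ, Finset.sum_range_succ] using e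
  have g2 : g 0 1 = 0 := by
    have e := (rhotr_chain φ ![1, 0, 0] 2 F).2
    rw [hp, hg, show (fun j => eval ![1, 0, 0] (pderiv 2 (φ j))) = e₂ by
      funext j
      simp [φ], h2] at e
    simpa [rhotrQ, Finset.sum_range_succ] using e
  have key : ∀ a b c d l m : K, rho F p (a • e₁ + b • e₂ + l • p) (c • e₁ + d • e₂ + m • p) =
      (a * d - b * c) ^ 6 * res23 (g 2 0) (g 1 1) (g 0 2) (g 3 0) (g 2 1) (g 1 2) (g 0 3) := by
    intro a b c d l m
    have hl : ∀ x y : K, (C x * X 0 + C y * X 1 : MvPolynomial (Fin 2) K).IsHomogeneous 1 :=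
      fun x y => ((isHomogeneous_C _ x).mul (isHomogeneous_X K 0)).add
        ((isHomogeneous_C _ y).mul (isHomogeneous_X K 1))
    have h4 := (hF.aeval φ fun j => ((hx 0 _).add (hx 1 _)).add (hx 2 _)).aeval (n := 1)
      (τ := Fin 2)
      ![C l * X 0 + C m * X 1, C a * X 0 + C c * X 1, C b * X 0 + C d * X 1] fun i => by
        fin_cases i
        exacts [hl l m, hl a c, hl b d]
    rw [← rhotr_lin, ← rhotr_shear _ _ _ _ _ _ _ (2 * l) (2 * m)]
    rw [one_mul, one_mul] at h4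
    refine rhotr_read h4 ?_
    have e := comp_aeval_apply φ ((aeval
      ![1 + (C l * X 0 + C m * X 1), C a * X 0 + C c * X 1, C b * X 0 + C d * X 1] :
        MvPolynomial (Fin 3) K →ₐ[K] MvPolynomial (Fin 2) K).restrictScalars k) F
    rw [psi, show (fun j => (C (p j) + X 0 * C ((a • e₁ + b • e₂ + l • p) j) +
      X 1 * C ((c • e₁ + d • e₂ + m • p) j) : MvPolynomial (Fin 2) K)) = _ from ?_, ← e, hg]
    · simp only [rhotrQ, Finset.sum_range_succ, Finset.sum_range_zero, AlgHom.restrictScalars_apply,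
        map_add, map_mul, map_pow, aeval_C, aeval_X, algebraMap_eq, Matrix.cons_val_zero,
        Matrix.cons_val_one, Matrix.cons_val_two, Matrix.head_cons, Matrix.tail_cons, g0, g1, g2,
        map_zero, map_ofNat, Nat.reduceSub]
      ring
    · funext j
      simp [φ]
      ring
  have e := key 1 0 0 1 0 0
  simp only [one_smul, zero_smul, add_zero, zero_add, mul_one, mul_zero, sub_zero, one_pow,
    one_mul] at e
  rw [key, e]

end Pool.Agent.MP_9207e0_ag.CC
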