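import Pool.Agent.MP_9207e0_ag.cc.Spec2

/-! PROJECT CCC, row RHOZERO: the resultant vanishes exactly at the flex directions. -/

noncomputable section

namespace Pool.Agent.MP_9207e0_ag.CC

open MvPolynomial
open scoped Classical

theorem rz_mono_zero (i j : ℕ) : mono i j 0 = i := by
  simp [mono]

theorem rz_mono_one (i j : ℕ) : mono i j 1 = j := by
  simp [mono]

theorem rz_mono_eq (d : Fin 2 →₀ ℕ) : d = mono (d 0) (d 1) := by
  ext i
  fin_cases i
  · exact (rz_mono_zero _ _).symm
  · exact (rz_mono_one _ _).symm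

theorem rz_coeff {K : Type} [Field K] (a b : K) (n : ℕ) (Ψ : MvPolynomial (Fin 2) K) :
    (aeval ![Polynomial.X * Polynomial.C a, Polynomial.X * Polynomial.C b] Ψ).coeff n =
      ∑ ij ∈ Finset.HasAntidiagonal.antidiagonal n, coeff (mono ij.1 ij.2) Ψ * a ^ ij.1 * b ^ ij.2 := by
  induction Ψ using MvPolynomial.induction_on' with
  | monomial d c =>
    have h1 : aeval ![Polynomial.X * Polynomial.C a, Polynomial.X * Polynomial.C b]
        (monomial d c : MvPolynomial (Fin 2) K) =
        Polynomial.C (c * a ^ d 0 * b ^ d 1) * Polynomial.X ^ (d 0 + d 1) := by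
      rw [aeval_monomial, Finsupp.prod_fintype _ _ (by intro i; exact pow_zero _),
        Fin.prod_univ_two]
      simp only [Matrix.cons_val_zero, Matrix.cons_val_one, Polynomial.algebraMap_eq,
        map_mul, map_pow]
      ring
    rw [h1, Polynomial.coeff_C_mul_X_pow]
    have h2 : ∀ ij : ℕ × ℕ, ij ≠ (d 0, d 1) →
        coeff (mono ij.1 ij.2) (monomial d c : MvPolynomial (Fin 2) K) * a ^ ij.1 * b ^ ij.2 = 0 := by
      intro ij hij
      rw [coeff_monomial, if_neg, zero_mul, zero_mul]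
      intro h
      apply hij
      rw [h, rz_mono_zero, rz_mono_one]
    split_ifs with h
    · rw [Finset.sum_eq_single (d 0, d 1) (fun ij _ hij => h2 ij hij)]
      · rw [coeff_monomial, if_pos (rz_mono_eq d)]
      · intro hn
        exact absurd (Finset.HasAntidiagonal.mem_antidiagonal.2 h.symm) hn
    · symm
      refine Finset.sum_eq_zero fun ij hij => h2 ij ?_
      rintro rfl
      exact h (Finset.HasAntidiagonal.mem_antidiagonal.1 hij).symm
  | add p q hp hq =>
    rw [map_add, Polynomial.coeff_add, hp, hq, ← Finset.sum_add_distrib]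
    refine Finset.sum_congr rfl fun ij _ => ?_
    rw [coeff_add]
    ring

variable {k K σ : Type} [Field k] [Field K] [Algebra k K]

theorem rz_comp (F : MvPolynomial σ k) (p e₁ e₂ : σ → K) (a b : K) :
    aeval (fun j => Polynomial.C (p j) + Polynomial.X * Polynomial.C (a * e₁ j + b * e₂ j)) F =
      aeval ![Polynomial.X * Polynomial.C a, Polynomial.X * Polynomial.C b] (psi F p e₁ e₂) := by
  unfold psi
  induction F using MvPolynomial.induction_on with
  | C c =>
    rw [aeval_C, aeval_C, MvPolynomial.algebraMap_apply, aeval_C, Polynomial.algebraMap_apply,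
      Polynomial.algebraMap_eq]
  | add f g hf hg => rw [map_add, map_add, map_add, hf, hg]
  | mul_X f j hf =>
    rw [map_mul, map_mul, map_mul, hf, aeval_X, aeval_X]
    simp only [map_add, map_mul, aeval_C, aeval_X, Matrix.cons_val_zero, Matrix.cons_val_one,
      Polynomial.algebraMap_eq]
    ring

theorem rz_low [Fintype σ] (F : MvPolynomial σ k) (p q : σ → K) :
    (aeval (fun j => Polynomial.C (p j) + Polynomial.X * Polynomial.C (q j)) F).coeff 0 =
      aeval p F ∧
    (aeval (fun j => Polynomial.C (p j) + Polynomial.X * Polynomial.C (q j)) F).coeff 1 =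
      dv (map (algebraMap k K) F) p q := by
  induction F using MvPolynomial.induction_on with
  | C c =>
    rw [aeval_C, aeval_C, Polynomial.algebraMap_apply]
    refine ⟨Polynomial.coeff_C_zero, ?_⟩
    simp [dv]
  | add f g hf hg =>
    refine ⟨by rw [map_add, map_add, Polynomial.coeff_add, hf.1, hg.1], ?_⟩
    rw [map_add, Polynomial.coeff_add, hf.2, hg.2]
    simp only [dv, map_add, add_mul, Finset.sum_add_distrib]
  | mul_X f j hf =>
    set φ := aeval (fun j => Polynomial.C (p j) + Polynomial.X * Polynomial.C (q j)) f with hφ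
    have h1 : aeval (fun j => Polynomial.C (p j) + Polynomial.X * Polynomial.C (q j)) (f * X j) =
        φ * Polynomial.C (p j) + φ * Polynomial.C (q j) * Polynomial.X := by
      rw [map_mul, aeval_X, ← hφ]
      ring
    have h2 : eval p (map (algebraMap k K) f) = aeval p f := by
      rw [eval_map, aeval_def]
    rw [h1]
    constructor
    · rw [Polynomial.coeff_add, Polynomial.coeff_mul_C, Polynomial.mul_coeff_zero,
        Polynomial.coeff_X_zero, hf.1, map_mul, aeval_X]
      ring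
    · rw [Polynomial.coeff_add, Polynomial.coeff_mul_C, Polynomial.coeff_mul_X,
        Polynomial.coeff_mul_C, hf.1, hf.2]
      have h3 : ∀ i, eval p (pderiv i (map (algebraMap k K) (f * X j))) * q i =
          eval p (pderiv i (map (algebraMap k K) f)) * q i * p j +
            (if i = j then aeval p f * q j else 0) := by
        intro i
        rw [map_mul, map_X, Derivation.leibniz, smul_eq_mul, smul_eq_mul, map_add, map_mul,
          map_mul, eval_X, h2]
        by_cases h : i = j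
        · subst h
          rw [pderiv_X_self, if_pos rfl, map_one]
          ring
        · rw [pderiv_X_of_ne (Ne.symm h), if_neg h, map_zero]
          ring
      simp only [dv, h3, Finset.sum_add_distrib, Finset.sum_ite_eq', Finset.mem_univ, if_true,
        Finset.sum_mul]

theorem rz_fact {a₀ a₁ a₂ a b : K} (h : a ≠ 0 ∨ b ≠ 0)
    (hQ : a₀ * a ^ 2 + a₁ * a * b + a₂ * b ^ 2 = 0) :
    ∃ u v : K, a₀ = b * v ∧ a₁ = -(b * u + a * v) ∧ a₂ = a * u := by
  rcases h with h | h
  · refine ⟨a₂ / a, -(a₁ + b * (a₂ / a)) / a, ?_, ?_, ?_⟩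
    · field_simp
      linear_combination hQ
    · field_simp
      ring
    · field_simp
  · refine ⟨-(a₁ + a * (a₀ / b)) / b, a₀ / b, ?_, ?_, ?_⟩
    · field_simp
    · field_simp
      ring
    · field_simp
      linear_combination hQ

theorem rz_prod (a b u v b₀ b₁ b₂ b₃ : K) :
    res23 (b * v) (-(b * u + a * v)) (a * u) b₀ b₁ b₂ b₃ =
      (b₀ * a ^ 3 + b₁ * a ^ 2 * b + b₂ * a * b ^ 2 + b₃ * b ^ 3) *
        (b₀ * u ^ 3 + b₁ * u ^ 2 * v + b₂ * u * v ^ 2 + b₃ * v ^ 3) := by
  unfold res23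
  ring

theorem rz_root2 [IsAlgClosed K] (a₀ a₁ a₂ : K) :
    ∃ a b : K, (a ≠ 0 ∨ b ≠ 0) ∧ a₀ * a ^ 2 + a₁ * a * b + a₂ * b ^ 2 = 0 := by
  by_cases h : a₀ = 0
  · exact ⟨1, 0, Or.inl one_ne_zero, by rw [h]; ring⟩
  · obtain ⟨x, hx⟩ := IsAlgClosed.exists_root
      (Polynomial.C a₀ * Polynomial.X ^ 2 + Polynomial.C a₁ * Polynomial.X + Polynomial.C a₂)
      (by rw [Polynomial.degree_quadratic h]; decide)
    refine ⟨x, 1, Or.inr one_ne_zero, ?_⟩
    simp only [Polynomial.IsRoot, Polynomial.eval_add, Polynomial.eval_mul, Polynomial.eval_C,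
      Polynomial.eval_pow, Polynomial.eval_X] at hx
    linear_combination hx

theorem rz_root3 [IsAlgClosed K] (b₀ b₁ b₂ b₃ : K) :
    ∃ a b : K, (a ≠ 0 ∨ b ≠ 0) ∧
      b₀ * a ^ 3 + b₁ * a ^ 2 * b + b₂ * a * b ^ 2 + b₃ * b ^ 3 = 0 := by
  by_cases h : b₀ = 0
  · exact ⟨1, 0, Or.inl one_ne_zero, by rw [h]; ring⟩
  · obtain ⟨x, hx⟩ := IsAlgClosed.exists_root
      (Polynomial.C b₀ * Polynomial.X ^ 3 + Polynomial.C b₁ * Polynomial.X ^ 2 +
        Polynomial.C b₂ * Polynomial.X + Polynomial.C b₃)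
      (by rw [Polynomial.degree_cubic h]; decide)
    refine ⟨x, 1, Or.inr one_ne_zero, ?_⟩
    simp only [Polynomial.IsRoot, Polynomial.eval_add, Polynomial.eval_mul, Polynomial.eval_C,
      Polynomial.eval_pow, Polynomial.eval_X] at hx
    linear_combination hx

theorem rz_res [IsAlgClosed K] (a₀ a₁ a₂ b₀ b₁ b₂ b₃ : K) :
    res23 a₀ a₁ a₂ b₀ b₁ b₂ b₃ = 0 ↔ ∃ a b : K, (a ≠ 0 ∨ b ≠ 0) ∧
      a₀ * a ^ 2 + a₁ * a * b + a₂ * b ^ 2 = 0 ∧
      b₀ * a ^ 3 + b₁ * a ^ 2 * b + b₂ * a * b ^ 2 + b₃ * b ^ 3 = 0 := by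
  constructor
  · intro h
    obtain ⟨a, b, hab, hQ⟩ := rz_root2 a₀ a₁ a₂
    obtain ⟨u, v, rfl, rfl, rfl⟩ := rz_fact hab hQ
    rw [rz_prod, mul_eq_zero] at h
    rcases h with h | h
    · exact ⟨a, b, hab, hQ, h⟩
    · by_cases huv : u ≠ 0 ∨ v ≠ 0
      · exact ⟨u, v, huv, by ring, h⟩
      · rw [not_or, not_not, not_not] at huv
        obtain ⟨a', b', hab', hT⟩ := rz_root3 b₀ b₁ b₂ b₃
        refine ⟨a', b', hab', ?_, hT⟩
        rw [huv.1, huv.2]
        ring
  · rintro ⟨a, b, hab, hQ, hT⟩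
    obtain ⟨u, v, rfl, rfl, rfl⟩ := rz_fact hab hQ
    rw [rz_prod, hT, zero_mul]

theorem rhoZeroS : RhoZeroStmt := by
  intro k K σ _ _ _ _ _ F p e₁ e₂ h0 h1 h2
  unfold rho
  rw [rz_res]
  refine exists_congr fun a => exists_congr fun b => and_congr_right fun _ => ?_
  have l0 := (rz_low F p (fun j => a * e₁ j + b * e₂ j)).1
  have l1 := (rz_low F p (fun j => a * e₁ j + b * e₂ j)).2
  have hd : dv (map (algebraMap k K) F) p (fun j => a * e₁ j + b * e₂ j) = 0 := by
    have h3 : dv (map (algebraMap k K) F) p (fun j => a * e₁ j + b * e₂ j) =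
        a * dv (map (algebraMap k K) F) p e₁ + b * dv (map (algebraMap k K) F) p e₂ := by
      simp only [dv, Finset.mul_sum, ← Finset.sum_add_distrib]
      exact Finset.sum_congr rfl fun j _ => by ring
    rw [h3, h1, h2]
    ring
  rw [h0] at l0
  rw [hd] at l1
  have l2 := rz_coeff a b 2 (psi F p e₁ e₂)
  have l3 := rz_coeff a b 3 (psi F p e₁ e₂)
  rw [← rz_comp, Finset.Nat.sum_antidiagonal_eq_sum_range_succ_mk] at l2 l3
  simp only [Finset.sum_range_succ, Finset.sum_range_zero, Nat.succ_eq_add_one, Nat.reduceAdd,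
    Nat.sub_zero, Nat.reduceSub, Nat.sub_self] at l2 l3
  rw [Polynomial.X_pow_dvd_iff]
  constructor
  · rintro ⟨hQ, hT⟩ d hd4
    have hc : d = 0 ∨ d = 1 ∨ d = 2 ∨ d = 3 := by omega
    rcases hc with rfl | rfl | rfl | rfl
    · exact l0
    · exact l1
    · rw [l2]
      linear_combination hQ
    · rw [l3]
      linear_combination hT
  · intro h
    have c2 := h 2 (by norm_num)
    have c3 := h 3 (by norm_num)
    rw [l2] at c2
    rw [l3] at c3
    exact ⟨by linear_combination c2, by linear_combination c3⟩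

end Pool.Agent.MP_9207e0_ag.CC
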