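import Pool.Agent.MP_9207e0_ag.cc.Rk

/-! PROJECT CCC, row SPEC: rational equivalence passes to the reduction at a place. -/

noncomputable section

namespace Pool.Agent.MP_9207e0_ag.CC

open MvPolynomial
open scoped Classical

section Newton

variable {Γ : Type} [LinearOrderedCommGroupWithZero Γ]

theorem spec_up {r x a b : Γ} {l i : ℕ} (hl : l < i) (hr : r ≠ 0) (hb : b ≠ 0) (hx : r < x)
    (h : r ^ l * a ≤ r ^ i * b) : x ^ l * a < x ^ i * b := by
  obtain ⟨m, rfl⟩ := Nat.exists_eq_add_of_lt hl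
  have hx0 : 0 < x := lt_of_le_of_lt zero_le hx
  rw [add_assoc, pow_add, mul_assoc] at h ⊢
  have h1 : a ≤ r ^ (m + 1) * b := le_of_mul_le_mul_left h (pow_pos (zero_lt_iff.2 hr) l)
  refine mul_lt_mul_of_pos_left (h1.trans_lt ?_) (pow_pos hx0 l)
  exact mul_lt_mul_of_pos_right (pow_lt_pow_left₀ hx zero_le (Nat.succ_ne_zero m))
    (zero_lt_iff.2 hb)

theorem spec_down {r x a b : Γ} {l i : ℕ} (hl : i < l) (hx0 : x ≠ 0) (hb : b ≠ 0) (hx : x < r)
    (h : r ^ l * a ≤ r ^ i * b) : x ^ l * a < x ^ i * b := by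
  obtain ⟨m, rfl⟩ := Nat.exists_eq_add_of_lt hl
  have hr0 : 0 < r := lt_of_le_of_lt zero_le hx
  rw [add_assoc, pow_add, mul_assoc] at h ⊢
  have h1 : r ^ (m + 1) * a ≤ b := le_of_mul_le_mul_left h (pow_pos hr0 i)
  refine mul_lt_mul_of_pos_left ?_ (pow_pos (zero_lt_iff.2 hx0) i)
  by_cases ha : a = 0
  · rw [ha, mul_zero]; exact zero_lt_iff.2 hb
  · exact (mul_lt_mul_of_pos_right (pow_lt_pow_left₀ hx zero_le (Nat.succ_ne_zero m))
      (zero_lt_iff.2 ha)).trans_le h1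

/-- The next slope of the Newton polygon. -/
theorem spec_next (hr : ∀ (a : Γ) (m : ℕ), 0 < m → ∃ b, b ^ m = a) (g : ℕ → Γ) (n : ℕ)
    (hn : g n ≠ 0) (hz : ∀ l, n < l → g l = 0) {i : ℕ} (hi : i < n) (hg : g i ≠ 0) :
    ∃ r j, r ≠ 0 ∧ i < j ∧ r ^ j * g j = r ^ i * g i ∧
      (∀ l, i < l → r ^ l * g l ≤ r ^ i * g i) ∧ ∀ l, j < l → r ^ l * g l < r ^ i * g i := by
  have h1 : ∀ l, ∃ b : Γ, i < l → g l ≠ 0 → b ≠ 0 ∧ b ^ l * g l = b ^ i * g i := fun l => by
    by_cases hl : i < l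
    · obtain ⟨b, hb⟩ := hr (g i / g l) (l - i) (Nat.sub_pos_of_lt hl)
      refine ⟨b, fun _ h0 => ⟨fun h => ?_, ?_⟩⟩
      · rw [h, zero_pow (Nat.sub_pos_of_lt hl).ne'] at hb
        exact div_ne_zero hg h0 hb.symm
      · have : b ^ l = b ^ i * b ^ (l - i) := by rw [← pow_add, Nat.add_sub_cancel' hl.le]
        rw [this, hb, mul_assoc, div_mul_cancel₀ _ h0]
    · exact ⟨0, fun h => absurd h hl⟩
  choose b hb using h1
  obtain ⟨l₀, hl₀, hmin⟩ := Finset.exists_min_image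
    ((Finset.range (n + 1)).filter fun l => i < l ∧ g l ≠ 0) b
    ⟨n, Finset.mem_filter.2 ⟨Finset.mem_range.2 n.lt_succ_self, hi, hn⟩⟩
  obtain ⟨h2, h3, h4⟩ := Finset.mem_filter.1 hl₀
  obtain ⟨hr0, he⟩ := hb l₀ h3 h4
  have hpos : 0 < b l₀ ^ i * g i := mul_pos (pow_pos (zero_lt_iff.2 hr0) i) (zero_lt_iff.2 hg)
  have hle : ∀ l, i < l → b l₀ ^ l * g l ≤ b l₀ ^ i * g i := fun l hl => by
    by_cases h0 : g l = 0
    · rw [h0, mul_zero]; exact zero_le
    · have hln : l < n + 1 := Nat.lt_succ_of_le (not_lt.1 fun h => h0 (hz l h))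
      rcases (hmin l (Finset.mem_filter.2 ⟨Finset.mem_range.2 hln, hl, h0⟩)).eq_or_lt with h | h
      · rw [h]; exact (hb l hl h0).2.le
      · exact (spec_down hl hr0 hg h (hb l hl h0).2.le).le
  obtain ⟨j, hj, hmax⟩ := Finset.exists_max_image
    ((Finset.range (n + 1)).filter fun l => i < l ∧ b l₀ ^ l * g l = b l₀ ^ i * g i) id
    ⟨l₀, Finset.mem_filter.2 ⟨h2, h3, he⟩⟩
  obtain ⟨-, h5, h6⟩ := Finset.mem_filter.1 hj
  refine ⟨b l₀, j, hr0, h5, h6, hle, fun l hl => ?_⟩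
  refine lt_of_le_of_ne (hle l (h5.trans hl)) fun h => ?_
  by_cases hln : n < l
  · rw [hz l hln, mul_zero] at h
    exact hpos.ne h
  · exact absurd (hmax l (Finset.mem_filter.2 ⟨Finset.mem_range.2
      (Nat.lt_succ_of_le (not_lt.1 hln)), h5.trans hl, h⟩)) (not_le.2 hl)

/-- Walking along the Newton polygon. -/
theorem spec_newton (hr : ∀ (a : Γ) (m : ℕ), 0 < m → ∃ b, b ^ m = a) (g : ℕ → Γ) (n : ℕ)
    (hn : g n ≠ 0) (hz : ∀ l, n < l → g l = 0) (h0 : g 0 ≠ 0) (Q : ℕ → Prop) (hQ : Q n)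
    (step : ∀ i j (r : Γ), r ≠ 0 → g i ≠ 0 →
      (i = 0 ∨ ∃ x : Γ, x ≠ 0 ∧ ∀ l, l ≠ i → x ^ l * g l < x ^ i * g i) →
      (∀ l, r ^ l * g l ≤ r ^ i * g i) → r ^ j * g j = r ^ i * g i →
      (∀ l, l < i → r ^ l * g l < r ^ i * g i) → (∀ l, j < l → r ^ l * g l < r ^ i * g i) →
      Q j → Q i) : Q 0 := by
  have key : ∀ d i, n ≤ i + d → g i ≠ 0 → (i = 0 ∨ ∃ r : Γ, r ≠ 0 ∧
      (∀ l, r ^ l * g l ≤ r ^ i * g i) ∧ ∀ l, i < l → r ^ l * g l < r ^ i * g i) → Q i := by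
    intro d
    induction d with
    | zero =>
      intro i h1 h2 _
      obtain rfl : n = i := le_antisymm h1 (not_lt.1 fun h => h2 (hz i h))
      exact hQ
    | succ d ih =>
      intro i h1 h2 h3
      rcases (not_lt.1 fun h => h2 (hz i h) : i ≤ n).eq_or_lt with h4 | h4
      · exact h4 ▸ hQ
      obtain ⟨r, j, hr0, hij, he, hle, hlt⟩ := spec_next hr g n hn hz h4 h2
      have hgj : g j ≠ 0 := fun h => by
        rw [h, mul_zero] at he
        exact mul_ne_zero (pow_ne_zero i hr0) h2 he.symm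
      have h5 : (∀ l, l < i → r ^ l * g l < r ^ i * g i) ∧
          (i = 0 ∨ ∃ x : Γ, x ≠ 0 ∧ ∀ l, l ≠ i → x ^ l * g l < x ^ i * g i) := by
        rcases h3 with rfl | ⟨s, hs0, hs1, hs2⟩
        · exact ⟨fun l hl => absurd hl (Nat.not_lt_zero l), Or.inl rfl⟩
        have hsr : s < r := by
          refine lt_of_not_ge fun h => ?_
          rcases h.eq_or_lt with h | h
          · exact (hs2 j hij).ne (h ▸ he)
          · exact lt_asymm (hs2 j hij) (spec_up hij hr0 hgj h he.ge)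
        refine ⟨fun l hl => spec_up hl hs0 h2 hsr (hs1 l), Or.inr ?_⟩
        obtain ⟨x, hx⟩ := hr (s * r) 2 two_pos
        have h6 : s < x := lt_of_pow_lt_pow_left₀ 2 zero_le (by
          rw [hx, pow_two]; exact mul_lt_mul_of_pos_left hsr (zero_lt_iff.2 hs0))
        have h7 : x < r := lt_of_pow_lt_pow_left₀ 2 zero_le (by
          rw [hx, pow_two]; exact mul_lt_mul_of_pos_right hsr (zero_lt_iff.2 hr0))
        have h8 : x ≠ 0 := (lt_of_le_of_lt zero_le h6).ne'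
        refine ⟨x, h8, fun l hl => ?_⟩
        rcases lt_or_gt_of_ne hl with hl | hl
        · exact spec_up hl hs0 h2 h6 (hs1 l)
        · exact spec_down hl h8 h2 h7 (hle l hl)
      have h9 : ∀ l, r ^ l * g l ≤ r ^ i * g i := fun l => by
        rcases lt_trichotomy l i with hl | hl | hl
        · exact (h5.1 l hl).le
        · rw [hl]
        · exact hle l hl
      refine step i j r hr0 h2 h5.2 h9 he h5.1 hlt (ih j (by omega) hgj (Or.inr ⟨r, hr0, ?_, ?_⟩))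
      · rw [he]; exact h9
      · rw [he]; exact hlt
  exact key n 0 (by omega) h0 (Or.inl rfl)

end Newton

variable {k K L E E' σ : Type} [Field k] [Field K] [Field L] [Field E] [Field E']

theorem spec_root [IsAlgClosed K] (V : ValuationSubring K) (a : V.ValueGroup) (m : ℕ)
    (hm : 0 < m) : ∃ b, b ^ m = a := by
  obtain ⟨x, rfl⟩ := V.valuation_surjective a
  obtain ⟨y, rfl⟩ := IsAlgClosed.exists_pow_nat_eq x hm
  exact ⟨V.valuation y, (map_pow _ _ _).symm⟩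

/-- The Gauss extension of a place. -/
theorem spec_place [IsAlgClosed E'] (P : Plc K L) (f : K →+* E) (g : L →+* E') (τ : E) (τ' : E')
    (hτ : ∀ p : Polynomial K, p.eval₂ f τ = 0 → p = 0) : ∃ R : Plc E E',
      (∀ x ∈ P.V, f x ∈ R.V ∧ R.fn (f x) = g (P.fn x)) ∧ τ ∈ R.V ∧ R.fn τ = τ' := by
  obtain ⟨R, hR⟩ := place (Polynomial.eval₂RingHom (f.comp P.V.subtype) τ)
    (Polynomial.eval₂RingHom (g.comp P.φ) τ') fun p hp => by
      have h1 : p.map P.V.subtype = 0 := hτ _ (by rw [Polynomial.eval₂_map]; exact hp)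
      have h2 : p = 0 := Polynomial.map_injective _ Subtype.val_injective
        (h1.trans (Polynomial.map_zero _).symm)
      rw [h2, map_zero]
  refine ⟨R, fun x hx => ?_, ?_⟩
  · have := hR (Polynomial.C ⟨x, hx⟩)
    simp only [Polynomial.coe_eval₂RingHom, Polynomial.eval₂_C] at this
    rw [P.fn_mem hx]
    exact this
  · have := hR Polynomial.X
    simpa only [Polynomial.coe_eval₂RingHom, Polynomial.eval₂_X] using this

theorem spec_rd_zero {P : Plc K L} {F' : MvPolynomial σ L} (h : Rd P 0 F') : F' = 0 :=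
  MvPolynomial.ext _ _ fun d => by rw [← (h d).2, coeff_zero, coeff_zero, P.fn_zero]

/-- Reduction of the members of a family. -/
theorem spec_rd {P : Plc K L} {R : Plc E E'} {f : K →+* E} {g : L →+* E'}
    (h : ∀ x ∈ P.V, f x ∈ R.V ∧ R.fn (f x) = g (P.fn x)) {τ : E} (hτ : τ ∈ R.V)
    {Ψ : Polynomial (MvPolynomial σ K)} {Ψ' : Polynomial (MvPolynomial σ L)}
    (hΨ : ∀ l, Rd P (Ψ.coeff l) (Ψ'.coeff l)) :
    Rd R (Ψ.eval₂ (map f) (C τ)) (Ψ'.eval₂ (map g) (C (R.fn τ))) := by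
  rw [Polynomial.eval₂_eq_sum_range' _ (n := Ψ.natDegree + Ψ'.natDegree + 1) (by omega),
    Polynomial.eval₂_eq_sum_range' _ (n := Ψ.natDegree + Ψ'.natDegree + 1) (by omega)]
  refine Rd.sum fun l _ => Rd.mul (fun d => ?_) ?_
  · rw [coeff_map, coeff_map, ← (hΨ l d).2]
    exact h _ (hΨ l d).1
  · rw [← C_pow, ← C_pow, ← R.fn_pow hτ]
    exact Rd.C (pow_mem hτ l)

/-- The family after a change of scale. -/
def specSc (s ρ : K) (Φ : Polynomial (MvPolynomial σ K)) : Polynomial (MvPolynomial σ K) :=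
  Polynomial.C (C s) * Φ.comp (Polynomial.C (C ρ) * Polynomial.X)

theorem specSc_coeff (s ρ : K) (Φ : Polynomial (MvPolynomial σ K)) (l : ℕ) :
    (specSc s ρ Φ).coeff l = C (s * ρ ^ l) * Φ.coeff l := by
  rw [specSc, Polynomial.coeff_C_mul, Polynomial.comp_C_mul_X_coeff, C_mul, C_pow]
  ring

theorem specSc_eval (s ρ : K) (Φ : Polynomial (MvPolynomial σ K)) (f : K →+* E) (τ : E) :
    (specSc s ρ Φ).eval₂ (map f) (C τ) = C (f s) * Φ.eval₂ (map f) (C (f ρ * τ)) := by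
  rw [specSc, Polynomial.eval₂_mul, Polynomial.eval₂_C, Polynomial.eval₂_comp,
    Polynomial.eval₂_mul, Polynomial.eval₂_C, Polynomial.eval₂_X, map_C, map_C, C_mul]

/-- Every form is a multiple of a primitive form. -/
theorem spec_prim (P : Plc K L) (G : MvPolynomial σ K) : ∃ (γ : K) (F : MvPolynomial σ K)
    (F' : MvPolynomial σ L), G = C γ * F ∧ Rd P F F' ∧ F' ≠ 0 := by
  by_cases hG : G = 0
  · refine ⟨0, C 1, C (P.fn 1), by rw [hG, C_0, zero_mul], Rd.C P.V.one_mem, ?_⟩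
    rw [P.fn_one, C_1]; exact one_ne_zero
  obtain ⟨d₀, hd₀, hmax⟩ := Finset.exists_max_image G.support
    (fun d => P.V.valuation (coeff d G)) (support_nonempty.2 hG)
  have h0 : coeff d₀ G ≠ 0 := mem_support_iff.1 hd₀
  have h1 : ∀ d, (coeff d₀ G)⁻¹ * coeff d G ∈ P.V := fun d => by
    by_cases hd : d ∈ G.support
    · rw [← P.V.valuation_le_one_iff, ← div_eq_inv_mul, map_div₀]
      exact div_le_one_of_le₀ (hmax d hd) zero_le
    · rw [notMem_support_iff.1 hd, mul_zero]; exact P.V.zero_mem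
  have h2 : ∀ d, coeff d (∑ e ∈ G.support, monomial e (P.fn ((coeff d₀ G)⁻¹ * coeff e G))) =
      P.fn ((coeff d₀ G)⁻¹ * coeff d G) := fun d => by
    rw [coeff_sum]
    simp only [coeff_monomial]
    rw [Finset.sum_ite_eq']
    split_ifs with hd
    · rfl
    · rw [notMem_support_iff.1 hd, mul_zero, P.fn_zero]
  refine ⟨coeff d₀ G, C (coeff d₀ G)⁻¹ * G,
    ∑ e ∈ G.support, monomial e (P.fn ((coeff d₀ G)⁻¹ * coeff e G)), ?_, fun d => ⟨?_, ?_⟩,
    fun h => ?_⟩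
  · rw [← mul_assoc, ← C_mul, mul_inv_cancel₀ h0, C_1, one_mul]
  · rw [coeff_C_mul]; exact h1 d
  · rw [coeff_C_mul]; exact (h2 d).symm
  · have := h2 d₀
    rw [h, coeff_zero, inv_mul_cancel₀ h0, P.fn_one] at this
    exact zero_ne_one this

theorem spec_poly {R : Type} [CommRing R] (e : ℕ → R) (n : ℕ) (h : ∀ l, n < l → e l = 0) :
    ∃ p : Polynomial R, ∀ l, p.coeff l = e l := by
  refine ⟨∑ l ∈ Finset.range (n + 1), Polynomial.monomial l (e l), fun l => ?_⟩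
  rw [Polynomial.finsetSum_coeff]
  simp only [Polynomial.coeff_monomial]
  rw [Finset.sum_ite_eq']
  split_ifs with hl
  · rfl
  · exact (h l (by rw [Finset.mem_range] at hl; omega)).symm

theorem spec_tr (ρ : K) (hρ : ρ ≠ 0) (p : Polynomial K)
    (hp : p.eval₂ (algebraMap K (LL K)) (tt K / algebraMap K (LL K) ρ) = 0) : p = 0 := by
  by_contra h0
  have h1 : IsAlgebraic K (tt K / algebraMap K (LL K) ρ) := ⟨p, h0, hp⟩
  have h2 := h1.mul (isAlgebraic_algebraMap (A := LL K) ρ)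
  rw [div_mul_cancel₀ _ ((map_ne_zero _).2 hρ)] at h2
  exact tt_transcendental h2

variable [Algebra k K] [Algebra k L] [Fintype σ] {I : Ideal (MvPolynomial σ k)} {P : Plc K L}
  {Φ : Polynomial (MvPolynomial σ K)} {c : LL K} {M : Multiset (PP σ (LL K))}

/-- An edge of the Newton polygon gives a family over `L`. -/
theorem spec_edge (hT : TransferStmt) (hI : Hg I) (hP : P.Over k) (hM : OnM I M)
    (hg : gen Φ = C c * chow M) {s ρ : K} (hρ : ρ ≠ 0) {Ψ' : Polynomial (MvPolynomial σ L)}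
    (h : ∀ l, Rd P ((specSc s ρ Φ).coeff l) (Ψ'.coeff l)) :
    ∃ (c' : LL L) (M' : Multiset (PP σ (LL L))), OnM I M' ∧ gen Ψ' = C c' * chow M' := by
  by_cases h0 : gen Ψ' = 0
  · exact ⟨0, 0, fun x hx => absurd hx (Multiset.notMem_zero x), by rw [h0, C_0, zero_mul]⟩
  obtain ⟨R, h1, h2, h3⟩ := spec_place P (algebraMap K (LL K)) (algebraMap L (LL L))
    (tt K / algebraMap K (LL K) ρ) (tt L) (spec_tr ρ hρ)
  have hR : R.Over k := fun a => by
    rw [IsScalarTower.algebraMap_apply k K (LL K), IsScalarTower.algebraMap_apply k L (LL L),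
      ← (hP a).2]
    exact h1 _ (hP a).1
  have h4 := spec_rd h1 h2 h
  rw [specSc_eval, h3, mul_div_cancel₀ _ ((map_ne_zero _).2 hρ)] at h4
  have h5 : Rd R (C (algebraMap K (LL K) s) * gen Φ) (gen Ψ') := h4
  rw [hg, ← mul_assoc, ← C_mul] at h5
  obtain ⟨c', -, h6⟩ := hT _ _ σ R M _ _ h5 h0
  exact ⟨c', _, hM.red hI hR, h6⟩

/-- A vertex of the Newton polygon gives a cycle over `L`. -/
theorem spec_vertex [IsAlgClosed K] (hT : TransferStmt) (hI : Hg I) (hP : P.Over k)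
    (hM : OnM I M) (hg : gen Φ = C c * chow M) {s ρ : K} {j : ℕ} {F' : MvPolynomial σ L}
    (h0 : F' ≠ 0)
    (h : ∀ l, Rd P ((specSc s ρ Φ).coeff l) ((Polynomial.monomial j F').coeff l)) :
    ∃ (c' : L) (B : Multiset (PP σ L)), c' ≠ 0 ∧ OnM I B ∧ F' = C c' * chow B := by
  obtain ⟨S, h1, h2, h3⟩ := spec_place (Plc.ofHom (RingHom.id K)) (algebraMap K (LL K))
    (RingHom.id K) (tt K) ρ fun p hp => by
      refine spec_tr 1 one_ne_zero p ?_
      rw [map_one, div_one]; exact hp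
  have hS : S.Over k := fun a => by
    rw [IsScalarTower.algebraMap_apply k K (LL K)]
    have := h1 (algebraMap k K a) (Plc.ofHom_mem _ _)
    rwa [Plc.ofHom_fn] at this
  have h4 : Rd S (gen Φ) (Φ.eval₂ (map (RingHom.id K)) (C (S.fn (tt K)))) :=
    spec_rd h1 h2 fun l d => ⟨Plc.ofHom_mem _ _, Plc.ofHom_fn _ _⟩
  have h5 := spec_rd (R := P) (f := RingHom.id K) (g := RingHom.id L) (fun x hx => ⟨hx, rfl⟩)
    P.V.one_mem h
  rw [specSc_eval, Polynomial.eval₂_monomial, P.fn_one, C_1, one_pow, mul_one, mul_one,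
    map_id] at h5
  rw [h3, hg] at h4
  have h6 : Φ.eval₂ (map (RingHom.id K)) (C ρ) ≠ 0 := fun h7 => by
    have h8 : Φ.eval₂ (map (RingHom.id K)) (C (RingHom.id K ρ)) = 0 := h7
    rw [h8, mul_zero] at h5
    exact h0 (spec_rd_zero h5)
  obtain ⟨c₁, -, h7⟩ := hT _ _ σ S M _ _ h4 h6
  have h8 : Φ.eval₂ (map (RingHom.id K)) (C (RingHom.id K ρ)) = _ := h7
  rw [h8, ← mul_assoc, ← C_mul] at h5
  obtain ⟨c', h9, h10⟩ := hT _ _ σ P _ _ _ h5 h0
  exact ⟨c', _, h9, (hM.red hI hS).red hI hP, h10⟩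

theorem spec_step [IsAlgClosed K] (hT : TransferStmt) (hC : ChuStmt) (hI : Hg I) (hP : P.Over k)
    {A B : Multiset (PP σ K)} (h : Step I A B) :
    Relation.EqvGen (Step I) (A.map P.red) (B.map P.red) := by
  obtain ⟨hA, hB, Φ, c₀, c₁, c, M, hc₀, hc₁, e₀, e₁, hM, hg⟩ := h
  choose γ F F' hγ hF hF' using fun l => spec_prim P (Φ.coeff l)
  have hF0 : ∀ l, F l ≠ 0 := fun l h => hF' l (spec_rd_zero (P := P) (by rw [← h]; exact hF l))
  have hz : ∀ l, Φ.natDegree < l → γ l = 0 := fun l hl => by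
    have := (hγ l).symm.trans (Polynomial.coeff_eq_zero_of_natDegree_lt hl)
    exact (C_eq_zero.1 ((mul_eq_zero.1 this).resolve_right (hF0 l)))
  have hend : ∀ (l : ℕ) (a : K) (D : Multiset (PP σ K)), a ≠ 0 → Φ.coeff l = C a * chow D →
      γ l ≠ 0 ∧ ∃ a' : L, a' ≠ 0 ∧ F' l = C a' * chow (D.map P.red) := fun l a D ha e => by
    have h1 : γ l ≠ 0 := fun h1 => by
      rw [hγ l, h1, C_0, zero_mul] at e
      have h2 : chow D = 0 := (mul_eq_zero.1 e.symm).resolve_left (C_ne_zero.2 ha)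
      have h3 := hC K σ D 0 1 0 one_ne_zero (by rw [h2, mul_zero, C_0, zero_mul])
      rw [h3] at h2
      exact one_ne_zero h2
    refine ⟨h1, hT _ _ σ P D ((γ l)⁻¹ * a) _ ?_ (hF' l)⟩
    rw [C_mul, mul_assoc, ← e, hγ l, ← mul_assoc, ← C_mul, inv_mul_cancel₀ h1, C_1, one_mul]
    exact hF l
  obtain ⟨g0, a₀, ha₀, f₀⟩ := hend 0 c₀ A hc₀ e₀
  obtain ⟨gn, a₁, ha₁, f₁⟩ := hend Φ.natDegree c₁ B hc₁ e₁
  have hsc : ∀ (ρ : K) (i : ℕ), ρ ≠ 0 → γ i ≠ 0 → (∀ l, P.V.valuation ρ ^ l *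
      P.V.valuation (γ l) ≤ P.V.valuation ρ ^ i * P.V.valuation (γ i)) → ∃ u : ℕ → L,
      (∀ l, Rd P ((specSc (ρ ^ i * γ i)⁻¹ ρ Φ).coeff l) (C (u l) * F' l)) ∧
      ∀ l, u l = 0 ↔ P.V.valuation ρ ^ l * P.V.valuation (γ l) <
        P.V.valuation ρ ^ i * P.V.valuation (γ i) := fun ρ i hρ hi hle => by
    have hp : 0 < P.V.valuation ρ ^ i * P.V.valuation (γ i) :=
      mul_pos (pow_pos (zero_lt_iff.2 ((map_ne_zero _).2 hρ)) i)
        (zero_lt_iff.2 ((map_ne_zero _).2 hi))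
    have hv : ∀ l, P.V.valuation ((ρ ^ i * γ i)⁻¹ * ρ ^ l * γ l) =
        P.V.valuation ρ ^ l * P.V.valuation (γ l) /
          (P.V.valuation ρ ^ i * P.V.valuation (γ i)) := fun l => by
      rw [mul_assoc, ← div_eq_inv_mul, map_div₀, map_mul, map_mul, map_pow, map_pow]
    have hm : ∀ l, (ρ ^ i * γ i)⁻¹ * ρ ^ l * γ l ∈ P.V := fun l => by
      rw [← P.V.valuation_le_one_iff, hv]
      exact div_le_one_of_le₀ (hle l) zero_le
    refine ⟨fun l => P.fn ((ρ ^ i * γ i)⁻¹ * ρ ^ l * γ l), fun l => ?_, fun l => ?_⟩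
    · rw [specSc_coeff, hγ l, ← mul_assoc, ← C_mul]
      exact (Rd.C (hm l)).mul (hF l)
    · rw [P.fn_eq_zero (hm l), hv, div_lt_one₀ hp]
  obtain ⟨A', a', ha', -, f', hE⟩ := spec_newton (spec_root P.V) (fun l => P.V.valuation (γ l))
    Φ.natDegree ((map_ne_zero _).2 gn) (fun l hl => by rw [hz l hl, map_zero])
    ((map_ne_zero _).2 g0)
    (fun l => ∃ (D : Multiset (PP σ L)) (a : L), a ≠ 0 ∧ OnM I D ∧ F' l = C a * chow D ∧
      Relation.EqvGen (Step I) D (B.map P.red))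
    ⟨_, a₁, ha₁, hB.red hI hP, f₁, Relation.EqvGen.refl _⟩ (by
      rintro i j r hr hi hv hle he hlo hhi ⟨D, a, ha, hD, fD, hE⟩
      have hi' : γ i ≠ 0 := (map_ne_zero _).1 hi
      obtain ⟨D', b, hb, hD', fD'⟩ : ∃ (D' : Multiset (PP σ L)) (b : L), b ≠ 0 ∧ OnM I D' ∧
          F' i = C b * chow D' := by
        rcases hv with rfl | ⟨x, hx, hlt⟩
        · exact ⟨_, a₀, ha₀, hA.red hI hP, f₀⟩
        obtain ⟨ρ, rfl⟩ := P.V.valuation_surjective x
        obtain ⟨u, h1, h2⟩ := hsc ρ i ((map_ne_zero _).1 hx) hi' fun l => by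
          by_cases hl : l = i
          · rw [hl]
          · exact (hlt l hl).le
        have h3 : u i ≠ 0 := fun h => lt_irrefl _ ((h2 i).1 h)
        obtain ⟨b, D', hb, hD', fD'⟩ := spec_vertex hT hI hP hM hg (j := i)
          (mul_ne_zero (C_ne_zero.2 h3) (hF' i)) (fun l => by
            rw [Polynomial.coeff_monomial]
            split_ifs with hl
            · rw [← hl]; exact h1 i
            · have := h1 l
              rwa [(h2 l).2 (hlt l (Ne.symm hl)), C_0, zero_mul] at this)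
        refine ⟨D', (u i)⁻¹ * b, mul_ne_zero (inv_ne_zero h3) hb, hD', ?_⟩
        rw [C_mul, mul_assoc, ← fD', ← mul_assoc, ← C_mul, inv_mul_cancel₀ h3, C_1, one_mul]
      refine ⟨D', b, hb, hD', fD', Relation.EqvGen.trans _ _ _ (Relation.EqvGen.rel _ _ ?_) hE⟩
      obtain ⟨ρ, rfl⟩ := P.V.valuation_surjective r
      have hρ : ρ ≠ 0 := (map_ne_zero _).1 hr
      obtain ⟨u, h1, h2⟩ := hsc ρ i hρ hi' hle
      have h3 : u i ≠ 0 := fun h => lt_irrefl _ ((h2 i).1 h)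
      have h4 : u j ≠ 0 := fun h => ((h2 j).1 h).ne he
      obtain ⟨Ψ', hΨ⟩ := spec_poly (fun l => C (u l) * F' l) j fun l hl => by
        rw [(h2 l).2 (hhi l hl), C_0, zero_mul]
      obtain ⟨c', M', hM', hg'⟩ := spec_edge hT hI hP hM hg hρ (Ψ' := Ψ') fun l => by
        rw [hΨ l]; exact h1 l
      obtain ⟨Φ', rfl⟩ := (Polynomial.X_pow_dvd_iff (f := Ψ') (n := i)).2 fun l hl => by
        rw [hΨ l, (h2 l).2 (hlo l hl), C_0, zero_mul]
      have h5 : (Polynomial.X ^ i * Φ').natDegree = j :=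
        Polynomial.natDegree_eq_of_le_of_coeff_ne_zero
          (Polynomial.natDegree_le_iff_coeff_eq_zero.2 fun l hl => by
            rw [hΨ l, (h2 l).2 (hhi l hl), C_0, zero_mul])
          (by rw [hΨ j]; exact mul_ne_zero (C_ne_zero.2 h4) (hF' j))
      have ht : tt L ≠ 0 := fun h => tt_transcendental (by rw [h]; exact isAlgebraic_zero)
      refine ⟨hD', hD, Φ', u i * b, u j * a, (tt L ^ i)⁻¹ * c', M', mul_ne_zero h3 hb,
        mul_ne_zero h4 ha, ?_, ?_, hM', ?_⟩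
      · have := hΨ i
        rw [← Polynomial.coeff_X_pow_mul Φ' i 0, zero_add, this, fD', C_mul, mul_assoc]
      · have := hΨ j
        rw [← h5, Polynomial.coeff_natDegree, Polynomial.leadingCoeff_mul,
          Polynomial.leadingCoeff_X_pow, one_mul, h5] at this
        rw [this, fD, C_mul, mul_assoc]
      · rw [C_mul, mul_assoc, ← hg', gen, gen, Polynomial.eval₂_mul, Polynomial.eval₂_X_pow,
          ← C_pow, ← mul_assoc, ← C_mul, inv_mul_cancel₀ (pow_ne_zero i ht), C_1, one_mul])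
  rw [hC L σ _ _ a₀ a' ha₀ (f₀.symm.trans f')]
  exact hE

theorem specS (hT : TransferStmt) (hC : ChuStmt) : SpecStmt := by
  intro k K L σ _ _ _ _ _ _ _ _ I P A B hI hP h
  obtain ⟨D, hD, h⟩ := h
  refine ⟨D.map P.red, hD.red hI hP, ?_⟩
  rw [← Multiset.map_add, ← Multiset.map_add]
  generalize A + D = A' at h
  generalize B + D = B' at h
  induction h with
  | rel _ _ h => exact spec_step hT hC hI hP h
  | refl _ => exact Relation.EqvGen.refl _
  | symm _ _ _ ih => exact Relation.EqvGen.symm _ _ ih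
  | trans _ _ _ _ _ ih ih' => exact Relation.EqvGen.trans _ _ _ ih ih'

end Pool.Agent.MP_9207e0_ag.CC
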