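import Pool.Agent.MP_9207e0_ag.cc.Rk
import Pool.Agent.MP_9207e0_ag.cc.Defs2

/-! PROJECT CCC: the statements of the rows on quartic surfaces. -/

noncomputable section

namespace Pool.Agent.MP_9207e0_ag.CC

open MvPolynomial
open scoped Classical

/-- The resultant of `a₀ x² + a₁ x y + a₂ y²` and `b₀ x³ + b₁ x² y + b₂ x y² + b₃ y³`. -/
def res23 {R : Type} [CommRing R] (a₀ a₁ a₂ b₀ b₁ b₂ b₃ : R) : R :=
  a₀ ^ 3 * b₃ ^ 2 - a₀ ^ 2 * a₁ * b₂ * b₃ - 2 * a₀ ^ 2 * a₂ * b₁ * b₃ + a₀ ^ 2 * a₂ * b₂ ^ 2 +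
    a₀ * a₁ ^ 2 * b₁ * b₃ + 3 * a₀ * a₁ * a₂ * b₀ * b₃ - a₀ * a₁ * a₂ * b₁ * b₂ -
    2 * a₀ * a₂ ^ 2 * b₀ * b₂ + a₀ * a₂ ^ 2 * b₁ ^ 2 - a₁ ^ 3 * b₀ * b₃ + a₁ ^ 2 * a₂ * b₀ * b₂ -
    a₁ * a₂ ^ 2 * b₀ * b₁ + a₂ ^ 3 * b₀ ^ 2

/-- The exponent of `s ^ i * t ^ j`. -/
def mono (i j : ℕ) : Fin 2 →₀ ℕ := Finsupp.single 0 i + Finsupp.single 1 j

variable {k σ R : Type} [Field k] [CommRing R] [Algebra k R]

/-- The expansion `F (p + s e₁ + t e₂)`. -/
def psi (F : MvPolynomial σ k) (p e₁ e₂ : σ → R) : MvPolynomial (Fin 2) R :=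
  aeval (fun j => C (p j) + X 0 * C (e₁ j) + X 1 * C (e₂ j)) F

/-- The resultant of the quadratic and the cubic term of the expansion. -/
def rho (F : MvPolynomial σ k) (p e₁ e₂ : σ → R) : R :=
  res23 (coeff (mono 2 0) (psi F p e₁ e₂)) (coeff (mono 1 1) (psi F p e₁ e₂))
    (coeff (mono 0 2) (psi F p e₁ e₂)) (coeff (mono 3 0) (psi F p e₁ e₂))
    (coeff (mono 2 1) (psi F p e₁ e₂)) (coeff (mono 1 2) (psi F p e₁ e₂))
    (coeff (mono 0 3) (psi F p e₁ e₂))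

def QhypStmt : Prop :=
  ∀ (k : Type) [Field k] (I : Ideal (MvPolynomial (Fin (1 + 3)) k)), IsK3Model I 2 →
    ∃ F : MvPolynomial (Fin (1 + 3)) k, F.IsHomogeneous 4 ∧ I = Ideal.span {F}

def RhoMapStmt : Prop :=
  ∀ (k σ R R' : Type) [Field k] [CommRing R] [Algebra k R] [CommRing R'] [Algebra k R']
    (F : MvPolynomial σ k) (p e₁ e₂ : σ → R),
    (∀ f : R →ₐ[k] R', f (rho F p e₁ e₂) = rho F (f ∘ p) (f ∘ e₁) (f ∘ e₂)) ∧
    (F.IsHomogeneous 4 → ∀ c : R, rho F (c • p) (c ^ 3 • e₁) (c ^ 3 • e₂) =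
      c ^ 44 * rho F p e₁ e₂)

def RhoTrStmt : Prop :=
  ∀ (k K σ : Type) [Field k] [Field K] [Algebra k K] [Fintype σ] (F : MvPolynomial σ k)
    (p e₁ e₂ : σ → K) (a b c d l m : K), F.IsHomogeneous 4 → aeval p F = 0 →
    dv (map (algebraMap k K) F) p e₁ = 0 → dv (map (algebraMap k K) F) p e₂ = 0 →
    rho F p (a • e₁ + b • e₂ + l • p) (c • e₁ + d • e₂ + m • p) =
      (a * d - b * c) ^ 6 * rho F p e₁ e₂

def RhoZeroStmt : Prop :=
  ∀ (k K σ : Type) [Field k] [Field K] [IsAlgClosed K] [Algebra k K] [Fintype σ]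
    (F : MvPolynomial σ k) (p e₁ e₂ : σ → K), aeval p F = 0 →
    dv (map (algebraMap k K) F) p e₁ = 0 → dv (map (algebraMap k K) F) p e₂ = 0 →
    (rho F p e₁ e₂ = 0 ↔ ∃ a b : K, (a ≠ 0 ∨ b ≠ 0) ∧ (Polynomial.X : Polynomial K) ^ 4 ∣
      aeval (fun j => Polynomial.C (p j) + Polynomial.X * Polynomial.C (a * e₁ j + b * e₂ j)) F)

/-- The tangent vectors of the frame `(i, j, b)`. -/
def fr (F : MvPolynomial σ k) (b i : σ) : σ → MvPolynomial σ k :=
  fun l => (if l = i then pderiv b F else 0) - if l = b then pderiv i F else 0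

/-- The volume of the frame `(i, j, b)`. -/
def vol (F : MvPolynomial (Fin (1 + 3)) k) (b i j : Fin (1 + 3)) : MvPolynomial (Fin (1 + 3)) k :=
  pderiv b F * Matrix.det (Matrix.of ![X, Pi.single i 1, Pi.single j 1, Pi.single b 1])

/-- Linear algebra of the frames at a point of the quartic. -/
def FrameStmt : Prop :=
  ∀ (k K : Type) [Field k] [Field K] [Algebra k K] (F : MvPolynomial (Fin (1 + 3)) k)
    (p : Fin (1 + 3) → K), F.IsHomogeneous 4 → aeval p F = 0 →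
    (∀ b i, dv (map (algebraMap k K) F) p (fun l => aeval p (fr F b i l)) = 0) ∧
    (p ≠ 0 → (∃ b, aeval p (pderiv b F) ≠ 0) → ∃ b i j, aeval p (vol F b i j) ≠ 0) ∧
    ∀ b i j, aeval p (vol F b i j) ≠ 0 →
      (∀ x y z : K, (x • fun l => aeval p (fr F b i l)) + (y • fun l => aeval p (fr F b j l)) +
        z • p = 0 → x = 0 ∧ y = 0) ∧
      (∀ q, dv (map (algebraMap k K) F) p q = 0 → ∃ x y z : K,
        q = (x • fun l => aeval p (fr F b i l)) + (y • fun l => aeval p (fr F b j l)) + z • p) ∧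
      ∀ (b' i' j' : Fin (1 + 3)) (x y z x' y' z' : K), aeval p (pderiv b' F) ≠ 0 →
        (fun l => aeval p (fr F b' i' l)) =
          (x • fun l => aeval p (fr F b i l)) + (y • fun l => aeval p (fr F b j l)) + z • p →
        (fun l => aeval p (fr F b' j' l)) =
          (x' • fun l => aeval p (fr F b i l)) + (y' • fun l => aeval p (fr F b j l)) + z' • p →
        aeval p (vol F b' i' j') = (x * y' - y * x') * aeval p (vol F b i j)

def QformStmt : Prop :=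
  ∀ (k : Type) [Field k] [IsAlgClosed k] (F : MvPolynomial (Fin (1 + 3)) k), F.IsHomogeneous 4 →
    IsK3Model (Ideal.span {F}) 2 → ∃ s : MvPolynomial (Fin (1 + 3)) k, s.IsHomogeneous 20 ∧
      ∀ (K : Type) [Field K] [IsAlgClosed K] [Algebra k K] (p : PP (Fin (1 + 3)) K),
        On (Ideal.span {F}) p → (aeval p.rep s = 0 ↔ IsFlex (Ideal.span {F}) p)

def QcardStmt : Prop :=
  ∀ (k K : Type) [Field k] [IsAlgClosed k] [Field K] [IsAlgClosed K] [Algebra k K]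
    (F : MvPolynomial (Fin (1 + 3)) k) (h : ℕ) (β : Fin h → MvPolynomial (Fin (1 + 3)) k)
    (c c' : Fin h → K) (Z : Finset (PP (Fin (1 + 3)) K)), F.IsHomogeneous 4 →
    IsK3Model (Ideal.span {F}) 2 → Bas (Ideal.span {F}) 1 β →
    AlgebraicIndependent k (Sum.elim c c') →
    (∀ x, x ∈ Z ↔ Zs (Ideal.span {F}) (fm β c) (fm β c') x) → Z.card = 4

def LineStmt : Prop :=
  ∀ (k K σ : Type) [Field k] [Field K] [Algebra k K] [Fintype σ] (I : Ideal (MvPolynomial σ k))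
    (p q : PP σ K), Hg I → On I q → (∀ f ∈ I,
      aeval (fun j => Polynomial.C (p.rep j) + Polynomial.X * Polynomial.C (q.rep j)) f =
        (0 : Polynomial K)) → RatP I {p} {q}

def QclsStmt : Prop :=
  ∀ (k : Type) [Field k] [IsAlgClosed k] [CharZero k] (F : MvPolynomial (Fin (1 + 3)) k),
    F.IsHomogeneous 4 → IsK3Model (Ideal.span {F}) 2 → ∃ α : Multiset (PP (Fin (1 + 3)) k),
      ∀ (K : Type) [Field K] [IsAlgClosed K] [Algebra k K] (p : PP (Fin (1 + 3)) K),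
        On (Ideal.span {F}) p → IsFlex (Ideal.span {F}) p →
          RatP (Ideal.span {F}) (Multiset.replicate 4 p) (α.map (bc K))

end Pool.Agent.MP_9207e0_ag.CC
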