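import Pool.Agent.MP_9207e0_ag.cc.TStart
import Pool.Agent.MP_9207e0_ag.cc.Spec2

/-! PROJECT CCC: the theorem from the rows. -/

noncomputable section

namespace Pool.Agent.MP_9207e0_ag.CC.T

open MvPolynomial
open scoped Classical

theorem onLocus_of (hB : BrStmt) {k K σ ε : Type} [Field k] [Field K] [Algebra k K] [Finite σ]
    {ξ : ε → PP σ K} {x : ε → PP σ k} {n : ℕ} (h : Sp k ξ x) (hn : (n : ℕ∞) ≤ rk k (rat ξ))
    {Q : ∀ (L : Type) [Field L] [Algebra k L], (ε → PP σ L) → Prop}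
    (hQ : ∀ (L : Type) [Field L] [IsAlgClosed L] [Algebra k L] (p : ε → PP σ L), Sp k ξ p → Q L p) :
    OnLocus x n Q := by
  obtain ⟨t, h1, h2⟩ := exists_indep hn
  choose i a b e using h1
  obtain rfl : t = _ := funext e
  exact ⟨K, inferInstance, inferInstance, ξ, (hB k K σ ε ξ).1 x h, ⟨i, a, b, h2⟩,
    fun L _ _ _ p hp => hQ L p ((hB k K σ ε ξ).2 L p hp)⟩

theorem ccd_of_section (h1 : L1Stmt) {k σ : Type} [Field k] [CharZero k] [Fintype σ]
    {I : Ideal (MvPolynomial σ k)} (hH : Hg I) {N : ℕ} {y : PP σ k} (hy : On I y)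
    (h : ConstSection I N y) : ∃ s δ, CCD N I s δ y := by
  obtain ⟨s, δ, hδ, hs, hsy, hc⟩ := h
  refine ⟨s, δ, hδ, hs, hy, hsy, fun K _ _ _ p hp hp' => ?_⟩
  have := charZero_of_injective_algebraMap (algebraMap k K).injective
  refine h1 k K _ I _ _ hH (onM_nsmul (fun t ht => Multiset.mem_singleton.1 ht ▸ hp) N)
    (onM_nsmul (fun t ht => Multiset.mem_singleton.1 ht ▸ On.bc hH hy) N) ?_
  rw [Multiset.nsmul_singleton, Multiset.nsmul_singleton, cyc_replicate, cyc_replicate]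
  exact hc K p hp hp'

/-- The flecnodal curve of a quartic surface. -/
theorem ccd_of_quartic (hH : QhypStmt) (hF : QformStmt) (hC : QclsStmt) (hR : CC.RatpStmt)
    (hG : GenStmt) (hP : PushStmt) {k : Type} [Field k] [IsAlgClosed k] [CharZero k]
    {I : Ideal (MvPolynomial (Fin (1 + 3)) k)} (hK : IsK3Model I 2) :
    (∃ y : PP (Fin (1 + 3)) k, On I y ∧ IsFlex I y) ∧
      ∀ y : PP (Fin (1 + 3)) k, On I y → IsFlex I y → ∃ s δ, CCD 4 I s δ y := by
  obtain ⟨F, hF4, rfl⟩ := hH k I hK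
  have hg : Hg (Ideal.span {F}) := hK.homog
  obtain ⟨s, hs, h1⟩ := hF k F hF4 hK
  obtain ⟨α, h2⟩ := hC k F hF4 hK
  constructor
  · obtain ⟨E, η, h3, h4, -⟩ := hG k 1 2 _ hK
    obtain ⟨P, hP, -, h5⟩ := hP k E.K _ ∅ η s 20 (by decide) hs fun h => by
      have := h4.trans (rk_le_of_subset_cl h)
      rw [rk_empty] at this
      exact absurd this (by decide)
    obtain ⟨Q, hQ⟩ := exists_plc (k := k) (K := E.K) (L := k)
    have h6 := (h3.red hg hP).red hg hQ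
    exact ⟨_, h6, (h1 k _ h6).1 (Plc.aeval_red hQ hs h5)⟩
  · intro y hy hf
    have h3 := (h1 k y hy).2 hf
    refine ⟨s, 20, by decide, hs, hy, h3, fun K _ _ _ x hx hx' => ?_⟩
    obtain ⟨-, -, r3, r4, -⟩ := hR k K _ _ hg
    unfold RatN
    rw [Multiset.nsmul_singleton, Multiset.nsmul_singleton]
    refine r4 _ _ _ (h2 K x hx ((h1 K x hx).1 hx')) (r3 _ _ (h2 K _ (hy.bc hg)
      ((h1 K _ (hy.bc hg)).1 ?_)))
    have := Plc.aeval_red (Plc.ofHom_over (Algebra.ofId k K)) hs h3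
    rwa [Plc.ofHom_red] at this

theorem main_of_ccd {N : ℕ} (h1 : L1Stmt) (h2 : L2Stmt) (hP : PrtStmt) (hB : BrStmt)
    (hG : GenStmt) (hC : CutsStmt) (hPr : ProdStmt) (hW : PowerStmt) (hD : GdStmt N)
    (hR : RatpStmt N) (hI : IndStmt N) (hE : EscStmt N) {k : Type} [Field k] [IsAlgClosed k]
    [CharZero k] {r a : ℕ} {I : Ideal (MvPolynomial (Fin (r + 3)) k)} (hK : IsK3Model I a)
    {s : MvPolynomial (Fin (r + 3)) k} {δ : ℕ} {y : PP (Fin (r + 3)) k} (hy : CCD N I s δ y)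
    {d n m : ℕ} {x : Fin (d + n + m) → PP (Fin (r + 3)) k} {z : Fin d → PP (Fin (r + 3)) k}
    {w : Fin n → PP (Fin (r + 3)) k} (hx : ∀ i, OnX I (x i).rep) (hz : ∀ i, OnX I (z i).rep)
    (hw : ∀ i, OnX I (w i).rep)
    (h : RatEq I k (∑ i, Finsupp.single (x i) 1) (∑ i, Finsupp.single (z i) 1 +
      ∑ i, Finsupp.single (w i) 1 + Finsupp.single y (m : ℤ))) :
    OnLocus (Sum.elim x z) (2 * d + m) fun L _ _ p => (∀ i, OnX I (p i).rep) ∧
      RatEq I L (N • ∑ i, Finsupp.single (p (Sum.inl i)) 1)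
        (N • (∑ i, Finsupp.single (p (Sum.inr i)) 1 +
          ∑ i, Finsupp.single (pmap (algebraMap k L) (w i)) 1 +
          Finsupp.single (pmap (algebraMap k L) y) (m : ℤ))) := by
  have hH : Hg I := hK.homog
  obtain ⟨g1, -⟩ := hD k _ I hH
  have om : ∀ {K ι : Type} [Field K] [Algebra k K] [Fintype ι] (u : ι → PP (Fin (r + 3)) K),
      (∀ i, On I (u i)) → OnM I (ms u) := fun u hu => gd_onM hu _
  obtain ⟨E, ξ, G, S, hr⟩ := startS hG hC hPr hW hD hR hI hE hK hy hx hz hw (hP k r a I hK _ _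
    (h1 k k _ I _ _ hH (om x hx) (onM_add.2 ⟨onM_add.2 ⟨om z hz, om w hw⟩, fun t ht =>
      Multiset.eq_of_mem_replicate ht ▸ hy.on⟩)
      (by rwa [cyc_add, cyc_add, cyc_ms, cyc_ms, cyc_ms, cyc_replicate])))
  refine onLocus_of hB S hr fun L _ _ _ p hp => ?_
  have := charZero_of_injective_algebraMap (algebraMap k L).injective
  have G' := g1 _ _ _ _ _ _ _ G hp
  refine ⟨G'.on, ?_⟩
  have h3 := G'.cls
  have e1 : ms p = ms (p ∘ Sum.inl) + ms (p ∘ Sum.inr) := by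
    rw [← ms_elim, Sum.elim_comp_inl_inr]
  have e2 : ((Finset.univ : Finset (Fin d)).val.map Sum.inr +
      (Finset.univ : Finset (Fin d)).val.map Sum.inr).map p =
      ms (p ∘ Sum.inr) + ms (p ∘ Sum.inr) := by
    simp only [Multiset.map_add, Multiset.map_map]
    rfl
  rw [e1, e2, add_right_comm (ms (p ∘ Sum.inr)), Multiset.map_add, Multiset.map_replicate, ms_map,
    ← add_assoc (ms (p ∘ Sum.inr))] at h3
  have h4 := h2 k L _ I _ _ hH ((hR k L _ I hH).2.2.2.2.2 _ _ _ (om _ fun i => G'.on _) h3)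
  rwa [cyc_nsmul, cyc_nsmul, cyc_add, cyc_add, cyc_ms, cyc_ms, cyc_ms, cyc_replicate] at h4

end Pool.Agent.MP_9207e0_ag.CC.T
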