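import Pool.Agent.MP_9207e0_ag.cc.TGd

/-! PROJECT CCC: moving one point of a family to the fixed point of the constant cycle curve. -/

noncomputable section

namespace Pool.Agent.MP_9207e0_ag.CC.T

open MvPolynomial
open scoped Classical

section Aux

variable {k K L σ ι : Type} [Field k] [Field K] [Field L] [Algebra k K] [Algebra k L]

/-- The end move: a point on the curve is replaced by `y`. -/
theorem red_end {N : ℕ} (hG : GdStmt N) [IsAlgClosed L] [Fintype σ] [Fintype ι]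
    {I : Ideal (MvPolynomial σ k)} {s : MvPolynomial σ k} {δ : ℕ} {y : PP σ k}
    {w : ι → PP σ L} {ν : Multiset ι} {α : Multiset (PP σ k)} {p p' : ι → PP σ k} {i : ι}
    (hI : Hg I) (hC : CCD N I s δ y) (hw : Gd N I w ν α) (hi : i ∉ ν) (hs : aeval (w i).rep s = 0)
    (hp : Sp k (fun j : {j // j ≠ i} => w j) fun j => p j) (h1 : p' i = y)
    (h2 : ∀ j, j ≠ i → p' j = p j) :
    ∃ w' : ι → PP σ L, Gd N I w' ν α ∧ Sp k w' p' ∧ w' i = bc L y ∧ (∀ j, j ≠ i → w' j = w j) ∧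
      rat (fun j : {j // j ≠ i} => w j) ⊆ rat w' := by
  have e1 : Function.update w i (bc L y) i = bc L y := Function.update_self ..
  have e2 : ∀ j, j ≠ i → Function.update w i (bc L y) j = w j := fun j hj =>
    Function.update_of_ne hj ..
  refine ⟨Function.update w i (bc L y), ?_, ?_, e1, e2, ?_⟩
  · refine (hG k σ I hI).2.2.2.1 L ι w _ ν α i hi e2 hw ?_ ?_
    · rw [e1]; exact hC.on.bc hI
    · rw [e1]; exact hC.cls L _ (hw.on i) hs
  · obtain ⟨P, hP, h3⟩ := hp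
    refine ⟨P, hP, fun j => ?_⟩
    by_cases hj : j = i
    · rw [hj, e1, h1, Plc.red_bc hP, bc_self]
    · rw [e2 j hj, h2 j hj]; exact h3 ⟨j, hj⟩
  · rintro t ⟨j, a, b, rfl⟩
    exact ⟨j, a, b, by rw [e2 j j.2]⟩

theorem red_rat (w : ι → PP σ K) (i : ι) :
    rat w ⊆ rat (fun j : {j // j ≠ i} => w j) ∪ rat1 (w i) := by
  rintro t ⟨j, a, b, rfl⟩
  by_cases hj : j = i
  · exact Or.inr ⟨a, b, by rw [hj]⟩
  · exact Or.inl ⟨⟨j, hj⟩, a, b, rfl⟩

theorem red_chart {s : MvPolynomial σ k} {δ : ℕ} (hs : s.IsHomogeneous δ) (v : σ → K) (c : K) :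
    aeval (fun b => v b / c) s = c⁻¹ ^ δ * aeval v s := by
  rw [← aeval_smul_homog hs]
  exact congrArg (fun u => aeval u s) (funext fun b => div_eq_inv_mul _ _)

/-- If the value of `s` in some chart vanishes at the place then `s` vanishes at the reduction. -/
theorem red_zero [Finite σ] {Q : Plc K L} (hQ : Q.Over k) {s : MvPolynomial σ k} {δ : ℕ}
    (hs : s.IsHomogeneous δ) (x : PP σ K) {a : σ} (ha : x.rep a ≠ 0)
    (h1 : aeval (fun b => x.rep b / x.rep a) s ∈ Q.V)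
    (h2 : Q.fn (aeval (fun b => x.rep b / x.rep a) s) = 0) : aeval (Q.red x).rep s = 0 := by
  obtain ⟨c, hc⟩ := Function.ne_iff.1 (Q.red x).rep_nonzero
  obtain ⟨h3, h4⟩ := Q.ratio x hc
  have h5 := (Q.aeval_fn hQ (fun b => (h4 b).1) s).2
  rw [funext fun b => (h4 b).2, red_chart hs (Q.red x).rep] at h5
  have h6 : aeval (fun b => x.rep b / x.rep c) s =
      (x.rep a / x.rep c) ^ δ * aeval (fun b => x.rep b / x.rep a) s := by
    rw [red_chart hs, red_chart hs, ← mul_assoc, ← mul_pow]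
    congr 2
    field_simp
  rw [h6, Q.fn_mul (pow_mem (h4 a).1 δ) h1, h2, mul_zero] at h5
  exact (mul_eq_zero.1 h5.symm).resolve_left (pow_ne_zero _ (inv_ne_zero hc))

theorem red_nv [Finite σ] (Q : Plc K L) {w : ι → PP σ K} {a : ι → σ}
    (ha : ∀ j, (w j).rep (a j) ≠ 0) (h : ∀ u, nv w a u ∈ Q.V) :
    (∀ j, (Q.red (w j)).rep (a j) ≠ 0) ∧
      nv (fun j => Q.red (w j)) a = fun u => Q.fn (nv w a u) := by
  have h1 : ∀ j, Q.fn (nv w a (j, a j)) = 1 := fun j => by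
    rw [nv, div_self (ha j), Q.fn_one]
  obtain ⟨w', h2, h3⟩ := exists_of_nv (z := fun u => Q.fn (nv w a u)) h1
  have h4 : ∀ j, Q.red (w j) = w' j := fun j =>
    Q.red_eq (ha j) (h2 j) fun b => ⟨h (j, b), (congrFun h3 (j, b)).symm⟩
  rw [funext h4]
  exact ⟨fun j => h4 j ▸ h2 j, h3⟩

end Aux

theorem redS {N : ℕ} (hV : ValStmt) (hP : PushStmt) (hG : GdStmt N) (hR : RatpStmt N) : RedStmt N := by
  intro k K σ ι _ _ _ _ _ _ _ I s δ y w ν α p p' i hI hC hw hi hp hs h1 h2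
  have hp' : Sp k (fun j : {j // j ≠ i} => w j) fun j => p j := hp.comp Subtype.val
  by_cases hA : rat1 (w i) ⊆ cl k (rat fun j : {j // j ≠ i} => w j)
  · have hr : rk k (rat w) ≤ rk k (rat fun j : {j // j ≠ i} => w j) :=
      rk_le_of_subset_cl ((red_rat w i).trans (Set.union_subset (subset_cl _) hA))
    refine Or.inr ?_
    by_cases h0 : aeval (w i).rep s = 0
    · obtain ⟨w', g1, g2, g3, g4, g5⟩ := red_end hG hI hC hw hi h0 hp' h1 h2
      exact ⟨Ext.mk K, w', g1, g2, g3, fun j q hj hq => (g4 j hj).trans hq,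
        (hr.trans (rk_mono g5)).trans le_self_add⟩
    · obtain ⟨a, ha⟩ := exists_chart p
      obtain ⟨P₀, hP₀, e₀⟩ := hp
      have r : ∀ j, (w j).rep (a j) ≠ 0 ∧ ∀ b, (w j).rep b / (w j).rep (a j) ∈ P₀.V ∧
          P₀.fn ((w j).rep b / (w j).rep (a j)) = (p j).rep b / (p j).rep (a j) := fun j => by
        have := P₀.ratio (w j) (a := a j) (by rw [e₀]; exact ha j)
        rwa [e₀] at this
      have hw0 : ∀ j : {j // j ≠ i}, (w j).rep (a j) ≠ 0 := fun j => (r j).1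
      obtain ⟨t1, t2⟩ := P₀.aeval_fn hP₀ (fun b => ((r i).2 b).1) s
      rw [funext fun b => ((r i).2 b).2, red_chart hC.homog (p i).rep, hs, mul_zero] at t2
      have t0 : aeval (fun b => (w i).rep b / (w i).rep (a i)) s ≠ 0 := by
        rw [red_chart hC.homog]
        exact mul_ne_zero (pow_ne_zero _ (inv_ne_zero (r i).1)) h0
      obtain ⟨E, Q, hQ, q1, q2, q3, q4⟩ := hV k K k ({j // j ≠ i} × σ)
        (nv (fun j : {j // j ≠ i} => w j) fun j => a j) _ P₀ hP₀ (fun u => ((r u.1).2 u.2).1)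
        (inv_mem_cl.2 (cl_subset_cl (rat_subset_cl_nv hw0)
          (aeval_mem_cl (fun b => hA ⟨b, a i, rfl⟩) s))) (P₀.notMem_inv t0 t1 t2)
      obtain ⟨n1, n2⟩ := red_nv Q hw0 q1
      have q5 := Q.inv_of_notMem q2
      rw [inv_inv] at q5
      have hsp : Sp k w fun j => Q.red (w j) := ⟨Q, hQ, fun _ => rfl⟩
      rw [← n2] at q3 q4
      have q6 : (fun u => P₀.fn (nv (fun j : {j // j ≠ i} => w j) (fun j => a j) u)) =
          nv (fun j : {j // j ≠ i} => p j) fun j => a j := funext fun u => ((r u.1).2 u.2).2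
      rw [q6] at q3
      obtain ⟨w', g1, g2, g3, g4, g5⟩ := red_end hG hI hC
        ((hG k σ I hI).1 K E.K ι w _ ν α hw hsp) hi
        (red_zero hQ hC.homog (w i) (r i).1 q5.1 q5.2)
        (Sp.of_asp n1 (fun j => ha j) q3) h1 h2
      refine ⟨E, w', g1, g2, g3, fun j q hj hq => (g4 j hj).trans (hsp.bc hq), ?_⟩
      rw [rk_nv hw0, rk_nv n1] at q4
      exact hr.trans (q4.trans (add_le_add (rk_mono g5) le_rfl))
  · obtain ⟨P, hPo, f1, f2⟩ := hP k K σ _ (w i) s δ hC.pos hC.homog hA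
    have hsp : Sp k w fun j => P.red (w j) := ⟨P, hPo, fun _ => rfl⟩
    have f3 : ∀ j, j ≠ i → P.red (w j) = w j := fun j hj => P.red_eq_self fun t ht =>
      f1 t (subset_cl _ (rat1_subset (fun j : {j // j ≠ i} => w j) ⟨j, hj⟩ ht))
    have f4 : (fun j : {j // j ≠ i} => P.red (w j)) = fun j : {j // j ≠ i} => w j :=
      funext fun j => f3 j j.2
    have hg := (hG k σ I hI).1 K K ι w _ ν α hw hsp
    by_cases hr : rk k (rat1 (w i)) ≤ 1
    · obtain ⟨w', g1, g2, g3, g4, g5⟩ := red_end hG hI hC hg hi f2 (f4 ▸ hp') h1 h2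
      rw [f4] at g5
      exact Or.inr ⟨Ext.mk K, w', g1, g2, g3, fun j q hj hq => (g4 j hj).trans (hsp.bc hq),
        (rk_mono (red_rat w i)).trans ((rk_union_le _ _).trans (add_le_add (rk_mono g5) hr))⟩
    · refine Or.inl ⟨Ext.mk K, w i, hw.on i, Order.add_one_le_of_lt (not_le.1 hr), ?_⟩
      exact (hR k K σ I hI).2.2.2.1 _ _ _
        ((hG k σ I hI).2.2.2.2 K ι w _ ν α i hi f3 hw hg) (hC.cls K _ (hg.on i) f2)

end Pool.Agent.MP_9207e0_ag.CC.T
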