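import Pool.Agent.MP_9207e0_ag.cc.RkB

/-! PROJECT CCC: a transversal zero lifts in at most one way. -/

noncomputable section

namespace Pool.Agent.MP_9207e0_ag.CC

open MvPolynomial
open scoped Classical

theorem uniq_map_eval {R S σ : Type} [CommRing R] [CommRing S] (f : R →+* S) (g : σ → R)
    (p : MvPolynomial σ R) : f (eval g p) = eval (fun j => f (g j)) (map f p) := by
  rw [eval_map, eval₂_comp]
  rfl

/-- First order Taylor expansion. -/
theorem uniq_taylor {R σ : Type} [CommRing R] [Fintype σ] (b δ : σ → R) (π : R)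
    (f : MvPolynomial σ R) : ∃ ρ, eval (fun j => b j + π * δ j) f =
      eval b f + π * ∑ j, eval b (pderiv j f) * δ j + π ^ 2 * ρ := by
  induction f using MvPolynomial.induction_on with
  | C c => exact ⟨0, by simp⟩
  | add f g hf hg =>
    obtain ⟨ρ, h⟩ := hf
    obtain ⟨ρ', h'⟩ := hg
    refine ⟨ρ + ρ', ?_⟩
    simp only [map_add, add_mul, Finset.sum_add_distrib, h, h']
    ring
  | mul_X f i hf =>
    obtain ⟨ρ, h⟩ := hf
    have e0 : ∑ j, eval b (pderiv j (X i : MvPolynomial σ R)) * δ j = δ i := by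
      rw [Finset.sum_eq_single i]
      · simp
      · intro j _ hj
        rw [pderiv_X_of_ne hj.symm]
        simp
      · simp
    have e : ∑ j, eval b (pderiv j (f * X i)) * δ j =
        (∑ j, eval b (pderiv j f) * δ j) * b i + eval b f * δ i := by
      rw [← e0, Finset.sum_mul, Finset.mul_sum, ← Finset.sum_add_distrib]
      refine Finset.sum_congr rfl fun j _ => ?_
      rw [pderiv_mul, map_add, map_mul, map_mul, eval_X]
      ring
    refine ⟨ρ * (b i + π * δ i) + (∑ j, eval b (pderiv j f) * δ j) * δ i, ?_⟩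
    rw [map_mul, map_mul, eval_X, eval_X, h, e]
    ring

theorem uniq_dv {K L σ : Type} [Field K] [Field L] [Fintype σ] {P : Plc K L}
    {F : MvPolynomial σ K} {F' : MvPolynomial σ L} (h : Rd P F F') {a b δ : σ → K} {π : K}
    (hb : ∀ j, b j ∈ P.V) (hδ : ∀ j, δ j ∈ P.V) (hπ : π ∈ P.V) (h0 : π ≠ 0) (hz : P.fn π = 0)
    (ha : ∀ j, a j = b j + π * δ j) (e : eval a F = eval b F) :
    dv F' (fun j => P.fn (b j)) (fun j => P.fn (δ j)) = 0 := by
  obtain ⟨G, rfl, rfl⟩ := h.lift
  let b' : σ → P.V := fun j => ⟨b j, hb j⟩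
  let δ' : σ → P.V := fun j => ⟨δ j, hδ j⟩
  let π' : P.V := ⟨π, hπ⟩
  obtain ⟨ρ, hρ⟩ := uniq_taylor b' δ' π' G
  have e1 : eval (fun j => b' j + π' * δ' j) G = eval b' G := by
    apply P.V.subtype_injective
    rw [uniq_map_eval, uniq_map_eval]
    have e2 : (fun j => P.V.subtype (b' j + π' * δ' j)) = a := funext fun j => (ha j).symm
    rw [e2]
    exact e
  have h1 : π' ≠ 0 := fun h => h0 (congrArg Subtype.val h)
  have h2 : π' * (∑ j, eval b' (pderiv j G) * δ' j + π' * ρ) = 0 := by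
    rw [e1] at hρ
    linear_combination -hρ
  have h3 := congrArg P.φ ((mul_eq_zero.1 h2).resolve_left h1)
  have h4 : P.φ π' = 0 := (P.fn_mem hπ).symm.trans hz
  rw [map_add, map_mul, h4, zero_mul, add_zero, map_zero, map_sum] at h3
  rw [← h3]
  refine Finset.sum_congr rfl fun j _ => ?_
  have e3 : (fun j => P.φ (b' j)) = fun j => P.fn (b j) := funext fun j => (P.fn_mem (hb j)).symm
  rw [map_mul, uniq_map_eval, pderiv_map, e3]
  exact congrArg _ (P.fn_mem (hδ j))

theorem uniqS : UniqStmt := by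
  intro k K L σ _ _ _ _ _ _ I P F G F' G' a b p c hP hF hG ha hb hIa hIb hac hbc eF eG hT
  by_contra hne
  have d0 : (fun j => a j - b j) ≠ 0 := fun h =>
    hne (funext fun j => sub_eq_zero.1 (congrFun h j))
  obtain ⟨i, hi, hδ⟩ := P.exists_max (Projectivization.mk K _ d0)
  rw [Ne, rep_mk_eq_zero] at hi
  have hδ' : ∀ j, (a j - b j) / (a i - b i) ∈ P.V := fun j => by
    have := hδ j
    rwa [rep_mk_div] at this
  have hπ : a i - b i ∈ P.V := sub_mem (ha i).1 (hb i).1
  have hz : P.fn (a i - b i) = 0 := by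
    rw [P.fn_sub (ha i).1 (hb i).1, (ha i).2, (hb i).2, sub_self]
  have hab : ∀ j, a j = b j + (a i - b i) * ((a j - b j) / (a i - b i)) := fun j => by
    rw [mul_div_cancel₀ _ hi]
    ring
  have hp : (fun j => P.fn (b j)) = p := funext fun j => (hb j).2
  have key : ∀ {H : MvPolynomial σ K} {H' : MvPolynomial σ L}, Rd P H H' → eval a H = eval b H →
      dv H' p (fun j => P.fn ((a j - b j) / (a i - b i))) = 0 := fun h e =>
    hp ▸ uniq_dv h (fun j => (hb j).1) hδ' hπ hi hz hab e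
  have hmem := hT (fun j => P.fn ((a j - b j) / (a i - b i)))
    (fun f hf => key (Rd.over hP f) (by rw [eval_map_eq, eval_map_eq, hIa f hf, hIb f hf]))
    (key hF eF) (key hG eG)
  obtain ⟨l, hl⟩ := Submodule.mem_span_singleton.1 hmem
  have h1 := congrFun hl c
  have h2 := congrFun hl i
  have hpc : p c = 1 := by rw [← (ha c).2, hac, P.fn_one]
  simp only [Pi.smul_apply, smul_eq_mul] at h1 h2
  rw [hpc, mul_one, hac, hbc, sub_self, zero_div, P.fn_zero] at h1
  rw [h1, zero_mul, div_self hi, P.fn_one] at h2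
  exact zero_ne_one h2

theorem uniq2S (h : UniqStmt) : Uniq2Stmt := by
  intro k K L σ _ _ _ _ _ _ I P F G F' G' m n x x' hI hP hF hG rF rG hx hx' e hT
  obtain ⟨c, hc⟩ := Function.ne_iff.1 (P.red x).rep_nonzero
  obtain ⟨c1, r1⟩ := P.ratio x hc
  obtain ⟨c2, r2⟩ := P.ratio x' (a := c) (e ▸ hc)
  rw [← e] at r2
  obtain ⟨n1, e1⟩ := mk_div x c1
  obtain ⟨n2, e2⟩ := mk_div x' c2
  obtain ⟨n3, e3⟩ := mk_div (P.red x) hc
  have z1 : Zs I F G (Projectivization.mk K _ n1) := e1.symm ▸ hx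
  have z2 : Zs I F G (Projectivization.mk K _ n2) := e2.symm ▸ hx'
  have t3 : Trans I (Projectivization.mk L _ n3) F' G' := e3.symm ▸ hT
  have := h k K L σ I P F G F' G' _ _ _ c hP rF rG r1 r2 ((on_mk hI n1).1 z1.1)
    ((on_mk hI n2).1 z2.1) (div_self c1) (div_self c2)
    (((eval_mk_eq_zero hF n1).1 z1.2.1).trans ((eval_mk_eq_zero hF n2).1 z2.2.1).symm)
    (((eval_mk_eq_zero hG n1).1 z1.2.2).trans ((eval_mk_eq_zero hG n2).1 z2.2.2).symm)
    ((trans_mk hI (rF.homog hF) (rG.homog hG) n3).1 t3)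
  exact pp_ext c1 c2 fun b => congrFun this b

end Pool.Agent.MP_9207e0_ag.CC
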