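import Pool.Agent.MP_9207e0_ag.cc.Bas
import Pool.Agent.MP_9207e0_ag.cc.Br
import Pool.Agent.MP_9207e0_ag.cc.Card
import Pool.Agent.MP_9207e0_ag.cc.Chu
import Pool.Agent.MP_9207e0_ag.cc.Ci
import Pool.Agent.MP_9207e0_ag.cc.Cls
import Pool.Agent.MP_9207e0_ag.cc.Cnt
import Pool.Agent.MP_9207e0_ag.cc.Cuts
import Pool.Agent.MP_9207e0_ag.cc.Dim
import Pool.Agent.MP_9207e0_ag.cc.Div
import Pool.Agent.MP_9207e0_ag.cc.Ends
import Pool.Agent.MP_9207e0_ag.cc.Exact
import Pool.Agent.MP_9207e0_ag.cc.Fam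
import Pool.Agent.MP_9207e0_ag.cc.Gen
import Pool.Agent.MP_9207e0_ag.cc.Hom
import Pool.Agent.MP_9207e0_ag.cc.Int
import Pool.Agent.MP_9207e0_ag.cc.Isol
import Pool.Agent.MP_9207e0_ag.cc.L1
import Pool.Agent.MP_9207e0_ag.cc.L2
import Pool.Agent.MP_9207e0_ag.cc.Lift
import Pool.Agent.MP_9207e0_ag.cc.Lin
import Pool.Agent.MP_9207e0_ag.cc.Num
import Pool.Agent.MP_9207e0_ag.cc.O1a
import Pool.Agent.MP_9207e0_ag.cc.O1b
import Pool.Agent.MP_9207e0_ag.cc.O1c
import Pool.Agent.MP_9207e0_ag.cc.Orb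
import Pool.Agent.MP_9207e0_ag.cc.Prod
import Pool.Agent.MP_9207e0_ag.cc.Prt
import Pool.Agent.MP_9207e0_ag.cc.Rad
import Pool.Agent.MP_9207e0_ag.cc.Reg
import Pool.Agent.MP_9207e0_ag.cc.Repo
import Pool.Agent.MP_9207e0_ag.cc.Semi
import Pool.Agent.MP_9207e0_ag.cc.SpecS
import Pool.Agent.MP_9207e0_ag.cc.Tan
import Pool.Agent.MP_9207e0_ag.cc.Tens
import Pool.Agent.MP_9207e0_ag.cc.Trg
import Pool.Agent.MP_9207e0_ag.cc.Uniq
import Pool.Agent.MP_9207e0_ag.cc.Val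
import Pool.Agent.MP_9207e0_ag.cc.TRed
import Pool.Agent.MP_9207e0_ag.cc.TMain
import Pool.Agent.MP_9207e0_ag.cc.Qhyp
import Pool.Agent.MP_9207e0_ag.cc.Qform
import Pool.Agent.MP_9207e0_ag.cc.Qcls
import Pool.Agent.MP_9207e0_ag.cc.Qcard
import Pool.Agent.MP_9207e0_ag.cc.Frame
import Pool.Agent.MP_9207e0_ag.cc.Rhomap
import Pool.Agent.MP_9207e0_ag.cc.Rhotr
import Pool.Agent.MP_9207e0_ag.cc.Rhozero

/-! PROJECT CCC: assembly. -/

namespace Pool.Agent.MP_9207e0_ag.CC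

open MvPolynomial

theorem purity (k : Type) [Field k] [IsAlgClosed k] [CharZero k] (r a : ℕ)
    (I : Ideal (MvPolynomial (Fin (r + 3)) k)) (hI : IsK3Model I a) (N d n m : ℕ)
    (y : PP (Fin (r + 3)) k) (hy : OnX I y.rep)
    (hR : ConstSection I N y ∨ (r = 1 ∧ a = 2 ∧ N = 4 ∧ (m = 0 ∨ IsFlex I y)))
    (x : Fin (d + n + m) → PP (Fin (r + 3)) k) (z : Fin d → PP (Fin (r + 3)) k)
    (w : Fin n → PP (Fin (r + 3)) k) (hx : ∀ i, OnX I (x i).rep) (hz : ∀ i, OnX I (z i).rep)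
    (hw : ∀ i, OnX I (w i).rep)
    (h : RatEq I k (∑ i, Finsupp.single (x i) 1) (∑ i, Finsupp.single (z i) 1 +
      ∑ i, Finsupp.single (w i) 1 + Finsupp.single y (m : ℤ))) :
    OnLocus (Sum.elim x z) (2 * d + m) fun L _ _ p => (∀ i, OnX I (p i).rep) ∧
      RatEq I L (N • ∑ i, Finsupp.single (p (Sum.inl i)) 1)
        (N • (∑ i, Finsupp.single (p (Sum.inr i)) 1 +
          ∑ i, Finsupp.single (pmap (algebraMap k L) (w i)) 1 +
          Finsupp.single (pmap (algebraMap k L) y) (m : ℤ))) := by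
  have hS := specS transferS chuS
  have hRa := ratpS transferS
  have hGd := gdS hRa hS
  have hP := prodS tensS
  have hW := powerS hP
  have hC := cutsS valS
  have hU := uniq2S uniqS
  have hIs := isolS tensS hU
  have hD := dimS (nozS exactS)
  have hG := genS regS
  have hSph := sphS homS
  have hT := trgS tanS hD linS
  have hCi := ciS (numS exactS semiS regS) radS cardS hT linS
  have hF := famS transferS
  have hE := endsS chuS transferS
  have hCl := clsS hCi hT hU hF hD hRa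
  have hRepo := repoS (orbS (o1aS tanS hIs hG hSph) (o1bS hG hD hSph) (o1cS homS)) basS
    (liftS hG hW tensS hC hIs) hCi hCl hU hRa
  have h1 := l1S cntS (divS cntS) hF hRa
  have hRn := T.ratpS N hRa
  have hSn := T.specS N hS
  have hGn := T.gdS hRn hSn
  have main := @T.main_of_ccd N h1 (l2S hE orbdecS (divS cntS) cenS)
    (prtS hRepo hE orbdecS hP hGd hRa) brS hG hC hP hW hGn hRn
    (T.indS (intS hP hC (locS tanS) uniqS) pushS (T.redS valS pushS hGn hRn) hGn)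
    (T.escS hD hG hW hSn hRn) k _ _ _ r a I hI
  obtain hR | ⟨rfl, rfl, rfl, hR⟩ := hR
  · obtain ⟨s, δ, hs⟩ := T.ccd_of_section h1 hI.homog hy hR
    exact main hs hx hz hw h
  · obtain ⟨⟨y₀, h2, h3⟩, h4⟩ := T.ccd_of_quartic (qhypS exactS)
      (qformS rhoMapS rhoTrS rhoZeroS frameS hG regS tanS)
      (qclsS basS hCi hCl (qcardS hT) hS hRa lineS) hRa hG pushS hI
    obtain rfl | hR := hR
    · obtain ⟨s, δ, hs⟩ := h4 y₀ h2 h3
      simpa only [Nat.cast_zero, Finsupp.single_zero] using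
        main hs hx hz hw (by simpa only [Nat.cast_zero, Finsupp.single_zero] using h)
    · obtain ⟨s, δ, hs⟩ := h4 y hy hR
      exact main hs hx hz hw h

end Pool.Agent.MP_9207e0_ag.CC
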