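import Pool.Agent.MP_9207e0_ag.cc.Spec

/-! PROJECT CCC: the calculus of ranks. -/

noncomputable section

namespace Pool.Agent.MP_9207e0_ag.CC

open MvPolynomial
open scoped Classical

variable {k K L M σ ι κ : Type} [Field k] [Field K] [Field L] [Field M] [Algebra k K]
  [Algebra k L] [Algebra k M]

/-! Closure and rank -/

theorem mem_cl_iff {S : Set K} {x : K} : x ∈ cl k S ↔ IsAlgebraic (Algebra.adjoin k S) x := by
  rw [cl, AlgebraicIndependent.matroid_closure_eq]
  exact Subalgebra.mem_algebraicClosure _ _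

theorem subset_cl (S : Set K) : S ⊆ cl k S := (AlgebraicIndependent.matroid k K).subset_closure S

theorem cl_mono {S T : Set K} (h : S ⊆ T) : cl k S ⊆ cl k T := (AlgebraicIndependent.matroid k K).closure_subset_closure h

theorem cl_subset_cl {S T : Set K} (h : S ⊆ cl k T) : cl k S ⊆ cl k T :=
  (AlgebraicIndependent.matroid k K).closure_subset_closure_of_subset_closure h

/-- The closure as an intermediate field. -/
def clF (k : Type) [Field k] [Algebra k K] (S : Set K) : IntermediateField k K :=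
  ((Subalgebra.algebraicClosure (Algebra.adjoin k S) K).restrictScalars k).toIntermediateField
    fun _ hx => IsAlgebraic.inv hx

theorem mem_clF {S : Set K} {x : K} : x ∈ clF k S ↔ x ∈ cl k S := mem_cl_iff.symm

theorem mem_cl_of_isAlgebraic {S : Set K} {x : K} (h : IsAlgebraic (clF k S) x) : x ∈ cl k S := by
  have : x ∈ cl k (cl k S) := mem_cl_iff.2 (h.tower_top_of_subalgebra_le (A := (clF k S).toSubalgebra)
    fun y hy => Algebra.subset_adjoin (mem_clF.1 hy))
  exact cl_subset_cl subset_rfl this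

instance clF_isAlgClosed [IsAlgClosed K] (S : Set K) : IsAlgClosed (clF k S) := by
  refine IsAlgClosed.of_exists_root _ fun p hp hi => ?_
  obtain ⟨x, hx⟩ := IsAlgClosed.exists_aeval_eq_zero K p (Polynomial.degree_pos_of_irreducible hi).ne'
  refine ⟨⟨x, mem_clF.2 (mem_cl_of_isAlgebraic ⟨p, hp.ne_zero, hx⟩)⟩, Subtype.ext ?_⟩
  have := Polynomial.aeval_algebraMap_apply K
    (⟨x, mem_clF.2 (mem_cl_of_isAlgebraic ⟨p, hp.ne_zero, hx⟩)⟩ : clF k S) p
  exact this.symm.trans hx

theorem algebraMap_mem_cl (S : Set K) (c : k) : algebraMap k K c ∈ cl k S := mem_clF.1 ((clF k S).algebraMap_mem c)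

theorem div_mem_cl {S : Set K} {x y : K} (hx : x ∈ cl k S) (hy : y ∈ cl k S) : x / y ∈ cl k S :=
  mem_clF.1 (div_mem (mem_clF.2 hx) (mem_clF.2 hy))

theorem inv_mem_cl {S : Set K} {x : K} : x⁻¹ ∈ cl k S ↔ x ∈ cl k S := by
  rw [← mem_clF, ← mem_clF]; exact inv_mem_iff

theorem aeval_mem_cl {S : Set K} {z : ι → K} (hz : ∀ i, z i ∈ cl k S) (f : MvPolynomial ι k) :
    aeval z f ∈ cl k S := by
  induction f using MvPolynomial.induction_on with
  | C c => simpa using algebraMap_mem_cl S c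
  | add f g hf hg => rw [map_add]; exact mem_clF.1 (add_mem (mem_clF.2 hf) (mem_clF.2 hg))
  | mul_X f i hf =>
    rw [map_mul, aeval_X]; exact mem_clF.1 (mul_mem (mem_clF.2 hf) (mem_clF.2 (hz i)))

theorem mem_cl_of_pow {S : Set K} {x : K} {n : ℕ} (hn : 0 < n) (h : x ^ n ∈ cl k S) :
    x ∈ cl k S := mem_cl_iff.2 (IsAlgebraic.of_pow hn (mem_cl_iff.1 h))

theorem mem_cl_empty [IsAlgClosed k] {x : K} (h : x ∈ cl k (∅ : Set K)) :
    ∃ c, algebraMap k K c = x := by
  rw [mem_cl_iff, Algebra.adjoin_empty] at h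
  have h1 : IsAlgebraic k x := h.restrictScalars k
  exact minpoly.mem_range_of_degree_eq_one k x
    (IsAlgClosed.degree_eq_one_of_irreducible k (minpoly.irreducible h1.isIntegral))

theorem rk_mono {S T : Set K} (h : S ⊆ T) : rk k S ≤ rk k T := (AlgebraicIndependent.matroid k K).eRk_mono h

theorem rk_le_of_subset_cl {S T : Set K} (h : S ⊆ cl k T) : rk k S ≤ rk k T :=
  (rk_mono h).trans ((AlgebraicIndependent.matroid k K).eRk_closure_eq T).le

theorem rk_union_le (S T : Set K) : rk k (S ∪ T) ≤ rk k S + rk k T :=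
  (AlgebraicIndependent.matroid k K).eRk_union_le_eRk_add_eRk S T

theorem rk_le_encard (S : Set K) : rk k S ≤ S.encard := (AlgebraicIndependent.matroid k K).eRk_le_encard S

theorem rk_range_le [Fintype ι] (z : ι → K) : rk k (Set.range z) ≤ Fintype.card ι := by
  refine (rk_le_encard _).trans ?_
  rw [← Set.image_univ]
  refine (Set.encard_image_le _ _).trans ?_
  simp

theorem rk_ne_top {S : Set K} (h : S.Finite) : rk k S ≠ ⊤ := ne_top_of_le_ne_top h.encard_lt_top.ne (rk_le_encard S)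

theorem rk_empty : rk k (∅ : Set K) = 0 := (AlgebraicIndependent.matroid k K).eRk_empty

theorem rk_insert {S : Set K} {t : K} (h : t ∉ cl k S) : rk k (insert t S) = rk k S + 1 :=
  Matroid.eRk_insert_eq_add_one ⟨trivial, h⟩

/-- If the rank does not grow then the larger set is algebraic over the smaller one. -/
theorem subset_cl_of_rk_le {S T : Set K} (hS : rk k S ≠ ⊤) (h : S ⊆ cl k T)
    (h' : rk k T ≤ rk k S) : T ⊆ cl k S := fun t ht => by_contra fun h0 => by
  have h1 : rk k (insert t S) ≤ rk k S :=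
    (rk_le_of_subset_cl (Set.insert_subset (subset_cl T ht) h)).trans h'
  rw [rk_insert h0] at h1
  exact absurd h1 (not_le.2 ((ENat.lt_add_one_iff hS).2 le_rfl))

theorem rk_range_of_indep [Fintype ι] {z : ι → K} (h : AlgebraicIndependent k z) :
    rk k (Set.range z) = Fintype.card ι := by
  have h1 : (AlgebraicIndependent.matroid k K).Indep (Set.range z) := h.coe_range
  rw [rk, h1.eRk_eq_encard, ← Set.image_univ, h.injective.injOn.encard_image]
  simp

theorem indep_of_rk [Fintype ι] {z : ι → K} (h : (Fintype.card ι : ℕ∞) ≤ rk k (Set.range z)) :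
    AlgebraicIndependent k z := by
  have h1 : (Set.range z).encard ≤ Fintype.card ι := by
    rw [← Set.image_univ]
    exact (Set.encard_image_le _ _).trans (by simp)
  have h2 : (AlgebraicIndependent.matroid k K).Indep (Set.range z) :=
    (Matroid.indep_iff_eRk_eq_encard_of_finite (Set.finite_range z)).2
      (le_antisymm (rk_le_encard _) (h1.trans h))
  have h3 : Function.Injective z := by
    rw [← Set.injOn_univ]
    refine Set.Finite.injOn_of_encard_image_eq Set.finite_univ (le_antisymm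
      (Set.encard_image_le _ _) ?_)
    rw [Set.image_univ]
    exact le_trans (by simp) (h.trans (rk_le_encard _))
  exact (algebraicIndependent_subtype_range h3).1 h2

theorem exists_indep {S : Set K} {n : ℕ} (h : (n : ℕ∞) ≤ rk k S) :
    ∃ t : Fin n → K, (∀ l, t l ∈ S) ∧ AlgebraicIndependent k t := by
  obtain ⟨J, h1, h2, h3⟩ := Matroid.le_eRk_iff.1 h
  have hf : J.Finite := Set.finite_of_encard_eq_coe h3
  have := hf.fintype
  have hc : Fintype.card J = n := by
    rw [Set.encard, ENat.card_eq_coe_fintype_card] at h3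
    exact_mod_cast h3
  let e := (Fintype.equivFinOfCardEq hc).symm
  exact ⟨fun l => e l, fun l => h1 (e l).2,
    AlgebraicIndependent.comp (x := fun x : J => (x : K)) h2 e e.injective⟩

theorem le_rk {S : Set K} {n : ℕ} {t : Fin n → K} (h1 : ∀ l, t l ∈ S)
    (h2 : AlgebraicIndependent k t) : (n : ℕ∞) ≤ rk k S := by
  have := rk_range_of_indep h2
  rw [Fintype.card_fin] at this
  exact this.symm.le.trans (rk_mono (Set.range_subset_iff.2 h1))

theorem rk_image (f : K →ₐ[k] L) (S : Set K) : rk k (f '' S) = rk k S := by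
  refine le_antisymm (ENat.forall_natCast_le_iff_le.1 fun n hn => ?_)
    (ENat.forall_natCast_le_iff_le.1 fun n hn => ?_)
  · obtain ⟨t, h1, h2⟩ := exists_indep hn
    choose u hu e using h1
    obtain rfl : t = f ∘ u := funext fun l => (e l).symm
    exact le_rk hu (h2.of_comp f)
  · obtain ⟨t, h1, h2⟩ := exists_indep hn
    exact le_rk (fun l => ⟨_, h1 l, rfl⟩) (h2.map' (f := f) f.injective)

theorem ASp.of_indep {z : ι → K} (h : AlgebraicIndependent k z) (p : ι → L) : ASp k z p := fun f hf => by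
  rw [h.eq_zero_of_aeval_eq_zero f hf, map_zero]

theorem ASp.comp {z : ι → K} {p : ι → L} (h : ASp k z p) (e : κ → ι) :
    ASp k (z ∘ e) (p ∘ e) := fun f hf => by
  rw [← aeval_rename] at hf ⊢
  exact h _ hf

theorem ASp.indep {z : ι → K} {p : ι → L} (h : ASp k z p) (h' : AlgebraicIndependent k p) :
    AlgebraicIndependent k z :=
  algebraicIndependent_iff.2 fun f hf => h'.eq_zero_of_aeval_eq_zero f (h f hf)

theorem ASp.rk_le {z : ι → K} {p : ι → L} (h : ASp k z p) :
    rk k (Set.range p) ≤ rk k (Set.range z) := ENat.forall_natCast_le_iff_le.1 fun n hn => by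
  obtain ⟨t, h1, h2⟩ := exists_indep hn
  choose e he using h1
  obtain rfl : t = p ∘ e := funext fun l => (he l).symm
  exact le_rk (fun l => ⟨_, rfl⟩) ((h.comp e).indep h2)

/-- A specialisation that keeps the rank can be reversed. -/
theorem ASp.drop [Finite ι] {z : ι → K} {p : ι → L} (h : ASp k z p)
    (h' : rk k (Set.range z) ≤ rk k (Set.range p)) : ASp k p z := by
  intro f hf
  by_contra h0
  obtain ⟨n, hn⟩ := ENat.ne_top_iff_exists.1 (rk_ne_top (k := k) (Set.finite_range p))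
  obtain ⟨t, h1, h2⟩ := exists_indep hn.le
  choose e he using h1
  obtain rfl : t = p ∘ e := funext fun l => (he l).symm
  have h3 := rk_range_of_indep ((h.comp e).indep h2)
  have h4 : Set.range z ⊆ cl k (Set.range (z ∘ e)) :=
    subset_cl_of_rk_le (rk_ne_top (Set.finite_range _))
      ((Set.range_comp_subset_range e z).trans (subset_cl _))
      (by rw [h3, Fintype.card_fin, hn]; exact h')
  have h5 := mem_cl_iff.1 (aeval_mem_cl (fun i => h4 ⟨i, rfl⟩) f)
  obtain ⟨q, hq, hq0⟩ := h5.exists_nonzero_coeff_and_aeval_eq_zero (mem_nonZeroDivisors_of_ne_zero h0)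
  let ρ : MvPolynomial (Fin n) k →ₐ[k] Algebra.adjoin k (Set.range (z ∘ e)) :=
    (aeval (z ∘ e)).codRestrict _ fun g => by
      rw [Algebra.adjoin_range_eq_range_aeval]; exact ⟨g, rfl⟩
  have hρ : Function.Surjective ρ := fun a => by
    obtain ⟨g, hg⟩ := (Algebra.adjoin_range_eq_range_aeval k (z ∘ e)).le a.2
    exact ⟨g, Subtype.ext hg⟩
  obtain ⟨Q, rfl⟩ := Polynomial.map_surjective (ρ : MvPolynomial (Fin n) k →+* _) hρ q
  have key : ∀ {N : Type} [Field N] [Algebra k N] (v : ι → N),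
      aeval v (Q.eval₂ (rename e : MvPolynomial (Fin n) k →ₐ[k] MvPolynomial ι k).toRingHom f) =
        Q.eval₂ (aeval (v ∘ e) : MvPolynomial (Fin n) k →ₐ[k] N).toRingHom (aeval v f) := by
    intro N _ _ v
    refine (Polynomial.hom_eval₂ Q _ (aeval v : MvPolynomial ι k →ₐ[k] N).toRingHom f).trans ?_
    congr 1
    exact RingHom.ext fun g => aeval_rename e v g
  have h6 := h (Q.eval₂ (rename e : MvPolynomial (Fin n) k →ₐ[k] MvPolynomial ι k).toRingHom f) (by
    rw [key, ← hq0, Polynomial.aeval_def, Polynomial.eval₂_map]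
    rfl)
  rw [key, hf, Polynomial.eval₂_at_zero] at h6
  rw [Polynomial.coeff_map, h2.eq_zero_of_aeval_eq_zero _ h6, map_zero] at hq
  exact hq rfl

/-- A transcendental element can be sent to `0`. -/
theorem exists_plc_zero [IsAlgClosed K] {S : Set K} {t : K} (h : t ∉ cl k S) :
    ∃ P : Plc K K, P.Over k ∧ (∀ s ∈ cl k S, s ∈ P.V ∧ P.fn s = s) ∧ t ∈ P.V ∧ P.fn t = 0 := by
  obtain ⟨P, hP⟩ := place (Polynomial.aeval t : Polynomial (clF k S) →ₐ[clF k S] K).toRingHom
    (Polynomial.aeval 0 : Polynomial (clF k S) →ₐ[clF k S] K).toRingHom fun r hr => by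
      by_cases h0 : r = 0
      · rw [h0, map_zero]
      · exact absurd (mem_cl_of_isAlgebraic ⟨r, h0, hr⟩) h
  have h1 : ∀ s ∈ cl k S, s ∈ P.V ∧ P.fn s = s := fun s hs => by
    simpa using hP (Polynomial.C ⟨s, mem_clF.2 hs⟩)
  exact ⟨P, fun c => h1 _ (algebraMap_mem_cl S c), h1, by simpa using hP Polynomial.X⟩

/-- A place over `k` with values in `k`. -/
theorem exists_plc [IsAlgClosed L] : ∃ P : Plc K L, P.Over k :=
  place (algebraMap k K) (algebraMap k L) fun r hr => by
    rw [(algebraMap k K).injective (hr.trans (map_zero _).symm), map_zero]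

theorem Plc.mem_of_cl (P : Plc K L) {F : Subfield K} (hF : ∀ x ∈ F, x ∈ P.V) {x : K}
    (hx : IsAlgebraic F x) : x ∈ P.V := by
  let _ : Algebra F P.V := (F.subtype.codRestrict P.V.toSubring fun x => hF x x.2).toAlgebra
  have : IsScalarTower F P.V K := IsScalarTower.of_algebraMap_eq fun _ => rfl
  obtain ⟨y, hy⟩ := IsIntegrallyClosed.isIntegral_iff.1 (hx.isIntegral.tower_top (A := P.V))
  exact hy ▸ y.2

/-! Ranks of tuples of points -/

theorem rat1_subset (w : ι → PP σ K) (i : ι) : rat1 (w i) ⊆ rat w := fun _ ⟨a, b, h⟩ => ⟨i, a, b, h⟩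

theorem rat_eq_iUnion (w : ι → PP σ K) : rat w = ⋃ i, rat1 (w i) := 
  Set.ext fun _ => (Set.mem_iUnion (s := fun i => rat1 (w i))).symm

theorem rat_const [Nonempty ι] (x : PP σ K) : rat (fun _ : ι => x) = rat1 x := by
  rw [rat_eq_iUnion, Set.iUnion_const]

theorem rat_elim (w : ι → PP σ K) (u : κ → PP σ K) : rat (Sum.elim w u) = rat w ∪ rat u := by
  simp only [rat_eq_iUnion, Set.iUnion_sum, Sum.elim_inl, Sum.elim_inr]

theorem rat_comp_subset (w : ι → PP σ K) (e : κ → ι) : rat (w ∘ e) ⊆ rat w := fun _ ⟨i, h⟩ => ⟨e i, h⟩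

theorem rat1_finite [Finite σ] (x : PP σ K) : (rat1 x).Finite :=
  (Set.finite_range fun u : σ × σ => x.rep u.1 / x.rep u.2).subset
    fun _ ⟨a, b, h⟩ => ⟨(a, b), h.symm⟩

theorem rat_finite [Finite ι] [Finite σ] (w : ι → PP σ K) : (rat w).Finite := by
  rw [rat_eq_iUnion]
  exact Set.finite_iUnion fun i => rat1_finite _

theorem rat1_pmap (f : K →+* L) (x : PP σ K) : rat1 (pmap f x) = f '' rat1 x := by
  ext t
  constructor
  · rintro ⟨a, b, rfl⟩
    exact ⟨_, ⟨a, b, rfl⟩, (pmap_div f x b a).symm⟩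
  · rintro ⟨_, ⟨a, b, rfl⟩, rfl⟩
    exact ⟨a, b, (pmap_div f x b a).symm⟩

theorem rat_pmap (f : K →+* L) (w : ι → PP σ K) : rat (fun i => pmap f (w i)) = f '' rat w := by
  simp only [rat_eq_iUnion, rat1_pmap, Set.image_iUnion]

theorem rat1_bc_subset (S : Set K) (q : PP σ k) : rat1 (bc K q) ⊆ cl k S := by
  rw [rat1_pmap]
  rintro _ ⟨c, -, rfl⟩
  exact algebraMap_mem_cl S c

theorem range_nv_subset (w : ι → PP σ K) (a : ι → σ) : Set.range (nv w a) ⊆ rat w := by
  rintro _ ⟨u, rfl⟩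
  exact ⟨u.1, u.2, a u.1, rfl⟩

theorem rat_subset_cl_nv {w : ι → PP σ K} {a : ι → σ} (h : ∀ i, (w i).rep (a i) ≠ 0) :
    rat w ⊆ cl k (Set.range (nv w a)) := by
  rintro _ ⟨i, b, c, rfl⟩
  rw [← div_div_div_cancel_right₀ (h i)]
  exact div_mem_cl (subset_cl _ ⟨(i, b), rfl⟩) (subset_cl _ ⟨(i, c), rfl⟩)

theorem rk_nv {w : ι → PP σ K} {a : ι → σ} (h : ∀ i, (w i).rep (a i) ≠ 0) :
    rk k (Set.range (nv w a)) = rk k (rat w) :=
  le_antisymm (rk_mono (range_nv_subset w a)) (rk_le_of_subset_cl (rat_subset_cl_nv h))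

theorem rat1_mk_subset {S : Set K} {v : σ → K} (h0 : v ≠ 0) (h : ∀ j, v j ∈ cl k S) :
    rat1 (Projectivization.mk K v h0) ⊆ cl k S := by
  rintro _ ⟨a, b, rfl⟩
  rw [rep_mk_div]
  exact div_mem_cl (h a) (h b)

theorem kp_of_subset [IsAlgClosed k] {x : PP σ K} (h : rat1 x ⊆ cl k (∅ : Set K)) : Kp k x := by
  obtain ⟨a, ha⟩ := Function.ne_iff.1 x.rep_nonzero
  obtain ⟨h0, e⟩ := mk_div x ha
  choose c hc using fun b => mem_cl_empty (h ⟨b, a, rfl⟩)
  have h1 : (fun b => algebraMap k K (c b)) = fun b => x.rep b / x.rep a := funext hc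
  have h2 : c ≠ 0 := fun h => h0 (by rw [← h1, h]; exact funext fun _ => map_zero _)
  refine ⟨Projectivization.mk k c h2, e.symm.trans (Eq.trans ?_ (pmap_mk _ h2 (h1 ▸ h0)).symm)⟩
  congr 1
  exact h1.symm

theorem one_le_rk [IsAlgClosed k] {x : PP σ K} (h : ¬ Kp k x) : 1 ≤ rk k (rat1 x) := by
  obtain ⟨t, h1, h2⟩ := Set.not_subset.1 fun h' => h (kp_of_subset h')
  have := rk_insert h2
  rw [rk_empty, zero_add] at this
  exact this.symm.le.trans (rk_mono (Set.insert_subset h1 (Set.empty_subset _)))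

theorem Sp.rk_le [Finite σ] {w : ι → PP σ K} {p : ι → PP σ L} (h : Sp k w p) :
    rk k (rat p) ≤ rk k (rat w) := by
  obtain ⟨a, ha⟩ := exists_chart p
  obtain ⟨h1, h2⟩ := h.asp ha
  rw [← rk_nv ha, ← rk_nv h1]
  exact h2.rk_le

theorem Sp1.rk_le [Finite σ] {x : PP σ K} {y : PP σ L} (h : Sp1 k x y) :
    rk k (rat1 y) ≤ rk k (rat1 x) := by
  have := h.sp.rk_le
  rwa [rat_const, rat_const] at this

theorem Sp.drop [Finite σ] [Finite ι] [IsAlgClosed K] {w : ι → PP σ K} {p : ι → PP σ L}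
    (h : Sp k w p) (h' : rk k (rat w) ≤ rk k (rat p)) : Sp k p w := by
  obtain ⟨a, ha⟩ := exists_chart p
  obtain ⟨h1, h2⟩ := h.asp ha
  refine Sp.of_asp ha h1 (h2.drop ?_)
  rwa [rk_nv ha, rk_nv h1]

theorem Sp1.drop [Finite σ] [IsAlgClosed K] {x : PP σ K} {y : PP σ L} (h : Sp1 k x y)
    (h' : rk k (rat1 x) ≤ rk k (rat1 y)) : Sp1 k y x :=
  (h.sp.drop (by rwa [rat_const, rat_const])).sp1 ()

theorem Sp1.aeval [Finite σ] {x : PP σ K} {y : PP σ L} (h : Sp1 k x y) {f : MvPolynomial σ k}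
    {n : ℕ} (hf : f.IsHomogeneous n) (h0 : aeval x.rep f = 0) : aeval y.rep f = 0 := by
  obtain ⟨P, hP, rfl⟩ := h
  exact Plc.aeval_red hP hf h0

/-- A place that fixes the ratios of a point fixes the point. -/
theorem Plc.red_eq_self [Finite σ] (P : Plc K K) {x : PP σ K}
    (h : ∀ t ∈ rat1 x, t ∈ P.V ∧ P.fn t = t) : P.red x = x := by
  obtain ⟨a, ha⟩ := Function.ne_iff.1 x.rep_nonzero
  exact P.red_eq ha ha fun b => h _ ⟨b, a, rfl⟩

/-- A place that extends `P` along `f`. -/
theorem Plc.red_ext [Finite σ] {P : Plc K L} {Q : Plc M L} {f : K →+* M}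
    (h : ∀ x ∈ P.V, f x ∈ Q.V ∧ Q.fn (f x) = P.fn x) (x : PP σ K) : Q.red (pmap f x) = P.red x := by
  obtain ⟨a, ha⟩ := Function.ne_iff.1 (P.red x).rep_nonzero
  obtain ⟨h1, h2⟩ := P.ratio x ha
  refine Q.red_eq (by rw [Ne, pmap_ne]; exact h1) ha fun b => ?_
  rw [pmap_div, ← (h2 b).2]
  exact h _ (h2 b).1

theorem On.of_bc [Finite σ] {I : Ideal (MvPolynomial σ k)} (hI : Hg I) {q : PP σ k}
    (h : On I (CC.bc K q)) : On I q := by
  have h0 : (fun b => algebraMap k K (q.rep b)) ≠ 0 := fun h =>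
    q.rep_nonzero (funext fun b => (algebraMap k K).injective ((congrFun h b).trans (map_zero _).symm))
  have h1 := (on_mk hI h0).1 h
  intro f hf
  refine (algebraMap k K).injective ?_
  rw [map_zero, ← h1 f hf]
  exact (aeval_algebraMap_apply K q.rep f).symm

/-- The points with affine coordinates `z` in the chart `a`. -/
theorem exists_of_nv {z : ι × σ → K} {a : ι → σ} (h : ∀ i, z (i, a i) = 1) :
    ∃ w : ι → PP σ K, (∀ i, (w i).rep (a i) ≠ 0) ∧ nv w a = z := by
  have h0 : ∀ i, (fun b => z (i, b)) ≠ 0 := fun i h' => one_ne_zero ((h i).symm.trans (congrFun h' _))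
  refine ⟨fun i => Projectivization.mk K _ (h0 i), fun i h' => ?_, funext fun u => ?_⟩
  · exact one_ne_zero ((h i).symm.trans ((rep_mk_eq_zero (h0 i) _).1 h'))
  · rw [nv, rep_mk_div, h, div_one]

theorem on_iff_nv {I : Ideal (MvPolynomial σ k)} (hI : Hg I) {x : PP σ K} {a : σ}
    (h : x.rep a ≠ 0) : On I x ↔ OnX I fun b => x.rep b / x.rep a := by
  obtain ⟨h0, e⟩ := mk_div x h
  rw [← on_mk hI h0, e]

/-! The field `LL K` -/

theorem tt_transcendental : Transcendental K (tt K) :=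
  (transcendental_algebraMap_iff (algebraMap (RatFunc K) (LL K)).injective).2
    RatFunc.transcendental_X

theorem mem_cl_tt (x : LL K) : x ∈ cl K {tt K} := by
  have h1 : ∀ p : Polynomial K, algebraMap (RatFunc K) (LL K) (algebraMap _ _ p) ∈ clF K {tt K} := by
    intro p
    rw [← RatFunc.aeval_X_left_eq_algebraMap, ← Polynomial.aeval_algebraMap_apply]
    exact Polynomial.aeval_mem_adjoin_singleton K (tt K) |> Algebra.adjoin_le (S := (clF K {tt K}).toSubalgebra)
      fun y hy => mem_clF.2 (subset_cl _ hy)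
  have h2 : ∀ f : RatFunc K, algebraMap (RatFunc K) (LL K) f ∈ clF K {tt K} := fun f => by
    rw [← f.num_div_denom, map_div₀]
    exact div_mem (h1 _) (h1 _)
  let _ : Algebra (RatFunc K) (clF K {tt K}) :=
    ((algebraMap (RatFunc K) (LL K)).codRestrict (clF K {tt K}) h2).toAlgebra
  have : IsScalarTower (RatFunc K) (clF K {tt K}) (LL K) :=
    IsScalarTower.of_algebraMap_eq fun _ => rfl
  exact mem_cl_of_isAlgebraic ((Algebra.IsAlgebraic.isAlgebraic (R := RatFunc K) x).tower_top _)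

theorem rk_LL (S : Set (LL K)) : rk K S ≤ 1 :=
  (rk_le_of_subset_cl fun x _ => mem_cl_tt x).trans ((rk_le_encard _).trans (by simp))

theorem exists_zr [IsAlgClosed K] :
    (∃ P : Plc (LL K) K, Zr P (tt K)) ∧ ∃ P : Plc (LL K) K, Zr P (tt K)⁻¹ := by
  have key : ∀ u : LL K, Transcendental K u → ∃ P : Plc (LL K) K, Zr P u := fun u hu => by
    obtain ⟨P, hP⟩ := place (Polynomial.aeval u : Polynomial K →ₐ[K] LL K).toRingHom
      (Polynomial.aeval 0 : Polynomial K →ₐ[K] K).toRingHom fun r hr => by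
        rw [transcendental_iff.1 hu r hr, map_zero]
    exact ⟨P, fun c => by simpa using hP (Polynomial.C c), by simpa using hP Polynomial.X⟩
  exact ⟨key _ tt_transcendental, key _ fun h => tt_transcendental (IsAlgebraic.inv_iff.1 h)⟩

theorem Plc.Over.tower [Algebra K M] [Algebra K L] [IsScalarTower k K M] [IsScalarTower k K L]
    {P : Plc M L} (h : P.Over K) : P.Over k := fun c => by
  rw [IsScalarTower.algebraMap_apply k K M, IsScalarTower.algebraMap_apply k K L]
  exact h _

theorem Plc.Over.self [Algebra K M] [IsScalarTower k K M] {P : Plc M K} (h : P.Over K) :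
    P.Over k := h.tower

end Pool.Agent.MP_9207e0_ag.CC
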