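import Pool.Agent.MP_9207e0_ag.cc.Place

/-! PROJECT CCC: the statements of the rows. -/

noncomputable section

namespace Pool.Agent.MP_9207e0_ag.CC

open MvPolynomial
open scoped Classical

section Defs

variable {k K L σ ι : Type} [Field k] [Field K] [Field L] [Algebra k K]

/-- `F'` is the coefficientwise reduction of `F`. -/
def Rd (P : Plc K L) (F : MvPolynomial σ K) (F' : MvPolynomial σ L) : Prop :=
  ∀ d, coeff d F ∈ P.V ∧ P.fn (coeff d F) = coeff d F'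

/-- Transversality at a vector; `Trans I x F G` is `TransV I x.rep F G`. -/
def TransV [Fintype σ] (I : Ideal (MvPolynomial σ k)) (v : σ → K) (F G : MvPolynomial σ K) :
    Prop := ∀ δ ∈ tang I v, dv F v δ = 0 → dv G v δ = 0 → δ ∈ K ∙ v

/-- The common zeros of two forms on the zero set of `I`. -/
def Zs (I : Ideal (MvPolynomial σ k)) (F G : MvPolynomial σ K) (x : PP σ K) : Prop :=
  On I x ∧ eval x.rep F = 0 ∧ eval x.rep G = 0

/-- The point is defined over `k`. -/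
def Kp (k : Type) [Field k] [Algebra k K] (x : PP σ K) : Prop := ∃ q : PP σ k, x = bc K q

/-- `δ` is tangent at `x` to the closure of `x` over `k`. -/
def TC (k : Type) [Field k] [Algebra k K] [Fintype σ] (x : PP σ K) (δ : σ → K) : Prop :=
  ∀ (f : MvPolynomial σ k) (n : ℕ), f.IsHomogeneous n → aeval x.rep f = 0 →
    dv (map (algebraMap k K) f) x.rep δ = 0

/-- The form `∑ μ i * u ^ i`. -/
def pu {N : ℕ} (μ : Fin N → MvPolynomial σ k) (u : K) : MvPolynomial σ K :=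
  ∑ i : Fin N, C (u ^ i.1) * map (algebraMap k K) (μ i)

/-- On the family with generic point `w`, the sum of all points minus the sum of the points with
index in `ν` has the constant class `α`. -/
structure Gd [Fintype σ] [Fintype ι] (I : Ideal (MvPolynomial σ k)) (w : ι → PP σ K)
    (ν : Multiset ι) (α : Multiset (PP σ k)) : Prop where
  on : ∀ i, On I (w i)
  onc : OnM I α
  cls : RatP I (ms w) (ν.map w + α.map (bc K))

/-- A basis of the forms of degree `m` modulo `I`. -/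
structure Bas (I : Ideal (MvPolynomial σ k)) (m : ℕ) {h : ℕ} (β : Fin h → MvPolynomial σ k) :
    Prop where
  card : h = hf I m
  homog : ∀ l, (β l).IsHomogeneous m
  span : ∀ (K : Type) [Field K] [Algebra k K] (F : MvPolynomial σ K), F.IsHomogeneous m →
    ∃ c : Fin h → K, F - fm β c ∈ IK K I
  indep : ∀ (K : Type) [Field K] [Algebra k K] (c : Fin h → K), fm β c ∈ IK K I → c = 0

/-- `A - B` is a difference of two members of a family of constant class whose dimension is at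
least the number of points. -/
def PR [Fintype σ] (I : Ideal (MvPolynomial σ k)) (A B : Multiset (PP σ k)) : Prop :=
  ∃ (ι : Type) (_ : Fintype ι) (E : Ext k) (w : ι → PP σ E.K) (α : Multiset (PP σ k))
    (p q : ι → PP σ k), Gd I w 0 α ∧ (Fintype.card ι : ℕ∞) ≤ rk k (rat w) ∧ Sp k w p ∧
      Sp k w q ∧ A + ms p = B + ms q

/-- A point of rank two is equivalent to `y`. -/
def Esc [Fintype σ] (I : Ideal (MvPolynomial σ k)) (y : PP σ k) : Prop :=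
  ∃ (E : Ext k) (η : PP σ E.K), On I η ∧ 2 ≤ rk k (rat1 η) ∧ RatP I {η} {bc E.K y}

/-- The conclusion: `x` lies on a family of class `γ` and dimension at least `m`. -/
def Concl [Fintype σ] [Fintype ι] (I : Ideal (MvPolynomial σ k)) (ν : Multiset ι)
    (γ : Multiset (PP σ k)) (x : ι → PP σ k) (m : ℕ) : Prop :=
  ∃ (E : Ext k) (ξ : ι → PP σ E.K), Gd I ξ ν γ ∧ Sp k ξ x ∧ (m : ℕ∞) ≤ rk k (rat ξ)

/-- All points of the hypersurface section `s = 0` are equivalent to `y`. -/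
structure CCD [Fintype σ] (I : Ideal (MvPolynomial σ k)) (s : MvPolynomial σ k) (δ : ℕ)
    (y : PP σ k) : Prop where
  pos : 0 < δ
  homog : s.IsHomogeneous δ
  on : On I y
  zero : aeval y.rep s = 0
  cls : ∀ (K : Type) [Field K] [IsAlgClosed K] [Algebra k K] (x : PP σ K), On I x →
    aeval x.rep s = 0 → RatP I {x} {bc K y}

end Defs

/-! Products, valuations, cuts -/

def TensStmt : Prop :=
  ∀ (k K₁ K₂ : Type) [Field k] [IsAlgClosed k] [Field K₁] [Field K₂] [Algebra k K₁] [Algebra k K₂],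
    ∃ (E : Ext k) (f₁ : K₁ →ₐ[k] E.K) (f₂ : K₂ →ₐ[k] E.K),
      (∀ (L : Type) [Field L] [IsAlgClosed L] [Algebra k L] (P₁ : Plc K₁ L) (P₂ : Plc K₂ L),
        P₁.Over k → P₂.Over k → ∃ P : Plc E.K L, P.Over k ∧
          (∀ x ∈ P₁.V, f₁ x ∈ P.V ∧ P.fn (f₁ x) = P₁.fn x) ∧
          ∀ x ∈ P₂.V, f₂ x ∈ P.V ∧ P.fn (f₂ x) = P₂.fn x) ∧
      ∀ (S₁ : Set K₁) (S₂ : Set K₂), rk k S₁ + rk k S₂ ≤ rk k (f₁ '' S₁ ∪ f₂ '' S₂)

def ProdStmt : Prop :=
  ∀ (k K₁ K₂ σ ι₁ ι₂ : Type) [Field k] [IsAlgClosed k] [Field K₁] [Field K₂] [Algebra k K₁]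
    [Algebra k K₂] [Finite σ] (w₁ : ι₁ → PP σ K₁) (w₂ : ι₂ → PP σ K₂),
    ∃ (E : Ext k) (u₁ : ι₁ → PP σ E.K) (u₂ : ι₂ → PP σ E.K), Sp k w₁ u₁ ∧ Sp k w₂ u₂ ∧
      rk k (rat w₁) + rk k (rat w₂) ≤ rk k (rat (Sum.elim u₁ u₂)) ∧
      ∀ (L : Type) [Field L] [IsAlgClosed L] [Algebra k L] (p₁ : ι₁ → PP σ L) (p₂ : ι₂ → PP σ L),
        Sp k w₁ p₁ → Sp k w₂ p₂ → Sp k (Sum.elim u₁ u₂) (Sum.elim p₁ p₂)

def PowerStmt : Prop :=
  ∀ (k K σ ι : Type) [Field k] [IsAlgClosed k] [Field K] [Algebra k K] [Finite σ] [Fintype ι]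
    (η : PP σ K), ∃ (E : Ext k) (ξ : ι → PP σ E.K), (∀ i, Sp1 k η (ξ i)) ∧
      (Fintype.card ι : ℕ∞) * rk k (rat1 η) ≤ rk k (rat ξ) ∧
      ∀ (L : Type) [Field L] [IsAlgClosed L] [Algebra k L] (p : ι → PP σ L),
        (∀ i, Sp1 k η (p i)) → Sp k ξ p

def ValStmt : Prop :=
  ∀ (k K L ι : Type) [Field k] [Field K] [Field L] [Algebra k K] [Algebra k L] [Finite ι]
    (z : ι → K) (u : K) (P : Plc K L), P.Over k → (∀ i, z i ∈ P.V) → u ∈ cl k (Set.range z) →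
    u ∉ P.V → ∃ (E : Ext k) (Q : Plc K E.K), Q.Over k ∧ (∀ i, z i ∈ Q.V) ∧ u ∉ Q.V ∧
      ASp k (fun i => Q.fn (z i)) (fun i => P.fn (z i)) ∧
      rk k (Set.range z) ≤ rk k (Set.range fun i => Q.fn (z i)) + 1

def CutsStmt : Prop :=
  ∀ (k K L ι τ : Type) [Field k] [Field K] [Field L] [IsAlgClosed L] [Algebra k K] [Algebra k L]
    [Finite ι] [Fintype τ] (z : ι → K) (p : ι → L) (g : τ → MvPolynomial ι k), ASp k z p →
    (∀ t, aeval p (g t) = 0) → ∃ (E : Ext k) (z' : ι → E.K), ASp k z z' ∧ ASp k z' p ∧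
      (∀ t, aeval z' (g t) = 0) ∧ rk k (Set.range z) ≤ rk k (Set.range z') + Fintype.card τ

def LinStmt : Prop :=
  ∀ (k K ι τ : Type) [Field k] [Field K] [Algebra k K] [Fintype ι] (S : Set K) (A : τ → ι → K)
    (W : Submodule K (ι → K)) (ρ : ℕ), (∀ t i, A t i ∈ cl k S) →
    (∀ v, v ∈ W ↔ ∀ t, ∑ i, A t i * v i = 0) → Module.finrank K W ≤ ρ → ∀ v ∈ W,
      rk k (S ∪ Set.range v) ≤ rk k S + ρ ∧
      ∀ a, v a = 1 → rk k (S ∪ Set.range v) + 1 ≤ rk k S + ρ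

/-! Tangent spaces and transversal zeros -/

def UniqStmt : Prop :=
  ∀ (k K L σ : Type) [Field k] [Field K] [Field L] [Algebra k K] [Algebra k L] [Fintype σ]
    (I : Ideal (MvPolynomial σ k)) (P : Plc K L) (F G : MvPolynomial σ K)
    (F' G' : MvPolynomial σ L) (a b : σ → K) (p : σ → L) (c : σ), P.Over k → Rd P F F' →
    Rd P G G' → (∀ j, a j ∈ P.V ∧ P.fn (a j) = p j) → (∀ j, b j ∈ P.V ∧ P.fn (b j) = p j) →
    OnX I a → OnX I b → a c = 1 → b c = 1 → eval a F = eval b F → eval a G = eval b G →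
    TransV I p F' G' → a = b

def Uniq2Stmt : Prop :=
  ∀ (k K L σ : Type) [Field k] [Field K] [Field L] [Algebra k K] [Algebra k L] [Fintype σ]
    (I : Ideal (MvPolynomial σ k)) (P : Plc K L) (F G : MvPolynomial σ K)
    (F' G' : MvPolynomial σ L) (m n : ℕ) (x x' : PP σ K), Hg I → P.Over k → F.IsHomogeneous m →
    G.IsHomogeneous n → Rd P F F' → Rd P G G' → Zs I F G x → Zs I F G x' → P.red x = P.red x' →
    Trans I (P.red x) F' G' → x = x'

def IsolStmt : Prop :=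
  ∀ (k K L σ : Type) [Field k] [Field K] [IsAlgClosed K] [Field L] [IsAlgClosed L] [Algebra k K]
    [Algebra k L] [Fintype σ] (I : Ideal (MvPolynomial σ k)) (S : Set K) (P : Plc K L)
    (F G : MvPolynomial σ K) (F' G' : MvPolynomial σ L) (m n : ℕ) (x : PP σ K), Hg I →
    P.Over k → F.IsHomogeneous m → G.IsHomogeneous n → (∀ d, coeff d F ∈ cl k S) →
    (∀ d, coeff d G ∈ cl k S) → Rd P F F' → Rd P G G' → Zs I F G x → Trans I (P.red x) F' G' →
    rat1 x ⊆ cl k S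

def TanStmt : Prop :=
  ∀ (k K : Type) [Field k] [IsAlgClosed k] [Field K] [Algebra k K] (r a : ℕ)
    (I : Ideal (MvPolynomial (Fin (r + 3)) k)), IsK3Model I a → ∀ v : Fin (r + 3) → K, v ≠ 0 →
    OnX I v → Module.finrank K (tang I v) ≤ 3

def LocStmt : Prop :=
  ∀ (k : Type) [Field k] [IsAlgClosed k] (r a : ℕ) (I : Ideal (MvPolynomial (Fin (r + 3)) k)),
    IsK3Model I a → ∀ v : Fin (r + 3) → k, v ≠ 0 → OnX I v →
    ∃ F G : MvPolynomial (Fin (r + 3)) k, TransV I v F G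

/-! Hilbert functions -/

def ExactStmt : Prop :=
  ∀ (K σ : Type) [Field K] [Finite σ] (J : Ideal (MvPolynomial σ K)) (f : MvPolynomial σ K)
    (e : ℕ), Hg J → f.IsHomogeneous e → Hg (J ⊔ Ideal.span {f}) ∧
      (∀ j < e, hf (J ⊔ Ideal.span {f}) j = hf J j) ∧
      (∀ j, hf J (j + e) ≤ hf (J ⊔ Ideal.span {f}) (j + e) + hf J j) ∧
      ((∀ g, f * g ∈ J → g ∈ J) ↔ ∀ j, hf (J ⊔ Ideal.span {f}) (j + e) + hf J j ≤ hf J (j + e))

def SemiStmt : Prop :=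
  ∀ (k K L σ τ : Type) [Field k] [Field K] [Field L] [Algebra k K] [Algebra k L] [Finite σ]
    (I : Ideal (MvPolynomial σ k)) (P : Plc K L) (F : τ → MvPolynomial σ K)
    (F' : τ → MvPolynomial σ L) (e : τ → ℕ), Hg I → P.Over k → (∀ t, (F t).IsHomogeneous (e t)) →
    (∀ t, Rd P (F t) (F' t)) → ∀ j, hf (IK K I ⊔ Ideal.span (Set.range F)) j ≤
      hf (IK L I ⊔ Ideal.span (Set.range F')) j

def BasStmt : Prop :=
  ∀ (k σ : Type) [Field k] [IsAlgClosed k] [Finite σ] (I : Ideal (MvPolynomial σ k)) (m : ℕ),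
    Hg I → ∃ (h : ℕ) (β : Fin h → MvPolynomial σ k), Bas I m β

def RegStmt : Prop :=
  ∀ (k : Type) [Field k] (r a : ℕ) (I : Ideal (MvPolynomial (Fin (r + 3)) k)), IsK3Model I a →
    (∀ m : ℕ, (∀ f, X 0 ^ m * f ∈ I → f ∈ I) ∧
      (∀ f, X 1 ^ m * f ∈ I ⊔ Ideal.span {X 0 ^ m} → f ∈ I ⊔ Ideal.span {X 0 ^ m}) ∧
      ∀ f, X 2 * f ∈ I ⊔ Ideal.span {X 0 ^ m} ⊔ Ideal.span {X 1 ^ m} →
        f ∈ I ⊔ Ideal.span {X 0 ^ m} ⊔ Ideal.span {X 1 ^ m}) ∧
    ∀ f : MvPolynomial (Fin 3) k,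
      aeval (![X 0, X 1, X 2] : Fin 3 → MvPolynomial (Fin (r + 3)) k) f ∈ I → f = 0

def NozStmt : Prop :=
  ∀ (k K : Type) [Field k] [Field K] [Algebra k K] (r a : ℕ)
    (I : Ideal (MvPolynomial (Fin (r + 3)) k)), IsK3Model I a → ∀ v : Fin (r + 3) → K, OnX I v →
    v 0 = 0 → v 1 = 0 → v 2 = 0 → v = 0

def DimStmt : Prop :=
  ∀ (k K : Type) [Field k] [IsAlgClosed k] [Field K] [IsAlgClosed K] [Algebra k K] (r a : ℕ)
    (I : Ideal (MvPolynomial (Fin (r + 3)) k)), IsK3Model I a → ∀ x : PP (Fin (r + 3)) K,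
    On I x → rk k (rat1 x) ≤ 2 ∧ (x.rep 0 = 0 → x.rep 1 = 0 → Kp k x)

def GenStmt : Prop :=
  ∀ (k : Type) [Field k] (r a : ℕ) (I : Ideal (MvPolynomial (Fin (r + 3)) k)), IsK3Model I a →
    ∃ (E : Ext k) (η : PP (Fin (r + 3)) E.K), On I η ∧ 2 ≤ rk k (rat1 η) ∧
      (∀ f n, f.IsHomogeneous n → aeval η.rep f = 0 → f ∈ I) ∧
      ∀ (L : Type) [Field L] [IsAlgClosed L] [Algebra k L] (x : PP (Fin (r + 3)) L), On I x →
        Sp1 k η x

def NumStmt : Prop :=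
  ∀ (k K : Type) [Field k] [Field K] [Algebra k K] (r a : ℕ)
    (I : Ideal (MvPolynomial (Fin (r + 3)) k)), IsK3Model I a → ∀ (m : ℕ) (P : Plc K k)
    (F G : MvPolynomial (Fin (r + 3)) K) (F' G' : MvPolynomial (Fin (r + 3)) k), 1 ≤ m →
    P.Over k → F.IsHomogeneous m → G.IsHomogeneous m → Rd P F F' → Rd P G G' →
    F' - X 0 ^ m ∈ I → G' - X 1 ^ m ∈ I →
      (∀ f, X 2 * f ∈ IK K I ⊔ Ideal.span {F, G} → f ∈ IK K I ⊔ Ideal.span {F, G}) ∧
      ∀ j, 2 * m < j → hf (IK K I ⊔ Ideal.span {F, G}) j ≤ 2 * a * m ^ 2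

def RadStmt : Prop :=
  ∀ (k K σ : Type) [Field k] [Field K] [IsAlgClosed K] [Algebra k K] [Fintype σ]
    (I : Ideal (MvPolynomial σ k)) (F G f : MvPolynomial σ K) (m n e : ℕ) (c : σ), Hg I →
    F.IsHomogeneous m → G.IsHomogeneous n → f.IsHomogeneous e →
    (∀ g, X c * g ∈ IK K I ⊔ Ideal.span {F, G} → g ∈ IK K I ⊔ Ideal.span {F, G}) →
    (∀ x, Zs I F G x → Trans I x F G ∧ eval x.rep f = 0) → f ∈ IK K I ⊔ Ideal.span {F, G}

def CardStmt : Prop :=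
  ∀ (K σ : Type) [Field K] [Finite σ] (J : Ideal (MvPolynomial σ K)) (Z : Finset (PP σ K))
    (j : ℕ), (∀ x ∈ Z, ∀ f ∈ J, eval x.rep f = 0) → Z.card ≤ j → Z.card ≤ hf J j

/-! Generic pencils -/

def TrgStmt : Prop :=
  ∀ (k K : Type) [Field k] [IsAlgClosed k] [Field K] [IsAlgClosed K] [Algebra k K] (r a : ℕ)
    (I : Ideal (MvPolynomial (Fin (r + 3)) k)), IsK3Model I a → ∀ (m h : ℕ)
    (β : Fin h → MvPolynomial (Fin (r + 3)) k) (c c' : Fin h → K), 1 ≤ m → Bas I m β →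
    AlgebraicIndependent k (Sum.elim c c') → ∀ x, Zs I (fm β c) (fm β c') x →
      Trans I x (fm β c) (fm β c')

def CiStmt : Prop :=
  ∀ (k K : Type) [Field k] [IsAlgClosed k] [Field K] [IsAlgClosed K] [Algebra k K] (r a : ℕ)
    (I : Ideal (MvPolynomial (Fin (r + 3)) k)), IsK3Model I a → ∀ (m h : ℕ)
    (β : Fin h → MvPolynomial (Fin (r + 3)) k) (c c' : Fin h → K), 1 ≤ m → Bas I m β →
    AlgebraicIndependent k (Sum.elim c c') → ∃ Z : Finset (PP (Fin (r + 3)) K),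
      (∀ x, x ∈ Z ↔ Zs I (fm β c) (fm β c') x) ∧
      (Z.card : ℕ∞) ≤ rk k (rat fun x : Z => (x : PP (Fin (r + 3)) K))

def ClsStmt : Prop :=
  ∀ (k K : Type) [Field k] [IsAlgClosed k] [CharZero k] [Field K] [IsAlgClosed K] [Algebra k K]
    (r a : ℕ) (I : Ideal (MvPolynomial (Fin (r + 3)) k)), IsK3Model I a → ∀ (m h : ℕ)
    (β : Fin h → MvPolynomial (Fin (r + 3)) k) (c c' : Fin h → K)
    (Z : Finset (PP (Fin (r + 3)) K)), 1 ≤ m → Bas I m β →
    AlgebraicIndependent k (Sum.elim c c') → (∀ x, x ∈ Z ↔ Zs I (fm β c) (fm β c') x) →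
      ∃ α : Multiset (PP (Fin (r + 3)) k), OnM I α ∧ RatP I Z.val (α.map (bc K))

def LiftStmt : Prop :=
  ∀ (k L : Type) [Field k] [IsAlgClosed k] [Field L] [IsAlgClosed L] [Algebra k L] (r a : ℕ)
    (I : Ideal (MvPolynomial (Fin (r + 3)) k)), IsK3Model I a → ∀ (m h : ℕ)
    (β : Fin h → MvPolynomial (Fin (r + 3)) k) (b b' : Fin h → L)
    (O : Finset (PP (Fin (r + 3)) L)), (∀ l, (β l).IsHomogeneous m) →
    (∀ x ∈ O, Zs I (fm β b) (fm β b') x ∧ Trans I x (fm β b) (fm β b')) →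
      ∃ (E : Ext k) (c c' : Fin h → E.K) (P : Plc E.K L), P.Over k ∧
        AlgebraicIndependent k (Sum.elim c c') ∧ (∀ l, c l ∈ P.V ∧ P.fn (c l) = b l) ∧
        (∀ l, c' l ∈ P.V ∧ P.fn (c' l) = b' l) ∧
        ∀ x ∈ O, ∃ x', Zs I (fm β c) (fm β c') x' ∧ P.red x' = x

/-! Orbits are cut out by pencils -/

def HomStmt : Prop :=
  ∀ (k σ : Type) [Field k] [Fintype σ] (f : MvPolynomial σ k) (e : ℕ) (a : σ),
    f.totalDegree ≤ e → ∃ g : MvPolynomial σ k, g.IsHomogeneous e ∧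
      ∀ (K : Type) [Field K] [Algebra k K] (z : σ → K), z a = 1 → aeval z g = aeval z f ∧
        ∀ δ : σ → K, δ a = 0 →
          dv (map (algebraMap k K) g) z δ = dv (map (algebraMap k K) f) z δ

def SphStmt : Prop :=
  ∀ (k K L σ : Type) [Field k] [Field K] [Field L] [IsAlgClosed L] [Algebra k K] [Algebra k L]
    [Fintype σ] (x : PP σ K) (y : PP σ L), (∀ (f : MvPolynomial σ k) (n : ℕ),
      f.IsHomogeneous n → aeval x.rep f = 0 → aeval y.rep f = 0) → Sp1 k x y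

def O1aStmt : Prop :=
  ∀ (k L : Type) [Field k] [IsAlgClosed k] [Field L] [IsAlgClosed L] [Algebra k L] (r a : ℕ)
    (I : Ideal (MvPolynomial (Fin (r + 3)) k)), IsK3Model I a → ∀ x : PP (Fin (r + 3)) L,
    On I x → rk k (rat1 x) = 1 → ∃ (F : MvPolynomial (Fin (r + 3)) k) (e : ℕ),
      F.IsHomogeneous e ∧ F ∉ I ∧ aeval x.rep F = 0 ∧
      ∀ δ ∈ tang I x.rep, dv (map (algebraMap k L) F) x.rep δ = 0 → TC k x δ

def O1bStmt : Prop :=
  ∀ (k L : Type) [Field k] [IsAlgClosed k] [Field L] [IsAlgClosed L] [Algebra k L] (r a : ℕ)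
    (I : Ideal (MvPolynomial (Fin (r + 3)) k)), IsK3Model I a → ∀ (x : PP (Fin (r + 3)) L)
    (F : MvPolynomial (Fin (r + 3)) k) (e : ℕ), On I x → rk k (rat1 x) = 1 → F.IsHomogeneous e →
    F ∉ I → aeval x.rep F = 0 → ∃ (G G' : MvPolynomial (Fin (r + 3)) k) (g g' : ℕ),
      G.IsHomogeneous g ∧ G'.IsHomogeneous g' ∧ 0 < g' ∧ aeval x.rep G ≠ 0 ∧ aeval x.rep G' = 0 ∧
      ∀ x' : PP (Fin (r + 3)) L, On I x' → aeval x'.rep F = 0 → Kp k x' ∨
        (Sp1 k x x' ∧ Sp1 k x' x) ∨ (aeval x'.rep G = 0 ∧ aeval x'.rep G' ≠ 0)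

def O1cStmt : Prop :=
  ∀ (k σ : Type) [Field k] [IsAlgClosed k] [CharZero k] [Fintype σ] (x : PP σ (LL k)),
    ¬ Kp k x → ∃ (N e : ℕ) (μ : Fin N → MvPolynomial σ k),
      (∀ i, (μ i).IsHomogeneous e) ∧ eval x.rep (pu μ (tt k)) = 0 ∧
      (∀ δ, TC k x δ → dv (pu μ (tt k)) x.rep δ = 0 → δ ∈ LL k ∙ x.rep) ∧
      ∀ x' : PP σ (LL k), Sp1 k x x' → Sp1 k x' x → eval x'.rep (pu μ (tt k)) = 0 →
        ∃ τ : LL k ≃ₐ[RatFunc k] LL k, pmap (τ : LL k →+* LL k) x = x'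

def OrbStmt : Prop :=
  ∀ (k : Type) [Field k] [IsAlgClosed k] [CharZero k] (r a : ℕ)
    (I : Ideal (MvPolynomial (Fin (r + 3)) k)), IsK3Model I a →
    ∀ (x : PP (Fin (r + 3)) (LL k)) (O : Finset (PP (Fin (r + 3)) (LL k))), On I x →
    ¬ Kp k x → Orb x O →
      ∃ (m : ℕ) (F G : MvPolynomial (Fin (r + 3)) (LL k)), 1 ≤ m ∧ F.IsHomogeneous m ∧
        G.IsHomogeneous m ∧ (∀ y ∈ O, Zs I F G y ∧ Trans I y F G) ∧
        ∀ y, Zs I F G y → y ∈ O ∨ Kp k y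

def RepoStmt : Prop :=
  ∀ (k : Type) [Field k] [IsAlgClosed k] [CharZero k] (r a : ℕ)
    (I : Ideal (MvPolynomial (Fin (r + 3)) k)), IsK3Model I a →
    ∀ (x : PP (Fin (r + 3)) (LL k)) (O : Finset (PP (Fin (r + 3)) (LL k)))
      (P Q : Plc (LL k) k), On I x → Orb x O → P.Over k → Q.Over k →
      PR I (O.val.map P.red) (O.val.map Q.red)

def PrtStmt : Prop :=
  ∀ (k : Type) [Field k] [IsAlgClosed k] [CharZero k] (r a : ℕ)
    (I : Ideal (MvPolynomial (Fin (r + 3)) k)), IsK3Model I a →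
    ∀ A B : Multiset (PP (Fin (r + 3)) k), RatP I A B → PR I A B

/-! Chow forms and rational equivalence -/

def ChuStmt : Prop :=
  ∀ (K σ : Type) [Field K] [Fintype σ] (A B : Multiset (PP σ K)) (c c' : K), c ≠ 0 →
    C c * chow A = C c' * chow B → A = B

def TransferStmt : Prop :=
  ∀ (K L σ : Type) [Field K] [Field L] [Fintype σ] (P : Plc K L) (A : Multiset (PP σ K)) (c : K)
    (F : MvPolynomial σ L), Rd P (C c * chow A) F → F ≠ 0 →
    ∃ c' : L, c' ≠ 0 ∧ F = C c' * chow (A.map P.red)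

def EndsStmt : Prop :=
  ∀ (k K σ : Type) [Field k] [Field K] [Algebra k K] [Fintype σ] (I : Ideal (MvPolynomial σ k))
    (A B : Multiset (PP σ K)), Step I A B → ∃ M : Multiset (PP σ (LL K)), OnM I M ∧ Gal M ∧
      (∀ P, Zr P (tt K) → A = M.map P.red) ∧ ∀ P, Zr P (tt K)⁻¹ → B = M.map P.red

def FamStmt : Prop :=
  ∀ (k K σ : Type) [Field k] [Field K] [CharZero K] [Algebra k K] [Fintype σ]
    (I : Ideal (MvPolynomial σ k)) (M : Multiset (PP σ (LL K))) (P Q : Plc (LL K) K), Hg I →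
    OnM I M → Gal M → Zr P (tt K) → Zr Q (tt K)⁻¹ → Step I (M.map P.red) (M.map Q.red)

def RatpStmt : Prop :=
  ∀ (k K σ : Type) [Field k] [Field K] [Algebra k K] [Fintype σ] (I : Ideal (MvPolynomial σ k)),
    Hg I → (∀ A : Multiset (PP σ K), RatP I A A) ∧
      (∀ A B : Multiset (PP σ K), Step I A B → RatP I A B) ∧
      (∀ A B : Multiset (PP σ K), RatP I A B → RatP I B A) ∧
      (∀ A B D : Multiset (PP σ K), RatP I A B → RatP I B D → RatP I A D) ∧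
      (∀ A B D : Multiset (PP σ K), OnM I D → RatP I A B → RatP I (A + D) (B + D)) ∧
      ∀ A B D : Multiset (PP σ K), OnM I D → RatP I (A + D) (B + D) → RatP I A B

def SpecStmt : Prop :=
  ∀ (k K L σ : Type) [Field k] [Field K] [IsAlgClosed K] [Field L] [IsAlgClosed L] [Algebra k K]
    [Algebra k L] [Fintype σ] (I : Ideal (MvPolynomial σ k)) (P : Plc K L)
    (A B : Multiset (PP σ K)), Hg I → P.Over k → RatP I A B → RatP I (A.map P.red) (B.map P.red)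

def OrbdecStmt : Prop :=
  ∀ (K σ : Type) [Field K] (Q : Multiset (PP σ (LL K)) → Prop), Q 0 →
    (∀ A B, Q A → Q B → Q (A + B)) → ∀ M, Gal M → (∀ x ∈ M, ∀ O, Orb x O → Q O.val) → Q M

def GdStmt : Prop :=
  ∀ (k σ : Type) [Field k] [Fintype σ] (I : Ideal (MvPolynomial σ k)), Hg I →
    (∀ (K L ι : Type) [Field K] [IsAlgClosed K] [Field L] [IsAlgClosed L] [Algebra k K]
      [Algebra k L] [Fintype ι] (w : ι → PP σ K) (p : ι → PP σ L) (ν : Multiset ι)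
      (α : Multiset (PP σ k)), Gd I w ν α → Sp k w p → Gd I p ν α) ∧
    (∀ (K ι κ : Type) [Field K] [Algebra k K] [Fintype ι] [Fintype κ] (w : ι → PP σ K)
      (u : κ → PP σ K) (ν : Multiset ι) (α γ : Multiset (PP σ k)), Gd I w ν α → Gd I u 0 γ →
      Gd I (Sum.elim w u) (ν.map Sum.inl) (α + γ)) ∧
    (∀ (K ι κ : Type) [Field K] [Algebra k K] [Fintype ι] [Fintype κ] (w : ι → PP σ K)
      (u : κ → PP σ K) (ν : Multiset ι) (α γ : Multiset (PP σ k)),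
      Gd I (Sum.elim w u) (ν.map Sum.inl) (α + γ) → Gd I u 0 γ → Gd I w ν α) ∧
    (∀ (K ι : Type) [Field K] [Algebra k K] [Fintype ι] (w w' : ι → PP σ K) (ν : Multiset ι)
      (α : Multiset (PP σ k)) (i : ι), i ∉ ν → (∀ j, j ≠ i → w' j = w j) → Gd I w ν α →
      On I (w' i) → RatP I {w i} {w' i} → Gd I w' ν α) ∧
    ∀ (K ι : Type) [Field K] [Algebra k K] [Fintype ι] (w w' : ι → PP σ K) (ν : Multiset ι)
      (α : Multiset (PP σ k)) (i : ι), i ∉ ν → (∀ j, j ≠ i → w' j = w j) → Gd I w ν α →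
      Gd I w' ν α → RatP I {w i} {w' i}

/-! The link with divisors of functions -/

def CntStmt : Prop :=
  ∀ (K F L : Type) [Field K] [IsAlgClosed K] [CharZero K] [Field F] [Algebra K F] [Field L]
    [IsAlgClosed L] [Algebra K L] (h : F) (t : L) (P : Plc L K), IsCurveFieldOver K F →
    Transcendental K h → Transcendental K t → P.Over K → t ∈ P.V → P.fn t = 0 →
      {f : F →ₐ[K] L | f h = t}.Finite ∧
      (∀ f : F →ₐ[K] L, f h = t → IsPlaceOver K (P.V.comap (f : F →+* L))) ∧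
      ∀ V, IsPlaceOver K V →
        {f : F →ₐ[K] L | f h = t ∧ P.V.comap (f : F →+* L) = V}.ncard = zeroOrd V h

def CenStmt : Prop :=
  ∀ (K F σ : Type) [Field K] [IsAlgClosed K] [Field F] [Algebra K F] [Finite σ] (ξ : σ → F)
    (V : ValuationSubring F), IsCurveFieldOver K F → IsPlaceOver K V → ξ ≠ 0 →
    ∃ x : PP σ K, IsCentre ξ V x

def DivStmt : Prop :=
  ∀ (K F σ : Type) [Field K] [IsAlgClosed K] [CharZero K] [Field F] [Algebra K F] [Fintype σ]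
    (ξ : PP σ F) (h : F) (c : ValuationSubring F → PP σ K) (T : Finset (F →ₐ[K] LL K))
    (P Q : Plc (LL K) K), IsCurveFieldOver K F → Transcendental K h →
    (∀ V, IsPlaceOver K V → IsCentre ξ.rep V (c V)) → (∀ f, f ∈ T ↔ f h = tt K) → Zr P (tt K) →
    Zr Q (tt K)⁻¹ →
      ∑ᶠ V ∈ {V : ValuationSubring F | IsPlaceOver K V}, Finsupp.single (c V) (ordAt V h) =
        cyc ((T.val.map fun f => pmap (f : F →+* LL K) ξ).map P.red) -
          cyc ((T.val.map fun f => pmap (f : F →+* LL K) ξ).map Q.red)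

def L1Stmt : Prop :=
  ∀ (k K σ : Type) [Field k] [Field K] [IsAlgClosed K] [CharZero K] [Algebra k K] [Fintype σ]
    (I : Ideal (MvPolynomial σ k)) (A B : Multiset (PP σ K)), Hg I → OnM I A → OnM I B →
    RatEq I K (cyc A) (cyc B) → RatP I A B

def L2Stmt : Prop :=
  ∀ (k K σ : Type) [Field k] [Field K] [IsAlgClosed K] [CharZero K] [Algebra k K] [Fintype σ]
    (I : Ideal (MvPolynomial σ k)) (A B : Multiset (PP σ K)), Hg I → RatP I A B →
    RatEq I K (cyc A) (cyc B)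

def BrStmt : Prop :=
  ∀ (k K σ ε : Type) [Field k] [Field K] [Algebra k K] [Finite σ] (ξ : ε → PP σ K),
    (∀ x : ε → PP σ k, Sp k ξ x → InLocus k ξ x) ∧
    ∀ (L : Type) [Field L] [IsAlgClosed L] [Algebra k L] (p : ε → PP σ L), InLocus k ξ p →
      Sp k ξ p

/-! The induction -/

def PushStmt : Prop :=
  ∀ (k K σ : Type) [Field k] [Field K] [IsAlgClosed K] [Algebra k K] [Finite σ] (S : Set K)
    (x : PP σ K) (s : MvPolynomial σ k) (δ : ℕ), 0 < δ → s.IsHomogeneous δ → ¬ rat1 x ⊆ cl k S →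
    ∃ P : Plc K K, P.Over k ∧ (∀ t ∈ cl k S, t ∈ P.V ∧ P.fn t = t) ∧ aeval (P.red x).rep s = 0

def RedStmt : Prop :=
  ∀ (k K σ ι : Type) [Field k] [IsAlgClosed k] [Field K] [IsAlgClosed K] [Algebra k K] [Fintype σ]
    [Fintype ι] (I : Ideal (MvPolynomial σ k)) (s : MvPolynomial σ k) (δ : ℕ) (y : PP σ k)
    (w : ι → PP σ K) (ν : Multiset ι) (α : Multiset (PP σ k)) (p p' : ι → PP σ k) (i : ι),
    Hg I → CCD I s δ y → Gd I w ν α → i ∉ ν → Sp k w p → aeval (p i).rep s = 0 → p' i = y →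
    (∀ j, j ≠ i → p' j = p j) → Esc I y ∨ ∃ (E : Ext k) (w' : ι → PP σ E.K), Gd I w' ν α ∧
      Sp k w' p' ∧ w' i = bc E.K y ∧
      (∀ (j : ι) (q : PP σ k), j ≠ i → w j = bc K q → w' j = bc E.K q) ∧
      rk k (rat w) ≤ rk k (rat w') + 1

def IntStmt : Prop :=
  ∀ (k K₁ K₂ ε ι : Type) [Field k] [IsAlgClosed k] [Field K₁] [Field K₂] [Algebra k K₁]
    [Algebra k K₂] [Finite ε] [Finite ι] (r a : ℕ) (I : Ideal (MvPolynomial (Fin (r + 3)) k)),
    IsK3Model I a → ∀ (w₁ : ε ⊕ ι → PP (Fin (r + 3)) K₁) (w₂ : ι → PP (Fin (r + 3)) K₂)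
    (x : ε → PP (Fin (r + 3)) k) (p : ι → PP (Fin (r + 3)) k) (T : Finset ι),
    (∀ i, On I (w₁ i)) → (∀ i, On I (w₂ i)) → Sp k w₁ (Sum.elim x p) → Sp k w₂ p →
    (∀ i ∉ T, w₁ (Sum.inr i) = bc K₁ (p i) ∧ w₂ i = bc K₂ (p i)) →
      ∃ (E : Ext k) (ξ : ε → PP (Fin (r + 3)) E.K) (ω : ι → PP (Fin (r + 3)) E.K),
        Sp k w₁ (Sum.elim ξ ω) ∧ Sp k w₂ ω ∧ Sp k (Sum.elim ξ ω) (Sum.elim x p) ∧
        rk k (rat w₁) + rk k (rat w₂) ≤ rk k (rat (Sum.elim ξ ω)) + 2 * T.card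

def IndStmt : Prop :=
  ∀ (k ε ι : Type) [Field k] [IsAlgClosed k] [Fintype ε] [Fintype ι] (r a : ℕ)
    (I : Ideal (MvPolynomial (Fin (r + 3)) k)), IsK3Model I a →
    ∀ (s : MvPolynomial (Fin (r + 3)) k) (δ : ℕ) (y : PP (Fin (r + 3)) k) (ν : Multiset ε)
    (α γ : Multiset (PP (Fin (r + 3)) k)) (x : ε → PP (Fin (r + 3)) k) (m : ℕ), CCD I s δ y →
    ∀ (T : Finset ι) (E₁ E₂ : Ext k) (w₁ : ε ⊕ ι → PP (Fin (r + 3)) E₁.K)
      (w₂ : ι → PP (Fin (r + 3)) E₂.K) (p : ι → PP (Fin (r + 3)) k),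
      Gd I w₁ (ν.map Sum.inl) (γ + α) → Gd I w₂ 0 α → Sp k w₁ (Sum.elim x p) → Sp k w₂ p →
      (∀ i ∉ T, w₁ (Sum.inr i) = bc E₁.K y ∧ w₂ i = bc E₂.K y) →
      (m : ℕ∞) + 2 * T.card ≤ rk k (rat w₁) + rk k (rat w₂) → Esc I y ∨ Concl I ν γ x m

def EscStmt : Prop :=
  ∀ (k ε : Type) [Field k] [IsAlgClosed k] [Fintype ε] (r a : ℕ)
    (I : Ideal (MvPolynomial (Fin (r + 3)) k)), IsK3Model I a → ∀ (y : PP (Fin (r + 3)) k)
    (ν : Multiset ε) (γ : Multiset (PP (Fin (r + 3)) k)) (x : ε → PP (Fin (r + 3)) k) (m : ℕ),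
    On I y → Esc I y → OnM I γ → Multiset.card ν + Multiset.card γ = Fintype.card ε →
    (∀ i, On I (x i)) → m ≤ Fintype.card ε → Concl I ν γ x m

def StartStmt : Prop :=
  ∀ (k : Type) [Field k] [IsAlgClosed k] (r a : ℕ) (I : Ideal (MvPolynomial (Fin (r + 3)) k)),
    IsK3Model I a → ∀ (s : MvPolynomial (Fin (r + 3)) k) (δ : ℕ) (y : PP (Fin (r + 3)) k)
    (d m : ℕ) (x : Fin (d + m) → PP (Fin (r + 3)) k) (z : Fin d → PP (Fin (r + 3)) k),
    CCD I s δ y → (∀ i, On I (x i)) → (∀ i, On I (z i)) →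
    PR I (ms x) (ms z + Multiset.replicate m y) →
      Concl I ((Finset.univ : Finset (Fin d)).val.map Sum.inr +
        (Finset.univ : Finset (Fin d)).val.map Sum.inr) (Multiset.replicate m y) (Sum.elim x z)
        (2 * d + m)

/-- The theorem. -/
def MainStmt : Prop :=
  ∀ (k : Type) [Field k] [IsAlgClosed k] [CharZero k] (r a : ℕ)
    (I : Ideal (MvPolynomial (Fin (r + 3)) k)), IsK3Model I a →
    ∀ (s : MvPolynomial (Fin (r + 3)) k) (δ : ℕ), 0 < δ → s.IsHomogeneous δ →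
    ∀ y : PP (Fin (r + 3)) k, OnX I y.rep → aeval y.rep s = 0 →
    (∀ (K : Type) [Field K] [IsAlgClosed K] [Algebra k K] (p : PP (Fin (r + 3)) K),
      OnX I p.rep → aeval p.rep s = 0 →
        RatEq I K (Finsupp.single p 1) (Finsupp.single (pmap (algebraMap k K) y) 1)) →
    ∀ (d m : ℕ) (x : Fin (d + m) → PP (Fin (r + 3)) k) (z : Fin d → PP (Fin (r + 3)) k),
    (∀ i, OnX I (x i).rep) → (∀ i, OnX I (z i).rep) →
    RatEq I k (∑ i, Finsupp.single (x i) 1)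
      (∑ i, Finsupp.single (z i) 1 + Finsupp.single y (m : ℤ)) →
    (OnLocus (Sum.elim x z) (2 * d + m) fun L _ _ p => (∀ i, OnX I (p i).rep) ∧
      RatEq I L (∑ i, Finsupp.single (p (Sum.inl i)) 1) (∑ i, Finsupp.single (p (Sum.inr i)) 1 +
        Finsupp.single (pmap (algebraMap k L) y) (m : ℤ))) ∧
    OnLocus x m fun L _ _ p => (∀ i, OnX I (p i).rep) ∧ RatEq I L (∑ i, Finsupp.single (p i) 1)
      (∑ i, Finsupp.single (pmap (algebraMap k L) (z i)) 1 +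
        Finsupp.single (pmap (algebraMap k L) y) (m : ℤ))

end Pool.Agent.MP_9207e0_ag.CC
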