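import Pool.Agent.MP_9207e0_ag.cc.Gd
import Pool.Agent.MP_9207e0_ag.cc.Defs2

/-! PROJECT CCC: equivalence after multiplication by `N`. -/

noncomputable section

namespace Pool.Agent.MP_9207e0_ag.CC.T

open MvPolynomial
open scoped Classical

section Defs

variable {k K σ ι : Type} [Field k] [Field K] [Algebra k K] [Fintype σ]

/-- Rational equivalence after multiplication by `N`. -/
def RatN (N : ℕ) (I : Ideal (MvPolynomial σ k)) (A B : Multiset (PP σ K)) : Prop :=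
  RatP I (N • A) (N • B)

/-- On the family with generic point `w`, the sum of all points minus the sum of the points with
index in `ν` has the constant class `α`. -/
structure Gd [Fintype ι] (N : ℕ) (I : Ideal (MvPolynomial σ k)) (w : ι → PP σ K)
    (ν : Multiset ι) (α : Multiset (PP σ k)) : Prop where
  on : ∀ i, On I (w i)
  onc : OnM I α
  cls : RatN N I (ms w) (ν.map w + α.map (bc K))

/-- A point of rank two is equivalent to `y`. -/
def Esc (N : ℕ) (I : Ideal (MvPolynomial σ k)) (y : PP σ k) : Prop :=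
  ∃ (E : Ext k) (η : PP σ E.K), On I η ∧ 2 ≤ rk k (rat1 η) ∧ RatN N I {η} {bc E.K y}

/-- The conclusion: `x` lies on a family of class `γ` and dimension at least `m`. -/
def Concl [Fintype ι] (N : ℕ) (I : Ideal (MvPolynomial σ k)) (ν : Multiset ι)
    (γ : Multiset (PP σ k)) (x : ι → PP σ k) (m : ℕ) : Prop :=
  ∃ (E : Ext k) (ξ : ι → PP σ E.K), Gd N I ξ ν γ ∧ Sp k ξ x ∧ (m : ℕ∞) ≤ rk k (rat ξ)

/-- All points of the hypersurface section `s = 0` are equivalent to `y`. -/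
structure CCD (N : ℕ) (I : Ideal (MvPolynomial σ k)) (s : MvPolynomial σ k) (δ : ℕ)
    (y : PP σ k) : Prop where
  pos : 0 < δ
  homog : s.IsHomogeneous δ
  on : On I y
  zero : aeval y.rep s = 0
  cls : ∀ (K : Type) [Field K] [IsAlgClosed K] [Algebra k K] (x : PP σ K), On I x →
    aeval x.rep s = 0 → RatN N I {x} {bc K y}

theorem onM_nsmul {I : Ideal (MvPolynomial σ k)} {A : Multiset (PP σ K)} (h : OnM I A) (N : ℕ) :
    OnM I (N • A) := fun x hx => h x (Multiset.mem_of_mem_nsmul hx)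

theorem cyc_nsmul (N : ℕ) (A : Multiset (PP σ K)) : cyc (N • A) = N • cyc A := by
  induction N with
  | zero => rw [zero_nsmul, zero_nsmul, cyc_zero]
  | succ n ih => rw [succ_nsmul, succ_nsmul, cyc_add, ih]

end Defs

def RatpStmt (N : ℕ) : Prop :=
  ∀ (k K σ : Type) [Field k] [Field K] [Algebra k K] [Fintype σ] (I : Ideal (MvPolynomial σ k)),
    Hg I → (∀ A : Multiset (PP σ K), RatN N I A A) ∧
      (∀ A B : Multiset (PP σ K), OnM I A → OnM I B → RatP I A B → RatN N I A B) ∧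
      (∀ A B : Multiset (PP σ K), RatN N I A B → RatN N I B A) ∧
      (∀ A B D : Multiset (PP σ K), RatN N I A B → RatN N I B D → RatN N I A D) ∧
      (∀ A B D : Multiset (PP σ K), OnM I D → RatN N I A B → RatN N I (A + D) (B + D)) ∧
      ∀ A B D : Multiset (PP σ K), OnM I D → RatN N I (A + D) (B + D) → RatN N I A B

def SpecStmt (N : ℕ) : Prop :=
  ∀ (k K L σ : Type) [Field k] [Field K] [IsAlgClosed K] [Field L] [IsAlgClosed L] [Algebra k K]
    [Algebra k L] [Fintype σ] (I : Ideal (MvPolynomial σ k)) (P : Plc K L)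
    (A B : Multiset (PP σ K)), Hg I → P.Over k → RatN N I A B → RatN N I (A.map P.red) (B.map P.red)

def GdStmt (N : ℕ) : Prop :=
  ∀ (k σ : Type) [Field k] [Fintype σ] (I : Ideal (MvPolynomial σ k)), Hg I →
    (∀ (K L ι : Type) [Field K] [IsAlgClosed K] [Field L] [IsAlgClosed L] [Algebra k K]
      [Algebra k L] [Fintype ι] (w : ι → PP σ K) (p : ι → PP σ L) (ν : Multiset ι)
      (α : Multiset (PP σ k)), Gd N I w ν α → Sp k w p → Gd N I p ν α) ∧
    (∀ (K ι κ : Type) [Field K] [Algebra k K] [Fintype ι] [Fintype κ] (w : ι → PP σ K)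
      (u : κ → PP σ K) (ν : Multiset ι) (α γ : Multiset (PP σ k)), Gd N I w ν α → Gd N I u 0 γ →
      Gd N I (Sum.elim w u) (ν.map Sum.inl) (α + γ)) ∧
    (∀ (K ι κ : Type) [Field K] [Algebra k K] [Fintype ι] [Fintype κ] (w : ι → PP σ K)
      (u : κ → PP σ K) (ν : Multiset ι) (α γ : Multiset (PP σ k)),
      Gd N I (Sum.elim w u) (ν.map Sum.inl) (α + γ) → Gd N I u 0 γ → Gd N I w ν α) ∧
    (∀ (K ι : Type) [Field K] [Algebra k K] [Fintype ι] (w w' : ι → PP σ K) (ν : Multiset ι)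
      (α : Multiset (PP σ k)) (i : ι), i ∉ ν → (∀ j, j ≠ i → w' j = w j) → Gd N I w ν α →
      On I (w' i) → RatN N I {w i} {w' i} → Gd N I w' ν α) ∧
    ∀ (K ι : Type) [Field K] [Algebra k K] [Fintype ι] (w w' : ι → PP σ K) (ν : Multiset ι)
      (α : Multiset (PP σ k)) (i : ι), i ∉ ν → (∀ j, j ≠ i → w' j = w j) → Gd N I w ν α →
      Gd N I w' ν α → RatN N I {w i} {w' i}

def RedStmt (N : ℕ) : Prop :=
  ∀ (k K σ ι : Type) [Field k] [IsAlgClosed k] [Field K] [IsAlgClosed K] [Algebra k K] [Fintype σ]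
    [Fintype ι] (I : Ideal (MvPolynomial σ k)) (s : MvPolynomial σ k) (δ : ℕ) (y : PP σ k)
    (w : ι → PP σ K) (ν : Multiset ι) (α : Multiset (PP σ k)) (p p' : ι → PP σ k) (i : ι),
    Hg I → CCD N I s δ y → Gd N I w ν α → i ∉ ν → Sp k w p → aeval (p i).rep s = 0 → p' i = y →
    (∀ j, j ≠ i → p' j = p j) → Esc N I y ∨ ∃ (E : Ext k) (w' : ι → PP σ E.K), Gd N I w' ν α ∧
      Sp k w' p' ∧ w' i = bc E.K y ∧
      (∀ (j : ι) (q : PP σ k), j ≠ i → w j = bc K q → w' j = bc E.K q) ∧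
      rk k (rat w) ≤ rk k (rat w') + 1

def IndStmt (N : ℕ) : Prop :=
  ∀ (k ε ι : Type) [Field k] [IsAlgClosed k] [Fintype ε] [Fintype ι] (r a : ℕ)
    (I : Ideal (MvPolynomial (Fin (r + 3)) k)), IsK3Model I a →
    ∀ (s : MvPolynomial (Fin (r + 3)) k) (δ : ℕ) (y : PP (Fin (r + 3)) k) (ν : Multiset ε)
    (α γ : Multiset (PP (Fin (r + 3)) k)) (x : ε → PP (Fin (r + 3)) k) (m : ℕ), CCD N I s δ y →
    ∀ (T : Finset ι) (E₁ E₂ : Ext k) (w₁ : ε ⊕ ι → PP (Fin (r + 3)) E₁.K)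
      (w₂ : ι → PP (Fin (r + 3)) E₂.K) (p : ι → PP (Fin (r + 3)) k),
      Gd N I w₁ (ν.map Sum.inl) (γ + α) → Gd N I w₂ 0 α → Sp k w₁ (Sum.elim x p) → Sp k w₂ p →
      (∀ i ∉ T, w₁ (Sum.inr i) = bc E₁.K y ∧ w₂ i = bc E₂.K y) →
      (m : ℕ∞) + 2 * T.card ≤ rk k (rat w₁) + rk k (rat w₂) → Esc N I y ∨ Concl N I ν γ x m

def EscStmt (N : ℕ) : Prop :=
  ∀ (k ε : Type) [Field k] [IsAlgClosed k] [Fintype ε] (r a : ℕ)
    (I : Ideal (MvPolynomial (Fin (r + 3)) k)), IsK3Model I a → ∀ (y : PP (Fin (r + 3)) k)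
    (ν : Multiset ε) (γ : Multiset (PP (Fin (r + 3)) k)) (x : ε → PP (Fin (r + 3)) k) (m : ℕ),
    On I y → Esc N I y → OnM I γ → Multiset.card ν + Multiset.card γ = Fintype.card ε →
    (∀ i, On I (x i)) → m ≤ Fintype.card ε → Concl N I ν γ x m

theorem ratpS (N : ℕ) (h : CC.RatpStmt) : RatpStmt N := by
  intro k K σ _ _ _ _ I hI
  obtain ⟨r1, -, r3, r4, r5, r6⟩ := h k K σ I hI
  refine ⟨fun A => r1 _, fun A B hA hB h => ?_, fun A B => r3 _ _, fun A B D => r4 _ _ _,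
    fun A B D hD h => ?_, fun A B D hD h => r6 _ _ _ (onM_nsmul hD N) ?_⟩
  · unfold RatN
    induction N with
    | zero => exact r1 _
    | succ n ih =>
      rw [succ_nsmul, succ_nsmul]
      refine r4 _ _ _ (r5 _ _ _ hA ih) ?_
      rw [add_comm _ A, add_comm _ B]
      exact r5 _ _ _ (onM_nsmul hB n) h
  · unfold RatN
    rw [nsmul_add, nsmul_add]
    exact r5 _ _ _ (onM_nsmul hD N) h
  · rw [← nsmul_add, ← nsmul_add]
    exact h

theorem specS (N : ℕ) (h : CC.SpecStmt) : SpecStmt N := by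
  intro k K L σ _ _ _ _ _ _ _ _ I P A B hI hP h'
  have := h k K L σ I P _ _ hI hP h'
  rwa [Multiset.map_nsmul, Multiset.map_nsmul] at this

theorem gdS {N : ℕ} (hR : RatpStmt N) (hS : SpecStmt N) : GdStmt N := by
  intro k σ _ _ I hI
  refine ⟨?_, ?_, ?_, ?_, ?_⟩
  · intro K L ι _ _ _ _ _ _ _ w p ν α h hs
    refine ⟨fun i => hs.on hI (h.on i), h.onc, ?_⟩
    obtain ⟨P, hP, e⟩ := hs
    have c := hS k K L σ I P _ _ hI hP h.cls
    rw [ms_map, Multiset.map_add, map_bc_red hP, Multiset.map_map] at c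
    have e' : (fun i => P.red (w i)) = p := funext e
    rw [← e']
    exact c
  · intro K ι κ _ _ _ _ w u ν α γ h h'
    obtain ⟨-, -, -, tr, ad, -⟩ := hR k K σ I hI
    refine ⟨fun i => by cases i with
      | inl i => exact h.on i
      | inr i => exact h'.on i, onM_add.2 ⟨h.onc, h'.onc⟩, ?_⟩
    have c1 := ad _ _ (ms u) (gd_onM h'.on _) h.cls
    have c2 := ad _ _ (ν.map w + α.map (bc K)) (onM_add.2 ⟨gd_onM h.on _, h.onc.bc hI⟩) h'.cls
    rw [Multiset.map_zero, zero_add, add_comm (ms u), add_comm (γ.map _), add_assoc _ _ (γ.map _)]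
      at c2
    rw [ms_elim, Multiset.map_map, Multiset.map_add]
    exact tr _ _ _ c1 c2
  · intro K ι κ _ _ _ _ w u ν α γ h h'
    obtain ⟨-, -, sy, tr, ad, ca⟩ := hR k K σ I hI
    have o : ∀ i, On I (w i) := fun i => h.on (Sum.inl i)
    refine ⟨o, (onM_add.1 h.onc).1, ca _ _ (γ.map (bc K)) (h'.onc.bc hI) ?_⟩
    have c1 := h.cls
    rw [ms_elim, Multiset.map_map, Multiset.map_add, ← add_assoc] at c1
    have c2 := ad _ _ (ms w) (gd_onM o _) (sy _ _ h'.cls)
    rw [Multiset.map_zero, zero_add, add_comm _ (ms w), add_comm (ms u)] at c2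
    exact tr _ _ _ c2 c1
  · intro K ι _ _ _ w w' ν α i hi e h o c
    obtain ⟨-, -, sy, tr, ad, -⟩ := hR k K σ I hI
    refine ⟨fun j => ?_, h.onc, ?_⟩
    · by_cases hj : j = i
      · exact hj ▸ o
      · exact e j hj ▸ h.on j
    · have c1 := h.cls
      rw [ms_erase w i] at c1
      rw [gd_ms e, gd_nu hi e]
      exact tr _ _ _ (ad _ _ _ (gd_onM h.on _) (sy _ _ c)) c1
  · intro K ι _ _ _ w w' ν α i hi e h h'
    obtain ⟨-, -, sy, tr, -, ca⟩ := hR k K σ I hI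
    have c1 := h.cls
    have c2 := h'.cls
    rw [ms_erase w i] at c1
    rw [gd_ms e, gd_nu hi e] at c2
    exact ca _ _ _ (gd_onM h.on _) (tr _ _ _ c1 (sy _ _ c2))

end Pool.Agent.MP_9207e0_ag.CC.T
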