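import Pool.Agent.MP_9207e0_ag.cc.TInd

/-! PROJECT CCC: the start of the induction. -/

noncomputable section

namespace Pool.Agent.MP_9207e0_ag.CC.T

open MvPolynomial
open scoped Classical

/-- A point of rank at least one of the section `s = 0` that specialises to `y`. -/
theorem start_pt {N : ℕ} (hG : GenStmt) (hC : CutsStmt) {k : Type} [Field k] [IsAlgClosed k] {r a : ℕ}
    {I : Ideal (MvPolynomial (Fin (r + 3)) k)} (hK : IsK3Model I a)
    {s : MvPolynomial (Fin (r + 3)) k} {δ : ℕ} {y : PP (Fin (r + 3)) k} (h : CCD N I s δ y) :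
    ∃ (E : Ext k) (ρ : PP (Fin (r + 3)) E.K), On I ρ ∧ aeval ρ.rep s = 0 ∧ 1 ≤ rk k (rat1 ρ) ∧
      Sp1 k ρ y := by
  have hH : Hg I := hK.homog
  obtain ⟨E₀, η, h₀, h2, -, gen⟩ := hG k r a I hK
  obtain ⟨c, hc⟩ := exists_chart fun _ : Unit => y
  obtain ⟨h3, h4⟩ := (gen k y h.on).sp.asp hc
  have key : ∀ {K : Type} [Field K] [Algebra k K] (w : Unit → PP (Fin (r + 3)) K),
      (w ()).rep (c ()) ≠ 0 →
      (aeval (nv w c) (rename (Prod.mk ()) s) = 0 ↔ aeval (w ()).rep s = 0) := by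
    intro K _ _ w hw
    obtain ⟨h0, e⟩ := mk_div (w ()) hw
    rw [aeval_rename, ← e, aeval_mk_eq_zero h.homog]
    rfl
  obtain ⟨E, z, s1, s2, s3, s4⟩ := hC k E₀.K k _ Unit _ _ (fun _ => rename (Prod.mk ()) s) h4
    fun _ => (key _ (hc ())).2 h.zero
  obtain ⟨w, hw, rfl⟩ := exists_of_nv (z := z) (a := c) fun i => by
    have := s1 (X (i, c i) - 1) (by simp [nv, div_self (h3 i)])
    simpa [sub_eq_zero] using this
  refine ⟨E, w (), (Sp.of_asp h3 hw s1).on hH (i := ()) h₀, (key w (hw ())).1 (s3 ()), ?_,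
    (Sp.of_asp hw hc s2).sp1 ()⟩
  rw [rk_nv h3, rk_nv hw, rat_const, show w = fun _ => w () from rfl, rat_const,
    Fintype.card_unique, Nat.cast_one] at s4
  exact (ENat.add_le_add_iff_right (k := 1) (by decide)).1 (le_trans (by norm_num) (h2.trans s4))

theorem startS {N : ℕ} (hG : GenStmt) (hC : CutsStmt) (hP : ProdStmt) (hW : PowerStmt)
    (hD : GdStmt N) (hR : RatpStmt N) (hI : IndStmt N) (hE : EscStmt N) {k : Type} [Field k]
    [IsAlgClosed k] {r a : ℕ} {I : Ideal (MvPolynomial (Fin (r + 3)) k)} (hK : IsK3Model I a)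
    {s : MvPolynomial (Fin (r + 3)) k} {δ : ℕ} {y : PP (Fin (r + 3)) k} {d n m : ℕ}
    {x : Fin (d + n + m) → PP (Fin (r + 3)) k} {z : Fin d → PP (Fin (r + 3)) k}
    {c : Fin n → PP (Fin (r + 3)) k} (h : CCD N I s δ y) (hx : ∀ i, On I (x i))
    (hz : ∀ i, On I (z i)) (hc : ∀ i, On I (c i))
    (hPR : PR I (ms x) (ms z + ms c + Multiset.replicate m y)) :
    Concl N I ((Finset.univ : Finset (Fin d)).val.map Sum.inr +
      (Finset.univ : Finset (Fin d)).val.map Sum.inr) (ms c + Multiset.replicate m y)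
      (Sum.elim x z) (2 * d + m) := by
  obtain ⟨ι, _, E, w, α, p, q, Gw₀, hw, Sp₁, Sq, hms⟩ := hPR
  have hH : Hg I := hK.homog
  have om : ∀ {K κ : Type} [Field K] [Algebra k K] [Fintype κ] (u : κ → PP (Fin (r + 3)) K),
      (∀ i, On I (u i)) → OnM I (ms u) := fun u hu => gd_onM hu _
  have Gw : Gd N I w 0 α := ⟨Gw₀.on, Gw₀.onc, (hR k E.K _ I hH).2.1 _ _ (om w Gw₀.on)
    (onM_add.2 ⟨gd_onM Gw₀.on _, Gw₀.onc.bc hH⟩) Gw₀.cls⟩
  obtain ⟨g1, g2, -⟩ := hD k _ I hH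
  have Gc : Gd N I (fun i => bc E.K (c i)) 0 (ms c) := ⟨fun i => (hc i).bc hH, om c hc, by
    rw [Multiset.map_zero, zero_add, ms_map]
    exact (hR k E.K _ I hH).1 _⟩
  have Gv := g2 _ _ _ _ _ _ _ _ Gc Gw
  rw [Multiset.map_zero] at Gv
  have Sv : Sp k (Sum.elim (fun i => bc E.K (c i)) w) (Sum.elim c q) := by
    obtain ⟨P, hP, e⟩ := Sq
    refine ⟨P, hP, ?_⟩
    rintro (i | i)
    exacts [(Plc.red_bc hP _).trans (bc_self _), e i]
  have hv : (Fintype.card ι : ℕ∞) ≤ rk k (rat (Sum.elim (fun i => bc E.K (c i)) w)) :=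
    hw.trans (rk_mono (by rw [rat_elim]; exact Set.subset_union_right))
  obtain ⟨E₀, η, h₀, h2, -, gen⟩ := hG k r a I hK
  obtain ⟨E₁, ζ, a1, a2, a3⟩ := hW k E₀.K _ (Fin d) η
  obtain ⟨E₂, ρ, b0, b1, b2, b3⟩ := start_pt hG hC hK h
  obtain ⟨E₃, θ, c1, c2, c3⟩ := hW k E₂.K _ (Fin m) ρ
  obtain ⟨E₄, u₁, u₂, d1, d2, d3, d4⟩ := hP k E₁.K E₃.K _ _ _ ζ θ
  obtain ⟨F, U₁, U₂, e1, e2, e3, e4⟩ := hP k E₄.K E.K _ _ _ (Sum.elim u₁ u₂)
    (Sum.elim (fun i => bc E.K (c i)) w)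
  have S := e4 k _ _ (d4 k z (fun _ => y) (a3 k z fun i => gen k _ (hz i)) (c3 k _ fun _ => b3)) Sv
  obtain ⟨e, he⟩ := exists_equiv_of_ms (w := Sum.elim x p)
    (u := Sum.elim (Sum.elim z fun _ : Fin m => y) (Sum.elim c q)) (by
      rw [ms_elim, ms_elim, ms_elim, ms_elim, ms_const, Fintype.card_fin, hms]
      abel)
  let τ : (Fin (d + n + m) ⊕ Fin d) ⊕ ι → (Fin d ⊕ Fin m) ⊕ (Fin n ⊕ ι) :=
    Sum.elim (Sum.elim (e ∘ Sum.inl) (Sum.inl ∘ Sum.inl)) (e ∘ Sum.inr)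
  have o1 : ∀ i, On I (U₁ (Sum.inl i)) := fun i =>
    sp1_on hH (e1.sp1 (Sum.inl i)) (sp1_on hH (d1.sp1 i) (sp1_on hH (a1 i) h₀))
  have s2 : ∀ i, Sp1 k ρ (U₁ (Sum.inr i)) := fun i =>
    ((c1 i).trans (d2.sp1 i)).trans (e1.sp1 (Sum.inr i))
  have G₂ := g1 _ _ _ _ _ _ _ Gv e2
  have oW : ∀ u, On I (Sum.elim U₁ U₂ u) := by
    rintro ((i | i) | i)
    exacts [o1 i, sp1_on hH (s2 i) b0, G₂.on i]
  have oy : OnM I (Multiset.replicate m y) := fun t ht => Multiset.eq_of_mem_replicate ht ▸ h.on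
  have oγ : OnM I (ms c + Multiset.replicate m y) := onM_add.2 ⟨om c hc, oy⟩
  have oA : OnM I (ms (U₁ ∘ Sum.inl)) := om _ o1
  have G₁ : Gd N I (Sum.elim U₁ U₂ ∘ τ) (((Finset.univ : Finset (Fin d)).val.map Sum.inr +
      (Finset.univ : Finset (Fin d)).val.map Sum.inr).map Sum.inl)
      (ms c + Multiset.replicate m y + α) := by
    refine ⟨fun i => oW _, onM_add.2 ⟨oγ, Gw.onc⟩, ?_⟩
    have m1 : ms (Sum.elim U₁ U₂ ∘ τ) =
        ms (U₁ ∘ Sum.inr) + ms U₂ + (ms (U₁ ∘ Sum.inl) + ms (U₁ ∘ Sum.inl)) := by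
      have h1 := ms_comp (Sum.elim U₁ U₂) e
      rw [← Sum.elim_comp_inl_inr (Sum.elim U₁ U₂ ∘ e), ms_elim, ms_elim,
        ← Sum.elim_comp_inl_inr U₁, ms_elim, Sum.elim_comp_inl_inr U₁] at h1
      have h2 : Sum.elim U₁ U₂ ∘ τ = Sum.elim (Sum.elim ((Sum.elim U₁ U₂ ∘ e) ∘ Sum.inl)
          (U₁ ∘ Sum.inl)) ((Sum.elim U₁ U₂ ∘ e) ∘ Sum.inr) := by
        funext u
        rcases u with (i | i) | i <;> rfl
      rw [h2, ms_elim, ms_elim, add_right_comm, h1]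
      abel
    have m2 : ((((Finset.univ : Finset (Fin d)).val.map Sum.inr +
        (Finset.univ : Finset (Fin d)).val.map Sum.inr).map Sum.inl).map (Sum.elim U₁ U₂ ∘ τ)) =
        ms (U₁ ∘ Sum.inl) + ms (U₁ ∘ Sum.inl) := by
      simp only [Multiset.map_add, Multiset.map_map]
      rfl
    rw [m1, m2, add_comm (ms (U₁ ∘ Sum.inl) + ms (U₁ ∘ Sum.inl)), add_comm (ms c), add_assoc _ (ms c),
      Multiset.map_add, Multiset.map_replicate]
    refine (hR k F.K _ I hH).2.2.2.2.1 _ _ _ (onM_add.2 ⟨oA, oA⟩) (ratp_add hR hH (om _ G₂.on)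
      (fun t ht => Multiset.eq_of_mem_replicate ht ▸ h.on.bc hH) ?_ ?_)
    · have := ratp_replicate hR hH (h.on.bc hH) (ms (U₁ ∘ Sum.inr)) fun t ht => by
        obtain ⟨i, rfl⟩ := mem_ms.1 ht
        exact ⟨sp1_on hH (s2 i) b0, h.cls _ _ (sp1_on hH (s2 i) b0) ((s2 i).aeval h.homog b1)⟩
      simpa [ms] using this
    · have := G₂.cls
      rwa [Multiset.map_zero, zero_add] at this
  have S₁ : Sp k (Sum.elim U₁ U₂ ∘ τ) (Sum.elim (Sum.elim x z) p) := by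
    have h1 : Sum.elim (Sum.elim z fun _ : Fin m => y) (Sum.elim c q) ∘ τ =
        Sum.elim (Sum.elim x z) p := by
      funext u
      rcases u with (i | i) | i
      exacts [congrFun he (Sum.inl i), rfl, congrFun he (Sum.inr i)]
    exact h1 ▸ S.comp τ
  have hr : rat (Sum.elim U₁ U₂) ⊆ rat (Sum.elim U₁ U₂ ∘ τ) := by
    rintro t ⟨u, hu⟩
    obtain ⟨v, rfl⟩ := e.surjective u
    rcases v with i | i
    exacts [⟨Sum.inl (Sum.inl i), hu⟩, ⟨Sum.inr i, hu⟩]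
  obtain h1 | h1 := hI k _ ι r a I hK s δ y _ α _ _ (2 * d + m) h Finset.univ F E _ w p G₁ Gw S₁ Sp₁
    (fun i hi => absurd (Finset.mem_univ i) hi) (by
      rw [Fintype.card_fin] at a2 c2
      have f1 : (d : ℕ∞) * 2 + m * 1 + Fintype.card ι ≤ rk k (rat (Sum.elim U₁ U₂ ∘ τ)) :=
        (add_le_add ((add_le_add ((mul_le_mul_right h2 _).trans a2)
          ((mul_le_mul_right b2 _).trans c2)).trans d3) hv).trans (e3.trans (rk_mono hr))
      refine le_of_eq_of_le ?_ (add_le_add f1 hw)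
      rw [Finset.card_univ]
      push_cast
      ring)
  · refine hE k _ r a I hK y _ _ _ _ h.on h1 oγ (by simp [ms]; ring) ?_ (by simp; omega)
    rintro (i | i)
    exacts [hx i, hz i]
  · exact h1

end Pool.Agent.MP_9207e0_ag.CC.T
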